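import Mathlib

set_option autoImplicit false

/-! Connectivity in terms of separations, and Mader's theorem on cycles of critical edges. -/

namespace Pool.Agent.Work.MP_60abc6_co

open Finset

variable {V : Type*} [Fintype V] [DecidableEq V]

/-- `k`-connectivity in terms of separations -/
def KC (k : ℕ) (G : SimpleGraph V) : Prop :=
  k < Fintype.card V ∧ ∀ A B : Finset V, A.Nonempty → B.Nonempty → Disjoint A B →
    (∀ a ∈ A, ∀ b ∈ B, ¬ G.Adj a b) → k ≤ (univ \ (A ∪ B)).card

lemma KC.mono {k l : ℕ} {G : SimpleGraph V} (h : KC k G) (hlk : l ≤ k) : KC l G :=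
  ⟨lt_of_le_of_lt hlk h.1, fun A B hA hB hAB hs => hlk.trans (h.2 A B hA hB hAB hs)⟩

lemma KC.mono_graph {k : ℕ} {G H : SimpleGraph V} (h : KC k G) (hGH : G ≤ H) : KC k H :=
  ⟨h.1, fun A B hA hB hAB hs => h.2 A B hA hB hAB fun a ha b hb hab => hs a ha b hb (hGH hab)⟩

/-- the separation of a critical edge `x y` -/
structure MSep (H : SimpleGraph V) (l : ℕ) (x y : V) (A T B : Finset V) : Prop where
  hAT : Disjoint A T
  hAB : Disjoint A B
  hTB : Disjoint T B
  cover : A ∪ T ∪ B = univ
  card : T.card + 1 = l
  hx : x ∈ A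
  hy : y ∈ B
  only : ∀ a ∈ A, ∀ b ∈ B, H.Adj a b → a = x ∧ b = y

/-- a critical edge has a separation -/
lemma exists_MSep {H : SimpleGraph V} {l : ℕ} (hH : KC l H) {x y : V}
    (hxy : H.Adj x y) (hcrit : ¬ KC l (H.deleteEdges {s(x, y)})) :
    ∃ A T B : Finset V, MSep H l x y A T B := by
  unfold KC at hcrit
  rw [not_and] at hcrit
  have h1 := hcrit hH.1
  push Not at h1
  obtain ⟨A0, B0, hA0, hB0, hAB0, hs0, hc0⟩ := h1
  -- a version with x in A
  have key : ∃ A B : Finset V, Disjoint A B ∧ x ∈ A ∧ y ∈ B ∧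
      (∀ a ∈ A, ∀ b ∈ B, H.Adj a b → a = x ∧ b = y) ∧ (univ \ (A ∪ B)).card < l := by
    have h2 : ∃ a ∈ A0, ∃ b ∈ B0, H.Adj a b := by
      by_contra hcon
      push Not at hcon
      exact absurd (hH.2 A0 B0 hA0 hB0 hAB0 hcon) (not_le.mpr hc0)
    have h3 : ∀ a ∈ A0, ∀ b ∈ B0, H.Adj a b → (a = x ∧ b = y) ∨ (a = y ∧ b = x) := by
      intro a ha b hb hab
      have h4 := hs0 a ha b hb
      rw [SimpleGraph.deleteEdges_adj, not_and, not_not] at h4
      have h5 := h4 hab
      rw [Set.mem_singleton_iff, Sym2.eq_iff] at h5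
      exact h5
    obtain ⟨a, ha, b, hb, hab⟩ := h2
    rcases h3 a ha b hb hab with ⟨rfl, rfl⟩ | ⟨rfl, rfl⟩
    · refine ⟨A0, B0, hAB0, ha, hb, fun a' ha' b' hb' h' => ?_, hc0⟩
      rcases h3 a' ha' b' hb' h' with h | ⟨h6, h7⟩
      · exact h
      · exfalso
        rw [h6] at ha'
        exact (disjoint_left.mp hAB0 ha') hb
    · refine ⟨B0, A0, hAB0.symm, hb, ha, fun a' ha' b' hb' h' => ?_, ?_⟩
      · rcases h3 b' hb' a' ha' h'.symm with ⟨h6, h7⟩ | ⟨h6, h7⟩
        · exfalso
          rw [h6] at hb'
          exact (disjoint_left.mp hAB0 hb') hb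
        · exact ⟨h7, h6⟩
      · rwa [union_comm]
  obtain ⟨A, B, hAB, hx, hy, hon, hc⟩ := key
  refine ⟨A, univ \ (A ∪ B), B, ⟨?_, hAB, ?_, ?_, ?_, hx, hy, hon⟩⟩
  · rw [disjoint_left]
    intro a ha ha'
    rw [mem_sdiff, mem_union] at ha'
    exact ha'.2 (Or.inl ha)
  · rw [disjoint_left]
    intro a ha' ha
    rw [mem_sdiff, mem_union] at ha'
    exact ha'.2 (Or.inr ha)
  · ext v
    simp only [mem_union, mem_sdiff, mem_univ, true_and, iff_true]
    tauto
  · by_contra hne
    have hlt : (univ \ (A ∪ B)).card + 2 ≤ l := by omega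
    -- A = {x}
    have hA1 : A.erase x = ∅ := by
      by_contra hne'
      have hA' : (A.erase x).Nonempty := nonempty_iff_ne_empty.mpr hne'
      have h1 := hH.2 (A.erase x) B hA' ⟨y, hy⟩
        (disjoint_of_subset_left (erase_subset _ _) hAB) (fun a ha b hb hab => by
          rw [mem_erase] at ha
          exact ha.1 (hon a ha.2 b hb hab).1)
      have h2 : univ \ (A.erase x ∪ B) ⊆ insert x (univ \ (A ∪ B)) := by
        intro v hv
        rw [mem_sdiff, mem_union, mem_erase] at hv
        rw [mem_insert, mem_sdiff, mem_union]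
        by_cases hvx : v = x
        · exact Or.inl hvx
        · refine Or.inr ⟨mem_univ _, fun h => hv.2 ?_⟩
          rcases h with h | h
          · exact Or.inl ⟨hvx, h⟩
          · exact Or.inr h
      have h3 := (card_le_card h2).trans (card_insert_le _ _)
      omega
    have hB1 : B.erase y = ∅ := by
      by_contra hne'
      have hB' : (B.erase y).Nonempty := nonempty_iff_ne_empty.mpr hne'
      have h1 := hH.2 A (B.erase y) ⟨x, hx⟩ hB'
        (disjoint_of_subset_right (erase_subset _ _) hAB) (fun a ha b hb hab => by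
          rw [mem_erase] at hb
          exact hb.1 (hon a ha b hb.2 hab).2)
      have h2 : univ \ (A ∪ B.erase y) ⊆ insert y (univ \ (A ∪ B)) := by
        intro v hv
        rw [mem_sdiff, mem_union, mem_erase] at hv
        rw [mem_insert, mem_sdiff, mem_union]
        by_cases hvy : v = y
        · exact Or.inl hvy
        · refine Or.inr ⟨mem_univ _, fun h => hv.2 ?_⟩
          rcases h with h | h
          · exact Or.inl h
          · exact Or.inr ⟨hvy, h⟩
      have h3 := (card_le_card h2).trans (card_insert_le _ _)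
      omega
    have hcard : Fintype.card V ≤ (univ \ (A ∪ B)).card + 2 := by
      have h1 : (univ : Finset V) ⊆ insert x (insert y (univ \ (A ∪ B))) := by
        intro v _
        rw [mem_insert, mem_insert, mem_sdiff, mem_union]
        by_cases hvx : v = x
        · exact Or.inl hvx
        · by_cases hvy : v = y
          · exact Or.inr (Or.inl hvy)
          · refine Or.inr (Or.inr ⟨mem_univ _, fun h => ?_⟩)
            rcases h with h | h
            · have : v ∈ A.erase x := mem_erase.mpr ⟨hvx, h⟩
              rw [hA1] at this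
              exact absurd this (notMem_empty _)
            · have : v ∈ B.erase y := mem_erase.mpr ⟨hvy, h⟩
              rw [hB1] at this
              exact absurd this (notMem_empty _)
      have h2 := (card_le_card h1).trans (card_insert_le _ _)
      have h3 := card_insert_le y (univ \ (A ∪ B))
      rw [card_univ] at h2
      omega
    have := hH.1
    omega

/-- splitting the cardinality of a set along a partition -/
lemma card_split {A T B : Finset V} (hAT : Disjoint A T) (hAB : Disjoint A B) (hTB : Disjoint T B)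
    (cover : A ∪ T ∪ B = univ) (X : Finset V) :
    X.card = (X ∩ A).card + (X ∩ T).card + (X ∩ B).card := by
  have h1 : X = (X ∩ A) ∪ (X ∩ T) ∪ (X ∩ B) := by
    rw [← inter_union_distrib_left, ← inter_union_distrib_left, cover, inter_univ]
  conv_lhs => rw [h1]
  rw [card_union_of_disjoint, card_union_of_disjoint]
  · exact disjoint_of_subset_left inter_subset_right (disjoint_of_subset_right inter_subset_right hAT)
  · rw [disjoint_union_left]
    exact ⟨disjoint_of_subset_left inter_subset_right
        (disjoint_of_subset_right inter_subset_right hAB),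
      disjoint_of_subset_left inter_subset_right
        (disjoint_of_subset_right inter_subset_right hTB)⟩

/-- **Mader's theorem** (core form): a nonempty set of vertices in which every vertex has at least
two neighbours along critical edges contains a vertex of degree at most `l`. -/
lemma mader_core {H : SimpleGraph V} [DecidableRel H.Adj] {l : ℕ} (hH : KC l H)
    (R : V → V → Prop) (hRH : ∀ x y, R x y → H.Adj x y)
    (hsep : ∀ x y, R x y → ∃ A T B : Finset V, MSep H l x y A T B)
    (C : Finset V) (hC : C.Nonempty)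
    (h2 : ∀ v ∈ C, ∃ a ∈ C, ∃ b ∈ C, a ≠ b ∧ R v a ∧ R v b)
    (hdeg : ∀ v ∈ C, l < (univ.filter (H.Adj v)).card) : False := by
  classical
  -- minimal side
  have hex : ∃ n : ℕ, ∃ x ∈ C, ∃ y ∈ C, R x y ∧ ∃ A T B : Finset V, MSep H l x y A T B ∧
      B.card = n := by
    obtain ⟨v, hv⟩ := hC
    obtain ⟨a, ha, -, -, -, hva, -⟩ := h2 v hv
    obtain ⟨A, T, B, hS⟩ := hsep v a hva
    exact ⟨_, v, hv, a, ha, hva, A, T, B, hS, rfl⟩
  obtain ⟨x, hxC, y, hyC, hxy, A, T, B, hS, hBn⟩ := Nat.find_spec hex
  have hmin : ∀ x' ∈ C, ∀ y' ∈ C, R x' y' → ∀ A' T' B' : Finset V, MSep H l x' y' A' T' B' →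
      B.card ≤ B'.card := by
    intro x' hx' y' hy' hR A' T' B' hS'
    rw [hBn]
    exact Nat.find_min' hex ⟨x', hx', y', hy', hR, A', T', B', hS', rfl⟩
  -- the next edge
  obtain ⟨z, hzC, hzx, hyz⟩ : ∃ z ∈ C, z ≠ x ∧ R y z := by
    obtain ⟨a, ha, b, hb, hab, hya, hyb⟩ := h2 y hyC
    by_cases hax : a = x
    · exact ⟨b, hb, fun h => hab (by rw [hax, h]), hyb⟩
    · exact ⟨a, ha, hax, hya⟩
  obtain ⟨A', T', B', hS'⟩ := hsep y z hyz
  have hBB' := hmin y hyC z hzC hyz A' T' B' hS'
  have hAxy := hRH x y hxy
  have hAyz := hRH y z hyz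
  have memc : ∀ v, v ∈ A ∨ v ∈ T ∨ v ∈ B := by
    intro v
    have : v ∈ A ∪ T ∪ B := by rw [hS.cover]; exact mem_univ _
    rw [mem_union, mem_union] at this
    tauto
  have memc' : ∀ v, v ∈ A' ∨ v ∈ T' ∨ v ∈ B' := by
    intro v
    have : v ∈ A' ∪ T' ∪ B' := by rw [hS'.cover]; exact mem_univ _
    rw [mem_union, mem_union] at this
    tauto
  have dAT : ∀ v, v ∈ A → v ∉ T := fun v h => disjoint_left.mp hS.hAT h
  have dAB : ∀ v, v ∈ A → v ∉ B := fun v h => disjoint_left.mp hS.hAB h
  have dTB : ∀ v, v ∈ T → v ∉ B := fun v h => disjoint_left.mp hS.hTB h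
  have dAT' : ∀ v, v ∈ A' → v ∉ T' := fun v h => disjoint_left.mp hS'.hAT h
  have dAB' : ∀ v, v ∈ A' → v ∉ B' := fun v h => disjoint_left.mp hS'.hAB h
  have dTB' : ∀ v, v ∈ T' → v ∉ B' := fun v h => disjoint_left.mp hS'.hTB h
  have hxB' : x ∉ B' := fun h => hzx ((hS'.only y hS'.hx x h hAxy.symm).2).symm
  have hzA : z ∉ A := fun h => hzx ((hS.only z h y hS.hy hAyz.symm).1)
  set U : Finset V := (T ∩ A') ∪ (T ∩ T') ∪ (B ∩ T') with hU
  have cT := card_split hS'.hAT hS'.hAB hS'.hTB hS'.cover T
  have cB := card_split hS'.hAT hS'.hAB hS'.hTB hS'.cover B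
  have cT' := card_split hS.hAT hS.hAB hS.hTB hS.cover T'
  have cB' := card_split hS.hAT hS.hAB hS.hTB hS.cover B'
  have hUle : U.card ≤ (T ∩ A').card + (T ∩ T').card + (B ∩ T').card := by
    rw [hU]
    have h1 := card_union_le ((T ∩ A') ∪ (T ∩ T')) (B ∩ T')
    have h2 := card_union_le (T ∩ A') (T ∩ T')
    omega
  have hyBA : y ∈ B ∩ A' := mem_inter.mpr ⟨hS.hy, hS'.hx⟩
  have hBA1 : 1 ≤ (B ∩ A').card := card_pos.mpr ⟨y, hyBA⟩
  have hU2 : U.card + 2 ≤ l := by
    have t1 := hS.card
    have t2 := hS'.card
    have e1 : (T' ∩ A).card = (A ∩ T').card := by rw [inter_comm]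
    have e2 : (T' ∩ T).card = (T ∩ T').card := by rw [inter_comm]
    have e3 : (T' ∩ B).card = (B ∩ T').card := by rw [inter_comm]
    have e4 : (B' ∩ A).card = (A ∩ B').card := by rw [inter_comm]
    have e5 : (B' ∩ T).card = (T ∩ B').card := by rw [inter_comm]
    have e6 : (B' ∩ B).card = (B ∩ B').card := by rw [inter_comm]
    rcases (A ∩ B').eq_empty_or_nonempty with hemp | hne
    · rw [hemp, card_empty] at e4
      omega
    · set Q : Finset V := (A ∩ T') ∪ (T ∩ T') ∪ (T ∩ B') with hQ
      have hQle : Q.card ≤ (A ∩ T').card + (T ∩ T').card + (T ∩ B').card := by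
        rw [hQ]
        have h1 := card_union_le ((A ∩ T') ∪ (T ∩ T')) (T ∩ B')
        have h2 := card_union_le (A ∩ T') (T ∩ T')
        omega
      have hlQ : l ≤ Q.card := by
        have h3 := hH.2 (A ∩ B') (univ \ ((A ∩ B') ∪ Q)) hne ⟨y, ?_⟩ ?_ ?_
        · refine h3.trans (card_le_card fun v hv => ?_)
          simp only [mem_sdiff, mem_union, mem_univ, true_and, not_or, not_and, not_not] at hv
          exact hv.2 hv.1
        · simp only [hQ, mem_sdiff, mem_union, mem_univ, true_and, not_or, mem_inter, not_and]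
          refine ⟨fun h => absurd hS.hy (dAB y h), ⟨fun h => absurd hS.hy (dAB y h),
            fun h => absurd hS.hy (dTB y h)⟩, fun h => absurd hS.hy (dTB y h)⟩
        · rw [disjoint_left]
          intro v hv hv'
          rw [mem_sdiff, mem_union] at hv'
          exact hv'.2 (Or.inl hv)
        · intro a ha v hv hav
          rw [mem_inter] at ha
          simp only [hQ, mem_sdiff, mem_union, mem_univ, true_and, not_or, mem_inter, not_and] at hv
          obtain ⟨v1, ⟨v2, v3⟩, v4⟩ := hv
          have hvB : v ∉ B := by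
            intro h
            have := (hS.only a ha.1 v h hav).1
            rw [this] at ha
            exact hxB' ha.2
          have hvA' : v ∉ A' := by
            intro h
            have := (hS'.only v h a ha.2 hav.symm).2
            rw [this] at ha
            exact hzA ha.1
          rcases memc v with h | h | h
          · rcases memc' v with h' | h' | h'
            · exact hvA' h'
            · exact v2 h h'
            · exact v1 h h'
          · rcases memc' v with h' | h' | h'
            · exact hvA' h'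
            · exact v3 h h'
            · exact v4 h h'
          · exact hvB h
      omega
  -- the neighbours of the corner B ∩ A'
  have hnb : ∀ w ∈ B ∩ A', ∀ v, H.Adj w v → v ∈ U ∨ v ∈ B ∩ A' ∨ (w = y ∧ (v = x ∨ v = z)) := by
    intro w hw v hwv
    rw [mem_inter] at hw
    rcases memc v with h | h | h
    · have := hS.only v h w hw.1 hwv.symm
      exact Or.inr (Or.inr ⟨this.2, Or.inl this.1⟩)
    · rcases memc' v with h' | h' | h'
      · left
        rw [hU, mem_union, mem_union, mem_inter, mem_inter, mem_inter]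
        exact Or.inl (Or.inl ⟨h, h'⟩)
      · left
        rw [hU, mem_union, mem_union, mem_inter, mem_inter, mem_inter]
        exact Or.inl (Or.inr ⟨h, h'⟩)
      · have := hS'.only w hw.2 v h' hwv
        exact Or.inr (Or.inr ⟨this.1, Or.inr this.2⟩)
    · rcases memc' v with h' | h' | h'
      · exact Or.inr (Or.inl (mem_inter.mpr ⟨h, h'⟩))
      · left
        rw [hU, mem_union, mem_union, mem_inter, mem_inter, mem_inter]
        exact Or.inr ⟨h, h'⟩
      · have := hS'.only w hw.2 v h' hwv
        exact Or.inr (Or.inr ⟨this.1, Or.inr this.2⟩)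
  have hBA : (B ∩ A').erase y = ∅ := by
    by_contra hne
    have h3 := hH.2 ((B ∩ A').erase y) (univ \ ((B ∩ A') ∪ U)) (nonempty_iff_ne_empty.mpr hne)
      ⟨x, ?_⟩ ?_ ?_
    · have h4 : univ \ ((B ∩ A').erase y ∪ univ \ ((B ∩ A') ∪ U)) ⊆ insert y U := by
        intro v hv
        simp only [mem_sdiff, mem_union, mem_univ, true_and, not_or, not_and, not_not,
          mem_erase] at hv
        rw [mem_insert]
        by_cases hvy : v = y
        · exact Or.inl hvy
        · right
          exact hv.2 (hv.1 hvy)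
      have h5 := (card_le_card h4).trans (card_insert_le _ _)
      omega
    · simp only [hU, mem_sdiff, mem_union, mem_univ, true_and, not_or, mem_inter, not_and]
      have hxA := hS.hx
      exact ⟨fun h => absurd h (dAB x hxA), ⟨fun h => absurd h (dAT x hxA),
        fun h => absurd h (dAT x hxA)⟩, fun h => absurd h (dAB x hxA)⟩
    · rw [disjoint_left]
      intro v hv hv'
      rw [mem_sdiff, mem_union] at hv'
      exact hv'.2 (Or.inl (mem_of_mem_erase hv))
    · intro w hw v hv hwv
      rw [mem_erase] at hw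
      rw [mem_sdiff, mem_union, not_or] at hv
      rcases hnb w hw.2 v hwv with h | h | h
      · exact hv.2.2 h
      · exact hv.2.1 h
      · exact hw.1 h.1
  have hdegy : (univ.filter (H.Adj y)).card ≤ l := by
    have h4 : univ.filter (H.Adj y) ⊆ insert x (insert z U) := by
      intro v hv
      rw [mem_filter] at hv
      rw [mem_insert, mem_insert]
      rcases hnb y hyBA v hv.2 with h | h | h
      · exact Or.inr (Or.inr h)
      · exfalso
        by_cases hvy : v = y
        · rw [hvy] at hv
          exact H.loopless.irrefl y hv.2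
        · have : v ∈ (B ∩ A').erase y := mem_erase.mpr ⟨hvy, h⟩
          rw [hBA] at this
          exact absurd this (notMem_empty _)
      · rcases h.2 with h' | h'
        · exact Or.inl h'
        · exact Or.inr (Or.inl h')
    have h5 := (card_le_card h4).trans (card_insert_le _ _)
    have h6 := card_insert_le z U
    omega
  exact absurd (hdeg y hyC) (not_lt.mpr hdegy)

end Pool.Agent.Work.MP_60abc6_co
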