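import Mathlib

set_option autoImplicit false

/-! Tutte's theorem in terms of finsets. -/

namespace Pool.Agent.Work.MP_60abc6_co

open Finset

lemma tutte_finset {W : Type*} [Fintype W] [DecidableEq W] (G : SimpleGraph W)
    (heven : Even (Fintype.card W))
    (h : ∀ (X : Finset W) (F : Finset (Finset W)),
      (∀ K ∈ F, Disjoint K X ∧ Odd K.card ∧ ∀ p ∈ K, ∀ q, G.Adj p q → q ∈ K ∨ q ∈ X) →
      (∀ K ∈ F, ∀ K' ∈ F, K ≠ K' → Disjoint K K') → F.card ≤ X.card + 1) :
    ∃ M : G.Subgraph, M.IsPerfectMatching := by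
  classical
  rw [SimpleGraph.tutte]
  intro u hu
  unfold SimpleGraph.IsTutteViolator at hu
  set H := ((⊤ : G.Subgraph).deleteVerts u).coe with hH
  set X : Finset W := u.toFinset with hX
  have hXcard : X.card = u.ncard := (Set.ncard_eq_toFinset_card' u).symm
  -- the components as finsets
  let f : H.ConnectedComponent → Finset W := fun c => (Subtype.val '' c.supp).toFinset
  have hmemf : ∀ c : H.ConnectedComponent, ∀ w : W, w ∈ f c ↔
      ∃ hw : w ∈ ((⊤ : G.Subgraph).deleteVerts u).verts, (⟨w, hw⟩ : _) ∈ c.supp := by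
    intro c w
    simp only [f, Set.mem_toFinset, Set.mem_image]
    constructor
    · rintro ⟨⟨w', hw'⟩, h1, rfl⟩
      exact ⟨hw', h1⟩
    · rintro ⟨hw, h1⟩
      exact ⟨⟨w, hw⟩, h1, rfl⟩
  have hfcard : ∀ c : H.ConnectedComponent, (f c).card = c.supp.ncard := by
    intro c
    simp only [f]
    rw [← Set.ncard_eq_toFinset_card', Set.ncard_image_of_injective _ Subtype.val_injective]
  have hfinj : Function.Injective f := by
    intro c c' hcc'
    obtain ⟨w, hw⟩ := c.nonempty_supp
    have h1 : w.1 ∈ f c := (hmemf c w.1).mpr ⟨w.2, hw⟩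
    rw [hcc', hmemf] at h1
    obtain ⟨hw', h2⟩ := h1
    have h3 : (⟨w.1, hw'⟩ : _) = w := rfl
    rw [h3] at h2
    exact SimpleGraph.ConnectedComponent.eq_of_common_vertex hw h2
  let F : Finset (Finset W) := (H.oddComponents.toFinset).image f
  have hFcard : F.card = H.oddComponents.ncard := by
    simp only [F]
    rw [card_image_of_injective _ hfinj, ← Set.ncard_eq_toFinset_card']
  have hverts : ∀ w : W, w ∈ ((⊤ : G.Subgraph).deleteVerts u).verts ↔ w ∉ u := by
    intro w
    simp
  have h1 : F.card ≤ X.card + 1 := by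
    refine h X F ?_ ?_
    · intro K hK
      obtain ⟨c, hc, rfl⟩ := mem_image.mp hK
      rw [Set.mem_toFinset] at hc
      refine ⟨?_, ?_, ?_⟩
      · rw [disjoint_left]
        intro w hw hwX
        rw [hmemf] at hw
        obtain ⟨hw1, -⟩ := hw
        rw [hX, Set.mem_toFinset] at hwX
        exact (hverts w).mp hw1 hwX
      · rw [hfcard]
        exact hc
      · intro p hp q hpq
        by_cases hq : q ∈ u
        · right
          rw [hX, Set.mem_toFinset]
          exact hq
        · left
          rw [hmemf] at hp ⊢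
          obtain ⟨hp1, hp2⟩ := hp
          refine ⟨(hverts q).mpr hq, ?_⟩
          rw [SimpleGraph.ConnectedComponent.mem_supp_iff] at hp2 ⊢
          rw [← hp2]
          refine SimpleGraph.ConnectedComponent.sound (SimpleGraph.Adj.reachable ?_)
          rw [hH]
          simp only [SimpleGraph.Subgraph.coe_adj, SimpleGraph.Subgraph.deleteVerts_adj,
            SimpleGraph.Subgraph.verts_top, Set.mem_univ, true_and, SimpleGraph.Subgraph.top_adj]
          exact ⟨hq, (hverts p).mp hp1, hpq.symm⟩
    · intro K hK K' hK' hne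
      obtain ⟨c, hc, rfl⟩ := mem_image.mp hK
      obtain ⟨c', hc', rfl⟩ := mem_image.mp hK'
      rw [disjoint_left]
      intro w hw hw'
      rw [hmemf] at hw hw'
      obtain ⟨a1, a2⟩ := hw
      obtain ⟨b1, b2⟩ := hw'
      exact hne (by rw [SimpleGraph.ConnectedComponent.eq_of_common_vertex a2 b2])
  -- parity
  have hpar := SimpleGraph.odd_ncard_oddComponents H
  have hcardH : Nat.card ((⊤ : G.Subgraph).deleteVerts u).verts + u.ncard = Fintype.card W := by
    have h2 : ((⊤ : G.Subgraph).deleteVerts u).verts = uᶜ := by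
      ext w
      rw [hverts, Set.mem_compl_iff]
    have h3 : Nat.card ((⊤ : G.Subgraph).deleteVerts u).verts = (uᶜ).ncard := by
      rw [h2, Nat.card_coe_set_eq]
    rw [h3, ← Nat.card_eq_fintype_card, add_comm]
    exact Set.ncard_add_ncard_compl u
  have h4 : H.oddComponents.ncard = u.ncard + 1 := by omega
  rw [h4] at hpar
  rw [Nat.even_iff] at heven
  rcases Nat.even_or_odd (u.ncard) with h5 | h5
  · have h6 : Odd (u.ncard + 1) := h5.add_one
    have h7 := hpar.mp h6
    rw [Nat.odd_iff] at h7
    rw [Nat.even_iff] at h5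
    omega
  · have h6 : ¬ Odd (u.ncard + 1) := by
      rw [Nat.not_odd_iff_even]
      exact h5.add_one
    have h7 : ¬ Odd (Nat.card ((⊤ : G.Subgraph).deleteVerts u).verts) := fun h => h6 (hpar.mpr h)
    rw [Nat.not_odd_iff_even, Nat.even_iff] at h7
    rw [Nat.odd_iff] at h5
    omega

end Pool.Agent.Work.MP_60abc6_co
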