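import Mathlib
import Pool.Agent.Work.MP_60abc6_co.Tutte

set_option autoImplicit false

/-! The gadget graph for degree constrained subgraphs, with its fractional perfect matching. -/

namespace Pool.Agent.Work.MP_60abc6_co

open Finset

variable {V : Type*} [Fintype V] [DecidableEq V]

/-- ordered adjacent pairs -/
abbrev Port (G : SimpleGraph V) := {p : V × V // G.Adj p.1 p.2}

/-- `b v` copies of every vertex -/
abbrev Copy (b : V → ℕ) := Σ v : V, Fin (b v)

/-- the vertices of the gadget graph -/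
abbrev Node (G : SimpleGraph V) (b : V → ℕ) (D : ℕ) := Copy b ⊕ Port G ⊕ Fin D

/-- the opposite port -/
def twin {G : SimpleGraph V} (p : Port G) : Port G := ⟨(p.1.2, p.1.1), p.2.symm⟩

lemma twin_twin {G : SimpleGraph V} (p : Port G) : twin (twin p) = p := rfl

lemma twin_ne {G : SimpleGraph V} (p : Port G) : twin p ≠ p := by
  intro h
  have h1 : (twin p).1.1 = p.1.1 := by rw [h]
  have h2 : p.1.2 = p.1.1 := h1
  have h3 := p.2
  rw [h2] at h3
  exact G.loopless.irrefl _ h3

/-- adjacency in the gadget graph -/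
def gAdj (G : SimpleGraph V) (b : V → ℕ) (D : ℕ) : Node G b D → Node G b D → Prop
  | Sum.inl c, Sum.inr (Sum.inl p) => p.1.1 = c.1
  | Sum.inr (Sum.inl p), Sum.inl c => p.1.1 = c.1
  | Sum.inr (Sum.inl p), Sum.inr (Sum.inl q) => q = twin p
  | Sum.inl _, Sum.inr (Sum.inr _) => True
  | Sum.inr (Sum.inr _), Sum.inl _ => True
  | Sum.inr (Sum.inr z), Sum.inr (Sum.inr z') => z ≠ z'
  | _, _ => False

/-- the gadget graph -/
def gadget (G : SimpleGraph V) (b : V → ℕ) (D : ℕ) : SimpleGraph (Node G b D) where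
  Adj := gAdj G b D
  symm := by
    refine ⟨?_⟩
    rintro (c | p | z) (c' | q | z') h <;> simp only [gAdj] at h ⊢
    · exact h
    · exact h
    · rw [h, twin_twin]
    · exact h.symm
  loopless := by
    refine ⟨?_⟩
    rintro (c | p | z) h <;> simp only [gAdj] at h
    · exact twin_ne p h.symm
    · exact h rfl

variable (G : SimpleGraph V) [DecidableRel G.Adj] (b : V → ℕ) (D : ℕ) (β ρ : ℝ)

/-- the fractional matching -/
noncomputable def wt : Node G b D → Node G b D → ℝ
  | Sum.inl c, Sum.inr (Sum.inl p) => if p.1.1 = c.1 then β / b c.1 else 0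
  | Sum.inr (Sum.inl p), Sum.inl c => if p.1.1 = c.1 then β / b c.1 else 0
  | Sum.inr (Sum.inl p), Sum.inr (Sum.inl q) => if q = twin p then ρ else 0
  | _, _ => 0

/-- degree of a vertex -/
def dg (v : V) : ℕ := (univ.filter (G.Adj v)).card

variable {G b D β ρ}

lemma wt_nonneg (hβ : 0 ≤ β) (hρ : 0 ≤ ρ) (p q : Node G b D) : 0 ≤ wt G b D β ρ p q := by
  rcases p with c | p | z <;> rcases q with c' | q | z' <;> simp only [wt] <;>
    first
      | exact le_rfl
      | (split_ifs
         · positivity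
         · exact le_rfl)

lemma wt_symm (p q : Node G b D) : wt G b D β ρ p q = wt G b D β ρ q p := by
  rcases p with c | p | z <;> rcases q with c' | q | z' <;> simp only [wt]
  by_cases h : q = twin p
  · rw [if_pos h, if_pos (by rw [h, twin_twin])]
  · rw [if_neg h, if_neg (fun h' => h (by rw [h', twin_twin]))]

lemma wt_adj {p q : Node G b D} (h : wt G b D β ρ p q ≠ 0) : (gadget G b D).Adj p q := by
  show gAdj G b D p q
  rcases p with c | p | z <;> rcases q with c' | q | z' <;> simp only [wt, ne_eq] at h <;>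
    simp only [gAdj] <;>
    first
      | exact (h trivial).elim
      | (by_contra hcon
         rw [if_neg hcon] at h
         exact h rfl)

lemma sum_copy (K : Finset (Node G b D)) (v : V) (x : ℝ) :
    ∑ c : Copy b, (if (Sum.inl c : Node G b D) ∈ K then (if v = c.1 then x else 0) else 0) =
      x * ((univ.filter fun i : Fin (b v) => (Sum.inl ⟨v, i⟩ : Node G b D) ∈ K).card : ℝ) := by
  rw [Fintype.sum_sigma, Finset.sum_eq_single v]
  · simp only [if_true]
    rw [← sum_filter, sum_const, nsmul_eq_mul, mul_comm]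
  · intro u _ hu
    refine sum_eq_zero fun i _ => ?_
    have h1 : ¬ v = u := fun h => hu h.symm
    simp [h1]
  · intro h
    exact absurd (mem_univ _) h

/-- the number of copies of `v` in `K` -/
def cK (K : Finset (Node G b D)) (v : V) : ℕ :=
  (univ.filter fun i : Fin (b v) => (Sum.inl ⟨v, i⟩ : Node G b D) ∈ K).card

/-- the number of ports at `v` in `K` -/
def pK (K : Finset (Node G b D)) (v : V) : ℕ :=
  (univ.filter fun p : Port G => p.1.1 = v ∧ (Sum.inr (Sum.inl p) : Node G b D) ∈ K).card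

lemma card_ports (v : V) : (univ.filter fun p : Port G => p.1.1 = v).card = dg G v := by
  unfold dg
  refine card_bij (fun p _ => p.1.2) ?_ ?_ ?_
  · intro p hp
    rw [mem_filter] at hp ⊢
    refine ⟨mem_univ _, ?_⟩
    rw [← hp.2]
    exact p.2
  · intro p hp q hq h
    rw [mem_filter] at hp hq
    exact Subtype.ext (Prod.ext (hp.2.trans hq.2.symm) h)
  · intro u hu
    rw [mem_filter] at hu
    exact ⟨⟨(v, u), hu.2⟩, mem_filter.mpr ⟨mem_univ _, rfl⟩, rfl⟩

lemma sum_wt_port (K : Finset (Node G b D)) (p : Port G) :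
    ∑ q ∈ K, wt G b D β ρ (Sum.inr (Sum.inl p)) q =
      β / b p.1.1 * (cK K p.1.1 : ℝ) +
        if (Sum.inr (Sum.inl (twin p)) : Node G b D) ∈ K then ρ else 0 := by
  have h1 : ∑ q ∈ K, wt G b D β ρ (Sum.inr (Sum.inl p)) q =
      ∑ q : Node G b D, if q ∈ K then wt G b D β ρ (Sum.inr (Sum.inl p)) q else 0 := by
    rw [← sum_filter]
    congr 1
    ext q
    simp
  rw [h1, Fintype.sum_sum_type, Fintype.sum_sum_type]
  simp only [wt]
  have h2 : ∑ c : Copy b, (if (Sum.inl c : Node G b D) ∈ K then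
      (if p.1.1 = c.1 then β / (b c.1 : ℝ) else 0) else 0) =
      β / b p.1.1 * (cK K p.1.1 : ℝ) := by
    unfold cK
    rw [← sum_copy K p.1.1]
    refine sum_congr rfl fun c _ => ?_
    split_ifs with h3 h4
    · rw [h4]
    · rfl
    · rfl
  have h3 : ∑ q : Port G, (if (Sum.inr (Sum.inl q) : Node G b D) ∈ K then
      (if q = twin p then ρ else 0) else 0) =
      if (Sum.inr (Sum.inl (twin p)) : Node G b D) ∈ K then ρ else 0 := by
    rw [Finset.sum_eq_single (twin p)]
    · rw [if_pos rfl]
    · intro q _ hq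
      rw [if_neg hq]
      simp
    · intro h
      exact absurd (mem_univ _) h
  rw [h2, h3]
  simp

lemma sum_wt_copy (K : Finset (Node G b D)) (c : Copy b) :
    ∑ q ∈ K, wt G b D β ρ (Sum.inl c) q = β / b c.1 * (pK K c.1 : ℝ) := by
  have h1 : ∑ q ∈ K, wt G b D β ρ (Sum.inl c) q =
      ∑ q : Node G b D, if q ∈ K then wt G b D β ρ (Sum.inl c) q else 0 := by
    rw [← sum_filter]
    congr 1
    ext q
    simp
  rw [h1, Fintype.sum_sum_type, Fintype.sum_sum_type]
  simp only [wt]
  have h2 : ∑ q : Port G, (if (Sum.inr (Sum.inl q) : Node G b D) ∈ K then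
      (if q.1.1 = c.1 then β / (b c.1 : ℝ) else 0) else 0) = β / b c.1 * (pK K c.1 : ℝ) := by
    unfold pK
    rw [← nsmul_eq_mul', ← sum_const, sum_filter]
    refine sum_congr rfl fun q _ => ?_
    by_cases h3 : (Sum.inr (Sum.inl q) : Node G b D) ∈ K
    · by_cases h4 : q.1.1 = c.1
      · rw [if_pos h3, if_pos h4, if_pos ⟨h4, h3⟩]
      · rw [if_pos h3, if_neg h4, if_neg (fun h => h4 h.1)]
    · rw [if_neg h3, if_neg (fun h => h3 h.2)]
  rw [h2]
  simp

lemma sum_wt_extra (K : Finset (Node G b D)) (z : Fin D) :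
    ∑ q ∈ K, wt G b D β ρ (Sum.inr (Sum.inr z)) q = 0 := by
  refine sum_eq_zero fun q _ => ?_
  rcases q with c' | q | z' <;> simp only [wt]

lemma cK_univ (v : V) : cK (univ : Finset (Node G b D)) v = b v := by
  unfold cK
  simp

lemma pK_univ (v : V) : pK (univ : Finset (Node G b D)) v = dg G v := by
  rw [← card_ports]
  unfold pK
  congr 1
  ext p
  simp

lemma cK_le (K : Finset (Node G b D)) (v : V) : cK K v ≤ b v := by
  unfold cK
  refine (card_filter_le _ _).trans ?_
  rw [card_univ, Fintype.card_fin]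

lemma pK_le (K : Finset (Node G b D)) (v : V) : pK K v ≤ dg G v := by
  rw [← card_ports]
  unfold pK
  exact card_le_card fun p hp => by
    rw [mem_filter] at hp ⊢
    exact ⟨hp.1, hp.2.1⟩

end Pool.Agent.Work.MP_60abc6_co
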