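import Mathlib
import Pool.Agent.Work.MP_60abc6_co.Gadget

set_option autoImplicit false

/-! The odd set inequality for the fractional matching of the gadget graph. -/

namespace Pool.Agent.Work.MP_60abc6_co

open Finset

variable {V : Type*} [Fintype V] [DecidableEq V]
variable {G : SimpleGraph V} [DecidableRel G.Adj] {b : V → ℕ} {D : ℕ} {β ρ : ℝ}

lemma deg_port (hb : ∀ v, 0 < b v) (hβρ : β + ρ = 1) (p : Port G) :
    ∑ q : Node G b D, wt G b D β ρ (Sum.inr (Sum.inl p)) q = 1 := by
  rw [sum_wt_port, cK_univ, if_pos (mem_univ _)]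
  have : (b p.1.1 : ℝ) ≠ 0 := by exact_mod_cast (hb p.1.1).ne'
  rw [div_mul_cancel₀ _ this]
  exact hβρ

lemma deg_copy (c : Copy b) :
    ∑ q : Node G b D, wt G b D β ρ (Sum.inl c) q = β / b c.1 * dg G c.1 := by
  rw [sum_wt_copy, pK_univ]

lemma deg_le_one (hb : ∀ v, 0 < b v) (hβ : ∀ v, β * dg G v ≤ b v) (hβρ : β + ρ = 1)
    (p : Node G b D) : ∑ q : Node G b D, wt G b D β ρ p q ≤ 1 := by
  rcases p with c | p | z
  · rw [deg_copy, div_mul_eq_mul_div]
    have : (0 : ℝ) < b c.1 := by exact_mod_cast hb c.1
    rw [div_le_one this]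
    exact hβ c.1
  · rw [deg_port hb hβρ]
  · rw [sum_wt_extra]
    exact zero_le_one

/-- slack -/
noncomputable def sl (G : SimpleGraph V) (b : V → ℕ) (D : ℕ) (β ρ : ℝ) [DecidableRel G.Adj]
    (K : Finset (Node G b D)) (p : Node G b D) : ℝ :=
  1 - ∑ q ∈ K, wt G b D β ρ p q

lemma sl_nonneg (hβ0 : 0 ≤ β) (hρ0 : 0 ≤ ρ) (hb : ∀ v, 0 < b v) (hβ : ∀ v, β * dg G v ≤ b v)
    (hβρ : β + ρ = 1) (K : Finset (Node G b D)) (p : Node G b D) :
    0 ≤ sl G b D β ρ K p := by
  unfold sl
  have h1 := deg_le_one (D := D) hb hβ hβρ p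
  have h2 : ∑ q ∈ K, wt G b D β ρ p q ≤ ∑ q : Node G b D, wt G b D β ρ p q :=
    sum_le_sum_of_subset_of_nonneg (subset_univ _) fun q _ _ => wt_nonneg hβ0 hρ0 p q
  linarith

lemma sl_port (K : Finset (Node G b D)) (p : Port G) :
    sl G b D β ρ K (Sum.inr (Sum.inl p)) = 1 - β / b p.1.1 * (cK K p.1.1 : ℝ) -
      if (Sum.inr (Sum.inl (twin p)) : Node G b D) ∈ K then ρ else 0 := by
  unfold sl
  rw [sum_wt_port]
  ring

lemma sl_copy (K : Finset (Node G b D)) (c : Copy b) :
    sl G b D β ρ K (Sum.inl c) = 1 - β / b c.1 * (pK K c.1 : ℝ) := by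
  unfold sl
  rw [sum_wt_copy]

/-- a set with only ports and odd cardinality has slack at least one -/
lemma sigma_ports (hβ0 : 0 ≤ β) (hρ0 : 0 ≤ ρ) (hb : ∀ v, 0 < b v) (hβ : ∀ v, β * dg G v ≤ b v)
    (hβρ : β + ρ = 1) {K : Finset (Node G b D)} (hodd : Odd K.card)
    (hK : ∀ q ∈ K, ∃ p : Port G, q = Sum.inr (Sum.inl p)) :
    1 ≤ ∑ p ∈ K, sl G b D β ρ K p := by
  classical
  have hex : ∃ p : Port G, (Sum.inr (Sum.inl p) : Node G b D) ∈ K ∧
      (Sum.inr (Sum.inl (twin p)) : Node G b D) ∉ K := by
    by_contra hcon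
    push Not at hcon
    have hprod : ∏ _q ∈ K, (-1 : ℤ) = 1 := by
      refine prod_involution (fun q _ => match q with
        | Sum.inr (Sum.inl p) => Sum.inr (Sum.inl (twin p))
        | q => q) ?_ ?_ ?_ ?_
      · intro q _
        norm_num
      · intro q hq _
        obtain ⟨p, rfl⟩ := hK q hq
        simp only [ne_eq, Sum.inr.injEq, Sum.inl.injEq]
        exact twin_ne p
      · intro q hq
        obtain ⟨p, rfl⟩ := hK q hq
        exact hcon p hq
      · intro q hq
        obtain ⟨p, rfl⟩ := hK q hq
        rfl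
    rw [prod_const, hodd.neg_one_pow] at hprod
    norm_num at hprod
  obtain ⟨p, hp, hpt⟩ := hex
  have h1 : sl G b D β ρ K (Sum.inr (Sum.inl p)) = 1 := by
    rw [sl_port, if_neg hpt]
    have : cK K p.1.1 = 0 := by
      unfold cK
      rw [card_eq_zero, filter_eq_empty_iff]
      intro i _ hi
      obtain ⟨q, hq⟩ := hK _ hi
      exact absurd hq (by simp)
    rw [this]
    norm_num
  rw [← h1]
  exact single_le_sum (f := fun q => sl G b D β ρ K q)
    (fun q _ => sl_nonneg hβ0 hρ0 hb hβ hβρ K q) hp

lemma sigma_split (K : Finset (Node G b D)) (hext : ∀ z : Fin D, (Sum.inr (Sum.inr z) : Node G b D) ∉ K)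
    (f : Node G b D → ℝ) : ∑ q ∈ K, f q =
      ∑ c : Copy b, (if (Sum.inl c : Node G b D) ∈ K then f (Sum.inl c) else 0) +
      ∑ p : Port G, (if (Sum.inr (Sum.inl p) : Node G b D) ∈ K then f (Sum.inr (Sum.inl p)) else 0) := by
  have h1 : ∑ q ∈ K, f q = ∑ q : Node G b D, if q ∈ K then f q else 0 := by
    rw [← sum_filter]
    congr 1
    ext q
    simp
  rw [h1, Fintype.sum_sum_type, Fintype.sum_sum_type]
  have h2 : ∑ z : Fin D, (if (Sum.inr (Sum.inr z) : Node G b D) ∈ K then
      f (Sum.inr (Sum.inr z)) else 0) = 0 :=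
    sum_eq_zero fun z _ => if_neg (hext z)
  rw [h2, add_zero]

/-- the odd set inequality -/
lemma sigma_ge_one {κ : ℝ} (hκ : 0 ≤ κ) (hκβ : κ ≤ β) (hκρ : κ ≤ ρ) (hb : ∀ v, 0 < b v)
    (hβ : ∀ v, β * dg G v ≤ b v) (hβρ : β + ρ = 1)
    (hcut : ∀ P : Finset V, P.Nonempty → P ≠ univ →
      1 ≤ κ * ((univ.filter fun p : Port G => p.1.1 ∈ P ∧ p.1.2 ∉ P).card : ℝ))
    {K : Finset (Node G b D)} (hodd : Odd K.card)
    (hext : ∀ z : Fin D, (Sum.inr (Sum.inr z) : Node G b D) ∉ K)
    (hnot : ∃ c : Copy b, (Sum.inl c : Node G b D) ∉ K) :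
    1 ≤ ∑ p ∈ K, sl G b D β ρ K p := by
  classical
  have hβ0 : 0 ≤ β := hκ.trans hκβ
  have hρ0 : 0 ≤ ρ := hκ.trans hκρ
  have hsn := sl_nonneg (D := D) hβ0 hρ0 hb hβ hβρ K
  by_cases hmix : ∃ v : V, (∃ i : Fin (b v), (Sum.inl ⟨v, i⟩ : Node G b D) ∈ K) ∧
      ∃ i : Fin (b v), (Sum.inl ⟨v, i⟩ : Node G b D) ∉ K
  · -- some vertex has copies inside and outside of K
    obtain ⟨v, ⟨i, hi⟩, ⟨i', hi'⟩⟩ := hmix
    have hbv : (0 : ℝ) < b v := by exact_mod_cast hb v
    rw [sigma_split K hext]
    have h1 : 1 - β / b v * (pK K v : ℝ) ≤ ∑ c : Copy b,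
        (if (Sum.inl c : Node G b D) ∈ K then sl G b D β ρ K (Sum.inl c) else 0) := by
      have h2 := single_le_sum (f := fun c : Copy b =>
        (if (Sum.inl c : Node G b D) ∈ K then sl G b D β ρ K (Sum.inl c) else 0))
        (fun c _ => by
          split_ifs
          · exact hsn _
          · exact le_rfl) (mem_univ (⟨v, i⟩ : Copy b))
      rw [if_pos hi, sl_copy] at h2
      exact h2
    have h3 : β / b v * (pK K v : ℝ) ≤ ∑ p : Port G,
        (if (Sum.inr (Sum.inl p) : Node G b D) ∈ K then
          sl G b D β ρ K (Sum.inr (Sum.inl p)) else 0) := by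
      have h4 : β / b v * (pK K v : ℝ) = ∑ p : Port G,
          if p.1.1 = v ∧ (Sum.inr (Sum.inl p) : Node G b D) ∈ K then β / b v else 0 := by
        unfold pK
        rw [← sum_filter, sum_const, nsmul_eq_mul, mul_comm]
      rw [h4]
      refine sum_le_sum fun p _ => ?_
      by_cases hpK : (Sum.inr (Sum.inl p) : Node G b D) ∈ K
      · rw [if_pos hpK]
        by_cases hpv : p.1.1 = v
        · rw [if_pos ⟨hpv, hpK⟩, sl_port, hpv]
          have hc : cK K v + 1 ≤ b v := by
            unfold cK
            have h5 : (univ.filter fun i : Fin (b v) => (Sum.inl ⟨v, i⟩ : Node G b D) ∈ K) ⊂ univ := by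
              refine ⟨subset_univ _, fun h => ?_⟩
              have := h (mem_univ i')
              rw [mem_filter] at this
              exact hi' this.2
            have h6 := card_lt_card h5
            rw [card_univ, Fintype.card_fin] at h6
            omega
          have hc' : (cK K v : ℝ) ≤ b v - 1 := by
            have : (cK K v : ℝ) + 1 ≤ b v := by exact_mod_cast hc
            linarith
          have h7 : β / b v * (cK K v : ℝ) ≤ β - β / b v := by
            calc β / b v * (cK K v : ℝ) ≤ β / b v * (b v - 1) :=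
                  mul_le_mul_of_nonneg_left hc' (by positivity)
              _ = β - β / b v := by field_simp
          have h8 : (if (Sum.inr (Sum.inl (twin p)) : Node G b D) ∈ K then ρ else 0) ≤ ρ := by
            split_ifs
            · exact le_rfl
            · exact hρ0
          linarith
        · rw [if_neg (fun h => hpv h.1)]
          exact hsn _
      · rw [if_neg hpK, if_neg (fun h => hpK h.2)]
    linarith
  · -- all or nothing
    push Not at hmix
    set P : Finset V := univ.filter fun v => ∃ i : Fin (b v), (Sum.inl ⟨v, i⟩ : Node G b D) ∈ K with hP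
    have hPin : ∀ v ∈ P, ∀ i : Fin (b v), (Sum.inl ⟨v, i⟩ : Node G b D) ∈ K := by
      intro v hv i
      rw [hP, mem_filter] at hv
      exact hmix v hv.2 i
    have hPout : ∀ v, v ∉ P → ∀ i : Fin (b v), (Sum.inl ⟨v, i⟩ : Node G b D) ∉ K := by
      intro v hv i hi
      exact hv (mem_filter.mpr ⟨mem_univ _, i, hi⟩)
    have hcin : ∀ v ∈ P, cK K v = b v := by
      intro v hv
      unfold cK
      rw [filter_true_of_mem (fun i _ => hPin v hv i), card_univ, Fintype.card_fin]
    have hcout : ∀ v, v ∉ P → cK K v = 0 := by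
      intro v hv
      unfold cK
      rw [filter_false_of_mem (fun i _ => hPout v hv i), card_empty]
    rcases P.eq_empty_or_nonempty with hPe | hPne
    · -- only ports
      refine sigma_ports hβ0 hρ0 hb hβ hβρ hodd fun q hq => ?_
      rcases q with ⟨v, i⟩ | p | z
      · exfalso
        have : v ∉ P := by rw [hPe]; exact notMem_empty _
        exact hPout v this i hq
      · exact ⟨p, rfl⟩
      · exact absurd hq (hext z)
    · have hPuniv : P ≠ univ := by
        intro h
        obtain ⟨⟨v, i⟩, hc⟩ := hnot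
        exact hc (hPin v (by rw [h]; exact mem_univ _) i)
      have hcutP := hcut P hPne hPuniv
      rw [sigma_split K hext]
      -- the copies
      set ψ : Port G → ℝ := fun p => if (Sum.inr (Sum.inl p) : Node G b D) ∈ K then
        sl G b D β ρ K (Sum.inr (Sum.inl p)) else (if p.1.1 ∈ P then β else 0) with hψ
      have hcop : ∑ p : Port G, (if (Sum.inr (Sum.inl p) : Node G b D) ∈ K then 0 else
          (if p.1.1 ∈ P then β else 0)) ≤ ∑ c : Copy b,
          (if (Sum.inl c : Node G b D) ∈ K then sl G b D β ρ K (Sum.inl c) else 0) := by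
        have e1 : ∑ c : Copy b, (if (Sum.inl c : Node G b D) ∈ K then
            sl G b D β ρ K (Sum.inl c) else 0) =
            ∑ v : V, if v ∈ P then (b v - β * (pK K v : ℝ)) else 0 := by
          rw [Fintype.sum_sigma]
          refine sum_congr rfl fun v _ => ?_
          have hbv : (b v : ℝ) ≠ 0 := by exact_mod_cast (hb v).ne'
          by_cases hv : v ∈ P
          · rw [if_pos hv]
            have : ∀ i : Fin (b v), (if (Sum.inl ⟨v, i⟩ : Node G b D) ∈ K then
                sl G b D β ρ K (Sum.inl ⟨v, i⟩) else 0) = 1 - β / b v * (pK K v : ℝ) := by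
              intro i
              rw [if_pos (hPin v hv i), sl_copy]
            rw [sum_congr rfl fun i _ => this i, sum_const, card_univ, Fintype.card_fin,
              nsmul_eq_mul]
            field_simp
          · rw [if_neg hv]
            exact sum_eq_zero fun i _ => if_neg (hPout v hv i)
        have e2 : ∑ p : Port G, (if (Sum.inr (Sum.inl p) : Node G b D) ∈ K then 0 else
            (if p.1.1 ∈ P then β else 0)) =
            ∑ v : V, if v ∈ P then β * (dg G v - pK K v : ℝ) else 0 := by
          have e3 : ∀ p : Port G, (if (Sum.inr (Sum.inl p) : Node G b D) ∈ K then 0 else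
              (if p.1.1 ∈ P then β else 0)) = ∑ v : V, if p.1.1 = v then
                (if v ∈ P then (β - if (Sum.inr (Sum.inl p) : Node G b D) ∈ K then β else 0)
                  else 0) else 0 := by
            intro p
            rw [sum_ite_eq]
            simp only [mem_univ, if_true]
            split_ifs <;> simp
          rw [sum_congr rfl fun p _ => e3 p, sum_comm]
          refine sum_congr rfl fun v _ => ?_
          by_cases hv : v ∈ P
          · simp only [if_pos hv]
            rw [← sum_filter, sum_sub_distrib, sum_const, card_ports, nsmul_eq_mul]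
            have e4 : ∑ p ∈ univ.filter (fun p : Port G => p.1.1 = v),
                (if (Sum.inr (Sum.inl p) : Node G b D) ∈ K then β else 0) = (pK K v : ℝ) * β := by
              unfold pK
              rw [← sum_filter, filter_filter, sum_const, nsmul_eq_mul]
            rw [e4]
            ring
          · simp only [if_neg hv, ite_self, sum_const_zero]
        rw [e1, e2]
        refine sum_le_sum fun v _ => ?_
        split_ifs
        · have := hβ v
          linarith
        · exact le_rfl
      have htot : ∑ p : Port G, ψ p ≤ ∑ c : Copy b,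
          (if (Sum.inl c : Node G b D) ∈ K then sl G b D β ρ K (Sum.inl c) else 0) +
          ∑ p : Port G, (if (Sum.inr (Sum.inl p) : Node G b D) ∈ K then
            sl G b D β ρ K (Sum.inr (Sum.inl p)) else 0) := by
        refine le_trans (le_of_eq ?_) (add_le_add_left hcop _)
        rw [← sum_add_distrib]
        refine sum_congr rfl fun p _ => ?_
        simp only [hψ]
        split_ifs <;> simp
      refine le_trans ?_ htot
      have hψ0 : ∀ p, 0 ≤ ψ p := by
        intro p
        simp only [hψ]
        split_ifs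
        · exact hsn _
        · exact hβ0
        · exact le_rfl
      set Bd : Finset (Port G) := univ.filter fun p : Port G => p.1.1 ∈ P ∧ p.1.2 ∉ P with hBd
      have hpair : ∀ p ∈ Bd, κ ≤ ψ p + ψ (twin p) := by
        intro p hp
        rw [hBd, mem_filter] at hp
        obtain ⟨-, hp1, hp2⟩ := hp
        have ht1 : (twin p).1.1 = p.1.2 := rfl
        by_cases h1 : (Sum.inr (Sum.inl p) : Node G b D) ∈ K
        · by_cases h2 : (Sum.inr (Sum.inl (twin p)) : Node G b D) ∈ K
          · have h3 : ψ (twin p) = β := by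
              simp only [hψ]
              rw [if_pos h2, sl_port, ht1, hcout _ hp2, twin_twin, if_pos h1]
              push_cast
              linarith
            have := hψ0 p
            linarith
          · have h3 : ψ p = ρ := by
              simp only [hψ]
              rw [if_pos h1, sl_port, if_neg h2, hcin _ hp1]
              have hbv : (b p.1.1 : ℝ) ≠ 0 := by exact_mod_cast (hb p.1.1).ne'
              rw [div_mul_cancel₀ _ hbv]
              linarith
            have := hψ0 (twin p)
            linarith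
        · have h3 : ψ p = β := by
            simp only [hψ]
            rw [if_neg h1, if_pos hp1]
          have := hψ0 (twin p)
          linarith
      have hinj : Function.Injective (twin : Port G → Port G) := fun p q h => by
        rw [← twin_twin p, h, twin_twin]
      have hdisj : Disjoint Bd (Bd.image twin) := by
        rw [disjoint_left]
        intro p hp hp'
        rw [mem_image] at hp'
        obtain ⟨q, hq, rfl⟩ := hp'
        rw [hBd, mem_filter] at hp hq
        exact hp.2.2 hq.2.1
      calc (1 : ℝ) ≤ κ * (Bd.card : ℝ) := hcutP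
        _ = ∑ _p ∈ Bd, κ := by rw [sum_const, nsmul_eq_mul, mul_comm]
        _ ≤ ∑ p ∈ Bd, (ψ p + ψ (twin p)) := sum_le_sum hpair
        _ = ∑ p ∈ Bd ∪ Bd.image twin, ψ p := by
            rw [sum_union hdisj, sum_image fun p _ q _ h => hinj h, sum_add_distrib]
        _ ≤ ∑ p : Port G, ψ p :=
            sum_le_sum_of_subset_of_nonneg (subset_univ _) fun p _ _ => hψ0 p

end Pool.Agent.Work.MP_60abc6_co
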