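import Mathlib
import Pool.Agent.Work.MP_60abc6_co.Sigma

set_option autoImplicit false

/-! The gadget graph has a perfect matching. -/

namespace Pool.Agent.Work.MP_60abc6_co

open Finset

variable {V : Type*} [Fintype V] [DecidableEq V]
variable {G : SimpleGraph V} [DecidableRel G.Adj] {b : V → ℕ} {D : ℕ} {β ρ : ℝ}

lemma sl_le {X K : Finset (Node G b D)} (p : Node G b D)
    (hcl : ∀ q, (gadget G b D).Adj p q → q ∈ K ∨ q ∈ X) (hβ0 : 0 ≤ β) (hρ0 : 0 ≤ ρ) :
    sl G b D β ρ K p ≤ (1 - ∑ q : Node G b D, wt G b D β ρ p q) +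
      ∑ x ∈ X, wt G b D β ρ p x := by
  classical
  have h1 : ∑ q : Node G b D, wt G b D β ρ p q = ∑ q ∈ K ∪ X, wt G b D β ρ p q := by
    symm
    refine sum_subset (subset_univ _) fun q _ hq => ?_
    by_contra hne
    exact hq (mem_union.mpr (hcl q (wt_adj hne)))
  have h2 : ∑ q ∈ K ∪ X, wt G b D β ρ p q ≤
      ∑ q ∈ K, wt G b D β ρ p q + ∑ q ∈ X, wt G b D β ρ p q := by
    rw [← sum_union_inter]
    have : 0 ≤ ∑ q ∈ K ∩ X, wt G b D β ρ p q := sum_nonneg fun q _ => wt_nonneg hβ0 hρ0 p q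
    linarith
  unfold sl
  linarith

lemma sum_family {X : Finset (Node G b D)} {F : Finset (Finset (Node G b D))}
    (hF : ∀ K ∈ F, ∀ p ∈ K, ∀ q, (gadget G b D).Adj p q → q ∈ K ∨ q ∈ X)
    (hdisj : ∀ K ∈ F, ∀ K' ∈ F, K ≠ K' → Disjoint K K') (hβ0 : 0 ≤ β) (hρ0 : 0 ≤ ρ) :
    ∑ K ∈ F, ∑ p ∈ K, sl G b D β ρ K p ≤
      ∑ p ∈ F.biUnion id, (1 - ∑ q : Node G b D, wt G b D β ρ p q) +
        ∑ x ∈ X, ∑ q : Node G b D, wt G b D β ρ x q := by
  classical
  calc ∑ K ∈ F, ∑ p ∈ K, sl G b D β ρ K p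
      ≤ ∑ K ∈ F, ∑ p ∈ K, ((1 - ∑ q : Node G b D, wt G b D β ρ p q) +
          ∑ x ∈ X, wt G b D β ρ p x) :=
        sum_le_sum fun K hK => sum_le_sum fun p hp => sl_le p (hF K hK p hp) hβ0 hρ0
    _ = ∑ p ∈ F.biUnion id, ((1 - ∑ q : Node G b D, wt G b D β ρ p q) +
          ∑ x ∈ X, wt G b D β ρ p x) := by
        rw [sum_biUnion]
        · rfl
        · intro K hK K' hK' hne
          exact hdisj K hK K' hK' hne
    _ = ∑ p ∈ F.biUnion id, (1 - ∑ q : Node G b D, wt G b D β ρ p q) +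
          ∑ p ∈ F.biUnion id, ∑ x ∈ X, wt G b D β ρ p x := by rw [sum_add_distrib]
    _ ≤ _ := by
        refine add_le_add_right ?_ _
        rw [sum_comm]
        refine sum_le_sum fun x _ => ?_
        rw [sum_congr rfl fun p _ => wt_symm p x]
        exact sum_le_sum_of_subset_of_nonneg (subset_univ _) fun q _ _ => wt_nonneg hβ0 hρ0 x q

lemma card_le_sum {F : Finset (Finset (Node G b D))}
    (h : ∀ K ∈ F, 1 ≤ ∑ p ∈ K, sl G b D β ρ K p) :
    (F.card : ℝ) ≤ ∑ K ∈ F, ∑ p ∈ K, sl G b D β ρ K p := by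
  calc (F.card : ℝ) = ∑ _K ∈ F, (1 : ℝ) := by rw [sum_const, nsmul_eq_mul, mul_one]
    _ ≤ _ := sum_le_sum h

lemma gadget_matching [Nonempty V] {κ : ℝ} (hκ : 0 ≤ κ) (hκβ : κ ≤ β) (hκρ : κ ≤ ρ)
    (hb : ∀ v, 0 < b v) (hβ : ∀ v, β * dg G v ≤ b v) (hβρ : β + ρ = 1)
    (hcut : ∀ P : Finset V, P.Nonempty → P ≠ univ →
      1 ≤ κ * ((univ.filter fun p : Port G => p.1.1 ∈ P ∧ p.1.2 ∉ P).card : ℝ))
    (hD : ∑ v : V, ((b v : ℝ) - β * dg G v) ≤ D)
    (heven : Even (Fintype.card (Node G b D))) :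
    ∃ M : (gadget G b D).Subgraph, M.IsPerfectMatching := by
  classical
  have hβ0 : 0 ≤ β := hκ.trans hκβ
  have hρ0 : 0 ≤ ρ := hκ.trans hκρ
  refine tutte_finset (gadget G b D) heven fun X F hF hdisj => ?_
  have hcl : ∀ K ∈ F, ∀ p ∈ K, ∀ q, (gadget G b D).Adj p q → q ∈ K ∨ q ∈ X :=
    fun K hK => (hF K hK).2.2
  have hdeg0 : ∀ p : Node G b D, 0 ≤ 1 - ∑ q : Node G b D, wt G b D β ρ p q := fun p => by
    have := deg_le_one (D := D) hb hβ hβρ p
    linarith
  by_cases hz : ∃ z : Fin D, (Sum.inr (Sum.inr z) : Node G b D) ∉ X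
  · -- case II
    obtain ⟨z, hz⟩ := hz
    set F' := F.filter fun K => (Sum.inr (Sum.inr z) : Node G b D) ∉ K with hF'
    have hF'F : F' ⊆ F := filter_subset _ _
    have hcard : F.card ≤ F'.card + 1 := by
      have h1 : F'.card + (F.filter fun K => ¬ (Sum.inr (Sum.inr z) : Node G b D) ∉ K).card =
          F.card := by
        rw [hF']
        exact card_filter_add_card_filter_not _
      have h2 : (F.filter fun K => ¬ (Sum.inr (Sum.inr z) : Node G b D) ∉ K).card ≤ 1 := by
        rw [card_le_one]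
        intro K hK K' hK'
        rw [mem_filter, not_not] at hK hK'
        by_contra hne
        exact (disjoint_left.mp (hdisj K hK.1 K' hK'.1 hne) hK.2) hK'.2
      omega
    have hports : ∀ K ∈ F', ∀ q ∈ K, ∃ p : Port G, q = Sum.inr (Sum.inl p) := by
      intro K hK q hq
      rw [hF', mem_filter] at hK
      rcases q with c | p | z'
      · exfalso
        rcases hcl K hK.1 _ hq (Sum.inr (Sum.inr z)) (show gAdj G b D (Sum.inl c) (Sum.inr (Sum.inr z)) from trivial) with h | h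
        · exact hK.2 h
        · exact hz h
      · exact ⟨p, rfl⟩
      · exfalso
        by_cases hzz : z' = z
        · rw [hzz] at hq
          exact hK.2 hq
        · rcases hcl K hK.1 _ hq (Sum.inr (Sum.inr z)) 
              (show gAdj G b D (Sum.inr (Sum.inr z')) (Sum.inr (Sum.inr z)) from hzz) with h | h
          · exact hK.2 h
          · exact hz h
    have h3 := card_le_sum (F := F') (β := β) (ρ := ρ) (fun K hK =>
      sigma_ports hβ0 hρ0 hb hβ hβρ (hF K (hF'F hK)).2.1 (hports K hK))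
    have h4 := sum_family (F := F') (X := X) (β := β) (ρ := ρ) (fun K hK => hcl K (hF'F hK))
      (fun K hK K' hK' => hdisj K (hF'F hK) K' (hF'F hK')) hβ0 hρ0
    have h5 : ∑ p ∈ F'.biUnion id, (1 - ∑ q : Node G b D, wt G b D β ρ p q) = 0 := by
      refine sum_eq_zero fun q hq => ?_
      rw [mem_biUnion] at hq
      obtain ⟨K, hK, hqK⟩ := hq
      obtain ⟨p, rfl⟩ := hports K hK q hqK
      rw [deg_port hb hβρ, sub_self]
    have h6 : ∑ x ∈ X, ∑ q : Node G b D, wt G b D β ρ x q ≤ X.card := by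
      calc ∑ x ∈ X, ∑ q : Node G b D, wt G b D β ρ x q ≤ ∑ _x ∈ X, (1 : ℝ) :=
            sum_le_sum fun x _ => deg_le_one hb hβ hβρ x
        _ = X.card := by rw [sum_const, nsmul_eq_mul, mul_one]
    have h7 : (F'.card : ℝ) ≤ X.card := by linarith
    have h8 : F'.card ≤ X.card := by exact_mod_cast h7
    omega
  · -- case I
    push Not at hz
    obtain ⟨v0⟩ := ‹Nonempty V›
    set F' := F.filter fun K => ∃ c : Copy b, (Sum.inl c : Node G b D) ∉ K with hF'
    have hF'F : F' ⊆ F := filter_subset _ _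
    have hcard : F.card ≤ F'.card + 1 := by
      have h1 : F'.card + (F.filter fun K => ¬ ∃ c : Copy b, (Sum.inl c : Node G b D) ∉ K).card =
          F.card := by
        rw [hF']
        exact card_filter_add_card_filter_not _
      have h2 : (F.filter fun K => ¬ ∃ c : Copy b, (Sum.inl c : Node G b D) ∉ K).card ≤ 1 := by
        rw [card_le_one]
        intro K hK K' hK'
        rw [mem_filter] at hK hK'
        push Not at hK hK'
        by_contra hne
        exact (disjoint_left.mp (hdisj K hK.1 K' hK'.1 hne)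
          (hK.2 ⟨v0, ⟨0, hb v0⟩⟩)) (hK'.2 ⟨v0, ⟨0, hb v0⟩⟩)
      omega
    have hext : ∀ K ∈ F, ∀ z : Fin D, (Sum.inr (Sum.inr z) : Node G b D) ∉ K := by
      intro K hK z hzK
      exact (disjoint_left.mp (hF K hK).1 hzK) (hz z)
    have h3 := card_le_sum (F := F') (β := β) (ρ := ρ) (fun K hK => by
      have hK' := (mem_filter.mp hK)
      exact sigma_ge_one hκ hκβ hκρ hb hβ hβρ hcut (hF K hK'.1).2.1 (hext K hK'.1) hK'.2)
    have h4 := sum_family (F := F') (X := X) (β := β) (ρ := ρ) (fun K hK => hcl K (hF'F hK))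
      (fun K hK K' hK' => hdisj K (hF'F hK) K' (hF'F hK')) hβ0 hρ0
    have h5 : ∑ p ∈ F'.biUnion id, (1 - ∑ q : Node G b D, wt G b D β ρ p q) ≤
        ∑ v : V, ((b v : ℝ) - β * dg G v) := by
      rw [sigma_split (F'.biUnion id) (fun z hz' => by
        rw [mem_biUnion] at hz'
        obtain ⟨K, hK, hzK⟩ := hz'
        exact hext K (hF'F hK) z hzK)]
      have e1 : ∑ p : Port G, (if (Sum.inr (Sum.inl p) : Node G b D) ∈ F'.biUnion id then
          (1 - ∑ q : Node G b D, wt G b D β ρ (Sum.inr (Sum.inl p)) q) else 0) = 0 := by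
        refine sum_eq_zero fun p _ => ?_
        rw [deg_port hb hβρ, sub_self, ite_self]
      rw [e1, add_zero, Fintype.sum_sigma]
      refine sum_le_sum fun v _ => ?_
      have hbv : (b v : ℝ) ≠ 0 := by exact_mod_cast (hb v).ne'
      calc ∑ i : Fin (b v), (if (Sum.inl ⟨v, i⟩ : Node G b D) ∈ F'.biUnion id then
            (1 - ∑ q : Node G b D, wt G b D β ρ (Sum.inl ⟨v, i⟩) q) else 0)
          ≤ ∑ i : Fin (b v), (1 - β / b v * dg G v) := by
            refine sum_le_sum fun i _ => ?_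
            have h0 := hdeg0 (Sum.inl ⟨v, i⟩)
            rw [deg_copy] at h0 ⊢
            split_ifs
            · exact le_rfl
            · exact h0
        _ = (b v : ℝ) - β * dg G v := by
            rw [sum_const, card_univ, Fintype.card_fin, nsmul_eq_mul]
            field_simp
    have h6 : ∑ x ∈ X, ∑ q : Node G b D, wt G b D β ρ x q ≤ (X.card : ℝ) - D := by
      set E : Finset (Node G b D) := (univ : Finset (Fin D)).image
        (fun z => (Sum.inr (Sum.inr z) : Node G b D)) with hE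
      have hEX : E ⊆ X := by
        intro q hq
        rw [hE, mem_image] at hq
        obtain ⟨z, -, rfl⟩ := hq
        exact hz z
      have hEcard : E.card = D := by
        rw [hE, card_image_of_injective, card_univ, Fintype.card_fin]
        intro z z' h
        exact Sum.inr_injective (Sum.inr_injective h)
      rw [← sum_sdiff hEX]
      have e1 : ∑ x ∈ E, ∑ q : Node G b D, wt G b D β ρ x q = 0 := by
        refine sum_eq_zero fun q hq => ?_
        rw [hE, mem_image] at hq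
        obtain ⟨z, -, rfl⟩ := hq
        exact sum_wt_extra _ z
      rw [e1, add_zero]
      calc ∑ x ∈ X \ E, ∑ q : Node G b D, wt G b D β ρ x q ≤ ∑ _x ∈ X \ E, (1 : ℝ) :=
            sum_le_sum fun x _ => deg_le_one hb hβ hβρ x
        _ = ((X \ E).card : ℝ) := by rw [sum_const, nsmul_eq_mul, mul_one]
        _ = (X.card : ℝ) - D := by
            have hle : D ≤ X.card := le_trans (le_of_eq hEcard.symm) (card_le_card hEX)
            rw [card_sdiff_of_subset hEX, hEcard, Nat.cast_sub hle]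
    have h7 : (F'.card : ℝ) ≤ X.card := by linarith
    have h8 : F'.card ≤ X.card := by exact_mod_cast h7
    omega

end Pool.Agent.Work.MP_60abc6_co
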