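import Mathlib
import Pool.Agent.Work.MP_60abc6_co.PM

set_option autoImplicit false

/-! Spanning subgraphs with prescribed minimum degree and few edges. -/

namespace Pool.Agent.Work.MP_60abc6_co

open Finset

variable {V : Type*} [Fintype V] [DecidableEq V]

open Classical in
/-- the degree -/
noncomputable def dgc (G : SimpleGraph V) (v : V) : ℕ := (univ.filter (G.Adj v)).card

lemma dg_eq_dgc (G : SimpleGraph V) [DecidableRel G.Adj] (v : V) : dg G v = dgc G v := by
  unfold dg dgc
  congr

open Classical in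
lemma sum_dgc (G : SimpleGraph V) :
    ∑ v, dgc G v = ((univ : Finset (V × V)).filter fun p => G.Adj p.1 p.2).card := by
  unfold dgc
  simp_rw [card_filter]
  rw [Fintype.sum_prod_type]

section matching

variable {G : SimpleGraph V} [DecidableRel G.Adj] {b : V → ℕ} {D : ℕ}

/-- the edges whose ports are matched to copies -/
def F0 (M : (gadget G b D).Subgraph) (hM : M.IsPerfectMatching) : SimpleGraph V where
  Adj u v := ∃ h : G.Adj u v, ∃ c : Copy b, M.Adj (Sum.inr (Sum.inl ⟨(u, v), h⟩)) (Sum.inl c)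
  symm := by
    refine ⟨?_⟩
    rintro u v ⟨h, c, hc⟩
    refine ⟨h.symm, ?_⟩
    obtain ⟨q, hq, -⟩ := hM.1 (hM.2 (Sum.inr (Sum.inl ⟨(v, u), h.symm⟩)))
    have hadj := M.adj_sub hq
    change gAdj G b D (Sum.inr (Sum.inl ⟨(v, u), h.symm⟩)) q at hadj
    rcases q with c' | q | z
    · exact ⟨c', hq⟩
    · exfalso
      simp only [gAdj] at hadj
      have e : q = ⟨(u, v), h⟩ := hadj
      rw [e] at hq
      obtain ⟨y, -, huniq⟩ := hM.1 (hM.2 (Sum.inr (Sum.inl ⟨(u, v), h⟩)))
      have h1 := huniq _ hc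
      have h2 := huniq _ hq.symm
      rw [← h2] at h1
      exact absurd h1 (by simp)
    · simp only [gAdj] at hadj
  loopless := by
    refine ⟨?_⟩
    rintro u ⟨h, -⟩
    exact G.loopless.irrefl u h

lemma F0_copy {M : (gadget G b D).Subgraph} {u v : V} {h : G.Adj u v} {c : Copy b}
    (hc : M.Adj (Sum.inr (Sum.inl ⟨(u, v), h⟩)) (Sum.inl c)) : u = c.1 := by
  have hadj := M.adj_sub hc
  change gAdj G b D (Sum.inr (Sum.inl ⟨(u, v), h⟩)) (Sum.inl c) at hadj
  simp only [gAdj] at hadj
  exact hadj

lemma card_copy (v : V) : (univ.filter fun c : Copy b => c.1 = v).card = b v := by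
  have : (univ.filter fun c : Copy b => c.1 = v) =
      (univ : Finset (Fin (b v))).image (fun i => (⟨v, i⟩ : Copy b)) := by
    ext ⟨u, i⟩
    rw [mem_filter, mem_image]
    constructor
    · rintro ⟨-, h⟩
      simp only at h
      subst h
      exact ⟨i, mem_univ _, rfl⟩
    · rintro ⟨j, -, h⟩
      refine ⟨mem_univ _, ?_⟩
      have := congrArg Sigma.fst h
      exact this.symm
  rw [this, card_image_of_injective, card_univ, Fintype.card_fin]
  intro i j h
  simpa using h

lemma F0_deg_le {M : (gadget G b D).Subgraph} (hM : M.IsPerfectMatching) (v : V) :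
    dgc (F0 M hM) v ≤ b v := by
  classical
  rw [← card_copy (b := b) v]
  unfold dgc
  have hch : ∀ u : V, (F0 M hM).Adj v u → ∃ c : Copy b, ∃ h : G.Adj v u,
      M.Adj (Sum.inr (Sum.inl ⟨(v, u), h⟩)) (Sum.inl c) := by
    rintro u ⟨h, c, hc⟩
    exact ⟨c, h, hc⟩
  by_cases hbv : Nonempty (Copy b)
  · obtain ⟨c0⟩ := hbv
    refine card_le_card_of_injOn (fun u => if h : (F0 M hM).Adj v u then (hch u h).choose else c0)
      ?_ ?_
    · intro u hu
      rw [mem_coe, mem_filter] at hu
      simp only [dif_pos hu.2]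
      obtain ⟨h, hc⟩ := (hch u hu.2).choose_spec
      rw [mem_coe, mem_filter]
      exact ⟨mem_univ _, (F0_copy hc).symm⟩
    · intro u hu u' hu' huu
      rw [mem_coe, mem_filter] at hu hu'
      simp only [dif_pos hu.2, dif_pos hu'.2] at huu
      obtain ⟨h, hc⟩ := (hch u hu.2).choose_spec
      obtain ⟨h', hc'⟩ := (hch u' hu'.2).choose_spec
      rw [huu] at hc
      obtain ⟨y, -, huniq⟩ := hM.1 (hM.2 (Sum.inl (hch u' hu'.2).choose))
      have h1 := huniq _ hc.symm
      have h2 := huniq _ hc'.symm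
      rw [← h2] at h1
      simp only [Sum.inr.injEq, Sum.inl.injEq, Subtype.mk.injEq, Prod.mk.injEq] at h1
      exact h1.2
  · have : (univ.filter ((F0 M hM).Adj v)) = ∅ := by
      rw [filter_eq_empty_iff]
      intro u _ hu
      obtain ⟨c, -⟩ := hch u hu
      exact hbv ⟨c⟩
    rw [this, card_empty]
    exact Nat.zero_le _

lemma F0_sum_ge {M : (gadget G b D).Subgraph} (hM : M.IsPerfectMatching) :
    ∑ v, b v ≤ ∑ v, dgc (F0 M hM) v + D := by
  classical
  rw [sum_dgc]
  have h1 : ∑ v, b v = (univ : Finset (Copy b)).card := by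
    rw [card_univ, Fintype.card_sigma]
    simp
  rw [h1]
  set Cp : Finset (Copy b) := univ.filter fun c => ∃ p : Port G,
    M.Adj (Sum.inr (Sum.inl p)) (Sum.inl c) with hCp
  have h2 : (univ : Finset (Copy b)).card = Cp.card + (univ.filter fun c : Copy b => ¬ ∃ p : Port G,
      M.Adj (Sum.inr (Sum.inl p)) (Sum.inl c)).card := by
    rw [hCp]
    exact (card_filter_add_card_filter_not _).symm
  rw [h2]
  refine add_le_add ?_ ?_
  · -- copies matched to ports
    by_cases hne : Cp = ∅
    · rw [hne, card_empty]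
      exact Nat.zero_le _
    obtain ⟨c0, hc0⟩ := nonempty_iff_ne_empty.mpr hne
    rw [hCp, mem_filter] at hc0
    obtain ⟨p0, -⟩ := hc0.2
    refine card_le_card_of_injOn (fun c => if h : ∃ p : Port G,
      M.Adj (Sum.inr (Sum.inl p)) (Sum.inl c) then h.choose.1 else p0.1) ?_ ?_
    · intro c hc
      rw [mem_coe, hCp, mem_filter] at hc
      simp only [dif_pos hc.2]
      rw [mem_coe, mem_filter]
      exact ⟨mem_univ _, hc.2.choose.2, c, hc.2.choose_spec⟩
    · intro c hc c' hc' hcc
      rw [mem_coe, hCp, mem_filter] at hc hc'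
      simp only [dif_pos hc.2, dif_pos hc'.2] at hcc
      have e : hc.2.choose = hc'.2.choose := Subtype.ext hcc
      have h3 := hc.2.choose_spec
      have h4 := hc'.2.choose_spec
      rw [e] at h3
      obtain ⟨y, -, huniq⟩ := hM.1 (hM.2 (Sum.inr (Sum.inl hc'.2.choose)))
      have h5 := huniq _ h3
      have h6 := huniq _ h4
      rw [← h6] at h5
      exact Sum.inl_injective h5
  · -- copies matched to extras
    have hch : ∀ c : Copy b, (¬ ∃ p : Port G, M.Adj (Sum.inr (Sum.inl p)) (Sum.inl c)) →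
        ∃ z : Fin D, M.Adj (Sum.inr (Sum.inr z)) (Sum.inl c) := by
      intro c hc
      obtain ⟨q, hq, -⟩ := hM.1 (hM.2 (Sum.inl c))
      have hadj := M.adj_sub hq
      change gAdj G b D (Sum.inl c) q at hadj
      rcases q with c' | q | z
      · simp only [gAdj] at hadj
      · exact absurd ⟨q, hq.symm⟩ hc
      · exact ⟨z, hq.symm⟩
    have hDcard : D = (univ : Finset (Fin D)).card := by rw [card_univ, Fintype.card_fin]
    by_cases hne : (univ.filter fun c : Copy b => ¬ ∃ p : Port G,
      M.Adj (Sum.inr (Sum.inl p)) (Sum.inl c)) = ∅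
    · rw [hne, card_empty]
      exact Nat.zero_le _
    obtain ⟨c0, hc0⟩ := nonempty_iff_ne_empty.mpr hne
    rw [mem_filter] at hc0
    obtain ⟨z0, -⟩ := hch c0 hc0.2
    refine le_trans (card_le_card_of_injOn (t := (univ : Finset (Fin D)))
      (fun c => if h : ∃ z : Fin D, M.Adj (Sum.inr (Sum.inr z)) (Sum.inl c) then h.choose else z0)
      (fun _ _ => mem_coe.mpr (mem_univ _)) ?_) (le_of_eq hDcard.symm)
    intro c hc c' hc' hcc
    rw [mem_coe, mem_filter] at hc hc'
    have k1 := hch c hc.2
    have k2 := hch c' hc'.2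
    simp only [dif_pos k1, dif_pos k2] at hcc
    have h3 := k1.choose_spec
    have h4 := k2.choose_spec
    rw [hcc] at h3
    obtain ⟨y, -, huniq⟩ := hM.1 (hM.2 (Sum.inr (Sum.inr k2.choose)))
    have h5 := huniq _ h3
    have h6 := huniq _ h4
    rw [← h6] at h5
    exact Sum.inl_injective h5

end matching

lemma degree_splitting [Nonempty V] (G : SimpleGraph V) {k r : ℕ} (hr : 1 ≤ r) (hrk : r + 1 ≤ k)
    (hdeg : ∀ v, k ≤ dgc G v)
    (hcut : ∀ P : Finset V, P.Nonempty → P ≠ univ →
      ∃ E : Finset (V × V), k ≤ E.card ∧ ∀ e ∈ E, G.Adj e.1 e.2 ∧ e.1 ∈ P ∧ e.2 ∉ P) :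
    ∃ M : SimpleGraph V, M ≤ G ∧ (∀ v, r ≤ dgc M v) ∧
      ∑ v, dgc M v + (k - r) * Fintype.card V ≤ ∑ v, dgc G v + 1 ∧
      k * ∑ v, dgc M v + 1 ≤ r * ∑ v, dgc G v + 2 * k := by
  classical
  set b : V → ℕ := fun v => dgc G v - r with hb
  set D0 : ℕ := ∑ v, (dgc G v - k) with hD0
  set D1 : ℕ := (r * D0 + (k - 1)) / k with hD1
  set D : ℕ := D1 + (Fintype.card (Copy b) + Fintype.card (Port G) + D1) % 2 with hD
  have hk0 : (0 : ℝ) < k := by exact_mod_cast (by omega : 0 < k)
  have hbv : ∀ v, (b v : ℝ) = dgc G v - r := by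
    intro v
    have := hdeg v
    rw [hb]
    push_cast [Nat.cast_sub (by omega : r ≤ dgc G v)]
    ring
  have hdk : ∀ v, (k : ℝ) ≤ dgc G v := fun v => by exact_mod_cast hdeg v
  have hr0 : (0 : ℝ) < r := by exact_mod_cast hr
  have hrk' : (r : ℝ) + 1 ≤ k := by exact_mod_cast hrk
  obtain ⟨M, hM⟩ := gadget_matching (G := G) (b := b) (D := D) (β := ((k : ℝ) - r) / k)
    (ρ := (r : ℝ) / k) (κ := 1 / k) (by positivity)
    (by
      refine div_le_div_of_nonneg_right ?_ hk0.le
      linarith)
    (by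
      refine div_le_div_of_nonneg_right ?_ hk0.le
      exact_mod_cast hr)
    (fun v => by
      have := hdeg v
      show 0 < dgc G v - r
      omega)
    (fun v => by
      rw [dg_eq_dgc, hbv, div_mul_eq_mul_div, div_le_iff₀ hk0]
      have := hdk v
      nlinarith)
    (by field_simp; ring)
    (fun P hP hPu => by
      obtain ⟨E, hE, hE'⟩ := hcut P hP hPu
      have h1 : E.card ≤ (univ.filter fun p : Port G => p.1.1 ∈ P ∧ p.1.2 ∉ P).card := by
        have h2 : E ⊆ (univ.filter fun p : Port G => p.1.1 ∈ P ∧ p.1.2 ∉ P).image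
            (fun p => p.1) := by
          intro e he
          obtain ⟨a1, a2, a3⟩ := hE' e he
          rw [mem_image]
          exact ⟨⟨e, a1⟩, mem_filter.mpr ⟨mem_univ _, a2, a3⟩, rfl⟩
        exact (card_le_card h2).trans card_image_le
      have h3 : (k : ℝ) ≤ ((univ.filter fun p : Port G => p.1.1 ∈ P ∧ p.1.2 ∉ P).card : ℝ) := by
        exact_mod_cast hE.trans h1
      rw [one_div, ← div_eq_inv_mul, le_div_iff₀ hk0]
      linarith)
    (by
      have h1 : ∀ v, (b v : ℝ) - ((k : ℝ) - r) / k * dg G v =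
          (r : ℝ) / k * ((dgc G v - k : ℕ) : ℝ) := by
        intro v
        rw [dg_eq_dgc, hbv, Nat.cast_sub (hdeg v)]
        field_simp
        ring
      rw [sum_congr rfl fun v _ => h1 v, ← mul_sum]
      have h2 : ∑ v : V, ((dgc G v - k : ℕ) : ℝ) = (D0 : ℝ) := by rw [hD0]; push_cast; rfl
      rw [h2, div_mul_eq_mul_div, div_le_iff₀ hk0]
      have h3 : r * D0 ≤ D1 * k := by
        have h4 := Nat.div_add_mod (r * D0 + (k - 1)) k
        have h5 := Nat.mod_lt (r * D0 + (k - 1)) (by omega : 0 < k)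
        rw [← hD1] at h4
        have h6 : k * D1 = D1 * k := mul_comm _ _
        omega
      have h4 : r * D0 ≤ D * k := h3.trans (Nat.mul_le_mul_right k (Nat.le_add_right _ _))
      exact_mod_cast h4)
    (by
      rw [Fintype.card_sum, Fintype.card_sum, Fintype.card_fin, Nat.even_iff]
      omega)
  refine ⟨G \ F0 M hM, sdiff_le, ?_, ?_⟩
  all_goals
    have hsplit : ∀ v, dgc G v = dgc (F0 M hM) v + dgc (G \ F0 M hM) v := by
      intro v
      unfold dgc
      have h1 : (univ.filter (G.Adj v)) = (univ.filter ((F0 M hM).Adj v)) ∪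
          (univ.filter ((G \ F0 M hM).Adj v)) := by
        ext u
        rw [mem_union, mem_filter, mem_filter, mem_filter, SimpleGraph.sdiff_adj]
        constructor
        · rintro ⟨-, h⟩
          by_cases hF : (F0 M hM).Adj v u
          · exact Or.inl ⟨mem_univ _, hF⟩
          · exact Or.inr ⟨mem_univ _, h, hF⟩
        · rintro (⟨-, h⟩ | ⟨-, h, -⟩)
          · exact ⟨mem_univ _, h.choose⟩
          · exact ⟨mem_univ _, h⟩
      have hd : Disjoint (univ.filter ((F0 M hM).Adj v)) (univ.filter ((G \ F0 M hM).Adj v)) := by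
        rw [disjoint_left]
        intro u hu hu'
        rw [mem_filter] at hu hu'
        rw [SimpleGraph.sdiff_adj] at hu'
        exact hu'.2.2 hu.2
      rw [h1, card_union_of_disjoint hd]
      congr
  · intro v
    have h1 := F0_deg_le hM v
    have h2 := hsplit v
    have h3 := hdeg v
    have h4 : b v = dgc G v - r := rfl
    omega
  · have h1 := F0_sum_ge hM
    have h2 : ∑ v, dgc G v = ∑ v, dgc (F0 M hM) v + ∑ v, dgc (G \ F0 M hM) v := by
      rw [← sum_add_distrib]
      exact sum_congr rfl fun v _ => hsplit v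
    have h3 : ∑ v, b v + r * Fintype.card V = ∑ v, dgc G v := by
      have : ∀ v, dgc G v = b v + r := by
        intro v
        have h3 := hdeg v
        show dgc G v = dgc G v - r + r
        omega
      rw [sum_congr rfl fun v _ => this v, sum_add_distrib, sum_const, card_univ, smul_eq_mul,
        mul_comm r]
    have h4 : D0 + k * Fintype.card V = ∑ v, dgc G v := by
      have : ∀ v, dgc G v = (dgc G v - k) + k := by
        intro v
        have h3 := hdeg v
        omega
      conv_rhs => rw [sum_congr rfl fun v _ => this v]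
      rw [sum_add_distrib, sum_const, card_univ, smul_eq_mul, mul_comm k]
    have h7 : k * D1 ≤ r * D0 + (k - 1) := Nat.mul_div_le _ _
    have h8 : D1 ≤ D0 := by
      have h9 : r * D0 ≤ (k - 1) * D0 := Nat.mul_le_mul_right D0 (by omega)
      have h10 : k * D0 = (k - 1) * D0 + D0 := by
        obtain ⟨k', rfl⟩ : ∃ k', k = k' + 1 := ⟨k - 1, by omega⟩
        rw [Nat.add_sub_cancel]
        ring
      by_contra hcon
      have h11 : k * (D0 + 1) ≤ k * D1 := Nat.mul_le_mul_left k (by omega)
      rw [mul_add, mul_one] at h11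
      omega
    have h5 : D ≤ D1 + 1 := by
      rw [hD]
      omega
    have h6 : (k - r) * Fintype.card V + r * Fintype.card V = k * Fintype.card V := by
      rw [← add_mul]
      congr 1
      omega
    constructor
    · omega
    · have h12 : ∑ v, dgc (G \ F0 M hM) v ≤ r * Fintype.card V + D := by omega
      have h13 : k * ∑ v, dgc (G \ F0 M hM) v ≤ k * (r * Fintype.card V + D) :=
        Nat.mul_le_mul_left k h12
      have h14 : k * D ≤ k * D1 + k := by
        calc k * D ≤ k * (D1 + 1) := Nat.mul_le_mul_left k h5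
          _ = k * D1 + k := by ring
      have h15 : r * ∑ v, dgc G v = r * D0 + k * (r * Fintype.card V) := by
        rw [← h4]
        ring
      rw [mul_add] at h13
      omega

end Pool.Agent.Work.MP_60abc6_co
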