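import Mathlib
import Pool.Agent.Work.MP_60abc6_co.Split
import Pool.Agent.Work.MP_60abc6_co.Mader

set_option autoImplicit false

/-! Lower bounds for the number of deletable edges, in terms of degree sums. -/

namespace Pool.Agent.Work.MP_60abc6_co

open Finset

variable {V : Type*} [Fintype V] [DecidableEq V]

lemma KC.min_degree {k : ℕ} {G : SimpleGraph V} (h : KC k G) (v : V) : k ≤ dgc G v := by
  classical
  unfold dgc
  set N := univ.filter (G.Adj v) with hN
  set B : Finset V := univ \ insert v N with hB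
  rcases B.eq_empty_or_nonempty with hBe | hBn
  · have h1 : univ ⊆ insert v N := by
      rw [← sdiff_eq_empty_iff_subset]
      exact hBe
    have h2 := (card_le_card h1).trans (card_insert_le _ _)
    rw [card_univ] at h2
    have := h.1
    omega
  · have h1 := h.2 {v} B (singleton_nonempty v) hBn (by
      rw [disjoint_singleton_left, hB, mem_sdiff]
      exact fun hh => hh.2 (mem_insert_self _ _)) (by
      intro a ha b hb hab
      rw [mem_singleton] at ha
      subst ha
      rw [hB, mem_sdiff] at hb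
      exact hb.2 (mem_insert_of_mem (mem_filter.mpr ⟨mem_univ _, hab⟩)))
    refine h1.trans (card_le_card fun w hw => ?_)
    rw [mem_sdiff, mem_union, not_or, mem_singleton, hB, mem_sdiff] at hw
    by_contra hwN
    exact hw.2.2 ⟨mem_univ _, fun hh => by
      rw [mem_insert] at hh
      rcases hh with hh | hh
      · exact hw.2.1 hh
      · exact hwN hh⟩

/-- Whitney: the edge connectivity is at least the connectivity -/
lemma KC.cut {k : ℕ} {G : SimpleGraph V} (h : KC k G) (P : Finset V) (hP : P.Nonempty)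
    (hPu : P ≠ univ) :
    ∃ E : Finset (V × V), k ≤ E.card ∧ ∀ e ∈ E, G.Adj e.1 e.2 ∧ e.1 ∈ P ∧ e.2 ∉ P := by
  classical
  set E : Finset (V × V) := (univ : Finset (V × V)).filter
    (fun e => G.Adj e.1 e.2 ∧ e.1 ∈ P ∧ e.2 ∉ P) with hE
  refine ⟨E, ?_, fun e he => (mem_filter.mp he).2⟩
  by_cases hall : ∀ p ∈ P, ∀ q, q ∉ P → G.Adj p q
  · -- complete between P and its complement
    have h1 : P ×ˢ (univ \ P) ⊆ E := by
      intro e he
      rw [mem_product, mem_sdiff] at he
      exact mem_filter.mpr ⟨mem_univ _, hall e.1 he.1 e.2 he.2.2, he.1, he.2.2⟩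
    have h2 := card_le_card h1
    rw [card_product] at h2
    have h3 : 1 ≤ P.card := card_pos.mpr hP
    have h4 : 1 ≤ (univ \ P).card := by
      refine card_pos.mpr ?_
      rw [nonempty_iff_ne_empty, ne_eq, sdiff_eq_empty_iff_subset]
      exact fun hh => hPu (subset_antisymm (subset_univ _) hh)
    have h5 : P.card + (univ \ P).card = Fintype.card V := by
      rw [card_sdiff_of_subset (subset_univ _), card_univ]
      have := card_le_univ P
      omega
    have h6 := h.1
    have h7 : P.card + (univ \ P).card ≤ P.card * (univ \ P).card + 1 := by nlinarith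
    omega
  · push Not at hall
    obtain ⟨p, hp, q, hq, hpq⟩ := hall
    -- one endpoint of every cut edge, different from p and q
    set f : V × V → V := fun e => if e.1 = p then e.2 else e.1 with hf
    set S := E.image f with hS
    have hScard : S.card ≤ E.card := card_image_le
    have hpS : p ∉ S := by
      intro hh
      rw [hS, mem_image] at hh
      obtain ⟨e, he, hfe⟩ := hh
      rw [hE, mem_filter] at he
      simp only [hf] at hfe
      split_ifs at hfe with h1
      · rw [hfe] at he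
        exact he.2.2.2 hp
      · exact h1 hfe
    have hqS : q ∉ S := by
      intro hh
      rw [hS, mem_image] at hh
      obtain ⟨e, he, hfe⟩ := hh
      rw [hE, mem_filter] at he
      simp only [hf] at hfe
      split_ifs at hfe with h1
      · rw [hfe, h1] at he
        exact hpq he.2.1
      · rw [hfe] at he
        exact hq he.2.2.1
    have h1 := h.2 (P \ S) ((univ \ P) \ S) ⟨p, mem_sdiff.mpr ⟨hp, hpS⟩⟩
      ⟨q, mem_sdiff.mpr ⟨mem_sdiff.mpr ⟨mem_univ _, hq⟩, hqS⟩⟩
      (by
        rw [disjoint_left]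
        intro v hv hv'
        rw [mem_sdiff] at hv
        rw [mem_sdiff, mem_sdiff] at hv'
        exact hv'.1.2 hv.1)
      (by
        intro u hu v hv huv
        rw [mem_sdiff] at hu
        rw [mem_sdiff, mem_sdiff] at hv
        have he : (u, v) ∈ E := mem_filter.mpr ⟨mem_univ _, huv, hu.1, hv.1.2⟩
        have hfe : f (u, v) ∈ S := mem_image_of_mem _ he
        simp only [hf] at hfe
        split_ifs at hfe with h1
        · exact hv.2 hfe
        · exact hu.2 hfe)
    refine h1.trans (le_trans (card_le_card fun v hv => ?_) hScard)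
    rw [mem_sdiff, mem_union, not_or, mem_sdiff, mem_sdiff, mem_sdiff] at hv
    by_contra hvS
    by_cases hvP : v ∈ P
    · exact hv.2.1 ⟨hvP, hvS⟩
    · exact hv.2.2 ⟨⟨mem_univ _, hvP⟩, hvS⟩

open Classical in
/-- number of `R`-neighbours of `v` in `C` -/
noncomputable def nbr (R : V → V → Prop) (C : Finset V) (v : V) : ℕ := (C.filter (R v)).card

open Classical in
/-- number of ordered `R`-pairs in `C` -/
noncomputable def prs (R : V → V → Prop) (C : Finset V) : ℕ :=
  ((C ×ˢ C).filter fun p => R p.1 p.2).card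

lemma sum_nbr (R : V → V → Prop) (C : Finset V) : ∑ v ∈ C, nbr R C v = prs R C := by
  classical
  unfold nbr prs
  rw [card_filter, sum_product]
  refine sum_congr rfl fun v _ => ?_
  rw [card_filter]

lemma nbr_le_one {R : V → V → Prop} {C : Finset V} {v : V}
    (h : ∀ a ∈ C, ∀ b ∈ C, R v a → R v b → a = b) : nbr R C v ≤ 1 := by
  classical
  unfold nbr
  rw [card_le_one]
  intro a ha b hb
  rw [mem_filter] at ha hb
  exact h a ha.1 b hb.1 ha.2 hb.2

lemma two_le_nbr {R : V → V → Prop} {C : Finset V} {v a b : V} (ha : a ∈ C) (hb : b ∈ C)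
    (hab : a ≠ b) (h1 : R v a) (h2 : R v b) : 2 ≤ nbr R C v := by
  classical
  unfold nbr
  have : ({a, b} : Finset V) ⊆ C.filter (R v) := by
    intro x hx
    rw [mem_insert, mem_singleton] at hx
    rw [mem_filter]
    rcases hx with rfl | rfl
    · exact ⟨ha, h1⟩
    · exact ⟨hb, h2⟩
  have h5 := card_le_card this
  rwa [card_pair hab] at h5

/-- counting the edges of a relation in which every nonempty set has a vertex of degree at most
one -/
lemma forest_count (R : V → V → Prop) (hirr : ∀ v, ¬ R v v) (hsym : ∀ u v, R u v → R v u)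
    (S : Finset V)
    (h : ∀ C : Finset V, C ⊆ S → C.Nonempty → ∃ v ∈ C, nbr R C v ≤ 1) :
    ∀ C : Finset V, C ⊆ S → C.Nonempty → prs R C + 2 ≤ 2 * C.card := by
  classical
  intro C
  induction' hn : C.card using Nat.strong_induction_on with n ih generalizing C
  intro hCS hC
  obtain ⟨v, hv, hv1⟩ := h C hCS hC
  unfold nbr at hv1
  rcases (C.erase v).eq_empty_or_nonempty with he | hne
  · have hCv : C = {v} := by
      refine subset_antisymm (fun w hw => ?_) (singleton_subset_iff.mpr hv)
      rw [mem_singleton]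
      by_contra hwv
      have : w ∈ C.erase v := mem_erase.mpr ⟨hwv, hw⟩
      rw [he] at this
      exact absurd this (notMem_empty _)
    have h0 : prs R C = 0 := by
      unfold prs
      rw [card_eq_zero, filter_eq_empty_iff]
      intro p hp hR
      rw [hCv, mem_product, mem_singleton, mem_singleton] at hp
      rw [hp.1, hp.2] at hR
      exact hirr v hR
    rw [h0, ← hn, hCv, card_singleton]
  · have hcard : (C.erase v).card + 1 = C.card := card_erase_add_one hv
    have ih' := ih (C.erase v).card (by omega) (C.erase v) rfl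
      ((erase_subset _ _).trans hCS) hne
    unfold prs at ih' ⊢
    have hsub : ((C ×ˢ C).filter fun p => R p.1 p.2) ⊆
        (((C.erase v) ×ˢ (C.erase v)).filter fun p => R p.1 p.2) ∪
          ((C.filter (R v)).image (fun u => (v, u)) ∪ (C.filter (R v)).image (fun u => (u, v))) := by
      intro p hp
      rw [mem_filter, mem_product] at hp
      rw [mem_union, mem_union, mem_filter, mem_product, mem_erase, mem_erase, mem_image, mem_image]
      by_cases h1 : p.1 = v
      · right; left
        refine ⟨p.2, mem_filter.mpr ⟨hp.1.2, ?_⟩, Prod.ext h1.symm rfl⟩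
        rw [← h1]
        exact hp.2
      · by_cases h2 : p.2 = v
        · right; right
          refine ⟨p.1, mem_filter.mpr ⟨hp.1.1, ?_⟩, Prod.ext rfl h2.symm⟩
          rw [← h2]
          exact hsym _ _ hp.2
        · left
          exact ⟨⟨⟨h1, hp.1.1⟩, h2, hp.1.2⟩, hp.2⟩
    have c1 := (card_le_card hsub).trans (card_union_le _ _)
    have c2 := card_union_le ((C.filter (R v)).image (fun u => (v, u)))
      ((C.filter (R v)).image (fun u => (u, v)))
    have c3 : ((C.filter (R v)).image (fun u => (v, u))).card ≤ (C.filter (R v)).card :=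
      card_image_le
    have c4 : ((C.filter (R v)).image (fun u => (u, v))).card ≤ (C.filter (R v)).card :=
      card_image_le
    omega

lemma prs_lt {R R' : V → V → Prop} (h : ∀ u v, R' u v → R u v) {x y : V} (hx : R x y)
    (hx' : ¬ R' x y) : prs R' univ < prs R univ := by
  classical
  unfold prs
  refine card_lt_card ⟨fun p hp => ?_, fun hsub => ?_⟩
  · rw [mem_filter] at hp ⊢
    exact ⟨hp.1, h _ _ hp.2⟩
  · have h1 : (x, y) ∈ (univ ×ˢ univ : Finset (V × V)).filter fun p => R p.1 p.2 :=
      mem_filter.mpr ⟨mem_product.mpr ⟨mem_univ x, mem_univ y⟩, hx⟩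
    have := hsub h1
    rw [mem_filter] at this
    exact hx' this.2

/-- a minimal `l`-connected graph between `M` and `G` -/
lemma exists_minimal {l : ℕ} {M G : SimpleGraph V} (hMG : M ≤ G) (hG : KC l G) :
    ∃ H : SimpleGraph V, M ≤ H ∧ H ≤ G ∧ KC l H ∧
      ∀ x y, H.Adj x y → ¬ M.Adj x y → ¬ KC l (H.deleteEdges {s(x, y)}) := by
  classical
  have hex : ∃ m : ℕ, ∃ H : SimpleGraph V, M ≤ H ∧ H ≤ G ∧ KC l H ∧ prs H.Adj univ = m :=
    ⟨_, G, hMG, le_rfl, hG, rfl⟩
  obtain ⟨H, h1, h2, h3, h4⟩ := Nat.find_spec hex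
  refine ⟨H, h1, h2, h3, fun x y hxy hM hK => ?_⟩
  have hlt : prs (H.deleteEdges {s(x, y)}).Adj univ < prs H.Adj univ := by
    refine prs_lt (x := x) (y := y) (fun u v huv => (SimpleGraph.deleteEdges_adj.mp huv).1) hxy
      fun hh => ?_
    rw [SimpleGraph.deleteEdges_adj] at hh
    exact hh.2 (Set.mem_singleton _)
  rw [h4] at hlt
  refine Nat.find_min hex hlt ⟨_, ?_, ?_, hK, rfl⟩
  · intro u v huv
    rw [SimpleGraph.deleteEdges_adj]
    refine ⟨h1 huv, fun hh => ?_⟩
    rw [Set.mem_singleton_iff, Sym2.eq_iff] at hh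
    rcases hh with ⟨rfl, rfl⟩ | ⟨rfl, rfl⟩
    · exact hM huv
    · exact hM huv.symm
  · exact (SimpleGraph.deleteEdges_le _).trans h2

/-- Mader's theorem for the critical edges of `H` outside `M` -/
lemma critical_forest {l : ℕ} {M H : SimpleGraph V} (hH : KC l H)
    (hcrit : ∀ x y, H.Adj x y → ¬ M.Adj x y → ¬ KC l (H.deleteEdges {s(x, y)}))
    (C : Finset V) (hC : C.Nonempty) (hdeg : ∀ v ∈ C, l < dgc H v ∨
      ∀ a ∈ C, ∀ b ∈ C, a ≠ b → (H.Adj v a ∧ ¬ M.Adj v a) → (H.Adj v b ∧ ¬ M.Adj v b) → l < dgc H v) :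
    ∃ v ∈ C, (∀ a ∈ C, ∀ b ∈ C, (H.Adj v a ∧ ¬ M.Adj v a) → (H.Adj v b ∧ ¬ M.Adj v b) → a = b) := by
  classical
  by_contra hcon
  push Not at hcon
  refine mader_core hH (fun x y => H.Adj x y ∧ ¬ M.Adj x y) (fun x y h => h.1)
    (fun x y h => exists_MSep hH h.1 (hcrit x y h.1 h.2)) C hC ?_ ?_
  · intro v hv
    obtain ⟨a, ha, b, hb, h1, h2, h3⟩ := hcon v hv
    exact ⟨a, ha, b, hb, h3, h1, h2⟩
  · intro v hv
    have : l < dgc H v := by
      rcases hdeg v hv with h | h
      · exact h
      · obtain ⟨a, ha, b, hb, h1, h2, h3⟩ := hcon v hv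
        exact h a ha b hb h3 h1 h2
    unfold dgc at this
    convert this

lemma dgc_mono {G H : SimpleGraph V} (h : G ≤ H) (v : V) : dgc G v ≤ dgc H v := by
  classical
  unfold dgc
  refine card_le_card fun u hu => ?_
  rw [mem_filter] at hu ⊢
  exact ⟨hu.1, h hu.2⟩

lemma dgc_split {M H : SimpleGraph V} (hMH : M ≤ H) (v : V) :
    dgc H v = dgc M v + nbr (fun x y => H.Adj x y ∧ ¬ M.Adj x y) univ v := by
  classical
  unfold dgc nbr
  rw [← card_union_of_disjoint]
  · congr 1
    ext u
    simp only [mem_union, mem_filter, mem_univ, true_and]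
    constructor
    · intro h
      by_cases hu : M.Adj v u
      · exact Or.inl hu
      · exact Or.inr ⟨h, hu⟩
    · rintro (h | h)
      · exact hMH h
      · exact h.1
  · rw [disjoint_left]
    intro u hu hu'
    simp only [mem_filter, mem_univ, true_and] at hu hu'
    exact hu'.2 hu

lemma dgc_eq_zero {G : SimpleGraph V} {v : V} (h : ∀ u, ¬ G.Adj v u) : dgc G v = 0 := by
  classical
  unfold dgc
  rw [card_eq_zero, filter_eq_empty_iff]
  exact fun u _ => h u

lemma dgc_bot (v : V) : dgc (⊥ : SimpleGraph V) v = 0 := dgc_eq_zero fun _ h => h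

lemma sum_dgc_ge {k : ℕ} {G : SimpleGraph V} (hG : KC k G) :
    k * Fintype.card V ≤ ∑ v, dgc G v := by
  calc k * Fintype.card V = ∑ _v : V, k := by
        rw [sum_const, card_univ, smul_eq_mul, mul_comm]
    _ ≤ _ := sum_le_sum fun v _ => hG.min_degree v

/-- first bound -/
theorem bound_one [Nonempty V] {k l : ℕ} (hl : 1 ≤ l) (hlk : l < k) {G : SimpleGraph V}
    (hG : KC k G) : ∃ H : SimpleGraph V, H ≤ G ∧ KC l H ∧
      ∑ v, dgc H v + (k - l - 1) * Fintype.card V + 1 ≤ ∑ v, dgc G v ∧
      k * ∑ v, dgc H v + 1 ≤ (l - 1) * ∑ v, dgc G v + 2 * k * Fintype.card V := by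
  have hn : 0 < Fintype.card V := Fintype.card_pos
  have hM : ∃ M : SimpleGraph V, M ≤ G ∧ (∀ v, l - 1 ≤ dgc M v) ∧
      ∑ v, dgc M v + (k - (l - 1)) * Fintype.card V ≤ ∑ v, dgc G v + 1 ∧
      k * ∑ v, dgc M v + 1 ≤ (l - 1) * ∑ v, dgc G v + 2 * k := by
    rcases Nat.lt_or_ge 1 l with h1 | h1
    · exact degree_splitting G (by omega) (by omega) (fun v => hG.min_degree v)
        (fun P hP hPu => hG.cut P hP hPu)
    · have : l = 1 := by omega
      subst this
      refine ⟨⊥, bot_le, fun v => Nat.zero_le _, ?_, ?_⟩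
      · have h2 : ∑ v, dgc (⊥ : SimpleGraph V) v = 0 := sum_eq_zero fun v _ => dgc_bot v
        have h3 := sum_dgc_ge hG
        rw [h2]
        simp only [Nat.sub_self, Nat.sub_zero]
        omega
      · have h2 : ∑ v, dgc (⊥ : SimpleGraph V) v = 0 := sum_eq_zero fun v _ => dgc_bot v
        rw [h2]
        simp only [Nat.sub_self, mul_zero, zero_mul]
        omega
  obtain ⟨M, hMG, hMdeg, hMsum, hMsum2⟩ := hM
  obtain ⟨H, hMH, hHG, hH, hcrit⟩ := exists_minimal hMG (hG.mono hlk.le)
  refine ⟨H, hHG, hH, ?_⟩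
  -- the edges outside M form a forest
  have hforest := forest_count (fun x y => H.Adj x y ∧ ¬ M.Adj x y)
    (fun v h => H.loopless.irrefl v h.1)
    (fun u v h => ⟨h.1.symm, fun hh => h.2 hh.symm⟩) univ (fun C _ hC => by
      obtain ⟨v, hv, h1⟩ := critical_forest hH hcrit C hC (fun v _ => Or.inr fun a _ b _ hab ha hb => by
        have h2 := dgc_split hMH v
        have h3 := hMdeg v
        have h4 := two_le_nbr (R := fun x y => H.Adj x y ∧ ¬ M.Adj x y) (mem_univ a) (mem_univ b)
          hab ha hb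
        omega)
      exact ⟨v, hv, nbr_le_one h1⟩)
    univ subset_rfl univ_nonempty
  have htot : ∑ v, dgc H v = ∑ v, dgc M v +
      ∑ v, nbr (fun x y => H.Adj x y ∧ ¬ M.Adj x y) univ v := by
    rw [← sum_add_distrib]
    exact sum_congr rfl fun v _ => dgc_split hMH v
  rw [htot, sum_nbr]
  rw [card_univ] at hforest
  have e1 : (k - (l - 1)) * Fintype.card V = (k - l - 1) * Fintype.card V + 2 * Fintype.card V := by
    rw [← add_mul]
    congr 1
    omega
  refine ⟨by omega, ?_⟩
  have e2 := Nat.mul_le_mul_left k hforest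
  rw [mul_add] at e2
  have e3 : k * (2 * Fintype.card V) = 2 * k * Fintype.card V := by ring
  rw [mul_add]
  omega

lemma arith_one (c l n t sG sH : ℤ) (hc : 0 ≤ c) (hl : 1 ≤ l) (h1 : (l + c) * n ≤ sG)
    (h2 : sH + c * t ≤ sG) (h3 : sH + 2 * t + 2 ≤ 2 * (l * t) + 2 * n) :
    c * ((l + c - 2) * n + 2) + (2 * l + c - 2) * sH ≤ (2 * l + c - 2) * sG := by
  have a1 := mul_nonneg hc (sub_nonneg.mpr h1)
  have a2 := mul_nonneg hc (sub_nonneg.mpr h3)
  have a3 := mul_nonneg (sub_nonneg.mpr hl) (sub_nonneg.mpr h2)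
  nlinarith

lemma arith_two (c l n sG : ℤ) (hc : 0 ≤ c) (hl : 1 ≤ l) (hn : 2 ≤ n)
    (h2 : l * n + c * n ≤ sG) :
    c * ((l + c - 2) * n + 2) + (2 * l + c - 2) * (l * n) ≤ (2 * l + c - 2) * sG := by
  have a0 : 0 ≤ 2 * l + c - 2 := by linarith
  have a1 := mul_nonneg a0 (sub_nonneg.mpr h2)
  have a2 : 2 ≤ l * n := by nlinarith
  have a3 := mul_nonneg hc (sub_nonneg.mpr a2)
  nlinarith

/-- second bound -/
theorem bound_two [Nonempty V] {k l : ℕ} (hl : 1 ≤ l) (hlk : l < k) {G : SimpleGraph V}
    (hG : KC k G) : ∃ H : SimpleGraph V, H ≤ G ∧ KC l H ∧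
      (k - l) * ((k - 2) * Fintype.card V + 2) + (k + l - 2) * ∑ v, dgc H v ≤
        (k + l - 2) * ∑ v, dgc G v := by
  classical
  obtain ⟨H, -, hHG, hH, hcrit⟩ := exists_minimal (M := ⊥) bot_le (hG.mono hlk.le)
  refine ⟨H, hHG, hH, ?_⟩
  have hHmin : ∀ v, l ≤ dgc H v := fun v => hH.min_degree v
  set W : Finset V := univ.filter fun v => l < dgc H v with hW
  set Dl : Finset V := univ.filter fun v => ¬ l < dgc H v with hDl
  have hcard : W.card + Dl.card = Fintype.card V := by
    rw [hW, hDl, card_filter_add_card_filter_not, card_univ]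
  have hDdeg : ∀ v ∈ Dl, dgc H v = l := by
    intro v hv
    rw [hDl, mem_filter] at hv
    have := hHmin v
    omega
  have hsum : ∀ f : V → ℕ, ∑ v, f v = ∑ v ∈ W, f v + ∑ v ∈ Dl, f v := by
    intro f
    rw [hW, hDl, sum_filter_add_sum_filter_not]
  -- the degree sum of H
  have hWsum : ∑ v ∈ W, dgc H v ≤ prs H.Adj W + l * Dl.card := by
    have h1 : ∀ v, dgc H v = nbr H.Adj W v + nbr H.Adj Dl v := by
      intro v
      unfold dgc nbr
      rw [← card_union_of_disjoint]
      · congr 1
        ext u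
        simp only [mem_union, mem_filter, mem_univ, true_and, hW, hDl]
        tauto
      · rw [disjoint_left]
        intro u hu hu'
        simp only [hW, hDl, mem_filter, mem_univ, true_and] at hu hu'
        exact hu'.1 hu.1
    have h2 : ∑ v ∈ W, nbr H.Adj Dl v = ∑ u ∈ Dl, nbr H.Adj W u := by
      unfold nbr
      simp_rw [card_filter]
      rw [sum_comm]
      refine sum_congr rfl fun u _ => sum_congr rfl fun v _ => ?_
      by_cases h : H.Adj v u
      · rw [if_pos h, if_pos h.symm]
      · rw [if_neg h, if_neg (fun hh => h hh.symm)]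
    have h3 : ∑ u ∈ Dl, nbr H.Adj W u ≤ l * Dl.card := by
      calc ∑ u ∈ Dl, nbr H.Adj W u ≤ ∑ _u ∈ Dl, l := by
            refine sum_le_sum fun u hu => ?_
            have h4 := h1 u
            have h5 := hDdeg u hu
            omega
        _ = l * Dl.card := by rw [sum_const, smul_eq_mul, mul_comm]
    rw [sum_congr rfl fun v _ => h1 v, sum_add_distrib, sum_nbr, h2]
    omega
  have hDsum : ∑ v ∈ Dl, dgc H v = l * Dl.card := by
    rw [sum_congr rfl fun v hv => hDdeg v hv, sum_const, smul_eq_mul, mul_comm]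
  have hforest : prs H.Adj W + 2 * Dl.card + 2 ≤ 2 * Fintype.card V ∨ W = ∅ := by
    rcases W.eq_empty_or_nonempty with hWe | hWn
    · exact Or.inr hWe
    · left
      have := forest_count H.Adj (fun v h => H.loopless.irrefl v h) (fun u v h => h.symm) W
        (fun C hCW hC => by
          obtain ⟨v, hv, h1⟩ := critical_forest hH hcrit C hC (fun v hv => Or.inl (by
            have := hCW hv
            rw [hW, mem_filter] at this
            exact this.2))
          refine ⟨v, hv, nbr_le_one fun a ha b hb h2 h3 => ?_⟩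
          exact h1 a ha b hb ⟨h2, fun hh => hh⟩ ⟨h3, fun hh => hh⟩) W subset_rfl hWn
      omega
  -- the degree sums
  have hG1 := sum_dgc_ge hG
  have hdiff : ∑ v, dgc H v + (k - l) * Dl.card ≤ ∑ v, dgc G v := by
    rw [hsum (fun v => dgc H v), hsum (fun v => dgc G v)]
    have a1 : ∑ v ∈ W, dgc H v ≤ ∑ v ∈ W, dgc G v := sum_le_sum fun v _ => dgc_mono hHG v
    have a2 : ∑ v ∈ Dl, dgc H v + (k - l) * Dl.card ≤ ∑ v ∈ Dl, dgc G v := by
      have : (k - l) * Dl.card = ∑ _v ∈ Dl, (k - l) := by
        rw [sum_const, smul_eq_mul, mul_comm]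
      rw [this, ← sum_add_distrib]
      refine sum_le_sum fun v hv => ?_
      have h4 := hDdeg v hv
      have h5 := hG.min_degree v
      omega
    omega
  have hHsum := hsum (fun v => dgc H v)
  have hn0 : 2 ≤ Fintype.card V := by
    have := hG.1
    omega
  obtain ⟨c, rfl⟩ : ∃ c, k = l + c := ⟨k - l, by omega⟩
  have hc : 1 ≤ c := by omega
  have e1 : l + c - l = c := by omega
  rw [e1] at hdiff ⊢
  have e2 : ((l + c - 2 : ℕ) : ℤ) = (l : ℤ) + c - 2 := by omega
  have e3 : ((l + c + l - 2 : ℕ) : ℤ) = 2 * (l : ℤ) + c - 2 := by omega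
  have goal : (c : ℤ) * (((l : ℤ) + c - 2) * (Fintype.card V : ℤ) + 2) +
      (2 * (l : ℤ) + c - 2) * ((∑ v, dgc H v : ℕ) : ℤ) ≤
      (2 * (l : ℤ) + c - 2) * ((∑ v, dgc G v : ℕ) : ℤ) := by
    rcases hforest with hf | hWe
    · have h1 : ∑ v, dgc H v + 2 * Dl.card + 2 ≤ 2 * (l * Dl.card) + 2 * Fintype.card V := by
        rw [hHsum, hDsum]
        omega
      exact arith_one c l _ Dl.card _ _ (by omega) (by omega) (by exact_mod_cast hG1)
        (by exact_mod_cast hdiff) (by exact_mod_cast h1)
    · rw [hWe, card_empty, zero_add] at hcard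
      rw [hWe, sum_empty, zero_add, hDsum, hcard] at hHsum
      rw [hHsum, hcard] at hdiff
      rw [hHsum]
      have := arith_two c l (Fintype.card V) (∑ v, dgc G v : ℕ) (by omega) (by omega)
        (by exact_mod_cast hn0) (by exact_mod_cast hdiff)
      push_cast at this ⊢
      exact this
  have goal' : ((c * ((l + c - 2) * Fintype.card V + 2) + (l + c + l - 2) * ∑ v, dgc H v : ℕ) : ℤ) ≤
      (((l + c + l - 2) * ∑ v, dgc G v : ℕ) : ℤ) := by
    rw [Nat.cast_add, Nat.cast_mul, Nat.cast_add, Nat.cast_mul, Nat.cast_mul, Nat.cast_mul, e2, e3]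
    exact goal
  exact_mod_cast goal'

end Pool.Agent.Work.MP_60abc6_co
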