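import Mathlib

set_option autoImplicit false

/-! The definitions of problem MP_60abc6_co. -/

namespace Pool.Agent.Work.MP_60abc6_co

/-- `G` is `k`-connected: it has more than `k` vertices, and the deletion of fewer than `k` vertices
leaves a connected graph. -/
def KConnected {V : Type*} [Fintype V] (k : ℕ) (G : SimpleGraph V) : Prop :=
  k < Fintype.card V ∧ ∀ S : Finset V, S.card < k → (G.induce {v | v ∉ S}).Connected

/-- `G` is `k`-edge-connected: it has at least two vertices, and the deletion of fewer than `k` edges
leaves a connected graph. -/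
def KEdgeConnected {V : Type*} [Fintype V] (k : ℕ) (G : SimpleGraph V) : Prop :=
  1 < Fintype.card V ∧
    ∀ F : Finset (Sym2 V), F.card < k → (G.deleteEdges (F : Set (Sym2 V))).Connected

/-- the largest `e` such that every `k`-connected graph of order `n` has a set of `e` edges whose
deletion leaves an `l`-connected graph -/
noncomputable def eKappa (n k l : ℕ) : ℕ :=
  sSup {e : ℕ | ∀ G : SimpleGraph (Fin n), KConnected k G →
    ∃ F : Finset (Sym2 (Fin n)), (F : Set (Sym2 (Fin n))) ⊆ G.edgeSet ∧ F.card = e ∧
      KConnected l (G.deleteEdges (F : Set (Sym2 (Fin n))))}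

/-- the largest `e` such that every `k`-edge-connected graph of order `n` has a set of `e` edges whose
deletion leaves an `l`-edge-connected graph -/
noncomputable def eLambda (n k l : ℕ) : ℕ :=
  sSup {e : ℕ | ∀ G : SimpleGraph (Fin n), KEdgeConnected k G →
    ∃ F : Finset (Sym2 (Fin n)), (F : Set (Sym2 (Fin n))) ⊆ G.edgeSet ∧ F.card = e ∧
      KEdgeConnected l (G.deleteEdges (F : Set (Sym2 (Fin n))))}

end Pool.Agent.Work.MP_60abc6_co
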