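import Mathlib
import Pool.Agent.Work.MP_60abc6_co.Defs
import Pool.Agent.Work.MP_60abc6_co.Split
import Pool.Agent.Work.MP_60abc6_co.Mader

set_option autoImplicit false

/-! The definitions in terms of separations, and the numbers in terms of edge counts. -/

namespace Pool.Agent.Work.MP_60abc6_co

open Finset

variable {V : Type*} [Fintype V] [DecidableEq V]

/-- a graph is connected iff no nonempty proper vertex set is closed -/
lemma connected_iff_cut {W : Type*} [Nonempty W] (G : SimpleGraph W) :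
    G.Connected ↔ ∀ X : Set W, X.Nonempty → X ≠ Set.univ → ∃ a ∈ X, ∃ b, b ∉ X ∧ G.Adj a b := by
  constructor
  · intro h X hX hXu
    by_contra hcon
    push Not at hcon
    apply hXu
    obtain ⟨x, hx⟩ := hX
    ext y
    simp only [Set.mem_univ, iff_true]
    obtain ⟨p⟩ := h.preconnected x y
    induction p with
    | nil => exact hx
    | cons hadj p ih =>
      refine ih ?_
      by_contra hb
      exact hcon _ hx _ hb hadj
  · intro h
    refine { preconnected := fun x y => ?_, nonempty := inferInstance }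
    by_contra hxy
    obtain ⟨a, ha, b, hb, hab⟩ := h {z | G.Reachable x z} ⟨x, SimpleGraph.Reachable.refl x⟩
      (fun hh => hxy (by
        have : y ∈ {z | G.Reachable x z} := hh ▸ Set.mem_univ y
        exact this))
    exact hb (SimpleGraph.Reachable.trans ha hab.reachable)

lemma KConnected_iff_KC {k : ℕ} {G : SimpleGraph V} : KConnected k G ↔ KC k G := by
  unfold KConnected KC
  constructor
  · rintro ⟨h1, h2⟩
    refine ⟨h1, fun A B hA hB hAB hs => ?_⟩
    by_contra hlt
    push Not at hlt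
    have h3 := h2 _ hlt
    obtain ⟨a, ha⟩ := hA
    obtain ⟨b, hb⟩ := hB
    have haS : a ∉ univ \ (A ∪ B) := by
      rw [mem_sdiff, not_and_not_right]
      exact fun _ => mem_union_left _ ha
    have hbS : b ∉ univ \ (A ∪ B) := by
      rw [mem_sdiff, not_and_not_right]
      exact fun _ => mem_union_right _ hb
    have hne : Nonempty {v | v ∉ univ \ (A ∪ B)} := ⟨⟨a, haS⟩⟩
    rw [connected_iff_cut] at h3
    obtain ⟨x, hx, y, hy, hxy⟩ := h3 (Subtype.val ⁻¹' (A : Set V)) ⟨⟨a, haS⟩, ha⟩ (by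
      intro hh
      have h5 : (⟨b, hbS⟩ : {v | v ∉ univ \ (A ∪ B)}) ∈ Subtype.val ⁻¹' (A : Set V) := by
        rw [hh]
        exact Set.mem_univ _
      exact (disjoint_left.mp hAB h5) hb)
    have hyB : (y : V) ∈ B := by
      have h4 : (y : V) ∉ univ \ (A ∪ B) := y.2
      rw [mem_sdiff, not_and_not_right] at h4
      have h5 := h4 (mem_univ _)
      rw [mem_union] at h5
      exact h5.resolve_left hy
    exact hs _ hx _ hyB hxy
  · rintro ⟨h1, h2⟩
    refine ⟨h1, fun S hS => ?_⟩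
    have hne : Nonempty {v | v ∉ S} := by
      by_contra hcon
      rw [not_nonempty_iff] at hcon
      have : (univ : Finset V) ⊆ S := fun v _ => by
        by_contra hv
        exact hcon.false ⟨v, hv⟩
      have := card_le_card this
      rw [card_univ] at this
      omega
    rw [connected_iff_cut]
    intro X hX hXu
    by_contra hcon
    push Not at hcon
    classical
    set A : Finset V := univ.filter fun v => ∃ h : v ∉ S, (⟨v, h⟩ : {v | v ∉ S}) ∈ X with hA
    set B : Finset V := univ.filter fun v => ∃ h : v ∉ S, (⟨v, h⟩ : {v | v ∉ S}) ∉ X with hB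
    have h3 := h2 A B ?_ ?_ ?_ ?_
    · refine absurd (h3.trans (card_le_card fun v hv => ?_)) (not_le.mpr hS)
      rw [mem_sdiff, mem_union, not_or, hA, hB, mem_filter, mem_filter] at hv
      by_contra hvS
      by_cases hvX : (⟨v, hvS⟩ : {v | v ∉ S}) ∈ X
      · exact hv.2.1 ⟨mem_univ _, hvS, hvX⟩
      · exact hv.2.2 ⟨mem_univ _, hvS, hvX⟩
    · obtain ⟨x, hx⟩ := hX
      exact ⟨x, mem_filter.mpr ⟨mem_univ _, x.2, hx⟩⟩
    · rw [Set.ne_univ_iff_exists_notMem] at hXu
      obtain ⟨x, hx⟩ := hXu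
      exact ⟨x, mem_filter.mpr ⟨mem_univ _, x.2, hx⟩⟩
    · rw [disjoint_left]
      intro v hv hv'
      rw [hA, mem_filter] at hv
      rw [hB, mem_filter] at hv'
      obtain ⟨-, h4, h5⟩ := hv
      obtain ⟨-, h6, h7⟩ := hv'
      exact h7 h5
    · intro a ha b hb hab
      rw [hA, mem_filter] at ha
      rw [hB, mem_filter] at hb
      obtain ⟨-, h4, h5⟩ := ha
      obtain ⟨-, h6, h7⟩ := hb
      exact hcon _ h5 _ h7 hab

open Classical in
/-- the number of edges leaving `X` -/
noncomputable def dX (G : SimpleGraph V) (X : Finset V) : ℕ :=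
  ((X ×ˢ (univ \ X)).filter fun p => G.Adj p.1 p.2).card

/-- `k`-edge-connectivity in terms of cuts -/
def EC (k : ℕ) (G : SimpleGraph V) : Prop :=
  1 < Fintype.card V ∧ ∀ X : Finset V, X.Nonempty → X ≠ univ → k ≤ dX G X

lemma KEdgeConnected_iff_EC {k : ℕ} {G : SimpleGraph V} : KEdgeConnected k G ↔ EC k G := by
  classical
  unfold KEdgeConnected EC
  constructor
  · rintro ⟨h1, h2⟩
    refine ⟨h1, fun X hX hXu => ?_⟩
    by_contra hlt
    push Not at hlt
    set F : Finset (Sym2 V) := ((X ×ˢ (univ \ X)).filter fun p => G.Adj p.1 p.2).image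
      (fun p => s(p.1, p.2)) with hF
    have hFc : F.card < k := lt_of_le_of_lt card_image_le (by
      unfold dX at hlt
      convert hlt)
    have : Nonempty V := ⟨hX.choose⟩
    have h3 := h2 F hFc
    rw [connected_iff_cut] at h3
    obtain ⟨a, ha, b, hb, hab⟩ := h3 (X : Set V) hX (fun hh => hXu (by
      rwa [coe_eq_univ] at hh))
    rw [SimpleGraph.deleteEdges_adj] at hab
    refine hab.2 ?_
    rw [mem_coe] at ha hb
    rw [mem_coe, hF, mem_image]
    exact ⟨(a, b), mem_filter.mpr ⟨mem_product.mpr ⟨ha, mem_sdiff.mpr ⟨mem_univ _, hb⟩⟩, hab.1⟩, rfl⟩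
  · rintro ⟨h1, h2⟩
    refine ⟨h1, fun F hF => ?_⟩
    have : Nonempty V := Fintype.card_pos_iff.mp (by omega)
    rw [connected_iff_cut]
    intro X hX hXu
    by_contra hcon
    push Not at hcon
    have h3 := h2 (univ.filter fun v => v ∈ X) (by
      obtain ⟨x, hx⟩ := hX
      exact ⟨x, mem_filter.mpr ⟨mem_univ _, hx⟩⟩) (by
      intro hh
      apply hXu
      ext x
      simp only [Set.mem_univ, iff_true]
      have h5 : x ∈ (univ.filter fun v => v ∈ X) := by
        rw [hh]
        exact mem_univ x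
      exact (mem_filter.mp h5).2)
    refine absurd (h3.trans ?_) (not_le.mpr hF)
    unfold dX
    refine card_le_card_of_injOn (fun p => s(p.1, p.2)) ?_ ?_
    · intro p hp
      rw [mem_coe, mem_filter, mem_product, mem_sdiff] at hp
      simp only [mem_filter, mem_univ, true_and] at hp
      have h4 := hcon p.1 hp.1.1 p.2 hp.1.2
      rw [SimpleGraph.deleteEdges_adj, not_and_not_right] at h4
      exact h4 hp.2
    · intro p hp q hq hpq
      rw [mem_coe, mem_filter, mem_product, mem_sdiff] at hp hq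
      simp only [mem_filter, mem_univ, true_and] at hp hq
      simp only [Sym2.eq_iff] at hpq
      rcases hpq with ⟨h5, h6⟩ | ⟨h5, h6⟩
      · exact Prod.ext h5 h6
      · exact absurd (h5 ▸ hp.1.1) hq.1.2

/-- number of edges -/
noncomputable def ec (G : SimpleGraph V) : ℕ := G.edgeSet.ncard

lemma two_mul_ec (G : SimpleGraph V) : 2 * ec G = ∑ v, dgc G v := by
  classical
  unfold ec
  rw [Set.ncard_eq_toFinset_card', ← SimpleGraph.edgeFinset, ← SimpleGraph.sum_degrees_eq_twice_card_edges]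
  refine sum_congr rfl fun v _ => ?_
  unfold dgc SimpleGraph.degree
  congr 1
  ext u
  rw [SimpleGraph.mem_neighborFinset, mem_filter]
  simp

lemma ec_mono {G H : SimpleGraph V} (h : H ≤ G) : ec H ≤ ec G := by
  unfold ec
  exact Set.ncard_le_ncard (SimpleGraph.edgeSet_subset_edgeSet.mpr h) (Set.toFinite _)

lemma deleteEdges_sdiff {G H : SimpleGraph V} (h : H ≤ G) :
    G.deleteEdges (G.edgeSet \ H.edgeSet) = H := by
  ext u v
  rw [SimpleGraph.deleteEdges_adj, Set.mem_sdiff, SimpleGraph.mem_edgeSet, SimpleGraph.mem_edgeSet]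
  constructor
  · rintro ⟨h1, h2⟩
    by_contra h3
    exact h2 ⟨h1, h3⟩
  · intro h1
    exact ⟨h h1, fun h2 => h2.2 h1⟩

/-- a monotone graph property, and a subgraph with few edges -/
lemma exists_delete {P : SimpleGraph V → Prop} (hmono : ∀ H H' : SimpleGraph V, H ≤ H' → P H → P H')
    {G H : SimpleGraph V} (hHG : H ≤ G) (hH : P H) {e : ℕ} (he : ec H + e ≤ ec G) :
    ∃ F : Finset (Sym2 V), (F : Set (Sym2 V)) ⊆ G.edgeSet ∧ F.card = e ∧
      P (G.deleteEdges (F : Set (Sym2 V))) := by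
  classical
  have hsub : H.edgeSet ⊆ G.edgeSet := SimpleGraph.edgeSet_subset_edgeSet.mpr hHG
  have h1 : (G.edgeSet \ H.edgeSet).ncard + H.edgeSet.ncard = G.edgeSet.ncard :=
    Set.ncard_sdiff_add_ncard_of_subset hsub (Set.toFinite _)
  unfold ec at he
  obtain ⟨F, hF, hFe⟩ := exists_subset_card_eq (s := (G.edgeSet \ H.edgeSet).toFinset) (n := e) (by
    rw [← Set.ncard_eq_toFinset_card']
    omega)
  have hFsub : (F : Set (Sym2 V)) ⊆ G.edgeSet \ H.edgeSet := by
    intro x hx
    exact Set.mem_toFinset.mp (hF hx)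
  refine ⟨F, fun x hx => (hFsub hx).1, hFe, hmono H _ ?_ hH⟩
  rw [← deleteEdges_sdiff hHG]
  intro u v huv
  rw [SimpleGraph.deleteEdges_adj] at huv ⊢
  exact ⟨huv.1, fun h2 => huv.2 (hFsub h2)⟩

lemma ec_deleteEdges {G : SimpleGraph V} {F : Finset (Sym2 V)} (hF : (F : Set (Sym2 V)) ⊆ G.edgeSet) :
    ec (G.deleteEdges (F : Set (Sym2 V))) + F.card = ec G := by
  unfold ec
  rw [SimpleGraph.edgeSet_deleteEdges, ← Set.ncard_coe_finset F]
  exact Set.ncard_sdiff_add_ncard_of_subset hF (Set.toFinite _)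

/-- the general form of the two numbers -/
lemma le_sSup_delete {n : ℕ} {P Q : SimpleGraph (Fin n) → Prop}
    (hmono : ∀ H H' : SimpleGraph (Fin n), H ≤ H' → P H → P H') (hQ : ∃ G, Q G) {e : ℕ}
    (h : ∀ G, Q G → ∃ H, H ≤ G ∧ P H ∧ ec H + e ≤ ec G) :
    e ≤ sSup {e : ℕ | ∀ G : SimpleGraph (Fin n), Q G →
      ∃ F : Finset (Sym2 (Fin n)), (F : Set (Sym2 (Fin n))) ⊆ G.edgeSet ∧ F.card = e ∧
        P (G.deleteEdges (F : Set (Sym2 (Fin n))))} := by
  refine le_csSup ?_ ?_
  · obtain ⟨G, hG⟩ := hQ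
    refine ⟨ec G, fun e he => ?_⟩
    obtain ⟨F, hF, hFe, -⟩ := he G hG
    have := ec_deleteEdges hF
    omega
  · intro G hG
    obtain ⟨H, h1, h2, h3⟩ := h G hG
    exact exists_delete hmono h1 h2 h3

lemma sSup_delete_le {n : ℕ} {P Q : SimpleGraph (Fin n) → Prop} {e : ℕ} {G : SimpleGraph (Fin n)}
    (hG : Q G) (h : ∀ H, H ≤ G → P H → ec G ≤ ec H + e) (hPQ : ∀ G, Q G → P G) :
    sSup {e : ℕ | ∀ G : SimpleGraph (Fin n), Q G →
      ∃ F : Finset (Sym2 (Fin n)), (F : Set (Sym2 (Fin n))) ⊆ G.edgeSet ∧ F.card = e ∧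
        P (G.deleteEdges (F : Set (Sym2 (Fin n))))} ≤ e := by
  refine csSup_le ⟨0, fun G hG => ⟨∅, ?_, card_empty, ?_⟩⟩ fun e' he' => ?_
  · rw [coe_empty]
    exact Set.empty_subset _
  · rw [coe_empty, SimpleGraph.deleteEdges_empty]
    exact hPQ G hG
  · obtain ⟨F, hF, hFe, h1⟩ := he' G hG
    have h2 := ec_deleteEdges hF
    have h3 := h _ (SimpleGraph.deleteEdges_le _) h1
    omega

lemma KC_top {k : ℕ} (hk : k < Fintype.card V) : KC k (⊤ : SimpleGraph V) := by
  refine ⟨hk, fun A B hA hB hAB hs => ?_⟩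
  obtain ⟨a, ha⟩ := hA
  obtain ⟨b, hb⟩ := hB
  refine absurd ?_ (hs a ha b hb)
  rw [SimpleGraph.top_adj]
  rintro rfl
  exact disjoint_left.mp hAB ha hb

end Pool.Agent.Work.MP_60abc6_co
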