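import Mathlib
import Pool.Agent.Work.MP_60abc6_co.Conv

set_option autoImplicit false

/-! Edge cuts: submodularity and the number of critical edges. -/

namespace Pool.Agent.Work.MP_60abc6_co

open Finset

variable {V : Type*} [Fintype V] [DecidableEq V]

open Classical in
lemma dX_eq_sum (G : SimpleGraph V) (X : Finset V) :
    dX G X = ∑ p : V × V, if G.Adj p.1 p.2 ∧ p.1 ∈ X ∧ p.2 ∉ X then 1 else 0 := by
  unfold dX
  rw [← card_filter]
  congr 1
  ext p
  simp only [mem_filter, mem_product, mem_sdiff, mem_univ, true_and]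
  tauto

lemma dX_submod (G : SimpleGraph V) (X Y : Finset V) :
    dX G (X ∩ Y) + dX G (X ∪ Y) ≤ dX G X + dX G Y := by
  classical
  rw [dX_eq_sum, dX_eq_sum, dX_eq_sum, dX_eq_sum, ← sum_add_distrib, ← sum_add_distrib]
  refine sum_le_sum fun p _ => ?_
  simp only [mem_inter, mem_union]
  by_cases h : G.Adj p.1 p.2 <;> by_cases h1 : p.1 ∈ X <;> by_cases h2 : p.1 ∈ Y <;>
    by_cases h3 : p.2 ∈ X <;> by_cases h4 : p.2 ∈ Y <;> simp [h, h1, h2, h3, h4]

lemma dX_compl (G : SimpleGraph V) (X : Finset V) : dX G Xᶜ = dX G X := by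
  classical
  unfold dX
  refine card_bij (fun p _ => (p.2, p.1)) ?_ ?_ ?_
  · intro p hp
    simp only [mem_filter, mem_product, mem_sdiff, mem_univ, true_and, mem_compl, not_not] at hp ⊢
    exact ⟨⟨hp.1.2, hp.1.1⟩, hp.2.symm⟩
  · intro p _ q _ h
    simp only [Prod.mk.injEq] at h
    exact Prod.ext h.2 h.1
  · intro p hp
    simp only [mem_filter, mem_product, mem_sdiff, mem_univ, true_and, mem_compl, not_not] at hp ⊢
    exact ⟨(p.2, p.1), ⟨⟨hp.1.2, hp.1.1⟩, hp.2.symm⟩, rfl⟩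

lemma dX_posmod (G : SimpleGraph V) (X Y : Finset V) :
    dX G (X \ Y) + dX G (Y \ X) ≤ dX G X + dX G Y := by
  have h := dX_submod G X Yᶜ
  rw [dX_compl] at h
  have h1 : X ∩ Yᶜ = X \ Y := by
    ext v; simp
  have h2 : X ∪ Yᶜ = (Y \ X)ᶜ := by
    ext v; simp; tauto
  rwa [h1, h2, dX_compl] at h

lemma dX_sdiff_le (G : SimpleGraph V) (X Y : Finset V) :
    dX G (X \ Y) ≤ dX G X + dX G Y := by
  have := dX_posmod G X Y
  omega

lemma dX_split {M H : SimpleGraph V} (hMH : M ≤ H) (X : Finset V) :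
    dX H X = dX M X + dX (H \ M) X := by
  classical
  rw [dX_eq_sum, dX_eq_sum, dX_eq_sum, ← sum_add_distrib]
  refine sum_congr rfl fun p _ => ?_
  rw [SimpleGraph.sdiff_adj]
  by_cases h : M.Adj p.1 p.2
  · simp [h, hMH h]
  · simp [h]

lemma mul_le_dX {M : SimpleGraph V} {l : ℕ} (hM : ∀ v, l ≤ dgc M v) (X : Finset V) :
    (l + 1) * X.card ≤ X.card * X.card + dX M X := by
  classical
  have h1 : ∀ v ∈ X, l + 1 ≤ X.card + ((univ \ X).filter (M.Adj v)).card := by
    intro v hv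
    have h2 := hM v
    have h3 : dgc M v ≤ (X.erase v).card + ((univ \ X).filter (M.Adj v)).card := by
      unfold dgc
      refine le_trans (card_le_card (t := X.erase v ∪ (univ \ X).filter (M.Adj v)) fun u hu => ?_)
        (card_union_le _ _)
      rw [mem_filter] at hu
      rw [mem_union, mem_erase, mem_filter, mem_sdiff]
      by_cases huX : u ∈ X
      · left
        exact ⟨fun hh => M.loopless.irrefl v (hh ▸ hu.2), huX⟩
      · right
        exact ⟨⟨mem_univ _, huX⟩, hu.2⟩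
    have h4 := card_erase_add_one hv
    omega
  have h5 : (l + 1) * X.card ≤ X.card * X.card + ∑ v ∈ X, ((univ \ X).filter (M.Adj v)).card := by
    calc (l + 1) * X.card = ∑ _v ∈ X, (l + 1) := by rw [sum_const, smul_eq_mul, mul_comm]
      _ ≤ ∑ v ∈ X, (X.card + ((univ \ X).filter (M.Adj v)).card) := sum_le_sum h1
      _ = _ := by rw [sum_add_distrib, sum_const, smul_eq_mul]
  have h6 : dX M X = ∑ v ∈ X, ((univ \ X).filter (M.Adj v)).card := by
    unfold dX
    rw [card_filter, sum_product]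
    refine sum_congr rfl fun v _ => ?_
    rw [card_filter]
  rw [h6]
  exact h5

/-- a minimum cut -/
def Tight (H : SimpleGraph V) (l : ℕ) (X : Finset V) : Prop :=
  X.Nonempty ∧ X ≠ univ ∧ dX H X = l

section

variable {H : SimpleGraph V} {l : ℕ}

lemma Tight.compl {X : Finset V} (h : Tight H l X) : Tight H l Xᶜ := by
  refine ⟨?_, ?_, ?_⟩
  · rw [nonempty_iff_ne_empty, ne_eq, compl_eq_empty_iff]
    exact h.2.1
  · intro hh
    have : X = ∅ := by
      rw [← compl_compl X, hh, compl_univ]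
    exact h.1.ne_empty this
  · rw [dX_compl]
    exact h.2.2

lemma Tight.inter_union (hH : EC l H) {X Y : Finset V} (hX : Tight H l X) (hY : Tight H l Y)
    (h1 : (X ∩ Y).Nonempty) (h2 : X ∪ Y ≠ univ) : Tight H l (X ∩ Y) ∧ Tight H l (X ∪ Y) := by
  have h3 := dX_submod H X Y
  have h4 : X ∩ Y ≠ univ := fun hh => by
    apply h2
    rw [← univ_subset_iff, ← hh]
    exact inter_subset_union
  have h5 : (X ∪ Y).Nonempty := h1.mono inter_subset_union
  have h6 := hH.2 _ h1 h4
  have h7 := hH.2 _ h5 h2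
  have h8 := hX.2.2
  have h9 := hY.2.2
  exact ⟨⟨h1, h4, by omega⟩, h5, h2, by omega⟩

lemma Tight.sdiff (hH : EC l H) {X Y : Finset V} (hX : Tight H l X) (hY : Tight H l Y)
    (h1 : (X \ Y).Nonempty) (h2 : (Y \ X).Nonempty) : Tight H l (X \ Y) ∧ Tight H l (Y \ X) := by
  have h3 := dX_posmod H X Y
  have h4 : X \ Y ≠ univ := fun hh => hX.2.1 (by
    rw [← univ_subset_iff, ← hh]
    exact sdiff_subset)
  have h5 : Y \ X ≠ univ := fun hh => hY.2.1 (by
    rw [← univ_subset_iff, ← hh]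
    exact sdiff_subset)
  have h6 := hH.2 _ h1 h4
  have h7 := hH.2 _ h2 h5
  have h8 := hX.2.2
  have h9 := hY.2.2
  exact ⟨⟨h1, h4, by omega⟩, h2, h5, by omega⟩

/-- the critical edge `x y` gives a tight set -/
lemma exists_tight (hH : EC l H) {x y : V} (hcrit : ¬ EC l (H.deleteEdges {s(x, y)})) :
    ∃ X, Tight H l X ∧ x ∈ X ∧ y ∉ X := by
  classical
  unfold EC at hcrit
  rw [not_and] at hcrit
  have h1 := hcrit hH.1
  push Not at h1
  obtain ⟨X, hX, hXu, hlt⟩ := h1
  have h2 := hH.2 X hX hXu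
  -- the two cuts differ at the pairs `(x, y)`, `(y, x)`
  have h3 : dX H X ≤ dX (H.deleteEdges {s(x, y)}) X +
      (({(x, y), (y, x)} : Finset (V × V)).filter fun p => p.1 ∈ X ∧ p.2 ∉ X).card := by
    unfold dX
    refine le_trans (card_le_card fun p hp => ?_) (card_union_le _ _)
    simp only [mem_filter, mem_product, mem_sdiff] at hp
    simp only [mem_union, mem_filter, mem_product, mem_sdiff, SimpleGraph.deleteEdges_adj,
      mem_insert, mem_singleton, Set.mem_singleton_iff]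
    by_cases hpe : s(p.1, p.2) = s(x, y)
    · right
      refine ⟨?_, hp.1.1, hp.1.2.2⟩
      rw [Sym2.eq_iff] at hpe
      rcases hpe with ⟨h5, h6⟩ | ⟨h5, h6⟩
      · exact Or.inl (Prod.ext h5 h6)
      · exact Or.inr (Prod.ext h5 h6)
    · left
      exact ⟨hp.1, hp.2, hpe⟩
  have h4 : (({(x, y), (y, x)} : Finset (V × V)).filter fun p => p.1 ∈ X ∧ p.2 ∉ X).card ≤ 1 := by
    rw [card_le_one]
    intro p hp q hq
    rw [mem_filter, mem_insert, mem_singleton] at hp hq
    rcases hp with ⟨rfl | rfl, hp1, hp2⟩ <;> rcases hq with ⟨rfl | rfl, hq1, hq2⟩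
    · rfl
    · exact absurd hq1 hp2
    · exact absurd hq1 hp2
    · rfl
  have h5 : dX H X = l := by omega
  have h6 : (({(x, y), (y, x)} : Finset (V × V)).filter fun p => p.1 ∈ X ∧ p.2 ∉ X).Nonempty := by
    rw [← card_pos]
    omega
  obtain ⟨p, hp⟩ := h6
  rw [mem_filter, mem_insert, mem_singleton] at hp
  rcases hp with ⟨rfl | rfl, hp1, hp2⟩
  · exact ⟨X, ⟨hX, hXu, h5⟩, hp1, hp2⟩
  · exact ⟨Xᶜ, Tight.compl ⟨hX, hXu, h5⟩, mem_compl.mpr hp2, fun hh => mem_compl.mp hh hp1⟩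

open Classical in
/-- the edges of `D` with an end in `X` -/
noncomputable def touch (D : SimpleGraph V) (X : Finset V) : Finset (Sym2 V) :=
  univ.filter fun e => e ∈ D.edgeSet ∧ ∃ v ∈ X, v ∈ e

lemma mem_touch {D : SimpleGraph V} {X : Finset V} {u v : V} :
    s(u, v) ∈ touch D X ↔ D.Adj u v ∧ (u ∈ X ∨ v ∈ X) := by
  unfold touch
  simp only [mem_filter, SimpleGraph.mem_edgeSet]
  constructor
  · rintro ⟨-, h, w, hw, hw'⟩
    rw [Sym2.mem_iff] at hw'
    rcases hw' with rfl | rfl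
    · exact ⟨h, Or.inl hw⟩
    · exact ⟨h, Or.inr hw⟩
  · rintro ⟨h, h1 | h1⟩
    · exact ⟨mem_univ _, h, u, h1, Sym2.mem_mk_left _ _⟩
    · exact ⟨mem_univ _, h, v, h1, Sym2.mem_mk_right _ _⟩

lemma touch_mono {D : SimpleGraph V} {X Y : Finset V} (h : X ⊆ Y) : touch D X ⊆ touch D Y := by
  intro e
  induction e using Sym2.ind with
  | _ u v =>
    rw [mem_touch, mem_touch]
    rintro ⟨h1, h2 | h2⟩
    · exact ⟨h1, Or.inl (h h2)⟩
    · exact ⟨h1, Or.inr (h h2)⟩

lemma touch_union {D : SimpleGraph V} {X Y : Finset V} : touch D (X ∪ Y) ⊆ touch D X ∪ touch D Y := by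
  intro e
  induction e using Sym2.ind with
  | _ u v =>
    rw [mem_union, mem_touch, mem_touch, mem_touch, mem_union, mem_union]
    tauto

end

end Pool.Agent.Work.MP_60abc6_co
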