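import Mathlib
import Pool.Agent.Work.MP_60abc6_co.Cuts

set_option autoImplicit false

/-! The number of critical edges outside a subgraph of minimum degree at least `l`. -/

namespace Pool.Agent.Work.MP_60abc6_co

open Finset

variable {V : Type*} [Fintype V] [DecidableEq V]

section

variable {M H : SimpleGraph V} {l : ℕ}

/-- an edge of `D` inside a tight set crosses a smaller tight set -/
lemma inner_tight (hH : EC l H) (hD : ∀ x y, (H \ M).Adj x y → ∃ X, Tight H l X ∧ x ∈ X ∧ y ∉ X)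
    {X : Finset V} (hX : Tight H l X) {x y : V} (hx : x ∈ X) (hy : y ∈ X) (hxy : (H \ M).Adj x y) :
    ∃ Y, Y ⊆ X ∧ Y ≠ X ∧ Tight H l Y ∧ ((x ∈ Y ∧ y ∉ Y) ∨ (y ∈ Y ∧ x ∉ Y)) := by
  obtain ⟨Y, hY, hxY, hyY⟩ := hD x y hxy
  by_cases hu : X ∪ Y = univ
  · refine ⟨Yᶜ, ?_, ?_, hY.compl, Or.inr ⟨mem_compl.mpr hyY, fun hh => mem_compl.mp hh hxY⟩⟩
    · intro v hv
      have h1 : v ∈ X ∪ Y := hu ▸ mem_univ v
      rw [mem_union] at h1
      exact h1.resolve_right (mem_compl.mp hv)
    · intro hh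
      rw [← hh] at hx
      exact mem_compl.mp hx hxY
  · refine ⟨X ∩ Y, inter_subset_left, ?_,
      (hX.inter_union hH hY ⟨x, mem_inter.mpr ⟨hx, hxY⟩⟩ hu).1,
      Or.inl ⟨mem_inter.mpr ⟨hx, hxY⟩, fun hh => hyY (mem_inter.mp hh).2⟩⟩
    intro hh
    rw [← hh] at hy
    exact hyY (mem_inter.mp hy).2

/-- a tight set with a crossing edge of `D` is large -/
lemma crossing_card (hM : ∀ v, l ≤ dgc M v) (hMH : M ≤ H) {X : Finset V} (hX : Tight H l X)
    {x y : V} (hx : x ∈ X) (hy : y ∉ X) (hxy : (H \ M).Adj x y) : l + 1 ≤ X.card := by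
  classical
  have h1 := mul_le_dX hM X
  have h2 := dX_split hMH X
  have h3 : 1 ≤ dX (H \ M) X := by
    unfold dX
    rw [Nat.one_le_iff_ne_zero, ← Nat.pos_iff_ne_zero, card_pos]
    exact ⟨(x, y), by
      simp only [mem_filter, mem_product, mem_sdiff, mem_univ, true_and]
      exact ⟨⟨hx, hy⟩, hxy⟩⟩
  have h4 := hX.2.2
  have h5 : 1 ≤ X.card := card_pos.mpr hX.1
  by_contra hcon
  push Not at hcon
  have h6 : dX M X + 1 ≤ l := by omega
  obtain ⟨a, ha⟩ : ∃ a, X.card = a + 1 := ⟨X.card - 1, by omega⟩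
  obtain ⟨b, hb⟩ : ∃ b, l = a + 1 + b := ⟨l - (a + 1), by omega⟩
  rw [ha, hb] at h1
  rw [hb] at h6
  nlinarith [Nat.zero_le (a * b)]

lemma big_card (hH : EC l H) (hM : ∀ v, l ≤ dgc M v) (hMH : M ≤ H)
    (hD : ∀ x y, (H \ M).Adj x y → ∃ X, Tight H l X ∧ x ∈ X ∧ y ∉ X)
    {X : Finset V} (hX : Tight H l X) (hb : (touch (H \ M) X).Nonempty) : l + 1 ≤ X.card := by
  obtain ⟨e, he⟩ := hb
  induction e using Sym2.ind with
  | _ u v =>
    rw [mem_touch] at he
    by_cases hu : u ∈ X <;> by_cases hv : v ∈ X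
    · obtain ⟨Y, hYX, -, hY, h1 | h1⟩ := inner_tight hH hD hX hu hv he.1
      · exact (crossing_card hM hMH hY h1.1 h1.2 he.1).trans (card_le_card hYX)
      · exact (crossing_card hM hMH hY h1.1 h1.2 he.1.symm).trans (card_le_card hYX)
    · exact crossing_card hM hMH hX hu hv he.1
    · exact crossing_card hM hMH hX hv hu he.1.symm
    · rcases he.2 with h | h
      · exact absurd h hu
      · exact absurd h hv

/-- the children of a tight set -/
lemma children (hH : EC l H)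
    (hD : ∀ x y, (H \ M).Adj x y → ∃ X, Tight H l X ∧ x ∈ X ∧ y ∉ X)
    {X : Finset V} (hX : Tight H l X) :
    ∃ 𝒴 : Finset (Finset V), (∀ Y ∈ 𝒴, Y ⊆ X ∧ Y ≠ X ∧ Tight H l Y ∧ (touch (H \ M) Y).Nonempty) ∧
      (∀ Y ∈ 𝒴, ∀ Y' ∈ 𝒴, Y ≠ Y' → Disjoint Y Y') ∧
      (touch (H \ M) X).card ≤ ∑ Y ∈ 𝒴, (touch (H \ M) Y).card + dX (H \ M) X := by
  classical
  set D := H \ M with hDdef
  set 𝒜 : Finset (Finset V) := X.powerset.filter
    (fun Y => Y ≠ X ∧ Tight H l Y ∧ (touch D Y).Nonempty) with h𝒜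
  set 𝒴 : Finset (Finset V) := 𝒜.filter (fun Y => ∀ Y' ∈ 𝒜, Y ⊆ Y' → Y' = Y) with h𝒴
  have hmem : ∀ Y ∈ 𝒜, Y ⊆ X ∧ Y ≠ X ∧ Tight H l Y ∧ (touch D Y).Nonempty := by
    intro Y hY
    rw [h𝒜, mem_filter, mem_powerset] at hY
    exact hY
  have hmax : ∀ Y ∈ 𝒜, ∃ Z ∈ 𝒴, Y ⊆ Z := by
    intro Y hY
    obtain ⟨Z, hYZ, hZ⟩ := 𝒜.exists_le_maximal hY
    refine ⟨Z, ?_, hYZ⟩
    rw [h𝒴, mem_filter]
    exact ⟨hZ.1, fun Y' hY' hle => (hZ.eq_of_le hY' hle).symm⟩
  by_cases hpd : ∀ Y1 ∈ 𝒴, ∀ Y2 ∈ 𝒴, Y1 ≠ Y2 → Disjoint Y1 Y2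
  · -- the maximal ones are disjoint
    refine ⟨𝒴, fun Y hY => hmem Y (mem_of_mem_filter Y hY), hpd, ?_⟩
    set W : Finset V := 𝒴.biUnion (fun a => a) with hW
    set E : Finset (Sym2 V) := (((X \ W) ×ˢ (univ \ X)).filter fun p => D.Adj p.1 p.2).image
      (fun p => s(p.1, p.2)) with hE
    have hs : E.card ≤ dX D X := by
      refine card_image_le.trans ?_
      unfold dX
      refine card_le_card fun p hp => ?_
      simp only [mem_filter, mem_product] at hp ⊢
      exact ⟨⟨(mem_sdiff.mp hp.1.1).1, hp.1.2⟩, hp.2⟩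
    have hcov : touch D X ⊆ 𝒴.biUnion (touch D) ∪ E := by
      intro e
      induction e using Sym2.ind with
      | _ u v =>
        intro he
        rw [mem_touch] at he
        rw [mem_union, mem_biUnion]
        have key : ∀ Y, Y ⊆ X → Y ≠ X → Tight H l Y → s(u, v) ∈ touch D Y →
            ∃ a ∈ 𝒴, s(u, v) ∈ touch D a := by
          intro Y h1 h2 h3 h4
          have h5 : Y ∈ 𝒜 := by
            rw [h𝒜, mem_filter, mem_powerset]
            exact ⟨h1, h2, h3, ⟨_, h4⟩⟩
          obtain ⟨Z, hZ, hYZ⟩ := hmax Y h5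
          exact ⟨Z, hZ, touch_mono hYZ h4⟩
        have keyW : ∀ w, w ∈ W → (w = u ∨ w = v) → ∃ a ∈ 𝒴, s(u, v) ∈ touch D a := by
          intro w hw hwe
          rw [hW, mem_biUnion] at hw
          obtain ⟨Y, hY, hwY⟩ := hw
          refine ⟨Y, hY, ?_⟩
          rw [mem_touch]
          rcases hwe with rfl | rfl
          · exact ⟨he.1, Or.inl hwY⟩
          · exact ⟨he.1, Or.inr hwY⟩
        by_cases hu : u ∈ X <;> by_cases hv : v ∈ X
        · left
          obtain ⟨Y, h1, h2, h3, h4⟩ := inner_tight hH hD hX hu hv he.1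
          refine key Y h1 h2 h3 ?_
          rw [mem_touch]
          rcases h4 with h4 | h4
          · exact ⟨he.1, Or.inl h4.1⟩
          · exact ⟨he.1, Or.inr h4.1⟩
        · by_cases huW : u ∈ W
          · left
            exact keyW u huW (Or.inl rfl)
          · right
            rw [hE, mem_image]
            exact ⟨(u, v), by
              simp only [mem_filter, mem_product, mem_sdiff, mem_univ, true_and]
              exact ⟨⟨⟨hu, huW⟩, hv⟩, he.1⟩, rfl⟩
        · by_cases hvW : v ∈ W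
          · left
            exact keyW v hvW (Or.inr rfl)
          · right
            rw [hE, mem_image]
            exact ⟨(v, u), by
              simp only [mem_filter, mem_product, mem_sdiff, mem_univ, true_and]
              exact ⟨⟨⟨hv, hvW⟩, hu⟩, he.1.symm⟩, Sym2.eq_swap⟩
        · rcases he.2 with h | h
          · exact absurd h hu
          · exact absurd h hv
    exact (card_le_card hcov).trans ((card_union_le _ _).trans
        (Nat.add_le_add card_biUnion_le hs))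
  · -- two of them meet
    push Not at hpd
    obtain ⟨Y1, hY1, Y2, hY2, hne, hnd⟩ := hpd
    have hY1' := hY1
    have hY2' := hY2
    rw [h𝒴, mem_filter] at hY1' hY2'
    have hA1 := hmem Y1 hY1'.1
    have hA2 := hmem Y2 hY2'.1
    have hint : (Y1 ∩ Y2).Nonempty := by
      rw [not_disjoint_iff_nonempty_inter] at hnd
      exact hnd
    have hun : Y1 ∪ Y2 = X := by
      by_contra hcon
      have hsub : Y1 ∪ Y2 ⊆ X := union_subset hA1.1 hA2.1
      have hnu : Y1 ∪ Y2 ≠ univ := fun hh => hX.2.1 (by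
        rw [← univ_subset_iff, ← hh]
        exact hsub)
      have ht := (hA1.2.2.1.inter_union hH hA2.2.2.1 hint hnu).2
      have hm : Y1 ∪ Y2 ∈ 𝒜 := by
        rw [h𝒜, mem_filter, mem_powerset]
        exact ⟨hsub, hcon, ht, hA1.2.2.2.mono (touch_mono subset_union_left)⟩
      have e1 := hY1'.2 _ hm subset_union_left
      have e2 := hY2'.2 _ hm subset_union_right
      exact hne (e1.symm.trans e2)
    have hZeq : X \ Y1 = Y2 \ Y1 := by
      rw [← hun, union_sdiff_left]
    have hn1 : (Y1 \ Y2).Nonempty := by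
      rw [nonempty_iff_ne_empty, ne_eq, sdiff_eq_empty_iff_subset]
      intro hh
      exact hne (hY1'.2 Y2 hY2'.1 hh).symm
    have hn2 : (Y2 \ Y1).Nonempty := by
      rw [nonempty_iff_ne_empty, ne_eq, sdiff_eq_empty_iff_subset]
      intro hh
      exact hne (hY2'.2 Y1 hY1'.1 hh)
    have hZ : Tight H l (X \ Y1) := by
      rw [hZeq]
      exact (hA1.2.2.1.sdiff hH hA2.2.2.1 hn1 hn2).2
    have hXun : X = Y1 ∪ X \ Y1 := (union_sdiff_of_subset hA1.1).symm
    have hcount : (touch D X).card ≤ (touch D Y1).card + (touch D (X \ Y1)).card := by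
      conv_lhs => rw [hXun]
      exact (card_le_card touch_union).trans (card_union_le _ _)
    have hZne : X \ Y1 ≠ X := by
      intro hh
      obtain ⟨y, hy⟩ := hA1.2.2.1.1
      have hyX := hA1.1 hy
      rw [← hh] at hyX
      exact (mem_sdiff.mp hyX).2 hy
    rcases (touch D (X \ Y1)).eq_empty_or_nonempty with he | hne'
    · rw [he, card_empty] at hcount
      refine ⟨{Y1}, ?_, ?_, ?_⟩
      · intro Y hY
        rw [mem_singleton] at hY
        subst hY
        exact hA1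
      · intro Y hY Y' hY' h
        rw [mem_singleton] at hY hY'
        exact absurd (hY.trans hY'.symm) h
      · rw [sum_singleton]
        omega
    · have hdj : Disjoint Y1 (X \ Y1) := disjoint_sdiff
      refine ⟨{Y1, X \ Y1}, ?_, ?_, ?_⟩
      · intro Y hY
        rw [mem_insert, mem_singleton] at hY
        rcases hY with rfl | rfl
        · exact hA1
        · exact ⟨sdiff_subset, hZne, hZ, hne'⟩
      · intro Y hY Y' hY' h
        rw [mem_insert, mem_singleton] at hY hY'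
        rcases hY with rfl | rfl <;> rcases hY' with rfl | rfl
        · exact absurd rfl h
        · exact hdj
        · exact hdj.symm
        · exact absurd rfl h
      · have hne2 : Y1 ≠ X \ Y1 := by
          intro hh
          obtain ⟨y, hy⟩ := hA1.2.2.1.1
          have : y ∈ X \ Y1 := hh ▸ hy
          exact (mem_sdiff.mp this).2 hy
        rw [sum_pair hne2]
        omega

/-- a set with a good count -/
def QQ (M H : SimpleGraph V) (l : ℕ) (Z : Finset V) : Prop :=
  (touch (H \ M) Z).card + (l + 1) ≤ Z.card + dX (H \ M) Z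

/-- a family of good tight sets filling all of `X` but at most `l` vertices -/
structure Fam (M H : SimpleGraph V) (l : ℕ) (X : Finset V) (𝒵 : Finset (Finset V)) : Prop where
  ne : 𝒵.Nonempty
  sub : ∀ Z ∈ 𝒵, Z ⊆ X
  tight : ∀ Z ∈ 𝒵, Tight H l Z
  q : ∀ Z ∈ 𝒵, QQ M H l Z
  disj : ∀ Z ∈ 𝒵, ∀ Z' ∈ 𝒵, Z ≠ Z' → Disjoint Z Z'
  small : X.card ≤ ∑ Z ∈ 𝒵, Z.card + l

lemma dX_union_le (G : SimpleGraph V) (X Y : Finset V) : dX G (X ∪ Y) ≤ dX G X + dX G Y := by
  have := dX_submod G X Y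
  omega

lemma dX_biUnion_le (G : SimpleGraph V) (𝒵 : Finset (Finset V)) :
    dX G (𝒵.biUnion fun a => a) ≤ ∑ Z ∈ 𝒵, dX G Z := by
  classical
  induction 𝒵 using Finset.induction_on with
  | empty =>
    rw [biUnion_empty, sum_empty]
    unfold dX
    simp
  | insert a s ha ih =>
    rw [biUnion_insert, sum_insert ha]
    exact (dX_union_le G _ _).trans (Nat.add_le_add_left ih _)

open Classical in
/-- the graph restricted to `A` -/
def resG (D : SimpleGraph V) (A : Finset V) : SimpleGraph V where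
  Adj u v := D.Adj u v ∧ u ∈ A ∧ v ∈ A
  symm := ⟨fun _ _ h => ⟨h.1.symm, h.2.2, h.2.1⟩⟩
  loopless := ⟨fun v h => D.loopless.irrefl v h.1⟩

open Classical in
/-- ordered adjacent pairs in `A` -/
noncomputable def pin (G : SimpleGraph V) (A : Finset V) : ℕ :=
  ((A ×ˢ A).filter fun p => G.Adj p.1 p.2).card

lemma two_ec_resG (D : SimpleGraph V) (A : Finset V) : 2 * ec (resG D A) = pin D A := by
  classical
  rw [two_mul_ec, sum_dgc]
  unfold pin resG
  congr 1
  ext p
  simp only [mem_filter, mem_product, mem_univ, true_and]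
  tauto

lemma pin_split {M H : SimpleGraph V} (A : Finset V) :
    pin M A + pin (H \ M) A + A.card ≤ A.card * A.card := by
  classical
  have h1 : ((A ×ˢ A).filter fun p => M.Adj p.1 p.2) ∪ ((A ×ˢ A).filter fun p => (H \ M).Adj p.1 p.2)
      ∪ (A.image fun v => (v, v)) ⊆ A ×ˢ A := by
    intro p hp
    rw [mem_union, mem_union, mem_filter, mem_filter, mem_image] at hp
    rcases hp with (hp | hp) | ⟨v, hv, rfl⟩
    · exact hp.1
    · exact hp.1
    · exact mem_product.mpr ⟨hv, hv⟩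
  have h2 := card_le_card h1
  rw [card_product, card_union_of_disjoint, card_union_of_disjoint, card_image_of_injective] at h2
  · unfold pin
    convert h2
  · intro u v h
    exact (Prod.mk.injEq _ _ _ _ ▸ h).1
  · rw [disjoint_left]
    intro p hp hp'
    rw [mem_filter] at hp hp'
    rw [SimpleGraph.sdiff_adj] at hp'
    exact hp'.2.2 hp.2
  · rw [disjoint_left]
    intro p hp hp'
    rw [mem_image] at hp'
    obtain ⟨v, -, rfl⟩ := hp'
    rw [mem_union, mem_filter, mem_filter] at hp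
    rcases hp with hp | hp
    · exact M.loopless.irrefl v hp.2
    · exact (H \ M).loopless.irrefl v hp.2

lemma mul_le_pin {M : SimpleGraph V} {l : ℕ} (hM : ∀ v, l ≤ dgc M v) (A : Finset V) :
    l * A.card ≤ pin M A + dX M A := by
  classical
  have h1 : ∑ v ∈ A, dgc M v = pin M A + dX M A := by
    unfold pin dX
    rw [card_filter, card_filter, sum_product, sum_product, ← sum_add_distrib]
    refine sum_congr rfl fun v _ => ?_
    unfold dgc
    rw [← card_filter, ← card_filter, ← card_union_of_disjoint]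
    · congr 1
      ext u
      simp only [mem_union, mem_filter, mem_sdiff, mem_univ, true_and]
      tauto
    · rw [disjoint_left]
      intro u hu hu'
      simp only [mem_filter, mem_sdiff, mem_univ, true_and] at hu hu'
      exact hu'.1 hu.1
  rw [← h1]
  calc l * A.card = ∑ _v ∈ A, l := by rw [sum_const, smul_eq_mul, mul_comm]
    _ ≤ _ := sum_le_sum fun v _ => hM v

/-- the slack of a tight set with a family -/
lemma fam_slack (hM : ∀ v, l ≤ dgc M v) (hMH : M ≤ H) {X : Finset V} (hX : Tight H l X)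
    {𝒵 : Finset (Finset V)} (h : Fam M H l X 𝒵) :
    (touch (H \ M) X).card ≤ ∑ Z ∈ 𝒵, Z.card ∧ (touch (H \ M) X).card + 1 ≤ X.card := by
  classical
  set D := H \ M with hDdef
  set W : Finset V := 𝒵.biUnion (fun a => a) with hW
  set A : Finset V := X \ W with hA
  have hWX : W ⊆ X := by
    intro w hw
    rw [hW, mem_biUnion] at hw
    obtain ⟨Y, hY, hwY⟩ := hw
    exact h.sub Y hY hwY
  have hWc : W.card = ∑ Z ∈ 𝒵, Z.card := by
    rw [hW, card_biUnion fun a ha b hb hab => h.disj a ha b hb hab]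
  have hAc : A.card + W.card = X.card := card_sdiff_add_card_eq_card hWX
  have hc1 : 1 ≤ 𝒵.card := card_pos.mpr h.ne
  have htX : dX M X + dX D X = l := by
    rw [← dX_split hMH, hX.2.2]
  have htZ : ∑ Z ∈ 𝒵, dX M Z + ∑ Z ∈ 𝒵, dX D Z = 𝒵.card * l := by
    rw [← sum_add_distrib, ← smul_eq_mul, ← sum_const]
    refine sum_congr rfl fun Z hZ => ?_
    rw [← dX_split hMH, (h.tight Z hZ).2.2]
  have hq : ∑ Z ∈ 𝒵, (touch D Z).card + 𝒵.card * l + 𝒵.card ≤
      ∑ Z ∈ 𝒵, Z.card + ∑ Z ∈ 𝒵, dX D Z := by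
    have h1 : ∑ Z ∈ 𝒵, ((touch D Z).card + (l + 1)) ≤ ∑ Z ∈ 𝒵, (Z.card + dX D Z) :=
      sum_le_sum fun Z hZ => h.q Z hZ
    have e1 : ∑ Z ∈ 𝒵, ((touch D Z).card + (l + 1)) =
        ∑ Z ∈ 𝒵, (touch D Z).card + 𝒵.card * l + 𝒵.card := by
      rw [sum_add_distrib, sum_const, smul_eq_mul]
      ring
    have e2 : ∑ Z ∈ 𝒵, (Z.card + dX D Z) = ∑ Z ∈ 𝒵, Z.card + ∑ Z ∈ 𝒵, dX D Z := sum_add_distrib
    rw [e1, e2] at h1
    exact h1
  have hdW := dX_biUnion_le M 𝒵
  rw [← hW] at hdW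
  -- the edges that touch `A` only
  set E1 : Finset (Sym2 V) := (resG D A).edgeSet.toFinset with hE1
  have hE1c : 2 * E1.card = pin D A := by
    rw [← two_ec_resG, hE1]
    unfold ec
    rw [Set.ncard_eq_toFinset_card']
  set E2 : Finset (Sym2 V) := ((A ×ˢ (univ \ X)).filter fun p => D.Adj p.1 p.2).image
    (fun p => s(p.1, p.2)) with hE2
  have hE2c : E2.card ≤ dX D X := by
    refine card_image_le.trans ?_
    unfold dX
    refine card_le_card fun p hp => ?_
    simp only [mem_filter, mem_product] at hp ⊢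
    exact ⟨⟨(mem_sdiff.mp hp.1.1).1, hp.1.2⟩, hp.2⟩
  have hcov : touch D X ⊆ 𝒵.biUnion (touch D) ∪ (E1 ∪ E2) := by
    intro e
    induction e using Sym2.ind with
    | _ u v =>
      intro he
      rw [mem_touch] at he
      rw [mem_union, mem_biUnion, mem_union]
      have keyW : ∀ w, w ∈ W → (w = u ∨ w = v) → ∃ a ∈ 𝒵, s(u, v) ∈ touch D a := by
        intro w hw hwe
        rw [hW, mem_biUnion] at hw
        obtain ⟨Y, hY, hwY⟩ := hw
        refine ⟨Y, hY, ?_⟩
        rw [mem_touch]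
        rcases hwe with rfl | rfl
        · exact ⟨he.1, Or.inl hwY⟩
        · exact ⟨he.1, Or.inr hwY⟩
      by_cases huW : u ∈ W
      · exact Or.inl (keyW u huW (Or.inl rfl))
      by_cases hvW : v ∈ W
      · exact Or.inl (keyW v hvW (Or.inr rfl))
      right
      by_cases hu : u ∈ X <;> by_cases hv : v ∈ X
      · left
        rw [hE1, Set.mem_toFinset, SimpleGraph.mem_edgeSet]
        exact ⟨he.1, mem_sdiff.mpr ⟨hu, huW⟩, mem_sdiff.mpr ⟨hv, hvW⟩⟩
      · right
        rw [hE2, mem_image]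
        exact ⟨(u, v), by
          simp only [hA, mem_filter, mem_product, mem_sdiff, mem_univ, true_and]
          exact ⟨⟨⟨hu, huW⟩, hv⟩, he.1⟩, rfl⟩
      · right
        rw [hE2, mem_image]
        exact ⟨(v, u), by
          simp only [hA, mem_filter, mem_product, mem_sdiff, mem_univ, true_and]
          exact ⟨⟨⟨hv, hvW⟩, hu⟩, he.1.symm⟩, Sym2.eq_swap⟩
      · rcases he.2 with h | h
        · exact absurd h hu
        · exact absurd h hv
  have hcount : (touch D X).card ≤ ∑ Z ∈ 𝒵, (touch D Z).card + (E1.card + E2.card) :=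
    (card_le_card hcov).trans ((card_union_le _ _).trans
      (Nat.add_le_add card_biUnion_le (card_union_le _ _)))
  rcases Nat.eq_zero_or_pos A.card with ha0 | ha1
  · -- no free vertices
    have hA0 : A = ∅ := card_eq_zero.mp ha0
    have hXW : X = W := by
      refine subset_antisymm ?_ hWX
      rw [← sdiff_eq_empty_iff_subset, ← hA]
      exact hA0
    have hE10 : E1.card = 0 := by
      have : pin D A = 0 := by
        unfold pin
        rw [hA0]
        simp
      omega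
    have hE20 : E2.card = 0 := by
      rw [hE2, hA0]
      simp
    have hdX : dX M X ≤ ∑ Z ∈ 𝒵, dX M Z := by
      rw [hXW]
      exact hdW
    have hcl : l ≤ 𝒵.card * l := Nat.le_mul_of_pos_left l hc1
    constructor
    · omega
    · omega
  · have h1 := mul_le_pin hM A
    have h2 := pin_split (M := M) (H := H) A
    have h3 : dX M A ≤ dX M X + dX M W := dX_sdiff_le M X W
    have hal : A.card ≤ l := by
      have := h.small
      omega
    obtain ⟨b, hb⟩ : ∃ b, l = A.card + b := ⟨l - A.card, by omega⟩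
    obtain ⟨a, ha⟩ : ∃ a, A.card = a + 1 := ⟨A.card - 1, by omega⟩
    have e1 : l * A.card = A.card * A.card + b * a + b := by
      rw [hb, ha]
      ring
    have hDE : pin (H \ M) A = pin D A := rfl
    constructor
    · nlinarith [Nat.zero_le (b * a)]
    · nlinarith [Nat.zero_le (b * a)]

/-- the induction -/
lemma tight_ind (hH : EC l H) (hM : ∀ v, l ≤ dgc M v) (hMH : M ≤ H)
    (hD : ∀ x y, (H \ M).Adj x y → ∃ X, Tight H l X ∧ x ∈ X ∧ y ∉ X) :
    ∀ X : Finset V, Tight H l X → (touch (H \ M) X).Nonempty → ∃ 𝒵, Fam M H l X 𝒵 := by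
  classical
  intro X
  induction' hn : X.card using Nat.strong_induction_on with n ih generalizing X
  intro hX hb
  have hXl := big_card hH hM hMH hD hX hb
  obtain ⟨𝒴, h1, h2, h3⟩ := children hH hD hX
  have single : QQ M H l X → ∃ 𝒵, Fam M H l X 𝒵 := by
    intro hq
    refine ⟨{X}, ⟨singleton_nonempty X, ?_, ?_, ?_, ?_, ?_⟩⟩
    · intro Z hZ
      rw [mem_singleton] at hZ
      rw [hZ]
    · intro Z hZ
      rw [mem_singleton] at hZ
      rw [hZ]
      exact hX
    · intro Z hZ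
      rw [mem_singleton] at hZ
      rw [hZ]
      exact hq
    · intro Z hZ Z' hZ' h
      rw [mem_singleton] at hZ hZ'
      exact absurd (hZ.trans hZ'.symm) h
    · rw [sum_singleton]
      omega
  have ih' : ∀ Y ∈ 𝒴, ∃ 𝒵, Fam M H l Y 𝒵 := by
    intro Y hY
    have h4 := h1 Y hY
    refine ih Y.card ?_ Y rfl h4.2.2.1 h4.2.2.2
    rw [← hn]
    exact card_lt_card (h4.1.ssubset_of_ne h4.2.1)
  choose! 𝒵 h𝒵 using ih'
  have hsl : ∀ Y ∈ 𝒴, (touch (H \ M) Y).card ≤ ∑ Z ∈ 𝒵 Y, Z.card := fun Y hY =>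
    (fam_slack hM hMH (h1 Y hY).2.2.1 (h𝒵 Y hY)).1
  have hdis : ∀ Y ∈ 𝒴, ∀ Y' ∈ 𝒴, Y ≠ Y' → ∀ Z ∈ 𝒵 Y, ∀ Z' ∈ 𝒵 Y', Disjoint Z Z' := by
    intro Y hY Y' hY' hne Z hZ Z' hZ'
    exact disjoint_of_subset_left ((h𝒵 Y hY).sub Z hZ)
      (disjoint_of_subset_right ((h𝒵 Y' hY').sub Z' hZ') (h2 Y hY Y' hY' hne))
  have hpair : (𝒴 : Set (Finset V)).PairwiseDisjoint 𝒵 := by
    intro Y hY Y' hY' hne
    rw [Function.onFun, disjoint_left]
    intro Z hZ hZ'
    have h5 := hdis Y hY Y' hY' hne Z hZ Z hZ'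
    have h6 := ((h𝒵 Y hY).tight Z hZ).1
    rw [disjoint_self_iff_empty] at h5
    exact h6.ne_empty h5
  have hsum : ∑ Z ∈ 𝒴.biUnion 𝒵, Z.card = ∑ Y ∈ 𝒴, ∑ Z ∈ 𝒵 Y, Z.card := sum_biUnion hpair
  rcases 𝒴.eq_empty_or_nonempty with he | hne
  · apply single
    rw [he, sum_empty] at h3
    unfold QQ
    omega
  · by_cases hsmall : X.card ≤ ∑ Z ∈ 𝒴.biUnion 𝒵, Z.card + l
    · refine ⟨𝒴.biUnion 𝒵, ⟨?_, ?_, ?_, ?_, ?_, hsmall⟩⟩
      · obtain ⟨Y, hY⟩ := hne
        obtain ⟨Z, hZ⟩ := (h𝒵 Y hY).ne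
        exact ⟨Z, mem_biUnion.mpr ⟨Y, hY, hZ⟩⟩
      · intro Z hZ
        rw [mem_biUnion] at hZ
        obtain ⟨Y, hY, hZ⟩ := hZ
        exact ((h𝒵 Y hY).sub Z hZ).trans (h1 Y hY).1
      · intro Z hZ
        rw [mem_biUnion] at hZ
        obtain ⟨Y, hY, hZ⟩ := hZ
        exact (h𝒵 Y hY).tight Z hZ
      · intro Z hZ
        rw [mem_biUnion] at hZ
        obtain ⟨Y, hY, hZ⟩ := hZ
        exact (h𝒵 Y hY).q Z hZ
      · intro Z hZ Z' hZ' hne'
        rw [mem_biUnion] at hZ hZ'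
        obtain ⟨Y, hY, hZ⟩ := hZ
        obtain ⟨Y', hY', hZ'⟩ := hZ'
        by_cases hYY : Y = Y'
        · subst hYY
          exact (h𝒵 Y hY).disj Z hZ Z' hZ' hne'
        · exact hdis Y hY Y' hY' hYY Z hZ Z' hZ'
    · apply single
      have h7 : ∑ Y ∈ 𝒴, (touch (H \ M) Y).card ≤ ∑ Y ∈ 𝒴, ∑ Z ∈ 𝒵 Y, Z.card :=
        sum_le_sum hsl
      unfold QQ
      omega

/-- the number of critical edges -/
lemma critical_count (hH : EC l H) (hM : ∀ v, l ≤ dgc M v) (hMH : M ≤ H)
    (hD : ∀ x y, (H \ M).Adj x y → ∃ X, Tight H l X ∧ x ∈ X ∧ y ∉ X) :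
    ec (H \ M) + 2 ≤ Fintype.card V := by
  classical
  by_cases hbot : H \ M = ⊥
  · rw [hbot]
    have h1 := hH.1
    unfold ec
    simp
    omega
  · have h1 : ∃ x y, (H \ M).Adj x y := by
      by_contra hcon
      push Not at hcon
      apply hbot
      ext u v
      simp only [SimpleGraph.bot_adj, iff_false]
      exact hcon u v
    obtain ⟨x, y, hxy⟩ := h1
    obtain ⟨X, hX, hx, hy⟩ := hD x y hxy
    obtain ⟨𝒵, h𝒵⟩ := tight_ind hH hM hMH hD X hX ⟨s(x, y), mem_touch.mpr ⟨hxy, Or.inl hx⟩⟩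
    obtain ⟨𝒵', h𝒵'⟩ := tight_ind hH hM hMH hD Xᶜ hX.compl
      ⟨s(x, y), mem_touch.mpr ⟨hxy, Or.inr (mem_compl.mpr hy)⟩⟩
    have h2 := (fam_slack hM hMH hX h𝒵).2
    have h3 := (fam_slack hM hMH hX.compl h𝒵').2
    have h4 : ec (H \ M) ≤ (touch (H \ M) X).card + (touch (H \ M) Xᶜ).card := by
      unfold ec
      rw [Set.ncard_eq_toFinset_card']
      refine le_trans (card_le_card fun e => ?_) (card_union_le _ _)
      induction e using Sym2.ind with
      | _ u v =>
        intro he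
        rw [Set.mem_toFinset, SimpleGraph.mem_edgeSet] at he
        rw [mem_union, mem_touch, mem_touch, mem_compl, mem_compl]
        by_cases hu : u ∈ X
        · exact Or.inl ⟨he, Or.inl hu⟩
        · exact Or.inr ⟨he, Or.inl hu⟩
    have h5 : X.card + Xᶜ.card = Fintype.card V := card_add_card_compl X
    omega

end

end Pool.Agent.Work.MP_60abc6_co
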