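import Mathlib
import Pool.Agent.Work.MP_60abc6_co.Lam
import Pool.Agent.Work.MP_60abc6_co.Bounds

set_option autoImplicit false

/-! The lower bound for edge connectivity. -/

namespace Pool.Agent.Work.MP_60abc6_co

open Finset

variable {V : Type*} [Fintype V] [DecidableEq V]

lemma dX_mono {G H : SimpleGraph V} (h : G ≤ H) (X : Finset V) : dX G X ≤ dX H X := by
  classical
  unfold dX
  refine card_le_card fun p hp => ?_
  simp only [mem_filter] at hp ⊢
  exact ⟨hp.1, h hp.2⟩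

lemma EC.mono {k l : ℕ} {G : SimpleGraph V} (h : EC k G) (hlk : l ≤ k) : EC l G :=
  ⟨h.1, fun X hX hXu => hlk.trans (h.2 X hX hXu)⟩

lemma EC.mono_graph {k : ℕ} {G H : SimpleGraph V} (h : EC k G) (hGH : G ≤ H) : EC k H :=
  ⟨h.1, fun X hX hXu => (h.2 X hX hXu).trans (dX_mono hGH X)⟩

lemma dX_singleton (G : SimpleGraph V) (v : V) : dX G {v} = dgc G v := by
  classical
  unfold dX dgc
  refine card_bij (fun p _ => p.2) ?_ ?_ ?_
  · intro p hp
    simp only [mem_filter, mem_product, mem_sdiff, mem_univ, true_and, mem_singleton] at hp ⊢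
    rw [← hp.1.1]
    exact hp.2
  · intro p hp q hq h
    simp only [mem_filter, mem_product, mem_sdiff, mem_univ, true_and, mem_singleton] at hp hq
    exact Prod.ext (hp.1.1.trans hq.1.1.symm) h
  · intro u hu
    simp only [mem_filter, mem_product, mem_sdiff, mem_univ, true_and, mem_singleton] at hu ⊢
    exact ⟨(v, u), ⟨⟨rfl, fun hh => G.loopless.irrefl v (hh ▸ hu)⟩, hu⟩, rfl⟩

lemma EC.min_degree {k : ℕ} {G : SimpleGraph V} (h : EC k G) (v : V) : k ≤ dgc G v := by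
  rw [← dX_singleton]
  refine h.2 _ (singleton_nonempty v) fun hh => ?_
  have h1 := h.1
  rw [← card_univ, ← hh, card_singleton] at h1
  omega

lemma EC.cut {k : ℕ} {G : SimpleGraph V} (h : EC k G) (P : Finset V) (hP : P.Nonempty)
    (hPu : P ≠ univ) :
    ∃ E : Finset (V × V), k ≤ E.card ∧ ∀ e ∈ E, G.Adj e.1 e.2 ∧ e.1 ∈ P ∧ e.2 ∉ P := by
  classical
  refine ⟨(P ×ˢ (univ \ P)).filter fun p => G.Adj p.1 p.2, ?_, fun e he => ?_⟩
  · have := h.2 P hP hPu
    unfold dX at this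
    convert this
  · simp only [mem_filter, mem_product, mem_sdiff, mem_univ, true_and] at he
    exact ⟨he.2, he.1.1, he.1.2⟩

lemma exists_minimal_EC {l : ℕ} {M G : SimpleGraph V} (hMG : M ≤ G) (hG : EC l G) :
    ∃ H : SimpleGraph V, M ≤ H ∧ H ≤ G ∧ EC l H ∧
      ∀ x y, H.Adj x y → ¬ M.Adj x y → ¬ EC l (H.deleteEdges {s(x, y)}) := by
  classical
  have hex : ∃ m : ℕ, ∃ H : SimpleGraph V, M ≤ H ∧ H ≤ G ∧ EC l H ∧ prs H.Adj univ = m :=
    ⟨_, G, hMG, le_rfl, hG, rfl⟩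
  obtain ⟨H, h1, h2, h3, h4⟩ := Nat.find_spec hex
  refine ⟨H, h1, h2, h3, fun x y hxy hM hK => ?_⟩
  have hlt : prs (H.deleteEdges {s(x, y)}).Adj univ < prs H.Adj univ := by
    refine prs_lt (x := x) (y := y) (fun u v huv => (SimpleGraph.deleteEdges_adj.mp huv).1) hxy
      fun hh => ?_
    rw [SimpleGraph.deleteEdges_adj] at hh
    exact hh.2 (Set.mem_singleton _)
  rw [h4] at hlt
  refine Nat.find_min hex hlt ⟨_, ?_, ?_, hK, rfl⟩
  · intro u v huv
    rw [SimpleGraph.deleteEdges_adj]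
    refine ⟨h1 huv, fun hh => ?_⟩
    rw [Set.mem_singleton_iff, Sym2.eq_iff] at hh
    rcases hh with ⟨rfl, rfl⟩ | ⟨rfl, rfl⟩
    · exact hM huv
    · exact hM huv.symm
  · exact (SimpleGraph.deleteEdges_le _).trans h2

lemma ec_sdiff {M H : SimpleGraph V} (h : M ≤ H) : ec H = ec M + ec (H \ M) := by
  unfold ec
  rw [SimpleGraph.edgeSet_sdiff, add_comm]
  exact (Set.ncard_sdiff_add_ncard_of_subset (SimpleGraph.edgeSet_subset_edgeSet.mpr h)
    (Set.toFinite _)).symm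

theorem edge_bound {k l : ℕ} (hl : 1 ≤ l) (hlk : l < k) (hk : k < Fintype.card V)
    {G : SimpleGraph V} (hG : EC k G) :
    ∃ H : SimpleGraph V, H ≤ G ∧ EC l H ∧
      2 * ec H + (k - l) * Fintype.card V + 3 ≤ 2 * ec G + 2 * Fintype.card V ∧
      k * ec H < l * ec G + k * Fintype.card V := by
  classical
  have : Nonempty V := Fintype.card_pos_iff.mp (by omega)
  obtain ⟨M, hMG, hMdeg, hM1, hM2⟩ := degree_splitting G hl (by omega) (fun v => hG.min_degree v)
    (fun P hP hPu => hG.cut P hP hPu)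
  obtain ⟨H, hMH, hHG, hH, hcrit⟩ := exists_minimal_EC hMG (hG.mono hlk.le)
  refine ⟨H, hHG, hH, ?_⟩
  have hD : ∀ x y, (H \ M).Adj x y → ∃ X, Tight H l X ∧ x ∈ X ∧ y ∉ X := by
    intro x y hxy
    rw [SimpleGraph.sdiff_adj] at hxy
    exact exists_tight hH (hcrit x y hxy.1 hxy.2)
  have h1 := ec_sdiff hMH
  rw [← two_mul_ec, ← two_mul_ec] at hM1 hM2
  have h2 : k * (2 * ec M) = 2 * (k * ec M) := by ring
  have h3 : l * (2 * ec G) = 2 * (l * ec G) := by ring
  have h4 : k * ec H = k * ec M + k * ec (H \ M) := by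
    rw [h1]
    ring
  have hc := critical_count hH hMdeg hMH hD
  refine ⟨by omega, ?_⟩
  have h6 := Nat.mul_le_mul_left k hc
  rw [mul_add] at h6
  omega

end Pool.Agent.Work.MP_60abc6_co
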