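import Mathlib
import Pool.Agent.Work.MP_60abc6_co.EdgeB

set_option autoImplicit false

/-! Near perfect matchings in dense graphs. -/

namespace Pool.Agent.Work.MP_60abc6_co

open Finset

variable {V : Type*} [Fintype V] [DecidableEq V]

/-- an involution that moves only vertices of `S`, along edges of `G` -/
structure Inv (G : SimpleGraph V) (S : Finset V) (σ : V → V) : Prop where
  inv : ∀ v, σ (σ v) = v
  out : ∀ v, v ∉ S → σ v = v
  adj : ∀ v, σ v ≠ v → G.Adj v (σ v)

namespace Inv

variable {G : SimpleGraph V} {S : Finset V} {σ : V → V}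

lemma inj (h : Inv G S σ) : Function.Injective σ := fun a b hab => by
  rw [← h.inv a, hab, h.inv]

lemma mem (h : Inv G S σ) {v : V} (hv : v ∈ S) : σ v ∈ S := by
  by_contra hcon
  have h1 := h.out _ hcon
  rw [h.inv] at h1
  rw [← h1] at hcon
  exact hcon hv

end Inv

/-- the number of fixed points in `S` -/
def fx (S : Finset V) (σ : V → V) : ℕ := (S.filter fun v => σ v = v).card

lemma exists_min_inv (G : SimpleGraph V) (S : Finset V) :
    ∃ σ : V → V, Inv G S σ ∧ ∀ τ, Inv G S τ → fx S σ ≤ fx S τ := by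
  classical
  have hex : ∃ m, ∃ σ : V → V, Inv G S σ ∧ fx S σ = m :=
    ⟨_, id, ⟨fun _ => rfl, fun _ _ => rfl, fun v h => absurd rfl h⟩, rfl⟩
  obtain ⟨σ, h1, h2⟩ := Nat.find_spec hex
  refine ⟨σ, h1, fun τ hτ => ?_⟩
  rw [h2]
  exact Nat.find_min' hex ⟨τ, hτ, rfl⟩

lemma fx_lt {S : Finset V} {σ τ : V → V} (h : ∀ v ∈ S, τ v = v → σ v = v) {p : V} (hp : p ∈ S)
    (h1 : σ p = p) (h2 : τ p ≠ p) : fx S τ < fx S σ := by
  unfold fx
  refine card_lt_card ⟨fun v hv => ?_, fun hsub => ?_⟩
  · rw [mem_filter] at hv ⊢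
    exact ⟨hv.1, h v hv.1 hv.2⟩
  · have := hsub (mem_filter.mpr ⟨hp, h1⟩)
    rw [mem_filter] at this
    exact h2 this.2

/-- two fixed points are not adjacent -/
lemma aug_one {G : SimpleGraph V} {S : Finset V} {σ : V → V} (h : Inv G S σ)
    (hmin : ∀ τ, Inv G S τ → fx S σ ≤ fx S τ) {p q : V} (hp : p ∈ S) (hq : q ∈ S)
    (hfp : σ p = p) (hfq : σ q = q) : ¬ G.Adj p q := by
  intro hpq
  have hne : p ≠ q := hpq.ne
  set τ : V → V := fun v => if v = p then q else if v = q then p else σ v with hτ
  have tp : τ p = q := by simp [hτ]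
  have tq : τ q = p := by simp [hτ, hne.symm]
  have tr : ∀ v, v ≠ p → v ≠ q → τ v = σ v := by
    intro v h1 h2
    simp [hτ, h1, h2]
  have hτi : Inv G S τ := by
    refine ⟨fun v => ?_, fun v hv => ?_, fun v hv => ?_⟩
    · by_cases h1 : v = p
      · rw [h1, tp, tq]
      by_cases h2 : v = q
      · rw [h2, tq, tp]
      rw [tr v h1 h2, tr (σ v), h.inv]
      · intro hh
        apply h1
        rw [← h.inv v, hh, hfp]
      · intro hh
        apply h2
        rw [← h.inv v, hh, hfq]
    · rw [tr v (fun hh => hv (hh ▸ hp)) (fun hh => hv (hh ▸ hq)), h.out v hv]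
    · by_cases h1 : v = p
      · rw [h1, tp]
        exact hpq
      by_cases h2 : v = q
      · rw [h2, tq]
        exact hpq.symm
      rw [tr v h1 h2] at hv ⊢
      exact h.adj v hv
  have h3 : fx S τ < fx S σ := by
    refine fx_lt (fun v hv htv => ?_) hp hfp (by rw [tp]; exact hne.symm)
    by_cases h1 : v = p
    · rw [h1]; exact hfp
    by_cases h2 : v = q
    · rw [h2]; exact hfq
    rw [← tr v h1 h2]
    exact htv
  exact absurd (hmin τ hτi) (not_le.mpr h3)

/-- the switching -/
lemma aug_two {G : SimpleGraph V} {S : Finset V} {σ : V → V} (h : Inv G S σ)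
    (hmin : ∀ τ, Inv G S τ → fx S σ ≤ fx S τ) {p q x : V} (hp : p ∈ S) (hq : q ∈ S) (hpq : p ≠ q)
    (hfp : σ p = p) (hfq : σ q = q) (hx : σ x ≠ x) (h1 : G.Adj p x) : ¬ G.Adj q (σ x) := by
  intro h2
  set y := σ x with hy
  have hyx : σ y = x := h.inv x
  have hxS : x ∈ S := by
    by_contra hcon
    exact hx (h.out x hcon)
  have hyS : y ∈ S := h.mem hxS
  have hpx : p ≠ x := h1.ne
  have hqy : q ≠ y := h2.ne
  have hpy : p ≠ y := by
    intro hh
    rw [← hh, hfp] at hyx
    exact hpx hyx
  have hqx : q ≠ x := by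
    intro hh
    rw [← hh, hfq] at hy
    exact hqy hy.symm
  set τ : V → V := fun v => if v = p then x else if v = x then p else if v = q then y else
    if v = y then q else σ v with hτ
  have tp : τ p = x := by simp [hτ]
  have tx : τ x = p := by simp [hτ, hpx.symm]
  have tq : τ q = y := by simp [hτ, hpq.symm, hqx]
  have ty : τ y = q := by simp [hτ, hpy.symm, hx, hqy.symm]
  have tr : ∀ v, v ≠ p → v ≠ x → v ≠ q → v ≠ y → τ v = σ v := by
    intro v h1 h2 h3 h4
    simp [hτ, h1, h2, h3, h4]
  have hτi : Inv G S τ := by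
    refine ⟨fun v => ?_, fun v hv => ?_, fun v hv => ?_⟩
    · by_cases e1 : v = p
      · rw [e1, tp, tx]
      by_cases e2 : v = x
      · rw [e2, tx, tp]
      by_cases e3 : v = q
      · rw [e3, tq, ty]
      by_cases e4 : v = y
      · rw [e4, ty, tq]
      rw [tr v e1 e2 e3 e4, tr (σ v), h.inv]
      · intro hh
        apply e1
        rw [← h.inv v, hh, hfp]
      · intro hh
        apply e4
        rw [← h.inv v, hh]
      · intro hh
        apply e3
        rw [← h.inv v, hh, hfq]
      · intro hh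
        apply e2
        rw [← h.inv v, hh, hyx]
    · rw [tr v (fun hh => hv (hh ▸ hp)) (fun hh => hv (hh ▸ hxS)) (fun hh => hv (hh ▸ hq))
        (fun hh => hv (hh ▸ hyS)), h.out v hv]
    · by_cases e1 : v = p
      · rw [e1, tp]
        exact h1
      by_cases e2 : v = x
      · rw [e2, tx]
        exact h1.symm
      by_cases e3 : v = q
      · rw [e3, tq]
        exact h2
      by_cases e4 : v = y
      · rw [e4, ty]
        exact h2.symm
      rw [tr v e1 e2 e3 e4] at hv ⊢
      exact h.adj v hv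
  have h3 : fx S τ < fx S σ := by
    refine fx_lt (fun v hv htv => ?_) hp hfp (by rw [tp]; exact hpx.symm)
    by_cases e1 : v = p
    · rw [e1]; exact hfp
    by_cases e2 : v = x
    · exfalso
      rw [e2, tx] at htv
      exact hpx htv
    by_cases e3 : v = q
    · rw [e3]; exact hfq
    by_cases e4 : v = y
    · exfalso
      rw [e4, ty] at htv
      exact hqy htv
    rw [← tr v e1 e2 e3 e4]
    exact htv
  exact absurd (hmin τ hτi) (not_le.mpr h3)

open Classical in
/-- a near perfect matching on `S` -/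
lemma near_matching (G : SimpleGraph V) (S : Finset V)
    (hdeg : ∀ v ∈ S, S.card ≤ 2 * (S.filter (G.Adj v)).card + 1) :
    ∃ σ : V → V, Inv G S σ ∧ fx S σ ≤ 1 := by
  obtain ⟨σ, h, hmin⟩ := exists_min_inv G S
  refine ⟨σ, h, ?_⟩
  by_contra hcon
  push Not at hcon
  unfold fx at hcon
  rw [one_lt_card] at hcon
  obtain ⟨p, hp, q, hq, hpq⟩ := hcon
  rw [mem_filter] at hp hq
  have h1 := hdeg p hp.1
  have h2 := hdeg q hq.1
  have hq' : (S.filter fun v => G.Adj q (σ v)).card = (S.filter (G.Adj q)).card := by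
    refine card_bij (fun v _ => σ v) ?_ ?_ ?_
    · intro v hv
      rw [mem_filter] at hv ⊢
      exact ⟨h.mem hv.1, hv.2⟩
    · intro a _ b _ hab
      exact h.inj hab
    · intro v hv
      rw [mem_filter] at hv
      exact ⟨σ v, by
        rw [mem_filter, h.inv]
        exact ⟨h.mem hv.1, hv.2⟩, h.inv v⟩
  have hdisj : Disjoint (S.filter (G.Adj p)) (S.filter fun v => G.Adj q (σ v)) := by
    rw [disjoint_left]
    intro v hv hv'
    rw [mem_filter] at hv hv'
    by_cases hf : σ v = v
    · exact aug_one h hmin hp.1 hv.1 hp.2 hf hv.2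
    · exact aug_two h hmin hp.1 hq.1 hpq hp.2 hq.2 hf hv.2 hv'.2
  have hsub : (S.filter (G.Adj p)) ∪ (S.filter fun v => G.Adj q (σ v)) ⊆ S \ {p, q} := by
    intro v hv
    rw [mem_union, mem_filter, mem_filter] at hv
    rw [mem_sdiff, mem_insert, mem_singleton, not_or]
    rcases hv with hv | hv
    · refine ⟨hv.1, fun hh => hv.2.ne hh.symm, fun hh => ?_⟩
      exact aug_one h hmin hp.1 hq.1 hp.2 hq.2 (hh ▸ hv.2)
    · refine ⟨hv.1, fun hh => ?_, fun hh => ?_⟩
      · rw [hh, hp.2] at hv
        exact aug_one h hmin hp.1 hq.1 hp.2 hq.2 hv.2.symm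
      · rw [hh, hq.2] at hv
        exact hv.2.ne rfl
  have h3 := card_le_card hsub
  rw [card_union_of_disjoint hdisj, hq'] at h3
  have h4 : ({p, q} : Finset V) ⊆ S := by
    intro v hv
    rw [mem_insert, mem_singleton] at hv
    rcases hv with rfl | rfl
    · exact hp.1
    · exact hq.1
  have h5 : (S \ {p, q}).card + ({p, q} : Finset V).card = S.card :=
    card_sdiff_add_card_eq_card h4
  rw [card_pair hpq] at h5
  omega

/-- the matching as a graph -/
def matG (σ : V → V) (h : ∀ v, σ (σ v) = v) : SimpleGraph V where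
  Adj u v := u ≠ v ∧ σ u = v
  symm := ⟨fun u v huv => ⟨huv.1.symm, by rw [← huv.2, h]⟩⟩
  loopless := ⟨fun _ huv => huv.1 rfl⟩

lemma matG_le {G : SimpleGraph V} {S : Finset V} {σ : V → V} (h : Inv G S σ) :
    matG σ h.inv ≤ G := by
  intro u v huv
  have h1 : u ≠ v ∧ σ u = v := huv
  have := h.adj u (by rw [h1.2]; exact h1.1.symm)
  rwa [h1.2] at this

lemma dgc_matG {σ : V → V} (h : ∀ v, σ (σ v) = v) (v : V) :
    dgc (matG σ h) v = if σ v = v then 0 else 1 := by
  classical
  split_ifs with hf
  · refine dgc_eq_zero fun u hu => ?_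
    have h1 : v ≠ u ∧ σ v = u := hu
    exact h1.1 (hf.symm.trans h1.2)
  · unfold dgc
    rw [card_eq_one]
    refine ⟨σ v, ?_⟩
    ext u
    rw [mem_filter, mem_singleton]
    constructor
    · rintro ⟨-, h1⟩
      have h1 : v ≠ u ∧ σ v = u := h1
      exact h1.2.symm
    · intro h1
      exact ⟨mem_univ _, fun hh => hf (by rw [← h1, hh]), h1.symm⟩

lemma two_ec_matG {G : SimpleGraph V} {S : Finset V} {σ : V → V} (h : Inv G S σ) :
    2 * ec (matG σ h.inv) + fx S σ = S.card := by
  classical
  rw [two_mul_ec]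
  have h1 : ∑ v, dgc (matG σ h.inv) v = (S.filter fun v => ¬ σ v = v).card := by
    rw [sum_congr rfl fun v _ => dgc_matG h.inv v, card_filter]
    rw [← sum_subset (subset_univ S)]
    · refine sum_congr rfl fun v _ => ?_
      by_cases hf : σ v = v
      · rw [if_pos hf, if_neg (not_not.mpr hf)]
      · rw [if_neg hf, if_pos hf]
    · intro v _ hv
      rw [if_pos (h.out v hv)]
  rw [h1]
  unfold fx
  rw [add_comm]
  exact card_filter_add_card_filter_not _

lemma dgc_sdiff {G F : SimpleGraph V} (h : F ≤ G) (v : V) :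
    dgc (G \ F) v + dgc F v = dgc G v := by
  classical
  unfold dgc
  rw [← card_union_of_disjoint]
  · congr 1
    ext u
    simp only [mem_union, mem_filter, mem_univ, true_and, SimpleGraph.sdiff_adj]
    constructor
    · rintro (h1 | h1)
      · exact h1.1
      · exact h h1
    · intro h1
      by_cases h2 : F.Adj v u
      · exact Or.inr h2
      · exact Or.inl ⟨h1, h2⟩
  · rw [disjoint_left]
    intro u hu hu'
    simp only [mem_filter, mem_univ, true_and, SimpleGraph.sdiff_adj] at hu hu'
    exact hu.2 hu'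

lemma ec_sdiff' {G F : SimpleGraph V} (h : F ≤ G) : ec (G \ F) + ec F = ec G := by
  have h1 := two_mul_ec (G \ F)
  have h2 := two_mul_ec F
  have h3 := two_mul_ec G
  have h4 : ∑ v, dgc (G \ F) v + ∑ v, dgc F v = ∑ v, dgc G v := by
    rw [← sum_add_distrib]
    exact sum_congr rfl fun v _ => dgc_sdiff h v
  omega

/-- parity: with an odd number of vertices and odd `k` some degree is larger than `k` -/
lemma exists_large_degree {G : SimpleGraph V} {k : ℕ} (hk : ∀ v, k ≤ dgc G v)
    (hodd : (k * Fintype.card V) % 2 = 1) : ∃ v, k + 1 ≤ dgc G v := by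
  by_contra hcon
  push Not at hcon
  have h1 : ∀ v, dgc G v = k := fun v => by
    have h2 := hk v
    have h3 := hcon v
    omega
  have h2 := two_mul_ec G
  rw [sum_congr rfl fun v _ => h1 v, sum_const, card_univ, smul_eq_mul, mul_comm _ k] at h2
  omega

/-- one step, for minimum degrees -/
lemma degree_step {G : SimpleGraph V} {k : ℕ} (hk : ∀ v, k ≤ dgc G v) (hk1 : 1 ≤ k)
    (hN : Fintype.card V + 1 ≤ 2 * k) :
    ∃ H, H ≤ G ∧ (∀ v, k - 1 ≤ dgc H v) ∧
      ec H + ((k * Fintype.card V + 1) / 2 - ((k - 1) * Fintype.card V + 1) / 2) ≤ ec G := by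
  classical
  set N := Fintype.card V with hNdef
  obtain ⟨k, rfl⟩ : ∃ k', k = k' + 1 := ⟨k - 1, by omega⟩
  rw [Nat.add_sub_cancel]
  have hNk : (k + 1) * N = k * N + N := by ring
  rw [hNk]
  by_cases hpar : ((k + 1) * N) % 2 = 1
  · -- the cherry
    have hN1 : N % 2 = 1 ∧ (k + 1) % 2 = 1 := by
      rw [Nat.mul_mod] at hpar
      have h1 : N % 2 < 2 := Nat.mod_lt _ (by norm_num)
      have h2 : (k + 1) % 2 < 2 := Nat.mod_lt _ (by norm_num)
      have h3 : N % 2 = 0 ∨ N % 2 = 1 := by omega
      have h4 : (k + 1) % 2 = 0 ∨ (k + 1) % 2 = 1 := by omega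
      rcases h3 with h3 | h3 <;> rcases h4 with h4 | h4 <;> rw [h3, h4] at hpar <;> simp at hpar
      exact ⟨h3, h4⟩
    obtain ⟨v0, hv0⟩ := exists_large_degree hk hpar
    have hw : ∃ w, G.Adj v0 w := by
      by_contra hcon
      push Not at hcon
      have := dgc_eq_zero hcon
      omega
    obtain ⟨w, hw⟩ := hw
    obtain ⟨σ, hσ, hfx⟩ := near_matching G (univ.erase w) (fun v hv => by
      have h1 : (univ.erase w : Finset V).card = N - 1 := by
        rw [card_erase_of_mem (mem_univ w), card_univ]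
      have h2 := hk v
      have h3 : dgc G v ≤ ((univ.erase w).filter (G.Adj v)).card + 1 := by
        unfold dgc
        have : univ.filter (G.Adj v) ⊆ insert w ((univ.erase w).filter (G.Adj v)) := by
          intro u hu
          rw [mem_filter] at hu
          rw [mem_insert, mem_filter, mem_erase]
          by_cases huw : u = w
          · exact Or.inl huw
          · exact Or.inr ⟨⟨huw, mem_univ _⟩, hu.2⟩
        exact (card_le_card this).trans (card_insert_le _ _)
      omega)
    have h1 : (univ.erase w : Finset V).card = N - 1 := by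
      rw [card_erase_of_mem (mem_univ w), card_univ]
    have h2 := two_ec_matG hσ
    rw [h1] at h2
    have hfx0 : fx (univ.erase w) σ = 0 := by omega
    have hσw : σ w = w := hσ.out w (notMem_erase _ _)
    set F := matG σ hσ.inv with hF
    have hFG : F ≤ G := matG_le hσ
    have hFw : ∀ u, ¬ F.Adj u w := by
      intro u hu
      have h3 : u ≠ w ∧ σ u = w := hu
      apply h3.1
      rw [← hσ.inv u, h3.2, hσw]
    set E : SimpleGraph V := SimpleGraph.fromEdgeSet {s(v0, w)} with hE
    have hEadj : ∀ a b, E.Adj a b ↔ (a = v0 ∧ b = w) ∨ (a = w ∧ b = v0) := by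
      intro a b
      rw [hE, SimpleGraph.fromEdgeSet_adj, Set.mem_singleton_iff, Sym2.eq_iff]
      constructor
      · exact fun h => h.1
      · rintro (⟨rfl, rfl⟩ | ⟨rfl, rfl⟩)
        · exact ⟨Or.inl ⟨rfl, rfl⟩, hw.ne⟩
        · exact ⟨Or.inr ⟨rfl, rfl⟩, hw.ne.symm⟩
    have hEH : E ≤ G \ F := by
      intro a b hab
      rw [hEadj] at hab
      rw [SimpleGraph.sdiff_adj]
      rcases hab with ⟨rfl, rfl⟩ | ⟨rfl, rfl⟩
      · exact ⟨hw, hFw _⟩
      · exact ⟨hw.symm, fun hh => hFw _ hh.symm⟩
    have hEd : ∀ v, dgc E v = if v = v0 ∨ v = w then 1 else 0 := by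
      intro v
      split_ifs with hv
      · unfold dgc
        rw [card_eq_one]
        rcases hv with rfl | rfl
        · refine ⟨w, ?_⟩
          ext u
          simp only [mem_filter, mem_univ, true_and, mem_singleton, hEadj]
          constructor
          · rintro (h | ⟨h, -⟩)
            · exact h
            · exact absurd h hw.ne
          · exact fun h => Or.inl h
        · refine ⟨v0, ?_⟩
          ext u
          simp only [mem_filter, mem_univ, true_and, mem_singleton, hEadj]
          constructor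
          · rintro (⟨h, -⟩ | h)
            · exact absurd h hw.ne.symm
            · exact h
          · exact fun h => Or.inr h
      · refine dgc_eq_zero fun u hu => ?_
        rw [hEadj] at hu
        rcases hu with ⟨h, -⟩ | ⟨h, -⟩
        · exact hv (Or.inl h)
        · exact hv (Or.inr h)
    have hEc : ec E = 1 := by
      have h3 := two_mul_ec E
      rw [sum_congr rfl fun v _ => hEd v, ← card_filter] at h3
      have h4 : (univ.filter fun v => v = v0 ∨ v = w) = {v0, w} := by
        ext v
        simp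
      rw [h4, card_pair hw.ne] at h3
      omega
    refine ⟨(G \ F) \ E, sdiff_le.trans sdiff_le, fun v => ?_, ?_⟩
    · have h3 := dgc_sdiff hEH v
      have h4 := dgc_sdiff hFG v
      have h5 := dgc_matG hσ.inv v
      rw [← hF] at h5
      have h6 := hEd v
      have h7 := hk v
      by_cases hvw : v = w
      · rw [if_pos (Or.inr hvw)] at h6
        rw [if_pos (hvw ▸ hσw)] at h5
        omega
      by_cases hv : v = v0
      · rw [if_pos (Or.inl hv)] at h6
        have h8 : dgc F v ≤ 1 := by
          rw [h5]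
          split_ifs <;> omega
        rw [← hv] at hv0
        omega
      · rw [if_neg (by
          rw [not_or]
          exact ⟨hv, hvw⟩)] at h6
        have h8 : dgc F v ≤ 1 := by
          rw [h5]
          split_ifs <;> omega
        omega
    · have h3 := ec_sdiff' hEH
      have h4 := ec_sdiff' hFG
      omega
  · -- the near perfect matching
    obtain ⟨σ, hσ, hfx⟩ := near_matching G univ (fun v _ => by
      have h2 := hk v
      have h3 : (univ.filter (G.Adj v)).card = dgc G v := rfl
      rw [h3, card_univ]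
      omega)
    have h2 := two_ec_matG hσ
    rw [card_univ] at h2
    set F := matG σ hσ.inv with hF
    have hFG : F ≤ G := matG_le hσ
    refine ⟨G \ F, sdiff_le, fun v => ?_, ?_⟩
    · have h4 := dgc_sdiff hFG v
      have h5 := dgc_matG hσ.inv v
      rw [← hF] at h5
      have h7 := hk v
      have h8 : dgc F v ≤ 1 := by
        rw [h5]
        split_ifs <;> omega
      omega
    · have h4 := ec_sdiff' hFG
      omega

/-- iterated steps -/
lemma telescope {P : ℕ → SimpleGraph V → Prop} {N l : ℕ}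
    (step : ∀ j, l < j → j < N → ∀ G : SimpleGraph V, P j G →
      ∃ H, H ≤ G ∧ P (j - 1) H ∧ ec H + ((j * N + 1) / 2 - ((j - 1) * N + 1) / 2) ≤ ec G) :
    ∀ c, l + c < N → ∀ G : SimpleGraph V, P (l + c) G →
      ∃ H, H ≤ G ∧ P l H ∧ ec H + (((l + c) * N + 1) / 2 - (l * N + 1) / 2) ≤ ec G := by
  intro c
  induction c with
  | zero =>
    intro _ G hG
    exact ⟨G, le_rfl, hG, by simp⟩
  | succ c ih =>
    intro hc G hG
    obtain ⟨H, h1, h2, h3⟩ := step (l + (c + 1)) (by omega) hc G hG
    have e1 : l + (c + 1) - 1 = l + c := by omega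
    rw [e1] at h2 h3
    obtain ⟨H', h4, h5, h6⟩ := ih (by omega) H h2
    refine ⟨H', h4.trans h1, h5, ?_⟩
    have e2 : l * N ≤ (l + c) * N := Nat.mul_le_mul_right N (by omega)
    have e3 : (l + c) * N ≤ (l + (c + 1)) * N := Nat.mul_le_mul_right N (by omega)
    omega

/-- a graph with large minimum degree is highly edge connected -/
lemma EC_of_degree {G : SimpleGraph V} {l : ℕ} (hl : ∀ v, l ≤ dgc G v)
    (h1 : 1 < Fintype.card V) (hN : Fintype.card V ≤ 2 * l + 1) : EC l G := by
  refine ⟨h1, fun X hX hXu => ?_⟩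
  have key : ∀ Y : Finset V, Y.Nonempty → Y.card ≤ l → l ≤ dX G Y := by
    intro Y hY hYl
    have h2 := mul_le_dX hl Y
    have h3 : 1 ≤ Y.card := card_pos.mpr hY
    obtain ⟨a, ha⟩ : ∃ a, Y.card = a + 1 := ⟨Y.card - 1, by omega⟩
    obtain ⟨b, hb⟩ : ∃ b, l = a + 1 + b := ⟨l - (a + 1), by omega⟩
    rw [ha, hb] at h2
    rw [hb]
    nlinarith [Nat.zero_le (a * b)]
  rcases Nat.lt_or_ge l X.card with h | h
  · rw [← dX_compl]
    have h5 : X.card + Xᶜ.card = Fintype.card V := card_add_card_compl X
    refine key _ ?_ (by omega)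
    rw [nonempty_iff_ne_empty, ne_eq, compl_eq_empty_iff]
    exact hXu
  · exact key X hX h

end Pool.Agent.Work.MP_60abc6_co
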