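import Mathlib
import Pool.Agent.Work.MP_60abc6_co.Match

set_option autoImplicit false

/-! Exact values. -/

namespace Pool.Agent.Work.MP_60abc6_co

open Finset

lemma dgc_top {V : Type*} [Fintype V] [DecidableEq V] (v : V) :
    dgc (⊤ : SimpleGraph V) v = Fintype.card V - 1 := by
  classical
  unfold dgc
  have : (univ.filter ((⊤ : SimpleGraph V).Adj v)) = univ.erase v := by
    ext u
    simp only [mem_filter, mem_univ, true_and, SimpleGraph.top_adj, mem_erase, and_true]
    exact ne_comm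
  have h2 : (univ.filter ((⊤ : SimpleGraph V).Adj v)).card = Fintype.card V - 1 := by
    rw [this, card_erase_of_mem (mem_univ v), card_univ]
  convert h2

lemma two_ec_top {n : ℕ} : 2 * ec (⊤ : SimpleGraph (Fin n)) = n * (n - 1) := by
  rw [two_mul_ec, sum_congr rfl fun v _ => dgc_top v, sum_const, card_univ, Fintype.card_fin,
    smul_eq_mul]

/-- the value of the number when every step can be made -/
theorem exact_value {n k l : ℕ} (hlk : l < k) (hkn : k < n)
    (P : ℕ → SimpleGraph (Fin n) → Prop) (htop : P (n - 1) ⊤)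
    (hdeg : ∀ G, P l G → ∀ v, l ≤ dgc G v)
    (hmono : ∀ H H' : SimpleGraph (Fin n), H ≤ H' → P l H → P l H')
    (hkl : ∀ G, P k G → P l G)
    (step : ∀ j, l < j → j < n → ∀ G : SimpleGraph (Fin n), P j G →
      ∃ H, H ≤ G ∧ P (j - 1) H ∧ ec H + ((j * n + 1) / 2 - ((j - 1) * n + 1) / 2) ≤ ec G) :
    sSup {e : ℕ | ∀ G : SimpleGraph (Fin n), P k G →
      ∃ F : Finset (Sym2 (Fin n)), (F : Set (Sym2 (Fin n))) ⊆ G.edgeSet ∧ F.card = e ∧
        P l (G.deleteEdges (F : Set (Sym2 (Fin n))))} = (k * n + 1) / 2 - (l * n + 1) / 2 := by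
  obtain ⟨c, rfl⟩ : ∃ c, k = l + c := ⟨k - l, by omega⟩
  obtain ⟨d, hd⟩ : ∃ d, n - 1 = l + c + d := ⟨n - 1 - (l + c), by omega⟩
  have hG0 : ∃ G0 : SimpleGraph (Fin n), P (l + c) G0 ∧ ec G0 ≤ ((l + c) * n + 1) / 2 := by
    obtain ⟨G0, -, h1, h2⟩ := telescope (P := P) (N := n) (l := l + c)
      (fun j h1 h2 G hG => step j (by omega) h2 G hG) d (by omega) ⊤ (hd ▸ htop)
    refine ⟨G0, h1, ?_⟩
    have h3 := two_ec_top (n := n)
    rw [← hd] at h2
    have h4 : (l + c) * n ≤ (n - 1) * n := Nat.mul_le_mul_right n (by omega)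
    have h5 : (n - 1) * n = n * (n - 1) := mul_comm _ _
    have h6 : (n - 1) * n % 2 = 0 := by
      rw [h5, ← h3]
      exact Nat.mul_mod_right 2 _
    omega
  obtain ⟨G0, hG0, hec⟩ := hG0
  refine le_antisymm ?_ ?_
  · refine sSup_delete_le (P := P l) (Q := P (l + c)) hG0 (fun H _ hH => ?_) hkl
    have h1 : l * n ≤ 2 * ec H := by
      rw [two_mul_ec]
      calc l * n = ∑ _v : Fin n, l := by
            rw [sum_const, card_univ, Fintype.card_fin, smul_eq_mul, mul_comm]
        _ ≤ _ := sum_le_sum fun v _ => hdeg H hH v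
    omega
  · refine le_sSup_delete (P := P l) (Q := P (l + c)) hmono ⟨G0, hG0⟩ fun G hG => ?_
    exact telescope (P := P) (N := n) (l := l) step c (by omega) G hG

theorem eLambda_exact {n k l : ℕ} (hl : 1 ≤ l) (hlk : l < k) (hkn : k < n)
    (hn : n ≤ 2 * l + 1) : eLambda n k l = (k * n + 1) / 2 - (l * n + 1) / 2 := by
  unfold eLambda
  refine exact_value hlk hkn (fun j G => KEdgeConnected j G) ?_ ?_ ?_ ?_ ?_
  · rw [KEdgeConnected_iff_EC]
    refine EC_of_degree (fun v => ?_) (by rw [Fintype.card_fin]; omega)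
      (by rw [Fintype.card_fin]; omega)
    rw [dgc_top, Fintype.card_fin]
  · intro G hG v
    rw [KEdgeConnected_iff_EC] at hG
    exact hG.min_degree v
  · intro H H' hHH hH
    rw [KEdgeConnected_iff_EC] at hH ⊢
    exact hH.mono_graph hHH
  · intro G hG
    rw [KEdgeConnected_iff_EC] at hG ⊢
    exact hG.mono hlk.le
  · intro j hj hjn G hG
    rw [KEdgeConnected_iff_EC] at hG
    obtain ⟨H, h1, h2, h3⟩ := degree_step (G := G) (k := j) (fun v => hG.min_degree v) (by omega)
      (by rw [Fintype.card_fin]; omega)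
    rw [Fintype.card_fin] at h3
    refine ⟨H, h1, ?_, h3⟩
    rw [KEdgeConnected_iff_EC]
    exact EC_of_degree h2 (by rw [Fintype.card_fin]; omega) (by rw [Fintype.card_fin]; omega)

end Pool.Agent.Work.MP_60abc6_co
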