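import Mathlib
import Pool.Agent.Work.MP_60abc6_co.Match

set_option autoImplicit false

/-! Switching: one step for vertex connectivity in dense graphs. -/

namespace Pool.Agent.Work.MP_60abc6_co

open Finset

variable {V : Type*} [Fintype V] [DecidableEq V]

open Classical in
/-- the common neighbourhood -/
noncomputable def CN (J : SimpleGraph V) (B : Finset V) : Finset V :=
  univ.filter fun w => ∀ b ∈ B, J.Adj w b

lemma mem_CN {J : SimpleGraph V} {B : Finset V} {w : V} : w ∈ CN J B ↔ ∀ b ∈ B, J.Adj w b := by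
  unfold CN
  simp

/-- every complete bipartite subgraph has at most `D` vertices -/
def OKD (J : SimpleGraph V) (D : ℕ) : Prop :=
  ∀ B : Finset V, B.Nonempty → (CN J B).Nonempty → B.card + (CN J B).card ≤ D

lemma CN_supermod (J : SimpleGraph V) (X Y : Finset V) :
    (X.card + (CN J X).card) + (Y.card + (CN J Y).card) ≤
      ((X ∪ Y).card + (CN J (X ∪ Y)).card) + ((X ∩ Y).card + (CN J (X ∩ Y)).card) := by
  have h1 := card_union_add_card_inter X Y
  have h2 := card_union_add_card_inter (CN J X) (CN J Y)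
  have h3 : CN J X ∩ CN J Y ⊆ CN J (X ∪ Y) := by
    intro w hw
    rw [mem_inter, mem_CN, mem_CN] at hw
    rw [mem_CN]
    intro b hb
    rw [mem_union] at hb
    rcases hb with hb | hb
    · exact hw.1 b hb
    · exact hw.2 b hb
  have h4 : CN J X ∪ CN J Y ⊆ CN J (X ∩ Y) := by
    intro w hw
    rw [mem_union, mem_CN, mem_CN] at hw
    rw [mem_CN]
    intro b hb
    rw [mem_inter] at hb
    rcases hw with hw | hw
    · exact hw b hb.1
    · exact hw b hb.2
  have h5 := card_le_card h3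
  have h6 := card_le_card h4
  omega

/-- the pair `p x` is the only missing one in a too large complete bipartite graph -/
def Bad (J : SimpleGraph V) (D : ℕ) (p x : V) : Prop :=
  ∃ A B : Finset V, p ∈ A ∧ x ∈ B ∧ 2 ≤ A.card ∧ 2 ≤ B.card ∧ D + 1 ≤ A.card + B.card ∧
    ∀ a ∈ A, ∀ b ∈ B, ¬ (a = p ∧ b = x) → J.Adj a b

lemma Bad.symm {J : SimpleGraph V} {D : ℕ} {p x : V} (h : Bad J D p x) : Bad J D x p := by
  obtain ⟨A, B, h1, h2, h3, h4, h5, h6⟩ := h
  exact ⟨B, A, h2, h1, h4, h3, by omega, fun a ha b hb hab =>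
    (h6 b hb a ha fun hh => hab ⟨hh.2, hh.1⟩).symm⟩

/-- a witness of badness -/
structure Wit (J : SimpleGraph V) (D : ℕ) (p x : V) (C : Finset V) : Prop where
  ne : C.Nonempty
  sub : ∀ c ∈ C, J.Adj p c
  fC : C.card + (CN J C).card = D
  fB : (insert x C).card + (CN J (insert x C)).card = D
  x_not : x ∉ C

lemma Bad.wit {J : SimpleGraph V} {D : ℕ} {p x : V} (hJ : OKD J D) (h : Bad J D p x) :
    ∃ C, Wit J D p x C := by
  obtain ⟨A, B, h1, h2, h3, h4, h5, h6⟩ := h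
  have hCe : insert x (B.erase x) = B := insert_erase h2
  have hBc : (B.erase x).card + 1 = B.card := card_erase_add_one h2
  have hAc : (A.erase p).card + 1 = A.card := card_erase_add_one h1
  have hCn : (B.erase x).Nonempty := card_pos.mp (by omega)
  have hAsub : A ⊆ CN J (B.erase x) := by
    intro a ha
    rw [mem_CN]
    intro b hb
    rw [mem_erase] at hb
    exact h6 a ha b hb.2 fun hh => hb.1 hh.2
  have hAsub' : A.erase p ⊆ CN J B := by
    intro a ha
    rw [mem_erase] at ha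
    rw [mem_CN]
    intro b hb
    exact h6 a ha.2 b hb fun hh => ha.1 hh.1
  have c1 := card_le_card hAsub
  have c2 := card_le_card hAsub'
  have hne1 : (CN J (B.erase x)).Nonempty := ⟨p, hAsub h1⟩
  have hne2 : (CN J B).Nonempty := card_pos.mp (by omega)
  have o1 := hJ _ hCn hne1
  have o2 := hJ B ⟨x, h2⟩ hne2
  refine ⟨B.erase x, hCn, ?_, by omega, ?_, notMem_erase _ _⟩
  · intro c hc
    rw [mem_erase] at hc
    exact h6 p h1 c hc.2 fun hh => hc.1 hh.2
  · rw [hCe]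
    omega

/-- two different bad partners have disjoint witnesses -/
lemma wit_disjoint {J : SimpleGraph V} {D : ℕ} {p x1 x2 : V} (hJ : OKD J D)
    (hp : dgc J p + 2 ≤ D) (hne : x1 ≠ x2) (hx1 : ¬ J.Adj p x1) (hx2 : ¬ J.Adj p x2)
    {C1 C2 : Finset V} (w1 : Wit J D p x1 C1) (w2 : Wit J D p x2 C2) : Disjoint C1 C2 := by
  classical
  by_contra hcon
  rw [not_disjoint_iff_nonempty_inter] at hcon
  -- the union
  have hpU : p ∈ CN J (C1 ∪ C2) := by
    rw [mem_CN]
    intro b hb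
    rw [mem_union] at hb
    rcases hb with hb | hb
    · exact w1.sub b hb
    · exact w2.sub b hb
  have hpI : p ∈ CN J (C1 ∩ C2) := by
    rw [mem_CN]
    intro b hb
    exact w1.sub b (mem_inter.mp hb).1
  have hUc : (C1 ∪ C2).card ≤ dgc J p := by
    unfold dgc
    refine card_le_card fun c hc => ?_
    rw [mem_filter]
    exact ⟨mem_univ _, mem_CN.mp hpU c hc⟩
  have hsm := CN_supermod J C1 C2
  have o1 := hJ _ (hcon.mono inter_subset_union) ⟨p, hpU⟩
  have o2 := hJ _ hcon ⟨p, hpI⟩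
  have f1 := w1.fC
  have f2 := w2.fC
  have hU : (C1 ∪ C2).card + (CN J (C1 ∪ C2)).card = D := by omega
  have hx1U : x1 ∉ C1 ∪ C2 := fun hh => hx1 (mem_CN.mp hpU x1 hh)
  have hx2U : x2 ∉ C1 ∪ C2 := fun hh => hx2 (mem_CN.mp hpU x2 hh)
  have hUne : (C1 ∪ C2).Nonempty := hcon.mono inter_subset_union
  -- adding one point
  have key : ∀ x C, Wit J D p x C → C ⊆ C1 ∪ C2 → x ∉ C1 ∪ C2 → ¬ J.Adj p x →
      CN J (insert x (C1 ∪ C2)) = (CN J (C1 ∪ C2)).erase p := by
    intro x C w hC hxU hx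
    have hsm2 := CN_supermod J (insert x C) (C1 ∪ C2)
    have e1 : insert x C ∪ (C1 ∪ C2) = insert x (C1 ∪ C2) := by
      rw [insert_union, union_eq_right.mpr hC]
    have e2 : insert x C ∩ (C1 ∪ C2) = C := by
      rw [insert_inter_of_notMem hxU, inter_eq_left.mpr hC]
    rw [e1, e2] at hsm2
    have f3 := w.fC
    have f4 := w.fB
    have hc1 : (insert x (C1 ∪ C2)).card = (C1 ∪ C2).card + 1 := card_insert_of_notMem hxU
    have hsub : CN J (insert x (C1 ∪ C2)) ⊆ (CN J (C1 ∪ C2)).erase p := by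
      intro z hz
      rw [mem_CN] at hz
      rw [mem_erase, mem_CN]
      refine ⟨?_, fun b hb => hz b (mem_insert_of_mem hb)⟩
      rintro rfl
      exact hx (hz x (mem_insert_self _ _))
    have hc2 : ((CN J (C1 ∪ C2)).erase p).card + 1 = (CN J (C1 ∪ C2)).card :=
      card_erase_add_one hpU
    refine eq_of_subset_of_card_le hsub ?_
    omega
  have k1 := key x1 C1 w1 subset_union_left hx1U hx1
  have k2 := key x2 C2 w2 subset_union_right hx2U hx2
  have hc2 : ((CN J (C1 ∪ C2)).erase p).card + 1 = (CN J (C1 ∪ C2)).card :=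
    card_erase_add_one hpU
  set X := insert x1 (insert x2 (C1 ∪ C2)) with hX
  have hXc : X.card = (C1 ∪ C2).card + 2 := by
    rw [hX, card_insert_of_notMem, card_insert_of_notMem hx2U]
    rw [mem_insert, not_or]
    exact ⟨hne, hx1U⟩
  have hXsub : (CN J (C1 ∪ C2)).erase p ⊆ CN J X := by
    intro z hz
    rw [mem_CN]
    intro b hb
    rw [hX, mem_insert, mem_insert] at hb
    rcases hb with rfl | rfl | hb
    · have hz' := hz
      rw [← k1, mem_CN] at hz'
      exact hz' _ (mem_insert_self _ _)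
    · have hz' := hz
      rw [← k2, mem_CN] at hz'
      exact hz' _ (mem_insert_self _ _)
    · exact mem_CN.mp (mem_of_mem_erase hz) b hb
  have hXl := card_le_card hXsub
  have o3 := hJ X ⟨x1, mem_insert_self _ _⟩ (card_pos.mp (by omega))
  omega

open Classical in
/-- the partners allowed for `p` -/
noncomputable def Al (J : SimpleGraph V) (D : ℕ) (p : V) : Finset V :=
  univ.filter fun x => x ≠ p ∧ ¬ J.Adj p x ∧ ¬ Bad J D p x

lemma mem_Al {J : SimpleGraph V} {D : ℕ} {p x : V} :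
    x ∈ Al J D p ↔ x ≠ p ∧ ¬ J.Adj p x ∧ ¬ Bad J D p x := by
  unfold Al
  simp

lemma Al_symm {J : SimpleGraph V} {D : ℕ} {p x : V} : x ∈ Al J D p ↔ p ∈ Al J D x := by
  rw [mem_Al, mem_Al]
  constructor
  · exact fun h => ⟨h.1.symm, fun hh => h.2.1 hh.symm, fun hh => h.2.2 hh.symm⟩
  · exact fun h => ⟨h.1.symm, fun hh => h.2.1 hh.symm, fun hh => h.2.2 hh.symm⟩

lemma card_Al {J : SimpleGraph V} {D : ℕ} {p : V} (hJ : OKD J D) (hp : dgc J p + 2 ≤ D) :
    Fintype.card V ≤ (Al J D p).card + 1 + 2 * dgc J p := by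
  classical
  set Nb : Finset V := univ.filter (J.Adj p) with hNb
  set Bd : Finset V := univ.filter fun x => ¬ J.Adj p x ∧ Bad J D p x with hBd
  have h1 : (univ : Finset V) ⊆ Al J D p ∪ ({p} ∪ (Nb ∪ Bd)) := by
    intro x _
    rw [mem_union, mem_union, mem_union, mem_Al, mem_singleton, hNb, hBd, mem_filter, mem_filter]
    have := mem_univ x
    tauto
  have h2 := card_le_card h1
  have h3 := card_union_le (Al J D p) ({p} ∪ (Nb ∪ Bd))
  have h4 := card_union_le {p} (Nb ∪ Bd)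
  have h5 := card_union_le Nb Bd
  have h6 : Nb.card = dgc J p := rfl
  have h7 : Bd.card ≤ Nb.card := by
    have hw : ∀ x ∈ Bd, ∃ C, Wit J D p x C := fun x hx => by
      rw [hBd, mem_filter] at hx
      exact hx.2.2.wit hJ
    choose! C hC using hw
    have hv : ∀ x ∈ Bd, ∃ v, v ∈ C x := fun x hx => (hC x hx).ne
    choose! v hv using hv
    refine card_le_card_of_injOn v ?_ ?_
    · intro x hx
      rw [mem_coe, hNb, mem_filter]
      exact ⟨mem_univ _, (hC x hx).sub _ (hv x hx)⟩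
    · intro x hx y hy hxy
      rw [mem_coe] at hx hy
      by_contra hne
      have hx' := hx
      have hy' := hy
      rw [hBd, mem_filter] at hx' hy'
      have h8 := wit_disjoint hJ hp hne hx'.2.1 hy'.2.1 (hC x hx) (hC y hy)
      exact disjoint_left.mp h8 (hv x hx) (hxy ▸ hv y hy)
  rw [card_singleton] at h4
  rw [card_univ] at h2
  omega

/-- the two classes of a large complete bipartite graph have at least two vertices -/
lemma two_le_of_full {J : SimpleGraph V} {D : ℕ} (hdeg : ∀ v, dgc J v + 1 ≤ D) {A B : Finset V}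
    (hA : A.Nonempty) (hB : B.Nonempty) (hAB : D + 1 ≤ A.card + B.card)
    (hfull : ∀ a ∈ A, ∀ b ∈ B, J.Adj a b) : 2 ≤ A.card ∧ 2 ≤ B.card := by
  classical
  have h1 : B.card + 1 ≤ D := by
    obtain ⟨a, ha⟩ := hA
    refine le_trans (Nat.add_le_add_right ?_ 1) (hdeg a)
    unfold dgc
    exact card_le_card fun b hb => mem_filter.mpr ⟨mem_univ _, hfull a ha b hb⟩
  have h2 : A.card + 1 ≤ D := by
    obtain ⟨b, hb⟩ := hB
    refine le_trans (Nat.add_le_add_right ?_ 1) (hdeg b)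
    unfold dgc
    exact card_le_card fun a ha => mem_filter.mpr ⟨mem_univ _, (hfull a ha b hb).symm⟩
  omega

lemma use_px {J J' : SimpleGraph V} {D : ℕ} {p x q y : V}
    (hJJ : ∀ u v, J'.Adj u v → J.Adj u v ∨ (u = p ∧ v = x) ∨ (u = x ∧ v = p) ∨
      (u = q ∧ v = y) ∨ (u = y ∧ v = q))
    (hbp : ¬ Bad J D p x) (hno : ¬ (J'.Adj p y ∧ J'.Adj q x)) (hxy : ¬ J'.Adj x y)
    {A B : Finset V} (h2A : 2 ≤ A.card) (h2B : 2 ≤ B.card) (hAB : D + 1 ≤ A.card + B.card)
    (hfull : ∀ a ∈ A, ∀ b ∈ B, J'.Adj a b) (hp : p ∈ A) (hx : x ∈ B) : False := by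
  by_cases h1 : q ∈ A ∧ y ∈ B
  · exact hno ⟨hfull p hp y h1.2, hfull q h1.1 x hx⟩
  by_cases h2 : q ∈ B ∧ y ∈ A
  · exact hxy (hfull y h2.2 x hx).symm
  refine hbp ⟨A, B, hp, hx, h2A, h2B, hAB, fun a ha b hb hab => ?_⟩
  rcases hJJ a b (hfull a ha b hb) with h | h | h | h | h
  · exact h
  · exact absurd h hab
  · exfalso
    rw [h.1] at ha
    exact J'.loopless.irrefl x (hfull x ha x hx)
  · exact absurd ⟨h.1 ▸ ha, h.2 ▸ hb⟩ h1
  · exact absurd ⟨h.2 ▸ hb, h.1 ▸ ha⟩ h2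

/-- exchanging edges keeps the condition -/
lemma ok_switch {J J' : SimpleGraph V} {D : ℕ} {p x q y : V} (hJ : OKD J D)
    (hdeg : ∀ v, dgc J' v + 1 ≤ D)
    (hJJ : ∀ u v, J'.Adj u v → J.Adj u v ∨ (u = p ∧ v = x) ∨ (u = x ∧ v = p) ∨
      (u = q ∧ v = y) ∨ (u = y ∧ v = q))
    (hbp : ¬ Bad J D p x) (hbq : ¬ Bad J D q y) (hno : ¬ (J'.Adj p y ∧ J'.Adj q x))
    (hxy : ¬ J'.Adj x y) : OKD J' D := by
  intro B hB hA
  by_contra hcon
  push Not at hcon
  set A := CN J' B with hAdef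
  have hfull : ∀ a ∈ A, ∀ b ∈ B, J'.Adj a b := fun a ha b hb => mem_CN.mp ha b hb
  have hfull' : ∀ b ∈ B, ∀ a ∈ A, J'.Adj b a := fun b hb a ha => (hfull a ha b hb).symm
  have h2 := two_le_of_full hdeg hA hB (by omega) hfull
  have hJJ' : ∀ u v, J'.Adj u v → J.Adj u v ∨ (u = q ∧ v = y) ∨ (u = y ∧ v = q) ∨
      (u = p ∧ v = x) ∨ (u = x ∧ v = p) := by
    intro u v h
    have := hJJ u v h
    tauto
  have hno' : ¬ (J'.Adj q x ∧ J'.Adj p y) := fun h => hno ⟨h.2, h.1⟩
  have hyx : ¬ J'.Adj y x := fun h => hxy h.symm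
  by_cases c1 : p ∈ A ∧ x ∈ B
  · exact use_px hJJ hbp hno hxy h2.1 h2.2 (by omega) hfull c1.1 c1.2
  by_cases c2 : p ∈ B ∧ x ∈ A
  · exact use_px hJJ hbp hno hxy h2.2 h2.1 (by omega) hfull' c2.1 c2.2
  by_cases c3 : q ∈ A ∧ y ∈ B
  · exact use_px hJJ' hbq hno' hyx h2.1 h2.2 (by omega) hfull c3.1 c3.2
  by_cases c4 : q ∈ B ∧ y ∈ A
  · exact use_px hJJ' hbq hno' hyx h2.2 h2.1 (by omega) hfull' c4.1 c4.2
  have hsub : A ⊆ CN J B := by
    intro a ha
    rw [mem_CN]
    intro b hb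
    rcases hJJ a b (hfull a ha b hb) with h | h | h | h | h
    · exact h
    · exact absurd ⟨h.1 ▸ ha, h.2 ▸ hb⟩ c1
    · exact absurd ⟨h.2 ▸ hb, h.1 ▸ ha⟩ c2
    · exact absurd ⟨h.1 ▸ ha, h.2 ▸ hb⟩ c3
    · exact absurd ⟨h.2 ▸ hb, h.1 ▸ ha⟩ c4
  have h3 := card_le_card hsub
  have h4 := hJ B hB (hA.mono hsub)
  omega

/-- adding one edge keeps the condition -/
lemma ok_add {J J' : SimpleGraph V} {D : ℕ} {p x : V} (hJ : OKD J D)
    (hdeg : ∀ v, dgc J' v + 1 ≤ D)
    (hJJ : ∀ u v, J'.Adj u v → J.Adj u v ∨ (u = p ∧ v = x) ∨ (u = x ∧ v = p))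
    (hbp : ¬ Bad J D p x) : OKD J' D := by
  intro B hB hA
  by_contra hcon
  push Not at hcon
  set A := CN J' B with hAdef
  have hfull : ∀ a ∈ A, ∀ b ∈ B, J'.Adj a b := fun a ha b hb => mem_CN.mp ha b hb
  have h2 := two_le_of_full hdeg hA hB (by omega) hfull
  have hdj : ∀ z, z ∈ A → z ∈ B → False := fun z h1 h2 => J'.loopless.irrefl z (hfull z h1 z h2)
  by_cases c1 : p ∈ A ∧ x ∈ B
  · refine hbp ⟨A, B, c1.1, c1.2, h2.1, h2.2, by omega, fun a ha b hb hab => ?_⟩
    rcases hJJ a b (hfull a ha b hb) with h | h | h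
    · exact h
    · exact absurd h hab
    · exact absurd (h.1 ▸ ha) fun hh => hdj x hh c1.2
  by_cases c2 : p ∈ B ∧ x ∈ A
  · refine hbp ⟨B, A, c2.1, c2.2, h2.2, h2.1, by omega, fun b hb a ha hab => ?_⟩
    rcases hJJ a b (hfull a ha b hb) with h | h | h
    · exact h.symm
    · exact absurd (h.1 ▸ ha) fun hh => hdj p hh c2.1
    · exact absurd ⟨h.2, h.1⟩ hab
  have hsub : A ⊆ CN J B := by
    intro a ha
    rw [mem_CN]
    intro b hb
    rcases hJJ a b (hfull a ha b hb) with h | h | h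
    · exact h
    · exact absurd ⟨h.1 ▸ ha, h.2 ▸ hb⟩ c1
    · exact absurd ⟨h.2 ▸ hb, h.1 ▸ ha⟩ c2
  have h3 := card_le_card hsub
  have h4 := hJ B hB (hA.mono hsub)
  omega

end Pool.Agent.Work.MP_60abc6_co
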