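import Mathlib
import Pool.Agent.Work.MP_60abc6_co.Sw
import Pool.Agent.Work.MP_60abc6_co.Exact

set_option autoImplicit false

/-! The step for vertex connectivity in dense graphs, by switching. -/

namespace Pool.Agent.Work.MP_60abc6_co

open Finset

variable {V : Type*} [Fintype V] [DecidableEq V]

lemma dgc_sup_le (F E : SimpleGraph V) (v : V) : dgc (F ⊔ E) v ≤ dgc F v + dgc E v := by
  classical
  unfold dgc
  refine le_trans (card_le_card fun u hu => ?_) (card_union_le _ _)
  simp only [mem_filter, mem_univ, true_and, SimpleGraph.sup_adj] at hu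
  simp only [mem_union, mem_filter, mem_univ, true_and]
  exact hu

lemma dgc_compl (G : SimpleGraph V) (v : V) : dgc Gᶜ v + dgc G v + 1 = Fintype.card V := by
  classical
  unfold dgc
  have h1 : (univ.filter (Gᶜ.Adj v)) ∪ univ.filter (G.Adj v) = univ.erase v := by
    ext u
    simp only [mem_union, mem_filter, mem_univ, true_and, mem_erase, and_true,
      SimpleGraph.compl_adj]
    constructor
    · rintro (h | h)
      · exact h.1.symm
      · exact h.ne.symm
    · intro h
      by_cases h2 : G.Adj v u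
      · exact Or.inr h2
      · exact Or.inl ⟨h.symm, h2⟩
  have hdis : Disjoint (univ.filter (Gᶜ.Adj v)) (univ.filter (G.Adj v)) := by
    rw [disjoint_left]
    intro u hu hu'
    simp only [mem_filter, mem_univ, true_and, SimpleGraph.compl_adj] at hu hu'
    exact hu.2 hu'
  have h2 := card_union_of_disjoint hdis
  rw [h1, card_erase_of_mem (mem_univ v), card_univ] at h2
  have : 0 < Fintype.card V := Fintype.card_pos_iff.mpr ⟨v⟩
  have h3 : (univ.filter (Gᶜ.Adj v)).card + (univ.filter (G.Adj v)).card + 1 = Fintype.card V := by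
    omega
  convert h3

/-- the complement of the remaining graph -/
def JG (G : SimpleGraph V) (σ : V → V) (h : ∀ v, σ (σ v) = v) : SimpleGraph V := Gᶜ ⊔ matG σ h

lemma JG_adj {G : SimpleGraph V} {σ : V → V} {h : ∀ v, σ (σ v) = v} {u v : V} :
    (JG G σ h).Adj u v ↔ Gᶜ.Adj u v ∨ (u ≠ v ∧ σ u = v) := Iff.rfl

lemma dgc_JG_le {G : SimpleGraph V} {σ : V → V} {h : ∀ v, σ (σ v) = v} (v : V) :
    dgc (JG G σ h) v ≤ dgc Gᶜ v + 1 := by
  have h1 := dgc_sup_le Gᶜ (matG σ h) v
  have h2 := dgc_matG h v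
  have h3 : dgc (matG σ h) v ≤ 1 := by
    rw [h2]
    split_ifs <;> omega
  unfold JG
  omega

lemma dgc_JG_fixed {G : SimpleGraph V} {σ : V → V} {h : ∀ v, σ (σ v) = v} {v : V} (hv : σ v = v) :
    dgc (JG G σ h) v ≤ dgc Gᶜ v := by
  have h1 := dgc_sup_le Gᶜ (matG σ h) v
  have h2 := dgc_matG h v
  rw [if_pos hv] at h2
  unfold JG
  omega

/-- an admissible matching which moves `R` -/
structure Adm (G : SimpleGraph V) (D : ℕ) (R : Finset V) (σ : V → V) : Prop where
  inv : Inv G univ σ
  ok : OKD (JG G σ inv.inv) D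
  mv : ∀ r ∈ R, σ r ≠ r

lemma exists_min_adm {G : SimpleGraph V} {D : ℕ} {R : Finset V} (h : ∃ σ, Adm G D R σ) :
    ∃ σ, Adm G D R σ ∧ ∀ τ, Adm G D R τ → fx univ σ ≤ fx univ τ := by
  classical
  have hex : ∃ m, ∃ σ : V → V, Adm G D R σ ∧ fx univ σ = m := by
    obtain ⟨σ, hσ⟩ := h
    exact ⟨_, σ, hσ, rfl⟩
  obtain ⟨σ, h1, h2⟩ := Nat.find_spec hex
  refine ⟨σ, h1, fun τ hτ => ?_⟩
  rw [h2]
  exact Nat.find_min' hex ⟨τ, hτ, rfl⟩

lemma compl_of_not_JG {G : SimpleGraph V} {σ : V → V} {h : ∀ v, σ (σ v) = v} {u v : V}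
    (huv : u ≠ v) (hn : ¬ (JG G σ h).Adj u v) : G.Adj u v := by
  by_contra hcon
  exact hn (JG_adj.mpr (Or.inl ((SimpleGraph.compl_adj G u v).mpr ⟨huv, hcon⟩)))

lemma adm_aug_one {G : SimpleGraph V} {D : ℕ} {R : Finset V} {σ : V → V}
    (hdeg : ∀ v, dgc Gᶜ v + 2 ≤ D) (h : Adm G D R σ)
    {p q : V} (hfp : σ p = p) (hfq : σ q = q) (hal : q ∈ Al (JG G σ h.inv.inv) D p) :
    ∃ τ, Adm G D R τ ∧ fx univ τ < fx univ σ ∧ τ p ≠ p := by
  rw [mem_Al] at hal
  obtain ⟨hqp, hna, hnb⟩ := hal
  have hne : p ≠ q := hqp.symm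
  have hpq : G.Adj p q := compl_of_not_JG hne hna
  set τ : V → V := fun v => if v = p then q else if v = q then p else σ v with hτ
  have tp : τ p = q := by simp [hτ]
  have tq : τ q = p := by simp [hτ, hne.symm]
  have tr : ∀ v, v ≠ p → v ≠ q → τ v = σ v := by
    intro v h1 h2
    simp [hτ, h1, h2]
  have hτi : Inv G univ τ := by
    refine ⟨fun v => ?_, fun v hv => absurd (mem_univ v) hv, fun v hv => ?_⟩
    · by_cases h1 : v = p
      · rw [h1, tp, tq]
      by_cases h2 : v = q
      · rw [h2, tq, tp]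
      rw [tr v h1 h2, tr (σ v), h.inv.inv]
      · intro hh
        apply h1
        rw [← h.inv.inv v, hh, hfp]
      · intro hh
        apply h2
        rw [← h.inv.inv v, hh, hfq]
    · by_cases h1 : v = p
      · rw [h1, tp]
        exact hpq
      by_cases h2 : v = q
      · rw [h2, tq]
        exact hpq.symm
      rw [tr v h1 h2] at hv ⊢
      exact h.inv.adj v hv
  have hfix : ∀ v, τ v = v → σ v = v := by
    intro v htv
    by_cases h1 : v = p
    · rw [h1]; exact hfp
    by_cases h2 : v = q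
    · rw [h2]; exact hfq
    rw [← tr v h1 h2]
    exact htv
  refine ⟨τ, ⟨hτi, ?_, fun r hr hh => h.mv r hr (hfix r hh)⟩, ?_⟩
  · refine ok_add (p := p) (x := q) h.ok (fun v => ?_) (fun u v huv => ?_) hnb
    · have h1 := dgc_JG_le (G := G) (h := hτi.inv) v
      have h2 := hdeg v
      omega
    · rw [JG_adj] at huv
      rcases huv with huv | ⟨h1, h2⟩
      · exact Or.inl (JG_adj.mpr (Or.inl huv))
      · by_cases e1 : u = p
        · rw [e1, tp] at h2
          exact Or.inr (Or.inl ⟨e1, h2.symm⟩)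
        by_cases e2 : u = q
        · rw [e2, tq] at h2
          exact Or.inr (Or.inr ⟨e2, h2.symm⟩)
        rw [tr u e1 e2] at h2
        exact Or.inl (JG_adj.mpr (Or.inr ⟨h1, h2⟩))
  · exact ⟨fx_lt (fun v _ => hfix v) (mem_univ p) hfp (by rw [tp]; exact hne.symm),
      by rw [tp]; exact hne.symm⟩

lemma adm_aug_two {G : SimpleGraph V} {D : ℕ} {R : Finset V} {σ : V → V}
    (hdeg : ∀ v, dgc Gᶜ v + 2 ≤ D) (h : Adm G D R σ)
    {p q x : V} (hpq : p ≠ q) (hfp : σ p = p) (hfq : σ q = q) (hx : σ x ≠ x)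
    (hal : x ∈ Al (JG G σ h.inv.inv) D p) (hal' : σ x ∈ Al (JG G σ h.inv.inv) D q)
    (hno : ¬ ((JG G σ h.inv.inv).Adj p (σ x) ∧ (JG G σ h.inv.inv).Adj q x)) :
    ∃ τ, Adm G D R τ ∧ fx univ τ < fx univ σ := by
  rw [mem_Al] at hal hal'
  obtain ⟨hxp, hna, hnb⟩ := hal
  obtain ⟨hyq, hna', hnb'⟩ := hal'
  set y := σ x with hy
  have hyx : σ y = x := h.inv.inv x
  have hpx : p ≠ x := hxp.symm
  have hqy : q ≠ y := hyq.symm
  have h1 : G.Adj p x := compl_of_not_JG hpx hna
  have h2 : G.Adj q y := compl_of_not_JG hqy hna'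
  have hpy : p ≠ y := by
    intro hh
    rw [← hh, hfp] at hyx
    exact hpx hyx
  have hqx : q ≠ x := by
    intro hh
    rw [← hh, hfq] at hy
    exact hqy hy.symm
  set τ : V → V := fun v => if v = p then x else if v = x then p else if v = q then y else
    if v = y then q else σ v with hτ
  have tp : τ p = x := by simp [hτ]
  have tx : τ x = p := by simp [hτ, hpx.symm]
  have tq : τ q = y := by simp [hτ, hpq.symm, hqx]
  have ty : τ y = q := by simp [hτ, hpy.symm, hx, hqy.symm]
  have tr : ∀ v, v ≠ p → v ≠ x → v ≠ q → v ≠ y → τ v = σ v := by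
    intro v h1 h2 h3 h4
    simp [hτ, h1, h2, h3, h4]
  have hτi : Inv G univ τ := by
    refine ⟨fun v => ?_, fun v hv => absurd (mem_univ v) hv, fun v hv => ?_⟩
    · by_cases e1 : v = p
      · rw [e1, tp, tx]
      by_cases e2 : v = x
      · rw [e2, tx, tp]
      by_cases e3 : v = q
      · rw [e3, tq, ty]
      by_cases e4 : v = y
      · rw [e4, ty, tq]
      rw [tr v e1 e2 e3 e4, tr (σ v), h.inv.inv]
      · intro hh
        apply e1
        rw [← h.inv.inv v, hh, hfp]
      · intro hh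
        apply e4
        rw [← h.inv.inv v, hh]
      · intro hh
        apply e3
        rw [← h.inv.inv v, hh, hfq]
      · intro hh
        apply e2
        rw [← h.inv.inv v, hh, hyx]
    · by_cases e1 : v = p
      · rw [e1, tp]
        exact h1
      by_cases e2 : v = x
      · rw [e2, tx]
        exact h1.symm
      by_cases e3 : v = q
      · rw [e3, tq]
        exact h2
      by_cases e4 : v = y
      · rw [e4, ty]
        exact h2.symm
      rw [tr v e1 e2 e3 e4] at hv ⊢
      exact h.inv.adj v hv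
  have hfix : ∀ v, τ v = v → σ v = v := by
    intro v htv
    by_cases e1 : v = p
    · rw [e1]; exact hfp
    by_cases e2 : v = x
    · exfalso
      rw [e2, tx] at htv
      exact hpx htv
    by_cases e3 : v = q
    · rw [e3]; exact hfq
    by_cases e4 : v = y
    · exfalso
      rw [e4, ty] at htv
      exact hqy htv
    rw [← tr v e1 e2 e3 e4]
    exact htv
  have hnew : ∀ u v, (JG G τ hτi.inv).Adj u v → (JG G σ h.inv.inv).Adj u v ∨
      (u = p ∧ v = x) ∨ (u = x ∧ v = p) ∨ (u = q ∧ v = y) ∨ (u = y ∧ v = q) := by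
    intro u v huv
    rw [JG_adj] at huv
    rcases huv with huv | ⟨h1, h2⟩
    · exact Or.inl (JG_adj.mpr (Or.inl huv))
    · by_cases e1 : u = p
      · rw [e1, tp] at h2
        exact Or.inr (Or.inl ⟨e1, h2.symm⟩)
      by_cases e2 : u = x
      · rw [e2, tx] at h2
        exact Or.inr (Or.inr (Or.inl ⟨e2, h2.symm⟩))
      by_cases e3 : u = q
      · rw [e3, tq] at h2
        exact Or.inr (Or.inr (Or.inr (Or.inl ⟨e3, h2.symm⟩)))
      by_cases e4 : u = y
      · rw [e4, ty] at h2
        exact Or.inr (Or.inr (Or.inr (Or.inr ⟨e4, h2.symm⟩)))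
      rw [tr u e1 e2 e3 e4] at h2
      exact Or.inl (JG_adj.mpr (Or.inr ⟨h1, h2⟩))
  refine ⟨τ, ⟨hτi, ?_, fun r hr hh => h.mv r hr (hfix r hh)⟩, ?_⟩
  · refine ok_switch (p := p) (x := x) (q := q) (y := y) h.ok (fun v => ?_) hnew hnb hnb' ?_ ?_
    · have h1 := dgc_JG_le (G := G) (h := hτi.inv) v
      have h2 := hdeg v
      omega
    · rintro ⟨g1, g2⟩
      apply hno
      constructor
      · rw [JG_adj] at g1 ⊢
        rcases g1 with g1 | ⟨-, g1⟩
        · exact Or.inl g1
        · rw [tp] at g1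
          exact absurd g1.symm hx
      · rw [JG_adj] at g2 ⊢
        rcases g2 with g2 | ⟨-, g2⟩
        · exact Or.inl g2
        · rw [tq] at g2
          exact absurd g2 hx
    · intro g
      rw [JG_adj] at g
      rcases g with g | ⟨-, g⟩
      · have h3 := h.inv.adj x hx
        rw [SimpleGraph.compl_adj] at g
        exact g.2 h3
      · rw [tx] at g
        exact hpy g
  · exact fx_lt (fun v _ => hfix v) (mem_univ p) hfp (by rw [tp]; exact hpx.symm)

open Classical in
/-- the counting for two vertices `p` and `q` on a set `M` closed under `σ` -/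
lemma switch_count {J : SimpleGraph V} {D : ℕ} {σ : V → V} (hσ : ∀ v, σ (σ v) = v) {p q : V}
    {M : Finset V} (hM : ∀ v ∈ M, σ v ∈ M)
    (hno : ∀ x ∈ M, x ∈ Al J D p → σ x ∈ Al J D q → J.Adj p (σ x) ∧ J.Adj q x) :
    (M.filter fun v => v ∈ Al J D p).card + (M.filter fun v => v ∈ Al J D q).card ≤ M.card := by
  have h1 : (M.filter fun v => v ∈ Al J D q).card = (M.filter fun v => σ v ∈ Al J D q).card := by
    refine card_bij (fun v _ => σ v) ?_ ?_ ?_
    · intro v hv
      rw [mem_filter] at hv ⊢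
      rw [hσ]
      exact ⟨hM v hv.1, hv.2⟩
    · intro a _ b _ hab
      rw [← hσ a, hab, hσ]
    · intro v hv
      rw [mem_filter] at hv
      exact ⟨σ v, by
        rw [mem_filter]
        exact ⟨hM v hv.1, hv.2⟩, hσ v⟩
  set g : V → ℕ := fun v => (if v ∈ Al J D p then 1 else 0) + (if σ v ∈ Al J D q then 1 else 0) with hg
  have h2 : (M.filter fun v => v ∈ Al J D p).card + (M.filter fun v => σ v ∈ Al J D q).card =
      ∑ v ∈ M, g v := by
    rw [card_filter, card_filter, ← sum_add_distrib]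
  have h3 : ∑ v ∈ M, g (σ v) = ∑ v ∈ M, g v := by
    refine sum_bij (fun v _ => σ v) (fun v hv => hM v hv) ?_ ?_ ?_
    · intro a _ b _ hab
      rw [← hσ a, hab, hσ]
    · intro v hv
      exact ⟨σ v, hM v hv, hσ v⟩
    · intro v _
      rfl
  have h4 : ∀ v ∈ M, g v + g (σ v) ≤ 2 := by
    intro v hv
    have e1 := hno v hv
    have e2 := hno (σ v) (hM v hv)
    rw [hσ] at e2
    have f1 : ∀ r w, J.Adj r w → w ∉ Al J D r := fun r w hh hh' => (mem_Al.mp hh').2.1 hh
    simp only [hg, hσ]
    by_cases a1 : v ∈ Al J D p <;> by_cases a2 : σ v ∈ Al J D q <;>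
      by_cases a3 : σ v ∈ Al J D p <;> by_cases a4 : v ∈ Al J D q <;>
      simp only [a1, a2, a3, a4, if_true, if_false] <;> try omega
    · exact absurd a3 (f1 _ _ (e1 a1 a2).1)
    · exact absurd a3 (f1 _ _ (e1 a1 a2).1)
    · exact absurd a4 (f1 _ _ (e1 a1 a2).2)
    · exact absurd a1 (f1 _ _ (e2 a3 a4).1)
    · exact absurd a2 (f1 _ _ (e2 a3 a4).2)
  have h5 : ∑ v ∈ M, (g v + g (σ v)) ≤ ∑ _v ∈ M, 2 := sum_le_sum h4
  rw [sum_add_distrib, h3, sum_const, smul_eq_mul] at h5
  rw [h1, h2]
  omega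

/-- an admissible matching with at most one unmatched vertex -/
lemma adm_exists {G : SimpleGraph V} {D d : ℕ} {R : Finset V} (hDd : D = d + 2)
    (hdeg : ∀ v, dgc Gᶜ v ≤ d) (hN : 4 * d + 1 ≤ Fintype.card V) (h0 : ∃ σ, Adm G D R σ) :
    ∃ σ, Adm G D R σ ∧ fx univ σ ≤ 1 := by
  classical
  obtain ⟨σ, h, hmin⟩ := exists_min_adm h0
  refine ⟨σ, h, ?_⟩
  by_contra hcon
  push Not at hcon
  unfold fx at hcon
  rw [one_lt_card] at hcon
  obtain ⟨p, hp, q, hq, hpq⟩ := hcon
  rw [mem_filter] at hp hq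
  have hdeg2 : ∀ v, dgc Gᶜ v + 2 ≤ D := fun v => by
    have := hdeg v
    omega
  have no1 : ∀ a b, σ a = a → σ b = b → b ∉ Al (JG G σ h.inv.inv) D a := by
    intro a b ha hb hal
    obtain ⟨τ, h1, h2, -⟩ := adm_aug_one hdeg2 h ha hb hal
    exact absurd (hmin τ h1) (not_le.mpr h2)
  set J := JG G σ h.inv.inv with hJ
  set M : Finset V := univ.filter fun v => ¬ σ v = v with hM
  have hcount := switch_count (J := J) (D := D) (σ := σ) h.inv.inv (p := p) (q := q) (M := M)
    (fun v hv => by
      rw [hM, mem_filter] at hv ⊢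
      refine ⟨mem_univ _, fun hh => hv.2 ?_⟩
      rw [h.inv.inv] at hh
      exact hh.symm)
    (fun x hx h1 h2 => by
      by_contra hno
      rw [hM, mem_filter] at hx
      obtain ⟨τ, g1, g2⟩ := adm_aug_two hdeg2 h hpq hp.2 hq.2 hx.2 h1 h2 hno
      exact absurd (hmin τ g1) (not_le.mpr g2))
  have hall : ∀ r, σ r = r → (M.filter fun v => v ∈ Al J D r) = Al J D r := by
    intro r hr
    ext v
    rw [mem_filter, hM, mem_filter]
    constructor
    · exact fun hh => hh.2
    · intro hh
      exact ⟨⟨mem_univ _, fun hv => no1 r v hr hv hh⟩, hh⟩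
  rw [hall p hp.2, hall q hq.2] at hcount
  have c1 := card_Al h.ok (p := p) (by
    have h1 := dgc_JG_fixed (G := G) (h := h.inv.inv) hp.2
    have h2 := hdeg p
    omega)
  have c2 := card_Al h.ok (p := q) (by
    have h1 := dgc_JG_fixed (G := G) (h := h.inv.inv) hq.2
    have h2 := hdeg q
    omega)
  rw [← hJ] at c1 c2
  have d1 : dgc J p ≤ d := (dgc_JG_fixed (G := G) (h := h.inv.inv) hp.2).trans (hdeg p)
  have d2 : dgc J q ≤ d := (dgc_JG_fixed (G := G) (h := h.inv.inv) hq.2).trans (hdeg q)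
  have hMc : M.card + 2 ≤ Fintype.card V := by
    have h1 : M ⊆ univ \ {p, q} := by
      intro v hv
      rw [hM, mem_filter] at hv
      rw [mem_sdiff, mem_insert, mem_singleton, not_or]
      exact ⟨mem_univ _, fun hh => hv.2 (hh ▸ hp.2), fun hh => hv.2 (hh ▸ hq.2)⟩
    have h2 := card_le_card h1
    have h3 : (univ \ ({p, q} : Finset V)).card + ({p, q} : Finset V).card =
      (univ : Finset V).card := card_sdiff_add_card_eq_card (subset_univ _)
    rw [card_pair hpq, card_univ] at h3
    omega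
  omega

/-- the empty matching -/
lemma adm_id {G : SimpleGraph V} {D : ℕ} (hG : OKD Gᶜ D) : Adm G D ∅ (id : V → V) := by
  have hi : Inv G univ (id : V → V) := ⟨fun _ => rfl, fun _ _ => rfl, fun v h => absurd rfl h⟩
  refine ⟨hi, ?_, fun r hr => absurd hr (notMem_empty r)⟩
  have : JG G id hi.inv = Gᶜ := by
    ext u v
    rw [JG_adj]
    constructor
    · rintro (h | ⟨h1, h2⟩)
      · exact h
      · exact absurd h2 h1
    · exact fun h => Or.inl h
  rw [this]
  exact hG

/-- separations and complete bipartite graphs in the complement -/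
lemma OKD_of_KC {G : SimpleGraph V} {j D : ℕ} (hG : KC j G) (hD : Fintype.card V ≤ j + D) :
    OKD Gᶜ D := by
  intro B hB hA
  have hdis : Disjoint (CN Gᶜ B) B := by
    rw [disjoint_left]
    intro v hv hv'
    exact Gᶜ.loopless.irrefl v (mem_CN.mp hv v hv')
  have h1 := hG.2 (CN Gᶜ B) B hA hB hdis (fun a ha b hb hab => by
    have := mem_CN.mp ha b hb
    rw [SimpleGraph.compl_adj] at this
    exact this.2 hab)
  have h2 : (univ \ (CN Gᶜ B ∪ B)).card + ((CN Gᶜ B).card + B.card) = Fintype.card V := by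
    rw [← card_union_of_disjoint hdis, card_sdiff_add_card_eq_card (subset_univ _), card_univ]
  omega

lemma KC_of_OKD {G : SimpleGraph V} {j D : ℕ} (hG : OKD Gᶜ D) (hD : j + D ≤ Fintype.card V)
    (hj : j < Fintype.card V) : KC j G := by
  refine ⟨hj, fun A B hA hB hAB hs => ?_⟩
  have hsub : A ⊆ CN Gᶜ B := by
    intro a ha
    rw [mem_CN]
    intro b hb
    rw [SimpleGraph.compl_adj]
    exact ⟨fun hh => disjoint_left.mp hAB ha (hh ▸ hb), hs a ha b hb⟩
  have h1 := hG B hB (hA.mono hsub)
  have h2 := card_le_card hsub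
  have h3 : (univ \ (A ∪ B)).card + (A.card + B.card) = Fintype.card V := by
    rw [← card_union_of_disjoint hAB, card_sdiff_add_card_eq_card (subset_univ _), card_univ]
  omega

/-- one edge -/
def oneE (a b : V) (hab : a ≠ b) : SimpleGraph V where
  Adj x y := (x = a ∧ y = b) ∨ (x = b ∧ y = a)
  symm := ⟨fun _ _ h => by
    rcases h with h | h
    · exact Or.inr ⟨h.2, h.1⟩
    · exact Or.inl ⟨h.2, h.1⟩⟩
  loopless := ⟨fun x h => by
    rcases h with h | h
    · exact hab (h.1.symm.trans h.2)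
    · exact hab (h.2.symm.trans h.1)⟩

lemma dgc_oneE {a b : V} (hab : a ≠ b) (v : V) :
    dgc (oneE a b hab) v = if v = a ∨ v = b then 1 else 0 := by
  classical
  have hadj : ∀ x y, (oneE a b hab).Adj x y ↔ (x = a ∧ y = b) ∨ (x = b ∧ y = a) :=
    fun _ _ => Iff.rfl
  split_ifs with hv
  · unfold dgc
    rw [card_eq_one]
    rcases hv with rfl | rfl
    · refine ⟨b, ?_⟩
      ext u
      simp only [mem_filter, mem_univ, true_and, mem_singleton, hadj]
      constructor
      · rintro (h | ⟨h, -⟩)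
        · exact h
        · exact absurd h hab
      · exact fun h => Or.inl h
    · refine ⟨a, ?_⟩
      ext u
      simp only [mem_filter, mem_univ, true_and, mem_singleton, hadj]
      constructor
      · rintro (⟨h, -⟩ | h)
        · exact absurd h hab.symm
        · exact h
      · exact fun h => Or.inr h
  · refine dgc_eq_zero fun u hu => ?_
    rw [hadj] at hu
    rcases hu with ⟨h, -⟩ | ⟨h, -⟩
    · exact hv (Or.inl h)
    · exact hv (Or.inr h)

lemma ec_oneE {a b : V} (hab : a ≠ b) : ec (oneE a b hab) = 1 := by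
  classical
  have h3 := two_mul_ec (oneE a b hab)
  rw [sum_congr rfl fun v _ => dgc_oneE hab v, ← card_filter] at h3
  have h4 : (univ.filter fun v => v = a ∨ v = b) = {a, b} := by
    ext v
    simp
  rw [h4, card_pair hab] at h3
  omega

/-- the matching with one vertex of degree two -/
lemma cherry_exists {G : SimpleGraph V} {D d : ℕ} (hDd : D = d + 2) (hd1 : 1 ≤ d)
    (hdeg : ∀ v, dgc Gᶜ v ≤ d) (hN : 4 * d + 1 ≤ Fintype.card V)
    (hodd : Fintype.card V % 2 = 1) (hG : OKD Gᶜ D) {v0 : V} (hv0 : dgc Gᶜ v0 + 1 ≤ d) :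
    ∃ (τ : V → V) (hτ : Inv G univ τ) (y : V) (hy : v0 ≠ y), τ y = y ∧ G.Adj v0 y ∧
      fx univ τ ≤ 1 ∧ OKD (JG G τ hτ.inv ⊔ oneE v0 y hy) D := by
  classical
  have hdeg2 : ∀ v, dgc Gᶜ v + 2 ≤ D := fun v => by
    have := hdeg v
    omega
  -- start with an edge at `v0`
  have hstart : ∃ σ, Adm G D {v0} σ := by
    have hρ := adm_id (D := D) hG
    have c1 := card_Al hρ.ok (p := v0) (by
      have h1 := dgc_JG_fixed (G := G) (h := hρ.inv.inv) (v := v0) rfl
      omega)
    have d1 := dgc_JG_fixed (G := G) (h := hρ.inv.inv) (v := v0) rfl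
    have hne : (Al (JG G id hρ.inv.inv) D v0).Nonempty := card_pos.mp (by omega)
    obtain ⟨q, hq⟩ := hne
    obtain ⟨τ, h1, -, h3⟩ := adm_aug_one hdeg2 hρ rfl rfl hq
    exact ⟨τ, h1.inv, h1.ok, fun r hr => by
      rw [mem_singleton] at hr
      rw [hr]
      exact h3⟩
  obtain ⟨σ, h, hfx⟩ := adm_exists hDd hdeg hN hstart
  have hσ0 : σ v0 ≠ v0 := h.mv v0 (mem_singleton_self _)
  set z0 := σ v0 with hz0
  have hσz : σ z0 = v0 := h.inv.inv v0
  -- the unmatched vertex
  have h2ec := two_ec_matG h.inv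
  rw [card_univ] at h2ec
  have hfx1 : fx univ σ = 1 := by omega
  have hfx1' := hfx1
  unfold fx at hfx1'
  rw [card_eq_one] at hfx1'
  obtain ⟨u0, hu0⟩ := hfx1'
  have hfixed : ∀ v, σ v = v ↔ v = u0 := by
    intro v
    have h1 : v ∈ (univ.filter fun v => σ v = v) ↔ v ∈ ({u0} : Finset V) := by rw [hu0]
    rw [mem_filter, mem_singleton] at h1
    constructor
    · exact fun hh => h1.mp ⟨mem_univ _, hh⟩
    · exact fun hh => (h1.mpr hh).2
  have hσu : σ u0 = u0 := (hfixed u0).mpr rfl
  have hvu : v0 ≠ u0 := fun hh => hσ0 ((hfixed v0).mpr hh)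
  have hzu : z0 ≠ u0 := by
    intro hh
    rw [hh, hσu] at hσz
    exact hvu hσz.symm
  set J := JG G σ h.inv.inv with hJ
  have hdJu : dgc J u0 ≤ d := (dgc_JG_fixed (G := G) (h := h.inv.inv) hσu).trans (hdeg u0)
  have hdJv : dgc J v0 ≤ d := by
    have h1 := dgc_JG_le (G := G) (h := h.inv.inv) v0
    rw [← hJ] at h1
    omega
  by_cases hopt1 : u0 ∈ Al J D v0
  · -- add the edge
    have hal := mem_Al.mp hopt1
    refine ⟨σ, h.inv, u0, hvu, hσu, compl_of_not_JG hvu hal.2.1, hfx, ?_⟩
    refine ok_add (p := v0) (x := u0) h.ok (fun v => ?_) (fun a b hab => ?_) hal.2.2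
    · change dgc (J ⊔ oneE v0 u0 hvu) v + 1 ≤ D
      have h1 := dgc_sup_le J (oneE v0 u0 hvu) v
      have h2 := dgc_oneE hvu v
      have h3 := dgc_JG_le (G := G) (h := h.inv.inv) v
      rw [← hJ] at h3
      have h4 := hdeg v
      by_cases e1 : v = v0
      · rw [e1] at h1 h2 ⊢
        rw [if_pos (Or.inl rfl)] at h2
        omega
      by_cases e2 : v = u0
      · rw [e2] at h1 h2 ⊢
        rw [if_pos (Or.inr rfl)] at h2
        omega
      · rw [if_neg (by rw [not_or]; exact ⟨e1, e2⟩)] at h2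
        omega
    · rw [SimpleGraph.sup_adj] at hab
      rcases hab with hab | hab
      · exact Or.inl hab
      · exact Or.inr hab
  · -- switch
    have hopt1' : v0 ∉ Al J D u0 := fun hh => hopt1 (Al_symm.mp hh)
    set M : Finset V := univ \ {v0, z0, u0} with hM
    have hMmem : ∀ v, v ∈ M ↔ v ≠ v0 ∧ v ≠ z0 ∧ v ≠ u0 := by
      intro v
      rw [hM, mem_sdiff, mem_insert, mem_insert, mem_singleton]
      have := mem_univ v
      tauto
    have hMc : M.card + 3 = Fintype.card V := by
      have h1 : ({v0, z0, u0} : Finset V).card = 3 := card_eq_three.mpr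
        ⟨v0, z0, u0, hσ0.symm, hvu, hzu, rfl⟩
      have h2 : M.card + ({v0, z0, u0} : Finset V).card = (univ : Finset V).card :=
        card_sdiff_add_card_eq_card (subset_univ _)
      rw [card_univ] at h2
      omega
    have hMσ : ∀ v ∈ M, σ v ∈ M := by
      intro v hv
      rw [hMmem] at hv ⊢
      refine ⟨fun hh => hv.2.1 ?_, fun hh => hv.1 ?_, fun hh => hv.2.2 ?_⟩
      · rw [← h.inv.inv v, hh]
      · rw [← h.inv.inv v, hh, hσz]
      · rw [← h.inv.inv v, hh, hσu]
    by_cases hopt2 : ∃ x ∈ M, x ∈ Al J D u0 ∧ σ x ∈ Al J D v0 ∧ ¬ (J.Adj u0 (σ x) ∧ J.Adj v0 x)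
    · obtain ⟨x, hxM, hal, hal', hno⟩ := hopt2
      rw [mem_Al] at hal hal'
      obtain ⟨hxp, hna, hnb⟩ := hal
      obtain ⟨hyq, hna', hnb'⟩ := hal'
      have hxM' := (hMmem x).mp hxM
      have hyM' := (hMmem (σ x)).mp (hMσ x hxM)
      have hx : σ x ≠ x := fun hh => hxM'.2.2 ((hfixed x).mp hh)
      set y := σ x with hy
      have hyx : σ y = x := h.inv.inv x
      have h1 : G.Adj u0 x := compl_of_not_JG hxp.symm hna
      have h2 : G.Adj v0 y := compl_of_not_JG hyq.symm hna'
      set τ : V → V := fun v => if v = u0 then x else if v = x then u0 else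
        if v = y then y else σ v with hτ
      have tp : τ u0 = x := by simp [hτ]
      have tx : τ x = u0 := by simp [hτ, hxM'.2.2]
      have ty : τ y = y := by simp [hτ, hyM'.2.2, hx]
      have tr : ∀ v, v ≠ u0 → v ≠ x → v ≠ y → τ v = σ v := by
        intro v h1 h2 h3
        simp [hτ, h1, h2, h3]
      have hτi : Inv G univ τ := by
        refine ⟨fun v => ?_, fun v hv => absurd (mem_univ v) hv, fun v hv => ?_⟩
        · by_cases e1 : v = u0
          · rw [e1, tp, tx]
          by_cases e2 : v = x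
          · rw [e2, tx, tp]
          by_cases e3 : v = y
          · rw [e3, ty, ty]
          rw [tr v e1 e2 e3, tr (σ v), h.inv.inv]
          · intro hh
            apply e1
            rw [← h.inv.inv v, hh, hσu]
          · intro hh
            apply e3
            rw [← h.inv.inv v, hh]
          · intro hh
            apply e2
            rw [← h.inv.inv v, hh, hyx]
        · by_cases e1 : v = u0
          · rw [e1, tp]
            exact h1
          by_cases e2 : v = x
          · rw [e2, tx]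
            exact h1.symm
          by_cases e3 : v = y
          · rw [e3] at hv
            exact absurd ty hv
          rw [tr v e1 e2 e3] at hv ⊢
          exact h.inv.adj v hv
      have hvx : v0 ≠ x := hxM'.1.symm
      have hvy : v0 ≠ y := hyM'.1.symm
      have hτv : τ v0 = z0 := by
        rw [tr v0 hvu hvx hvy]
      have hτz : τ z0 = v0 := by
        rw [tr z0 hzu hxM'.2.1.symm hyM'.2.1.symm, hσz]
      have hτfx : fx univ τ ≤ 1 := by
        unfold fx
        rw [card_le_one]
        have key : ∀ v, τ v = v → v = y := by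
          intro v hv
          by_cases e1 : v = u0
          · exfalso
            rw [e1, tp] at hv
            exact hxp hv
          by_cases e2 : v = x
          · exfalso
            rw [e2, tx] at hv
            exact hxp hv.symm
          by_cases e3 : v = y
          · exact e3
          exfalso
          rw [tr v e1 e2 e3] at hv
          exact e1 ((hfixed v).mp hv)
        intro a ha b hb
        rw [mem_filter] at ha hb
        rw [key a ha.2, key b hb.2]
      refine ⟨τ, hτi, y, hvy, ty, h2, hτfx, ?_⟩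
      have hnew : ∀ a b, (JG G τ hτi.inv ⊔ oneE v0 y hvy).Adj a b → J.Adj a b ∨
          (a = u0 ∧ b = x) ∨ (a = x ∧ b = u0) ∨ (a = v0 ∧ b = y) ∨ (a = y ∧ b = v0) := by
        intro a b hab
        rw [SimpleGraph.sup_adj, JG_adj] at hab
        rcases hab with (hab | ⟨g1, g2⟩) | hab
        · exact Or.inl (JG_adj.mpr (Or.inl hab))
        · by_cases e1 : a = u0
          · rw [e1, tp] at g2
            exact Or.inr (Or.inl ⟨e1, g2.symm⟩)
          by_cases e2 : a = x
          · rw [e2, tx] at g2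
            exact Or.inr (Or.inr (Or.inl ⟨e2, g2.symm⟩))
          by_cases e3 : a = y
          · rw [e3, ty, ← e3] at g2
            exact absurd g2 g1
          rw [tr a e1 e2 e3] at g2
          exact Or.inl (JG_adj.mpr (Or.inr ⟨g1, g2⟩))
        · rcases hab with hab | hab
          · exact Or.inr (Or.inr (Or.inr (Or.inl hab)))
          · exact Or.inr (Or.inr (Or.inr (Or.inr hab)))
      refine ok_switch (p := u0) (x := x) (q := v0) (y := y) h.ok (fun v => ?_) hnew hnb hnb' ?_ ?_
      · have h1 := dgc_sup_le (JG G τ hτi.inv) (oneE v0 y hvy) v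
        have h2 := dgc_oneE hvy v
        have h3 := dgc_JG_le (G := G) (h := hτi.inv) v
        have h4 := hdeg v
        by_cases e1 : v = v0
        · rw [e1] at h1 h2 h3 ⊢
          rw [if_pos (Or.inl rfl)] at h2
          omega
        by_cases e2 : v = y
        · have h5 := dgc_JG_fixed (G := G) (h := hτi.inv) (v := v) (by rw [e2]; exact ty)
          rw [if_pos (Or.inr e2)] at h2
          omega
        · rw [if_neg (by rw [not_or]; exact ⟨e1, e2⟩)] at h2
          omega
      · rintro ⟨g1, g2⟩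
        apply hno
        constructor
        · rw [SimpleGraph.sup_adj, JG_adj] at g1
          rw [hJ, JG_adj]
          rcases g1 with (g1 | ⟨-, g1⟩) | g1
          · exact Or.inl g1
          · rw [tp] at g1
            exact absurd g1.symm hx
          · exfalso
            rcases g1 with g1 | g1
            · exact hvu g1.1.symm
            · exact hvy g1.2.symm
        · rw [SimpleGraph.sup_adj, JG_adj] at g2
          rw [hJ, JG_adj]
          rcases g2 with (g2 | ⟨-, g2⟩) | g2
          · exact Or.inl g2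
          · rw [hτv] at g2
            exact absurd g2.symm hxM'.2.1
          · exfalso
            rcases g2 with g2 | g2
            · exact hx g2.2.symm
            · exact hvy g2.1
      · intro g
        rw [SimpleGraph.sup_adj, JG_adj] at g
        rcases g with (g | ⟨-, g⟩) | g
        · have h3 := h.inv.adj x hx
          rw [SimpleGraph.compl_adj] at g
          exact g.2 h3
        · rw [tx] at g
          exact hyM'.2.2 g.symm
        · rcases g with g | g
          · exact hvx g.1.symm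
          · exact hvy g.2.symm
    · -- the counting
      exfalso
      push Not at hopt2
      have hcount := switch_count (J := J) (D := D) (σ := σ) h.inv.inv (p := u0) (q := v0)
        (M := M) hMσ (fun x hx h1 h2 => hopt2 x hx h1 h2)
      have e1 : Al J D u0 ⊆ insert z0 (M.filter fun v => v ∈ Al J D u0) := by
        intro v hv
        rw [mem_insert, mem_filter, hMmem]
        by_cases hvz : v = z0
        · exact Or.inl hvz
        · right
          refine ⟨⟨fun hh => hopt1' (hh ▸ hv), hvz, (mem_Al.mp hv).1⟩, hv⟩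
      have e2 : Al J D v0 ⊆ M.filter fun v => v ∈ Al J D v0 := by
        intro v hv
        rw [mem_filter, hMmem]
        refine ⟨⟨(mem_Al.mp hv).1, fun hh => ?_, fun hh => hopt1 (hh ▸ hv)⟩, hv⟩
        refine (mem_Al.mp hv).2.1 ?_
        rw [hh, hJ, JG_adj]
        exact Or.inr ⟨hσ0.symm, rfl⟩
      have c1 := (card_le_card e1).trans (card_insert_le _ _)
      have c2 := card_le_card e2
      have c3 := card_Al h.ok (p := u0) (by
        change dgc J u0 + 2 ≤ D
        omega)
      have c4 := card_Al h.ok (p := v0) (by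
        change dgc J v0 + 2 ≤ D
        omega)
      rw [← hJ] at c3 c4
      omega

/-- one step for vertex connectivity -/
lemma sw_step {G : SimpleGraph V} {j d : ℕ} (hN : Fintype.card V = j + d + 1)
    (hbig : 4 * d + 1 ≤ Fintype.card V) (hG : KC j G) (hj1 : 1 ≤ j) :
    ∃ H, H ≤ G ∧ KC (j - 1) H ∧
      ec H + ((j * Fintype.card V + 1) / 2 - ((j - 1) * Fintype.card V + 1) / 2) ≤ ec G := by
  classical
  have hdegG : ∀ v, j ≤ dgc G v := fun v => hG.min_degree v
  have hdeg : ∀ v, dgc Gᶜ v ≤ d := fun v => by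
    have h1 := dgc_compl G v
    have h2 := hdegG v
    omega
  have hOK : OKD Gᶜ (d + 2) := OKD_of_KC hG (by omega)
  have hcompl : ∀ F : SimpleGraph V, F ≤ G → (G \ F)ᶜ = Gᶜ ⊔ F := by
    intro F hF
    ext u v
    rw [SimpleGraph.compl_adj, SimpleGraph.sup_adj, SimpleGraph.compl_adj, SimpleGraph.sdiff_adj]
    constructor
    · rintro ⟨h1, h2⟩
      rw [not_and_not_right] at h2
      by_cases h3 : G.Adj u v
      · exact Or.inr (h2 h3)
      · exact Or.inl ⟨h1, h3⟩
    · rintro (⟨h1, h2⟩ | h1)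
      · exact ⟨h1, fun hh => h2 hh.1⟩
      · exact ⟨h1.ne, fun hh => hh.2 h1⟩
  set N := Fintype.card V with hNdef
  obtain ⟨j, rfl⟩ : ∃ j', j = j' + 1 := ⟨j - 1, by omega⟩
  rw [Nat.add_sub_cancel]
  have hNk : (j + 1) * N = j * N + N := by ring
  rw [hNk]
  by_cases hpar : ((j + 1) * N) % 2 = 1
  · have hN1 : N % 2 = 1 ∧ (j + 1) % 2 = 1 := by
      rw [Nat.mul_mod] at hpar
      have h3 : N % 2 = 0 ∨ N % 2 = 1 := by omega
      have h4 : (j + 1) % 2 = 0 ∨ (j + 1) % 2 = 1 := by omega
      rcases h3 with h3 | h3 <;> rcases h4 with h4 | h4 <;> rw [h3, h4] at hpar <;> simp at hpar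
      exact ⟨h3, h4⟩
    obtain ⟨v0, hv0⟩ := exists_large_degree hdegG hpar
    have hv0' := dgc_compl G v0
    obtain ⟨τ, hτ, y, hy, hτy, hadj, hfx, hok⟩ := cherry_exists (D := d + 2) rfl (by omega) hdeg
      hbig hN1.1 hOK (v0 := v0) (by omega)
    set F := matG τ hτ.inv with hF
    set E := oneE v0 y hy with hE
    have hFG : F ≤ G := matG_le hτ
    have hEadj : ∀ a b, E.Adj a b ↔ (a = v0 ∧ b = y) ∨ (a = y ∧ b = v0) := fun _ _ => Iff.rfl
    have hFadj : ∀ a b, F.Adj a b ↔ (a ≠ b ∧ τ a = b) := fun _ _ => Iff.rfl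
    have hFy : ∀ u, ¬ F.Adj y u := by
      intro u hu
      rw [hFadj, hτy] at hu
      exact hu.1 hu.2
    have hEH : E ≤ G \ F := by
      intro a b hab
      rw [hEadj] at hab
      rw [SimpleGraph.sdiff_adj]
      rcases hab with ⟨rfl, rfl⟩ | ⟨rfl, rfl⟩
      · exact ⟨hadj, fun hh => hFy _ hh.symm⟩
      · exact ⟨hadj.symm, fun hh => hFy _ hh⟩
    have hEG : E ≤ G := hEH.trans sdiff_le
    refine ⟨(G \ F) \ E, sdiff_le.trans sdiff_le, ?_, ?_⟩
    · refine KC_of_OKD (D := d + 2) ?_ (by omega) (by omega)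
      rw [sdiff_sdiff_left, hcompl _ (sup_le hFG hEG), ← sup_assoc]
      exact hok
    · have h3 := ec_sdiff' hEH
      have h4 := ec_sdiff' hFG
      have h5 := ec_oneE hy
      have h6 := two_ec_matG hτ
      rw [card_univ, ← hF] at h6
      rw [← hE] at h5
      omega
  · obtain ⟨σ, h, hfx⟩ := adm_exists (D := d + 2) rfl hdeg hbig ⟨_, adm_id hOK⟩
    set F := matG σ h.inv.inv with hF
    have hFG : F ≤ G := matG_le h.inv
    have h6 := two_ec_matG h.inv
    rw [card_univ, ← hF] at h6
    refine ⟨G \ F, sdiff_le, ?_, ?_⟩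
    · refine KC_of_OKD (D := d + 2) ?_ (by omega) (by omega)
      rw [hcompl F hFG]
      exact h.ok
    · have h4 := ec_sdiff' hFG
      omega

theorem eKappa_exact {n k l : ℕ} (hl : 1 ≤ l) (hlk : l < k) (hkn : k < n)
    (hn : 3 * n ≤ 4 * l + 7) : eKappa n k l = (k * n + 1) / 2 - (l * n + 1) / 2 := by
  unfold eKappa
  refine exact_value hlk hkn (fun j G => KConnected j G) ?_ ?_ ?_ ?_ ?_
  · rw [KConnected_iff_KC]
    exact KC_top (by rw [Fintype.card_fin]; omega)
  · intro G hG v
    rw [KConnected_iff_KC] at hG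
    exact hG.min_degree v
  · intro H H' hHH hH
    rw [KConnected_iff_KC] at hH ⊢
    exact hH.mono_graph hHH
  · intro G hG
    rw [KConnected_iff_KC] at hG ⊢
    exact hG.mono hlk.le
  · intro j hj hjn G hG
    rw [KConnected_iff_KC] at hG
    obtain ⟨d, hd⟩ : ∃ d, n = j + d + 1 := ⟨n - j - 1, by omega⟩
    have hcn : Fintype.card (Fin n) = n := Fintype.card_fin n
    obtain ⟨H, h1, h2, h3⟩ := sw_step (d := d) (by omega) (by omega) hG (by omega)
    rw [Fintype.card_fin] at h3
    refine ⟨H, h1, ?_, h3⟩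
    rw [KConnected_iff_KC]
    exact h2

end Pool.Agent.Work.MP_60abc6_co
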