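import Mathlib
import Pool.Agent.Work.MP_60abc6_co.EdgeB

set_option autoImplicit false

/-! Graphs in which few edges can be deleted. -/

namespace Pool.Agent.Work.MP_60abc6_co

open Finset

/-- `m` cliques of order `k` in a cyclic arrangement and `m` further vertices; `(j, r)` with `r < k`
is a vertex of the clique `j`, and `(i, k)` is a further vertex, adjacent to the `(i - r, r)` -/
def QG (m k : ℕ) : SimpleGraph (ZMod m × Fin (k + 1)) where
  Adj x y := (x.1 = y.1 ∧ x.2 ≠ y.2 ∧ x.2.val < k ∧ y.2.val < k) ∨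
    (x.2.val = k ∧ y.2.val < k ∧ x.1 = y.1 + (y.2.val : ZMod m)) ∨
    (y.2.val = k ∧ x.2.val < k ∧ y.1 = x.1 + (x.2.val : ZMod m))
  symm := ⟨fun x y h => by
    rcases h with h | h | h
    · exact Or.inl ⟨h.1.symm, h.2.1.symm, h.2.2.2, h.2.2.1⟩
    · exact Or.inr (Or.inr h)
    · exact Or.inr (Or.inl h)⟩
  loopless := ⟨fun x h => by
    rcases h with h | h | h
    · exact h.2.1 rfl
    · omega
    · omega⟩

variable {m k : ℕ}

/-- the vertex with given coordinates -/
def vx (j : ZMod m) (r : ℕ) (h : r ≤ k) : ZMod m × Fin (k + 1) := (j, ⟨r, by omega⟩)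

lemma vx_inj {j j' : ZMod m} {r r' : ℕ} {h : r ≤ k} {h' : r' ≤ k} (he : vx j r h = vx j' r' h') :
    j = j' ∧ r = r' := by
  unfold vx at he
  rw [Prod.mk.injEq, Fin.mk.injEq] at he
  exact he

lemma vx_surj (x : ZMod m × Fin (k + 1)) : x = vx x.1 x.2.val (by omega) := rfl

lemma adj_clique {j : ZMod m} {r r' : ℕ} (h : r < k) (h' : r' < k) (hne : r ≠ r') :
    (QG m k).Adj (vx j r h.le) (vx j r' h'.le) :=
  Or.inl ⟨rfl, fun hh => hne (by
    have := congrArg Fin.val hh
    exact this), h, h'⟩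

lemma adj_out (i j : ZMod m) {r : ℕ} (h : r < k) (hi : i = j + (r : ZMod m)) :
    (QG m k).Adj (vx i k le_rfl) (vx j r h.le) :=
  Or.inr (Or.inl ⟨rfl, h, hi⟩)

/-- the `r`-th path between the cliques `j` and `j + 1` -/
def PP (m k : ℕ) (j : ZMod m) (r : ℕ) (x : ZMod m × Fin (k + 1)) : Prop :=
  (x.1 = j ∧ x.2.val = r) ∨ (x.1 = j + (r : ZMod m) ∧ x.2.val = k) ∨
    (x.1 = j + 1 ∧ x.2.val + 1 = r)

lemma zmod_cast_inj [NeZero m] {a b : ℕ} (ha : a < m) (hb : b < m)
    (h : (a : ZMod m) = (b : ZMod m)) : a = b := by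
  rw [ZMod.natCast_eq_natCast_iff] at h
  have h3 : a % m = b % m := h
  rwa [Nat.mod_eq_of_lt ha, Nat.mod_eq_of_lt hb] at h3

lemma PP_disj [NeZero m] (hm : 2 * k ≤ m) {j : ZMod m} {r r' : ℕ} (hr : r < k) (hr' : r' < k)
    {x : ZMod m × Fin (k + 1)} (h : PP m k j r x) (h' : PP m k j r' x) : r = r' := by
  have one_ne : j ≠ j + 1 := by
    intro hh
    have h0 : ((0 : ℕ) : ZMod m) = ((1 : ℕ) : ZMod m) := by
      have : j + 0 = j + 1 := by rw [add_zero]; exact hh
      have := add_left_cancel this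
      push_cast
      exact this
    have := zmod_cast_inj (m := m) (by omega) (by omega) h0
    omega
  rcases h with ⟨h1, h2⟩ | ⟨h1, h2⟩ | ⟨h1, h2⟩ <;> rcases h' with ⟨g1, g2⟩ | ⟨g1, g2⟩ | ⟨g1, g2⟩
  · omega
  · omega
  · exact absurd (h1.symm.trans g1) one_ne
  · omega
  · exact zmod_cast_inj (m := m) (by omega) (by omega) (add_left_cancel (h1.symm.trans g1))
  · omega
  · exact absurd (g1.symm.trans h1) one_ne
  · omega
  · omega

lemma exists_switch [NeZero m] {c : ZMod m → Prop} {j1 j2 : ZMod m} (h1 : c j1) (h2 : ¬ c j2) :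
    ∃ j, c j ∧ ¬ c (j + 1) := by
  by_contra hcon
  push Not at hcon
  apply h2
  have h3 : ∀ t : ℕ, c (j1 + (t : ZMod m)) := by
    intro t
    induction t with
    | zero => simpa using h1
    | succ t ih =>
      have := hcon _ ih
      have e : j1 + ((t + 1 : ℕ) : ZMod m) = j1 + (t : ZMod m) + 1 := by
        push_cast
        ring
      rw [e]
      exact this
  have h4 := h3 (j2 - j1).val
  rw [ZMod.natCast_zmod_val] at h4
  have e : j1 + (j2 - j1) = j2 := by ring
  rwa [e] at h4

lemma KC_QG [NeZero m] (hk : 2 ≤ k) (hm : 2 * k ≤ m) : KC k (QG m k) := by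
  classical
  have hcard : Fintype.card (ZMod m × Fin (k + 1)) = m * (k + 1) := by
    rw [Fintype.card_prod, ZMod.card, Fintype.card_fin]
  refine ⟨by rw [hcard]; nlinarith, fun A B hA hB hAB hs => ?_⟩
  by_contra hlt
  push Not at hlt
  set S := univ \ (A ∪ B) with hS
  have hmemS : ∀ x, x ∈ S ↔ x ∉ A ∧ x ∉ B := by
    intro x
    rw [hS, mem_sdiff, mem_union, not_or]
    exact ⟨fun h => h.2, fun h => ⟨mem_univ _, h⟩⟩
  -- a clique is not contained in `S`
  have hclq : ∀ j : ZMod m, ∃ r, ∃ h : r < k, vx j r h.le ∈ A ∨ vx j r h.le ∈ B := by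
    intro j
    by_contra hcon
    push Not at hcon
    have h1 : (univ : Finset (Fin k)).card ≤ S.card := by
      refine card_le_card_of_injOn (fun r => vx j r.val r.isLt.le) ?_ ?_
      · intro r _
        rw [mem_coe, hmemS]
        exact hcon r.val r.isLt
      · intro r _ r' _ h
        exact Fin.ext (vx_inj h).2
    rw [card_univ, Fintype.card_fin] at h1
    omega
  -- a clique does not meet both sides
  have hmono : ∀ (j : ZMod m) (r r' : ℕ) (h : r < k) (h' : r' < k), vx j r h.le ∈ A →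
      vx j r' h'.le ∈ B → False := by
    intro j r r' h h' h1 h2
    by_cases hne : r = r'
    · subst hne
      exact disjoint_left.mp hAB h1 h2
    · exact hs _ h1 _ h2 (adj_clique h h' hne)
  set c : ZMod m → Prop := fun j => ∃ r, ∃ h : r < k, vx j r h.le ∈ A with hc
  have hcA : ∀ j, c j → ∀ r (h : r < k), vx j r h.le ∉ B := by
    rintro j ⟨r, h, h1⟩ r' h' h2
    exact hmono j r r' h h' h1 h2
  have hcB : ∀ j, ¬ c j → ∀ r (h : r < k), vx j r h.le ∉ A := by
    intro j hj r h h1
    exact hj ⟨r, h, h1⟩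
  -- an outer vertex whose neighbours are all in `S`
  have hout : ∀ i : ZMod m, ¬ (∀ (r : ℕ) (h : r < k), vx (i - (r : ZMod m)) r h.le ∈ S) := by
    intro i hcon
    have h1 : (univ : Finset (Fin k)).card ≤ S.card := by
      refine card_le_card_of_injOn (fun r => vx (i - (r.val : ZMod m)) r.val r.isLt.le) ?_ ?_
      · intro r _
        exact hcon r.val r.isLt
      · intro r _ r' _ h
        exact Fin.ext (vx_inj h).2
    rw [card_univ, Fintype.card_fin] at h1
    omega
  have hex : (∃ j, c j) ∧ (∃ j, ¬ c j) := by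
    constructor
    · by_contra hcon
      push Not at hcon
      obtain ⟨a, ha⟩ := hA
      have hav : a.2.val = k := by
        by_contra hne
        exact hcB a.1 (hcon a.1) a.2.val (by omega) ha
      apply hout a.1
      intro r h
      rw [hmemS]
      refine ⟨hcB _ (hcon _) r h, fun h2 => ?_⟩
      refine hs a ha _ h2 ?_
      have e : a = vx a.1 k le_rfl := Prod.ext rfl (Fin.ext hav)
      rw [e]
      exact adj_out _ _ h (by simp [vx])
    · by_contra hcon
      push Not at hcon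
      obtain ⟨b, hb⟩ := hB
      have hbv : b.2.val = k := by
        by_contra hne
        exact hcA b.1 (hcon b.1) b.2.val (by omega) hb
      apply hout b.1
      intro r h
      rw [hmemS]
      refine ⟨fun h2 => ?_, hcA _ (hcon _) r h⟩
      refine hs _ h2 b hb ?_
      have e : b = vx b.1 k le_rfl := Prod.ext rfl (Fin.ext hbv)
      rw [e]
      exact (adj_out _ _ h (by simp [vx])).symm
  obtain ⟨⟨j1, hj1⟩, ⟨j2, hj2⟩⟩ := hex
  obtain ⟨j, hjA, hjB⟩ := exists_switch hj1 hj2
  obtain ⟨j', hjB', hjA'⟩ := exists_switch (c := fun j => ¬ c j) hj2 (not_not.mpr hj1)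
  rw [not_not] at hjA'
  -- every path meets `S`
  have hhit : ∀ j : ZMod m, ((c j ∧ ¬ c (j + 1)) ∨ (¬ c j ∧ c (j + 1))) → ∀ r, 1 ≤ r → r < k →
      ∃ x ∈ S, PP m k j r x := by
    intro j hj r hr1 hrk
    by_contra hcon
    push Not at hcon
    have hx1 : ¬ (vx j r hrk.le ∈ S) := fun h => hcon _ h (Or.inl ⟨rfl, rfl⟩)
    have hx2 : ¬ (vx (j + (r : ZMod m)) k le_rfl ∈ S) := fun h =>
      hcon _ h (Or.inr (Or.inl ⟨rfl, rfl⟩))
    have hx3 : ¬ (vx (j + 1) (r - 1) (by omega) ∈ S) := fun h =>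
      hcon _ h (Or.inr (Or.inr ⟨rfl, by simp only [vx]; omega⟩))
    rw [hmemS, not_and_or, not_not, not_not] at hx1 hx2 hx3
    have a12 : (QG m k).Adj (vx (j + (r : ZMod m)) k le_rfl) (vx j r hrk.le) :=
      adj_out _ _ hrk rfl
    have a23 : (QG m k).Adj (vx (j + (r : ZMod m)) k le_rfl) (vx (j + 1) (r - 1) (by omega)) := by
      refine adj_out _ _ (by omega) ?_
      have : ((r : ℕ) : ZMod m) = 1 + ((r - 1 : ℕ) : ZMod m) := by
        obtain ⟨r', rfl⟩ : ∃ r', r = r' + 1 := ⟨r - 1, by omega⟩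
        rw [Nat.add_sub_cancel]
        push_cast
        ring
      rw [this]
      ring
    rcases hj with ⟨h1, h2⟩ | ⟨h1, h2⟩
    · have e1 := hx1.resolve_right (hcA j h1 r hrk)
      have e3 := hx3.resolve_left (hcB (j + 1) h2 (r - 1) (by omega))
      rcases hx2 with hx2 | hx2
      · exact hs _ hx2 _ e3 a23
      · exact hs _ e1 _ hx2 a12.symm
    · have e1 := hx1.resolve_left (hcB j h1 r hrk)
      have e3 := hx3.resolve_right (hcA (j + 1) h2 (r - 1) (by omega))
      rcases hx2 with hx2 | hx2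
      · exact hs _ hx2 _ e1 a12
      · exact hs _ e3 _ hx2 a23.symm
  -- hence `S` is contained in the union of the paths
  have hcover : ∀ j : ZMod m, ((c j ∧ ¬ c (j + 1)) ∨ (¬ c j ∧ c (j + 1))) → ∀ x ∈ S,
      ∃ r, 1 ≤ r ∧ r < k ∧ PP m k j r x := by
    intro j hj
    have h1 := hhit j hj
    choose! f hf using h1
    have hinj : Set.InjOn f (Finset.Ico 1 k : Set ℕ) := by
      intro r hr r' hr' hrr
      rw [Finset.coe_Ico, Set.mem_Ico] at hr hr'
      have e1 := (hf r hr.1 hr.2).2
      have e2 := (hf r' hr'.1 hr'.2).2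
      rw [hrr] at e1
      exact PP_disj hm hr.2 hr'.2 e1 e2
    have himg : (Finset.Ico 1 k).image f = S := by
      refine eq_of_subset_of_card_le ?_ ?_
      · intro x hx
        rw [mem_image] at hx
        obtain ⟨r, hr, rfl⟩ := hx
        rw [Finset.mem_Ico] at hr
        exact (hf r hr.1 hr.2).1
      · rw [card_image_of_injOn hinj, Nat.card_Ico]
        omega
    intro x hx
    rw [← himg, mem_image] at hx
    obtain ⟨r, hr, rfl⟩ := hx
    rw [Finset.mem_Ico] at hr
    exact ⟨r, hr.1, hr.2, (hf r hr.1 hr.2).2⟩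
  have hjj : j ≠ j' := fun hh => hjB' (hh ▸ hjA)
  have hcov' := hcover j' (Or.inr ⟨hjB', hjA'⟩)
  obtain ⟨x, hxS, hx⟩ := hhit j (Or.inl ⟨hjA, hjB⟩) 1 le_rfl (by omega)
  obtain ⟨y, hyS, hy⟩ := hhit j (Or.inl ⟨hjA, hjB⟩) (k - 1) (by omega) (by omega)
  -- `j'` lies before `j`
  have h1 : ∃ a : ℕ, 1 ≤ a ∧ a ≤ k - 2 ∧ j = j' + (a : ZMod m) := by
    obtain ⟨r, hr1, hrk, hr⟩ := hcov' x hxS
    rcases hx with ⟨x1, x2⟩ | ⟨x1, x2⟩ | ⟨x1, x2⟩ <;>
      rcases hr with ⟨r1, r2⟩ | ⟨r1, r2⟩ | ⟨r1, r2⟩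
    · exact absurd (x1.symm.trans r1) hjj
    · omega
    · exact ⟨1, le_rfl, by omega, by rw [← x1, r1]; push_cast; rfl⟩
    · omega
    · refine ⟨r - 1, ?_, by omega, ?_⟩
      · by_contra hcon
        have hr0 : r = 1 := by omega
        apply hjj
        have := x1.symm.trans r1
        rw [hr0] at this
        exact add_right_cancel this
      · have e : j + ((1 : ℕ) : ZMod m) = j' + (r : ZMod m) := x1.symm.trans r1
        obtain ⟨r', rfl⟩ : ∃ r', r = r' + 1 := ⟨r - 1, by omega⟩
        rw [Nat.add_sub_cancel]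
        push_cast at e
        have e2 : j + 1 = (j' + (r' : ZMod m)) + 1 := by rw [e]; ring
        exact add_right_cancel e2
    · omega
    · omega
    · omega
    · exact absurd (add_right_cancel (x1.symm.trans r1)) hjj
  -- `j'` lies after `j`
  have h2 : ∃ b : ℕ, 1 ≤ b ∧ b ≤ k - 2 ∧ j' = j + (b : ZMod m) := by
    obtain ⟨r, hr1, hrk, hr⟩ := hcov' y hyS
    rcases hy with ⟨x1, x2⟩ | ⟨x1, x2⟩ | ⟨x1, x2⟩ <;>
      rcases hr with ⟨r1, r2⟩ | ⟨r1, r2⟩ | ⟨r1, r2⟩
    · exact absurd (x1.symm.trans r1) hjj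
    · omega
    · omega
    · omega
    · refine ⟨k - 1 - r, ?_, by omega, ?_⟩
      · by_contra hcon
        have hr0 : r = k - 1 := by omega
        apply hjj
        have := x1.symm.trans r1
        rw [hr0] at this
        exact add_right_cancel this
      · have e : j + ((k - 1 : ℕ) : ZMod m) = j' + (r : ZMod m) := x1.symm.trans r1
        have e2 : ((k - 1 : ℕ) : ZMod m) = ((k - 1 - r : ℕ) : ZMod m) + (r : ZMod m) := by
          rw [← Nat.cast_add]
          congr 1
          omega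
        rw [e2, ← add_assoc] at e
        exact (add_right_cancel e).symm
    · omega
    · exact ⟨1, le_rfl, by omega, by rw [← r1, x1]; push_cast; rfl⟩
    · omega
    · exact absurd (add_right_cancel (x1.symm.trans r1)) hjj
  obtain ⟨a, ha1, ha2, ha⟩ := h1
  obtain ⟨b, hb1, hb2, hb⟩ := h2
  have hab : ((a + b : ℕ) : ZMod m) = ((0 : ℕ) : ZMod m) := by
    have : j + ((a + b : ℕ) : ZMod m) = j + 0 := by
      conv_rhs => rw [add_zero, ha, hb]
      push_cast
      ring
    rw [Nat.cast_zero]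
    exact add_left_cancel this
  have := zmod_cast_inj (m := m) (by omega) (by omega) hab
  omega

/-- the vertices of the clique `j` -/
def Qs (m k : ℕ) [NeZero m] (j : ZMod m) : Finset (ZMod m × Fin (k + 1)) :=
  univ.filter fun x => x.1 = j ∧ x.2.val < k

lemma mem_Qs [NeZero m] {j : ZMod m} {x : ZMod m × Fin (k + 1)} :
    x ∈ Qs m k j ↔ x.1 = j ∧ x.2.val < k := by
  unfold Qs
  rw [mem_filter]
  exact ⟨fun h => h.2, fun h => ⟨mem_univ _, h⟩⟩

/-- the outer vertices -/
def Os (m k : ℕ) [NeZero m] : Finset (ZMod m × Fin (k + 1)) :=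
  univ.filter fun x => x.2.val = k

lemma card_Qs [NeZero m] (j : ZMod m) : (Qs m k j).card = k := by
  have h : Qs m k j = (univ : Finset (Fin k)).image fun r => vx j r.val r.isLt.le := by
    ext x
    rw [mem_Qs, mem_image]
    constructor
    · rintro ⟨h1, h2⟩
      exact ⟨⟨x.2.val, h2⟩, mem_univ _, Prod.ext h1.symm rfl⟩
    · rintro ⟨r, -, rfl⟩
      exact ⟨rfl, r.isLt⟩
  rw [h, card_image_of_injective _ fun r r' hrr => Fin.ext (vx_inj hrr).2, card_univ,
    Fintype.card_fin]

lemma card_Os [NeZero m] : (Os m k).card = m := by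
  have h : Os m k = (univ : Finset (ZMod m)).image fun i => vx i k le_rfl := by
    ext x
    unfold Os
    rw [mem_filter, mem_image]
    constructor
    · rintro ⟨-, h2⟩
      exact ⟨x.1, mem_univ _, Prod.ext rfl (Fin.ext h2.symm)⟩
    · rintro ⟨i, -, rfl⟩
      exact ⟨mem_univ _, rfl⟩
  rw [h, card_image_of_injective _ fun r r' hrr => (vx_inj hrr).1, card_univ, ZMod.card]

/-- a sum over all vertices -/
lemma sum_QG [NeZero m] (f : ZMod m × Fin (k + 1) → ℕ) :
    ∑ x, f x = ∑ j : ZMod m, ∑ x ∈ Qs m k j, f x + ∑ x ∈ Os m k, f x := by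
  classical
  have h1 : ∑ j : ZMod m, ∑ x ∈ Qs m k j, f x =
      ∑ x ∈ univ.filter (fun x : ZMod m × Fin (k + 1) => x.2.val < k), f x := by
    rw [← sum_fiberwise (univ.filter fun x : ZMod m × Fin (k + 1) => x.2.val < k) (fun x => x.1) f]
    refine sum_congr rfl fun j _ => sum_congr ?_ fun _ _ => rfl
    ext x
    rw [mem_Qs, mem_filter, mem_filter]
    exact ⟨fun h => ⟨⟨mem_univ _, h.2⟩, h.1⟩, fun h => ⟨h.2, h.1.2⟩⟩
  have h2 : Os m k = univ.filter (fun x : ZMod m × Fin (k + 1) => ¬ x.2.val < k) := by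
    unfold Os
    ext x
    rw [mem_filter, mem_filter]
    have := x.2.isLt
    constructor
    · rintro ⟨-, h⟩
      exact ⟨mem_univ _, by omega⟩
    · rintro ⟨-, h⟩
      exact ⟨mem_univ _, by omega⟩
  rw [h1, h2, sum_filter_add_sum_filter_not]

/-- the degrees -/
lemma dgc_QG_le [NeZero m] (x : ZMod m × Fin (k + 1)) : dgc (QG m k) x ≤ k := by
  classical
  unfold dgc
  by_cases hx : x.2.val = k
  · have h : univ.filter ((QG m k).Adj x) ⊆
        (univ : Finset (Fin k)).image fun r => vx (x.1 - (r.val : ZMod m)) r.val r.isLt.le := by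
      intro y hy
      simp only [mem_filter, mem_univ, true_and] at hy
      rw [mem_image]
      rcases hy with hy | hy | hy
      · omega
      · refine ⟨⟨y.2.val, hy.2.1⟩, mem_univ _, Prod.ext ?_ rfl⟩
        simp only [vx]
        rw [hy.2.2]
        ring
      · omega
    refine (card_le_card h).trans (card_image_le.trans ?_)
    rw [card_univ, Fintype.card_fin]
  · have hxk : x.2.val < k := by
      have := x.2.isLt
      omega
    have h : univ.filter ((QG m k).Adj x) ⊆
        insert (vx (x.1 + (x.2.val : ZMod m)) k le_rfl) ((Qs m k x.1).erase x) := by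
      intro y hy
      simp only [mem_filter, mem_univ, true_and] at hy
      rw [mem_insert, mem_erase, mem_Qs]
      rcases hy with hy | hy | hy
      · right
        exact ⟨fun hh => hy.2.1 (by rw [hh]), hy.1.symm, hy.2.2.2⟩
      · omega
      · left
        exact Prod.ext hy.2.2 (Fin.ext hy.1)
    refine (card_le_card h).trans ((card_insert_le _ _).trans ?_)
    rw [card_erase_of_mem (mem_Qs.mpr ⟨rfl, hxk⟩), card_Qs]
    omega

open Classical in
/-- the degree sum in a vertex set -/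
lemma sum_dgc_eq {V : Type*} [Fintype V] [DecidableEq V] (H : SimpleGraph V) (X : Finset V) :
    ∑ v ∈ X, dgc H v = ((X ×ˢ X).filter fun p => H.Adj p.1 p.2).card + dX H X := by
  unfold dX
  rw [card_filter, card_filter, sum_product, sum_product, ← sum_add_distrib]
  refine sum_congr rfl fun v _ => ?_
  unfold dgc
  rw [← card_filter, ← card_filter, ← card_union_of_disjoint]
  · congr 1
    ext u
    simp only [mem_union, mem_filter, mem_sdiff, mem_univ, true_and]
    tauto
  · rw [disjoint_left]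
    intro u hu hu'
    simp only [mem_filter, mem_sdiff, mem_univ, true_and] at hu hu'
    exact hu'.1 hu.1

open Classical in
lemma pairs_even {V : Type*} [Fintype V] [DecidableEq V] (H : SimpleGraph V) (X : Finset V) :
    2 ∣ ((X ×ˢ X).filter fun p => H.Adj p.1 p.2).card := by
  have := two_ec_resG H X
  unfold pin at this
  exact ⟨_, this.symm⟩

/-- every edge leaving a clique goes to an outer vertex -/
lemma sum_dX_le [NeZero m] {H : SimpleGraph (ZMod m × Fin (k + 1))} (hH : H ≤ QG m k) :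
    ∑ j : ZMod m, dX H (Qs m k j) ≤ ∑ x ∈ Os m k, dgc H x := by
  classical
  have h1 : ∀ j : ZMod m, dX H (Qs m k j) ≤ ∑ x ∈ Os m k, ((Qs m k j).filter (H.Adj x)).card := by
    intro j
    have h2 : ∑ x ∈ Os m k, ((Qs m k j).filter (H.Adj x)).card =
        ((Os m k ×ˢ Qs m k j).filter fun p => H.Adj p.1 p.2).card := by
      rw [card_filter, sum_product]
      exact sum_congr rfl fun x _ => card_filter _ _
    rw [h2]
    unfold dX
    refine card_le_card_of_injOn (fun p => (p.2, p.1)) ?_ ?_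
    · intro p hp
      simp only [mem_coe, mem_filter, mem_product, mem_sdiff, mem_univ, true_and] at hp ⊢
      obtain ⟨⟨p1, p2⟩, p3⟩ := hp
      refine ⟨⟨?_, p1⟩, p3.symm⟩
      rw [mem_Qs] at p1 p2
      unfold Os
      rw [mem_filter]
      refine ⟨mem_univ _, ?_⟩
      have h3 := hH p3
      rcases h3 with h3 | h3 | h3
      · exact absurd ⟨h3.1.symm.trans p1.1, h3.2.2.2⟩ p2
      · omega
      · exact h3.1
    · intro p _ q _ hpq
      simp only [Prod.mk.injEq] at hpq
      exact Prod.ext hpq.2 hpq.1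
  refine (sum_le_sum fun j _ => h1 j).trans ?_
  rw [sum_comm]
  refine sum_le_sum fun x _ => ?_
  unfold dgc
  rw [← card_biUnion]
  · refine card_le_card fun y hy => ?_
    rw [mem_biUnion] at hy
    obtain ⟨j, -, hy⟩ := hy
    rw [mem_filter] at hy ⊢
    exact ⟨mem_univ _, hy.2⟩
  · intro j _ j' _ hjj
    rw [Function.onFun, disjoint_left]
    intro y hy hy'
    rw [mem_filter, mem_Qs] at hy hy'
    exact hjj (hy.1.1.symm.trans hy'.1.1)

/-- the lower bound for the number of edges of an `l`-edge-connected spanning subgraph -/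
lemma QG_lower [NeZero m] {l : ℕ} (hkm : 2 ≤ k) (hk : k % 2 = 0) (hl : l % 2 = 1)
    {H : SimpleGraph (ZMod m × Fin (k + 1))} (hH : H ≤ QG m k) (hE : EC l H) :
    l * (m * (k + 1)) + m ≤ 2 * ec H := by
  classical
  have hdeg : ∀ v, l ≤ dgc H v := fun v => hE.min_degree v
  have hq : ∀ j : ZMod m, l * k + (l + 1) ≤ ∑ x ∈ Qs m k j, dgc H x + dX H (Qs m k j) := by
    intro j
    have h1 : l * k ≤ ∑ x ∈ Qs m k j, dgc H x := by
      calc l * k = ∑ _x ∈ Qs m k j, l := by rw [sum_const, smul_eq_mul, card_Qs, mul_comm]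
        _ ≤ _ := sum_le_sum fun x _ => hdeg x
    have h2 : l ≤ dX H (Qs m k j) := by
      refine hE.2 _ ?_ ?_
      · rw [← card_pos, card_Qs]
        omega
      · intro hh
        have : vx j k le_rfl ∈ Qs m k j := by
          rw [hh]
          exact mem_univ _
        rw [mem_Qs] at this
        simp only [vx] at this
        omega
    have h3 := sum_dgc_eq H (Qs m k j)
    have h4 := pairs_even H (Qs m k j)
    have h5 : 2 ∣ l * k := Dvd.dvd.mul_left (Nat.dvd_of_mod_eq_zero hk) l
    omega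
  have hs1 : ∑ j : ZMod m, (l * k + (l + 1)) ≤
      ∑ j : ZMod m, (∑ x ∈ Qs m k j, dgc H x + dX H (Qs m k j)) := sum_le_sum fun j _ => hq j
  rw [sum_const, card_univ, ZMod.card, smul_eq_mul, sum_add_distrib] at hs1
  have hs2 := sum_dX_le hH
  have hs3 := sum_QG (m := m) (k := k) (dgc H)
  rw [two_mul_ec, hs3]
  have e1 : l * (m * (k + 1)) + m = m * (l * k + (l + 1)) := by ring
  rw [e1]
  omega

lemma QG_upper [NeZero m] : 2 * ec (QG m k) ≤ k * (m * (k + 1)) := by
  rw [two_mul_ec]
  calc ∑ v, dgc (QG m k) v ≤ ∑ _v : ZMod m × Fin (k + 1), k := sum_le_sum fun v _ => dgc_QG_le v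
    _ = k * (m * (k + 1)) := by
        rw [sum_const, card_univ, Fintype.card_prod, ZMod.card, Fintype.card_fin, smul_eq_mul,
          mul_comm]

end Pool.Agent.Work.MP_60abc6_co
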