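import Mathlib
import Pool.Agent.Work.MP_60abc6_co.Upper

set_option autoImplicit false

/-! Graphs in which few edges can be deleted, odd `k`. -/

namespace Pool.Agent.Work.MP_60abc6_co

open Finset

/-- the vertices: `m = k * p` gadgets of order `k + 1`, and outer vertices of two kinds -/
abbrev OV (k p : ℕ) : Type := (ZMod (k * p) × Fin (k + 1)) ⊕ (ZMod (k * p) ⊕ Fin p)

/-- the pairs of a gadget that are not adjacent -/
def anti (k : ℕ) (r r' : ℕ) : Prop := r + (k + 1) / 2 = r' ∨ r' + (k + 1) / 2 = r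

/-- adjacency -/
def OAdj (k p : ℕ) : OV k p → OV k p → Prop
  | Sum.inl x, Sum.inl y => x.1 = y.1 ∧ x.2 ≠ y.2 ∧ ¬ anti k x.2.val y.2.val
  | Sum.inl x, Sum.inr (Sum.inl i) => x.2.val < k ∧ i = x.1 + (x.2.val : ZMod (k * p))
  | Sum.inl x, Sum.inr (Sum.inr t) => x.2.val = k ∧ t.val = x.1.val / k
  | Sum.inr (Sum.inl i), Sum.inl x => x.2.val < k ∧ i = x.1 + (x.2.val : ZMod (k * p))
  | Sum.inr (Sum.inr t), Sum.inl x => x.2.val = k ∧ t.val = x.1.val / k
  | Sum.inr _, Sum.inr _ => False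

lemma OAdj_symm (k p : ℕ) (x y : OV k p) (h : OAdj k p x y) : OAdj k p y x := by
  rcases x with x | i | t <;> rcases y with y | i' | t'
  · exact ⟨h.1.symm, h.2.1.symm, fun hh => h.2.2 hh.symm⟩
  · exact h
  · exact h
  · exact h
  · exact h
  · exact h
  · exact h
  · exact h
  · exact h

/-- the graph -/
def OG (k p : ℕ) : SimpleGraph (OV k p) where
  Adj := OAdj k p
  symm := ⟨OAdj_symm k p⟩
  loopless := ⟨fun x h => by
    rcases x with x | i | t
    · exact h.2.1 rfl
    · exact h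
    · exact h⟩

variable {k p : ℕ}

/-- a gadget vertex -/
def gv (j : ZMod (k * p)) (r : ℕ) (h : r ≤ k) : OV k p := Sum.inl (j, ⟨r, by omega⟩)

/-- an outer vertex of the first kind -/
def av (i : ZMod (k * p)) : OV k p := Sum.inr (Sum.inl i)

/-- an outer vertex of the second kind -/
def bv (t : Fin p) : OV k p := Sum.inr (Sum.inr t)

lemma gv_inj {j j' : ZMod (k * p)} {r r' : ℕ} {h : r ≤ k} {h' : r' ≤ k}
    (he : gv (p := p) j r h = gv j' r' h') : j = j' ∧ r = r' := by
  unfold gv at he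
  rw [Sum.inl.injEq, Prod.mk.injEq, Fin.mk.injEq] at he
  exact he

lemma OG_gg {j j' : ZMod (k * p)} {r r' : ℕ} {h : r ≤ k} {h' : r' ≤ k} :
    (OG k p).Adj (gv j r h) (gv j' r' h') ↔ j = j' ∧ r ≠ r' ∧ ¬ anti k r r' := by
  change j = j' ∧ _ ∧ _ ↔ _
  constructor
  · rintro ⟨h1, h2, h3⟩
    exact ⟨h1, fun hh => h2 (Fin.ext hh), h3⟩
  · rintro ⟨h1, h2, h3⟩
    exact ⟨h1, fun hh => h2 (congrArg Fin.val hh), h3⟩

lemma OG_ga {j i : ZMod (k * p)} {r : ℕ} {h : r ≤ k} :
    (OG k p).Adj (gv j r h) (av i) ↔ r < k ∧ i = j + (r : ZMod (k * p)) := Iff.rfl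

lemma OG_gb {j : ZMod (k * p)} {t : Fin p} {r : ℕ} {h : r ≤ k} :
    (OG k p).Adj (gv j r h) (bv t) ↔ r = k ∧ t.val = j.val / k := Iff.rfl

/-- the `r`-th path between the gadgets `j` and `j + 1` -/
def OP (k p : ℕ) (j : ZMod (k * p)) (r : ℕ) : OV k p → Prop
  | Sum.inl x => (x.1 = j ∧ x.2.val = r) ∨ (x.1 = j + 1 ∧ x.2.val + 1 = r)
  | Sum.inr (Sum.inl i) => i = j + (r : ZMod (k * p))
  | Sum.inr (Sum.inr _) => False

lemma OP_disj [NeZero (k * p)] (hm : 2 * k ≤ k * p) {j : ZMod (k * p)} {r r' : ℕ} (hr : r < k)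
    (hr' : r' < k) {x : OV k p} (h : OP k p j r x) (h' : OP k p j r' x) : r = r' := by
  have one_ne : j ≠ j + 1 := by
    intro hh
    have h0 : ((0 : ℕ) : ZMod (k * p)) = ((1 : ℕ) : ZMod (k * p)) := by
      have : j + 0 = j + 1 := by rw [add_zero]; exact hh
      have := add_left_cancel this
      push_cast
      exact this
    have := zmod_cast_inj (m := k * p) (by omega) (by omega) h0
    omega
  rcases x with x | i | t
  · rcases h with ⟨h1, h2⟩ | ⟨h1, h2⟩ <;> rcases h' with ⟨g1, g2⟩ | ⟨g1, g2⟩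
    · omega
    · exact absurd (h1.symm.trans g1) one_ne
    · exact absurd (g1.symm.trans h1) one_ne
    · omega
  · have h1 : i = j + (r : ZMod (k * p)) := h
    have h2 : i = j + (r' : ZMod (k * p)) := h'
    exact zmod_cast_inj (m := k * p) (by omega) (by omega) (add_left_cancel (h1.symm.trans h2))
  · exact absurd h (fun hh => hh)

lemma anti_unique (hk : k % 2 = 1) {r r' r'' : ℕ} (h : r ≤ k) (h' : r' ≤ k) (h'' : r'' ≤ k)
    (h1 : anti k r r') (h2 : anti k r'' r') : r = r'' := by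
  unfold anti at h1 h2
  omega

lemma OV_cases (x : OV k p) : (∃ (j : ZMod (k * p)) (r : ℕ) (h : r ≤ k), x = gv j r h) ∨
    (∃ i, x = av i) ∨ ∃ t, x = bv t := by
  rcases x with x | i | t
  · exact Or.inl ⟨x.1, x.2.val, by omega, rfl⟩
  · exact Or.inr (Or.inl ⟨i, rfl⟩)
  · exact Or.inr (Or.inr ⟨t, rfl⟩)

/-- one half of the separation argument -/
lemma OG_mono [NeZero (k * p)] (hk3 : 3 ≤ k) (hk : k % 2 = 1) (hp : 2 ≤ p)
    {A B S : Finset (OV k p)} (hAB : Disjoint A B)
    (hs : ∀ a ∈ A, ∀ b ∈ B, ¬ (OG k p).Adj a b) (hmemS : ∀ x, x ∈ S ↔ x ∉ A ∧ x ∉ B)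
    (hlt : S.card < k) {j : ZMod (k * p)} {r r' : ℕ} (h : r ≤ k) (h' : r' ≤ k)
    (h1 : gv j r h ∈ A) (h2 : gv j r' h' ∈ B) : False := by
  classical
  -- all other vertices of a two-coloured gadget lie in `S`
  have hrest : ∀ (j : ZMod (k * p)) (r r' : ℕ) (h : r ≤ k) (h' : r' ≤ k), gv j r h ∈ A →
      gv j r' h' ∈ B → (∀ x ∈ S, ∃ r, ∃ h : r ≤ k, x = gv j r h) := by
    intro j r r' h h' h1 h2
    have hrr : r ≠ r' := by
      rintro rfl
      exact disjoint_left.mp hAB h1 h2
    have hanti : anti k r r' := by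
      by_contra hcon
      exact hs _ h1 _ h2 (OG_gg.mpr ⟨rfl, hrr, hcon⟩)
    have hin : ∀ r'' (h'' : r'' ≤ k), r'' ≠ r → r'' ≠ r' → gv j r'' h'' ∈ S := by
      intro r'' h'' e1 e2
      rw [hmemS]
      constructor
      · intro hA
        have : anti k r'' r' := by
          by_contra hcon
          exact hs _ hA _ h2 (OG_gg.mpr ⟨rfl, e2, hcon⟩)
        exact e1 (anti_unique hk h'' h' h this hanti)
      · intro hB
        have h3 : anti k r r'' := by
          by_contra hcon
          exact hs _ h1 _ hB (OG_gg.mpr ⟨rfl, e1.symm, hcon⟩)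
        have h4 : anti k r'' r := h3.symm
        have h5 : anti k r' r := hanti.symm
        exact e2 (anti_unique hk h'' h h' h4 h5)
    set I : Finset ℕ := ((range (k + 1)).erase r).erase r' with hI
    have hIc : I.card = k - 1 := by
      rw [hI, card_erase_of_mem, card_erase_of_mem, card_range]
      · omega
      · exact mem_range.mpr (by omega)
      · exact mem_erase.mpr ⟨hrr.symm, mem_range.mpr (by omega)⟩
    set f : ℕ → OV k p := fun r'' => if hh : r'' ≤ k then gv j r'' hh else av j with hf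
    have hfv : ∀ r'' (hh : r'' ≤ k), f r'' = gv j r'' hh := by
      intro r'' hh
      rw [hf]
      simp only
      rw [dif_pos hh]
    have hIle : ∀ a ∈ I, a ≤ k ∧ a ≠ r ∧ a ≠ r' := by
      intro a ha
      rw [hI, mem_erase, mem_erase, mem_range] at ha
      exact ⟨by omega, ha.2.1, ha.1⟩
    have himg : I.image f = S := by
      refine eq_of_subset_of_card_le ?_ ?_
      · intro x hx
        rw [mem_image] at hx
        obtain ⟨a, ha, rfl⟩ := hx
        have h3 := hIle a ha
        rw [hfv a h3.1]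
        exact hin a h3.1 h3.2.1 h3.2.2
      · rw [card_image_of_injOn, hIc]
        · omega
        · intro a ha b hb hab
          have h3 := hIle a ha
          have h4 := hIle b hb
          rw [hfv a h3.1, hfv b h4.1] at hab
          exact (gv_inj hab).2
    intro x hx
    rw [← himg, mem_image] at hx
    obtain ⟨a, ha, rfl⟩ := hx
    exact ⟨a, (hIle a ha).1, hfv a (hIle a ha).1⟩
  have hSj := hrest j r r' h h' h1 h2
  have hSne : S.Nonempty := by
    -- a third vertex of the gadget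
    have hrr : r ≠ r' := by
      rintro rfl
      exact disjoint_left.mp hAB h1 h2
    obtain ⟨r'', h'', e1, e2⟩ : ∃ r'', r'' ≤ k ∧ r'' ≠ r ∧ r'' ≠ r' := by
      by_cases a0 : 0 ≠ r ∧ 0 ≠ r'
      · exact ⟨0, by omega, a0.1, a0.2⟩
      by_cases a1 : 1 ≠ r ∧ 1 ≠ r'
      · exact ⟨1, by omega, a1.1, a1.2⟩
      exact ⟨2, by omega, by omega, by omega⟩
    by_contra hcon
    rw [not_nonempty_iff_eq_empty] at hcon
    have hanti : anti k r r' := by
      by_contra hcon
      exact hs _ h1 _ h2 (OG_gg.mpr ⟨rfl, hrr, hcon⟩)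
    have h3 : gv j r'' h'' ∉ S := by
      rw [hcon]
      exact notMem_empty _
    rw [hmemS, not_and_or, not_not, not_not] at h3
    rcases h3 with h3 | h3
    · have : anti k r'' r' := by
        by_contra hc
        exact hs _ h3 _ h2 (OG_gg.mpr ⟨rfl, e2, hc⟩)
      exact e1 (anti_unique hk h'' h' h this hanti)
    · have h4 : anti k r r'' := by
        by_contra hc
        exact hs _ h1 _ h3 (OG_gg.mpr ⟨rfl, e1.symm, hc⟩)
      exact e2 (anti_unique hk h'' h h' h4.symm hanti.symm)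
  -- outside the gadget nothing lies in `S`
  have hout : ∀ x : OV k p, (∀ r (h : r ≤ k), x ≠ gv j r h) → x ∈ A ∨ x ∈ B := by
    intro x hx
    by_contra hcon
    rw [not_or] at hcon
    obtain ⟨r, h, he⟩ := hSj x ((hmemS x).mpr hcon)
    exact hx r h he
  have hgout : ∀ j' (r : ℕ) (h : r ≤ k), j' ≠ j → gv j' r h ∈ A ∨ gv j' r h ∈ B :=
    fun j' r h hj => hout _ fun r' h' hh => hj (gv_inj hh).1
  have haout : ∀ i : ZMod (k * p), av i ∈ A ∨ av i ∈ B :=
    fun i => hout _ fun r h hh => by cases hh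
  have hbout : ∀ t : Fin p, bv (k := k) t ∈ A ∨ bv (k := k) t ∈ B :=
    fun t => hout _ fun r h hh => by cases hh
  -- the other gadgets are monochromatic
  have hmonoc : ∀ j', j' ≠ j → ∀ r r' (h : r ≤ k) (h' : r' ≤ k), gv j' r h ∈ A →
      gv j' r' h' ∈ B → False := by
    intro j' hj' r r' h h' h1 h2
    obtain ⟨x, hx⟩ := hSne
    obtain ⟨r1, g1, e1⟩ := hSj x hx
    obtain ⟨r2, g2, e2⟩ := hrest j' r r' h h' h1 h2 x hx
    exact hj' (gv_inj (e2.symm.trans e1)).1
  -- the colour of all of them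
  have hone : ∀ j' : ZMod (k * p), ∀ t : ℕ, 1 ≤ t → t < k * p → j + (t : ZMod (k * p)) ≠ j := by
    intro _ t ht1 ht2 hh
    have : j + (t : ZMod (k * p)) = j + ((0 : ℕ) : ZMod (k * p)) := by
      rw [hh, Nat.cast_zero, add_zero]
    have := zmod_cast_inj (m := k * p) ht2 (by omega) (add_left_cancel this)
    omega
  have hkp : 2 * k ≤ k * p := by nlinarith
  have hstep : ∀ t : ℕ, 1 ≤ t → t + 1 < k * p → gv (j + (t : ZMod (k * p))) 0 (Nat.zero_le k) ∈ A →
      gv (j + ((t + 1 : ℕ) : ZMod (k * p))) 0 (Nat.zero_le k) ∈ A := by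
    intro t ht1 ht2 hA
    have n1 := hone j t ht1 (by omega)
    have n2 := hone j (t + 1) (by omega) ht2
    have b1 : gv (j + (t : ZMod (k * p))) 1 (by omega) ∈ A :=
      (hgout _ 1 (by omega) n1).resolve_right fun hB => hmonoc _ n1 _ _ _ _ hA hB
    have b2 : av (j + ((t + 1 : ℕ) : ZMod (k * p))) ∈ A := by
      refine (haout _).resolve_right fun hB => hs _ b1 _ hB ?_
      rw [OG_ga]
      exact ⟨by omega, by push_cast; ring⟩
    refine (hgout _ 0 _ n2).resolve_right fun hB => hs _ b2 _ hB ?_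
    exact (OG_ga.mpr ⟨by omega, by simp⟩ : (OG k p).Adj (gv _ 0 (Nat.zero_le k)) (av _)).symm
  have hstepB : ∀ t : ℕ, 1 ≤ t → t + 1 < k * p → gv (j + (t : ZMod (k * p))) 0 (Nat.zero_le k) ∈ B →
      gv (j + ((t + 1 : ℕ) : ZMod (k * p))) 0 (Nat.zero_le k) ∈ B := by
    intro t ht1 ht2 hA
    have n1 := hone j t ht1 (by omega)
    have n2 := hone j (t + 1) (by omega) ht2
    have b1 : gv (j + (t : ZMod (k * p))) 1 (by omega) ∈ B :=
      (hgout _ 1 (by omega) n1).resolve_left fun hB => hmonoc _ n1 _ _ _ _ hB hA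
    have b2 : av (j + ((t + 1 : ℕ) : ZMod (k * p))) ∈ B := by
      refine (haout _).resolve_left fun hB => hs _ hB _ b1 ?_
      refine (OG_ga.mpr ⟨by omega, by push_cast; ring⟩ :
        (OG k p).Adj (gv (j + (t : ZMod (k * p))) 1 (by omega)) (av _)).symm
    refine (hgout _ 0 _ n2).resolve_left fun hB => hs _ hB _ b2 ?_
    exact OG_ga.mpr ⟨by omega, by simp⟩
  have hallA : gv (j + ((1 : ℕ) : ZMod (k * p))) 0 (Nat.zero_le k) ∈ A → ∀ t : ℕ, 1 ≤ t →
      t < k * p → gv (j + (t : ZMod (k * p))) 0 (Nat.zero_le k) ∈ A := by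
    intro h0 t ht
    induction t, ht using Nat.le_induction with
    | base => exact fun _ => h0
    | succ t ht ih => exact fun hlt => hstep t ht hlt (ih (by omega))
  have hallB : gv (j + ((1 : ℕ) : ZMod (k * p))) 0 (Nat.zero_le k) ∈ B → ∀ t : ℕ, 1 ≤ t →
      t < k * p → gv (j + (t : ZMod (k * p))) 0 (Nat.zero_le k) ∈ B := by
    intro h0 t ht
    induction t, ht using Nat.le_induction with
    | base => exact fun _ => h0
    | succ t ht ih => exact fun hlt => hstepB t ht hlt (ih (by omega))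
  have hrep : ∀ j' : ZMod (k * p), j' ≠ j → ∃ t : ℕ, 1 ≤ t ∧ t < k * p ∧
      j' = j + (t : ZMod (k * p)) := by
    intro j' hj'
    refine ⟨(j' - j).val, ?_, ZMod.val_lt _, ?_⟩
    · rw [Nat.one_le_iff_ne_zero, ne_eq, ZMod.val_eq_zero, sub_eq_zero]
      exact hj'
    · rw [ZMod.natCast_zmod_val]
      ring
  -- a neighbour outside
  have hnb : ∀ r (h : r ≤ k), ∃ w : OV k p, (OG k p).Adj (gv j r h) w ∧
      ((∃ (j' : ZMod (k * p)) (r' : ℕ) (h' : r' ≤ k), j' ≠ j ∧ (OG k p).Adj (gv j' r' h') w)) ∧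
      (w ∈ A ∨ w ∈ B) := by
    intro r h
    by_cases hrk : r < k
    · refine ⟨av (j + (r : ZMod (k * p))), OG_ga.mpr ⟨hrk, rfl⟩, ?_, haout _⟩
      by_cases hr0 : r = 0
      · refine ⟨j - 1, 1, by omega, ?_, OG_ga.mpr ⟨by omega, ?_⟩⟩
        · intro hh
          apply hone j 1 le_rfl (by omega)
          push_cast
          nth_rewrite 1 [← hh]
          ring
        · rw [hr0]
          push_cast
          ring
      · refine ⟨j + 1, r - 1, by omega, ?_, OG_ga.mpr ⟨by omega, ?_⟩⟩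
        · have := hone j 1 le_rfl (by omega)
          push_cast at this
          exact this
        · obtain ⟨r', rfl⟩ : ∃ r', r = r' + 1 := ⟨r - 1, by omega⟩
          rw [Nat.add_sub_cancel]
          push_cast
          ring
    · have hrk' : r = k := by omega
      subst hrk'
      have hjv : j.val < r * p := ZMod.val_lt j
      have htp : j.val / r < p := Nat.div_lt_of_lt_mul hjv
      refine ⟨bv ⟨j.val / r, htp⟩, OG_gb.mpr ⟨rfl, rfl⟩, ?_, hbout _⟩
      -- another gadget in the same block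
      have hmod := Nat.div_add_mod j.val r
      have hml := Nat.mod_lt j.val (by omega : 0 < r)
      obtain ⟨s, hs1, hs2⟩ : ∃ s : ℕ, s < r ∧ s ≠ j.val % r := by
        by_cases h0 : j.val % r = 0
        · exact ⟨1, by omega, by omega⟩
        · exact ⟨0, by omega, fun hh => h0 hh.symm⟩
      have hlt2 : r * (j.val / r) + s < r * p := by
        have : r * (j.val / r + 1) ≤ r * p := Nat.mul_le_mul_left r htp
        rw [mul_add, mul_one] at this
        omega
      have hval : ((r * (j.val / r) + s : ℕ) : ZMod (r * p)).val = r * (j.val / r) + s :=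
        ZMod.val_cast_of_lt hlt2
      refine ⟨((r * (j.val / r) + s : ℕ) : ZMod (r * p)), r, le_rfl, ?_, OG_gb.mpr ⟨rfl, ?_⟩⟩
      · intro hh
        rw [hh] at hval
        omega
      · rw [hval]
        change j.val / r = _
        rw [Nat.mul_add_div (by omega), Nat.div_eq_of_lt hs1, add_zero]
  rcases hgout (j + ((1 : ℕ) : ZMod (k * p))) 0 (Nat.zero_le k) (hone j 1 le_rfl (by omega)) with
    h0 | h0
  · -- everything outside is in `A`
    have hA : ∀ j', j' ≠ j → ∀ r (h : r ≤ k), gv j' r h ∈ A := by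
      intro j' hj' r h
      obtain ⟨t, ht1, ht2, rfl⟩ := hrep j' hj'
      exact (hgout _ r h hj').resolve_right fun hB =>
        hmonoc _ hj' _ _ _ _ (hallA h0 t ht1 ht2) hB
    obtain ⟨w, hw1, ⟨j', r1, g1, hj', hw2⟩, hw3⟩ := hnb r' h'
    have hwA : w ∈ A := hw3.resolve_right fun hB => hs _ (hA j' hj' r1 g1) _ hB hw2
    exact hs _ hwA _ h2 hw1.symm
  · have hB : ∀ j', j' ≠ j → ∀ r (h : r ≤ k), gv j' r h ∈ B := by
      intro j' hj' r h
      obtain ⟨t, ht1, ht2, rfl⟩ := hrep j' hj'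
      exact (hgout _ r h hj').resolve_left fun hA =>
        hmonoc _ hj' _ _ _ _ hA (hallB h0 t ht1 ht2)
    obtain ⟨w, hw1, ⟨j', r1, g1, hj', hw2⟩, hw3⟩ := hnb r h
    have hwB : w ∈ B := hw3.resolve_left fun hA => hs _ hA _ (hB j' hj' r1 g1) hw2.symm
    exact hs _ h1 _ hwB hw1

lemma card_OV [NeZero (k * p)] : Fintype.card (OV k p) = p * (k + 1) ^ 2 := by
  rw [Fintype.card_sum, Fintype.card_sum, Fintype.card_prod, ZMod.card, Fintype.card_fin,
    Fintype.card_fin]
  ring

lemma KC_OG [NeZero (k * p)] (hk3 : 3 ≤ k) (hk : k % 2 = 1) (hp : 2 ≤ p) : KC k (OG k p) := by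
  classical
  have hkp : 2 * k ≤ k * p := by nlinarith
  refine ⟨by rw [card_OV]; nlinarith, fun A B hA hB hAB hs => ?_⟩
  by_contra hlt
  push Not at hlt
  set S := univ \ (A ∪ B) with hS
  have hmemS : ∀ x, x ∈ S ↔ x ∉ A ∧ x ∉ B := by
    intro x
    rw [hS, mem_sdiff, mem_union, not_or]
    exact ⟨fun h => h.2, fun h => ⟨mem_univ _, h⟩⟩
  have hmono : ∀ (j : ZMod (k * p)) (r r' : ℕ) (h : r ≤ k) (h' : r' ≤ k), gv j r h ∈ A →
      gv j r' h' ∈ B → False := fun j r r' h h' h1 h2 =>
    OG_mono hk3 hk hp hAB hs hmemS hlt h h' h1 h2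
  have hclq : ∀ j : ZMod (k * p), ∃ r, ∃ h : r ≤ k, gv j r h ∈ A ∨ gv j r h ∈ B := by
    intro j
    by_contra hcon
    push Not at hcon
    have h1 : (univ : Finset (Fin (k + 1))).card ≤ S.card := by
      refine card_le_card_of_injOn (fun r => gv j r.val (by omega)) ?_ ?_
      · intro r _
        rw [mem_coe, hmemS]
        exact hcon r.val (by omega)
      · intro r _ r' _ h
        exact Fin.ext (gv_inj h).2
    rw [card_univ, Fintype.card_fin] at h1
    omega
  set c : ZMod (k * p) → Prop := fun j => ∃ r, ∃ h : r ≤ k, gv j r h ∈ A with hc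
  have hcA : ∀ j, c j → ∀ r (h : r ≤ k), gv j r h ∉ B := by
    rintro j ⟨r, h, h1⟩ r' h' h2
    exact hmono j r r' h h' h1 h2
  have hcB : ∀ j, ¬ c j → ∀ r (h : r ≤ k), gv j r h ∉ A := by
    intro j hj r h h1
    exact hj ⟨r, h, h1⟩
  -- an outer vertex has a neighbour outside `S`
  have houta : ∀ i : ZMod (k * p), ¬ (∀ (r : ℕ) (h : r < k),
      gv (i - (r : ZMod (k * p))) r h.le ∈ S) := by
    intro i hcon
    have h1 : (univ : Finset (Fin k)).card ≤ S.card := by
      refine card_le_card_of_injOn (fun r => gv (i - (r.val : ZMod (k * p))) r.val r.isLt.le) ?_ ?_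
      · intro r _
        exact hcon r.val r.isLt
      · intro r _ r' _ h
        exact Fin.ext (gv_inj h).2
    rw [card_univ, Fintype.card_fin] at h1
    omega
  have hltb : ∀ (t : Fin p) (s : ℕ), s < k → k * t.val + s < k * p := by
    intro t s hs
    have h1 : k * (t.val + 1) ≤ k * p := Nat.mul_le_mul_left k t.isLt
    rw [mul_add, mul_one] at h1
    omega
  have hvalb : ∀ (t : Fin p) (s : ℕ), s < k →
      ((k * t.val + s : ℕ) : ZMod (k * p)).val = k * t.val + s := fun t s hs =>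
    ZMod.val_cast_of_lt (hltb t s hs)
  have houtb : ∀ t : Fin p, ¬ (∀ (s : ℕ), s < k →
      gv ((k * t.val + s : ℕ) : ZMod (k * p)) k le_rfl ∈ S) := by
    intro t hcon
    have h1 : (univ : Finset (Fin k)).card ≤ S.card := by
      refine card_le_card_of_injOn
        (fun r => gv ((k * t.val + r.val : ℕ) : ZMod (k * p)) k le_rfl) ?_ ?_
      · intro r _
        exact hcon r.val r.isLt
      · intro r _ r' _ h
        have h2 := congrArg ZMod.val (gv_inj h).1
        rw [hvalb t _ r.isLt, hvalb t _ r'.isLt] at h2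
        exact Fin.ext (by omega)
    rw [card_univ, Fintype.card_fin] at h1
    omega
  have hex : (∃ j, c j) ∧ (∃ j, ¬ c j) := by
    constructor
    · by_contra hcon
      push Not at hcon
      obtain ⟨a, ha⟩ := hA
      rcases OV_cases a with ⟨j, r, h, rfl⟩ | ⟨i, rfl⟩ | ⟨t, rfl⟩
      · exact hcB j (hcon j) r h ha
      · apply houta i
        intro r h
        rw [hmemS]
        refine ⟨hcB _ (hcon _) r h.le, fun h2 => hs _ ha _ h2 ?_⟩
        exact (OG_ga.mpr ⟨h, by ring⟩ : (OG k p).Adj (gv _ r h.le) (av i)).symm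
      · apply houtb t
        intro s h
        rw [hmemS]
        refine ⟨hcB _ (hcon _) k le_rfl, fun h2 => hs _ ha _ h2 ?_⟩
        refine (OG_gb.mpr ⟨rfl, ?_⟩ : (OG k p).Adj (gv _ k le_rfl) (bv t)).symm
        rw [hvalb t s h, Nat.mul_add_div (by omega), Nat.div_eq_of_lt h, add_zero]
    · by_contra hcon
      push Not at hcon
      obtain ⟨b, hb⟩ := hB
      rcases OV_cases b with ⟨j, r, h, rfl⟩ | ⟨i, rfl⟩ | ⟨t, rfl⟩
      · exact hcA j (hcon j) r h hb
      · apply houta i
        intro r h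
        rw [hmemS]
        refine ⟨fun h2 => hs _ h2 _ hb ?_, hcA _ (hcon _) r h.le⟩
        exact OG_ga.mpr ⟨h, by ring⟩
      · apply houtb t
        intro s h
        rw [hmemS]
        refine ⟨fun h2 => hs _ h2 _ hb ?_, hcA _ (hcon _) k le_rfl⟩
        refine OG_gb.mpr ⟨rfl, ?_⟩
        rw [hvalb t s h, Nat.mul_add_div (by omega), Nat.div_eq_of_lt h, add_zero]
  obtain ⟨⟨j1, hj1⟩, ⟨j2, hj2⟩⟩ := hex
  obtain ⟨j, hjA, hjB⟩ := exists_switch hj1 hj2
  obtain ⟨j', hjB', hjA'⟩ := exists_switch (c := fun j => ¬ c j) hj2 (not_not.mpr hj1)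
  rw [not_not] at hjA'
  have hhit : ∀ j : ZMod (k * p), ((c j ∧ ¬ c (j + 1)) ∨ (¬ c j ∧ c (j + 1))) → ∀ r, 1 ≤ r →
      r < k → ∃ x ∈ S, OP k p j r x := by
    intro j hj r hr1 hrk
    by_contra hcon
    push Not at hcon
    have hx1 : ¬ (gv j r hrk.le ∈ S) := fun h => hcon _ h (Or.inl ⟨rfl, rfl⟩)
    have hx2 : ¬ (av (j + (r : ZMod (k * p))) ∈ S) := fun h => hcon _ h rfl
    have hx3 : ¬ (gv (j + 1) (r - 1) (by omega) ∈ S) := fun h =>
      hcon _ h (Or.inr ⟨rfl, by change r - 1 + 1 = r; omega⟩)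
    rw [hmemS, not_and_or, not_not, not_not] at hx1 hx2 hx3
    have a12 : (OG k p).Adj (gv j r hrk.le) (av (j + (r : ZMod (k * p)))) :=
      OG_ga.mpr ⟨hrk, rfl⟩
    have a23 : (OG k p).Adj (gv (j + 1) (r - 1) (by omega)) (av (j + (r : ZMod (k * p)))) := by
      refine OG_ga.mpr ⟨by omega, ?_⟩
      obtain ⟨r', rfl⟩ : ∃ r', r = r' + 1 := ⟨r - 1, by omega⟩
      rw [Nat.add_sub_cancel]
      push_cast
      ring
    rcases hj with ⟨h1, h2⟩ | ⟨h1, h2⟩
    · have e1 := hx1.resolve_right (hcA j h1 r hrk.le)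
      have e3 := hx3.resolve_left (hcB (j + 1) h2 (r - 1) (by omega))
      rcases hx2 with hx2 | hx2
      · exact hs _ hx2 _ e3 a23.symm
      · exact hs _ e1 _ hx2 a12
    · have e1 := hx1.resolve_left (hcB j h1 r hrk.le)
      have e3 := hx3.resolve_right (hcA (j + 1) h2 (r - 1) (by omega))
      rcases hx2 with hx2 | hx2
      · exact hs _ hx2 _ e1 a12.symm
      · exact hs _ e3 _ hx2 a23
  have hcover : ∀ j : ZMod (k * p), ((c j ∧ ¬ c (j + 1)) ∨ (¬ c j ∧ c (j + 1))) → ∀ x ∈ S,
      ∃ r, 1 ≤ r ∧ r < k ∧ OP k p j r x := by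
    intro j hj
    have h1 := hhit j hj
    choose! f hf using h1
    have hinj : Set.InjOn f (Finset.Ico 1 k : Set ℕ) := by
      intro r hr r' hr' hrr
      rw [Finset.coe_Ico, Set.mem_Ico] at hr hr'
      have e1 := (hf r hr.1 hr.2).2
      have e2 := (hf r' hr'.1 hr'.2).2
      rw [hrr] at e1
      exact OP_disj hkp hr.2 hr'.2 e1 e2
    have himg : (Finset.Ico 1 k).image f = S := by
      refine eq_of_subset_of_card_le ?_ ?_
      · intro x hx
        rw [mem_image] at hx
        obtain ⟨r, hr, rfl⟩ := hx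
        rw [Finset.mem_Ico] at hr
        exact (hf r hr.1 hr.2).1
      · rw [card_image_of_injOn hinj, Nat.card_Ico]
        omega
    intro x hx
    rw [← himg, mem_image] at hx
    obtain ⟨r, hr, rfl⟩ := hx
    rw [Finset.mem_Ico] at hr
    exact ⟨r, hr.1, hr.2, (hf r hr.1 hr.2).2⟩
  have hjj : j ≠ j' := fun hh => hjB' (hh ▸ hjA)
  have hcov' := hcover j' (Or.inr ⟨hjB', hjA'⟩)
  obtain ⟨x, hxS, hx⟩ := hhit j (Or.inl ⟨hjA, hjB⟩) 1 le_rfl (by omega)
  obtain ⟨y, hyS, hy⟩ := hhit j (Or.inl ⟨hjA, hjB⟩) (k - 1) (by omega) (by omega)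
  have h1 : ∃ a : ℕ, 1 ≤ a ∧ a ≤ k - 2 ∧ j = j' + (a : ZMod (k * p)) := by
    obtain ⟨r, hr1, hrk, hr⟩ := hcov' x hxS
    rcases x with x | i | t
    · rcases hx with ⟨x1, x2⟩ | ⟨x1, x2⟩ <;> rcases hr with ⟨r1, r2⟩ | ⟨r1, r2⟩
      · exact absurd (x1.symm.trans r1) hjj
      · exact ⟨1, le_rfl, by omega, by rw [← x1, r1]; push_cast; rfl⟩
      · omega
      · exact absurd (add_right_cancel (x1.symm.trans r1)) hjj
    · have x1 : i = j + ((1 : ℕ) : ZMod (k * p)) := hx
      have r1 : i = j' + (r : ZMod (k * p)) := hr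
      refine ⟨r - 1, ?_, by omega, ?_⟩
      · by_contra hcon
        have hr0 : r = 1 := by omega
        apply hjj
        have := x1.symm.trans r1
        rw [hr0] at this
        exact add_right_cancel this
      · have e : j + ((1 : ℕ) : ZMod (k * p)) = j' + (r : ZMod (k * p)) := x1.symm.trans r1
        obtain ⟨r', rfl⟩ : ∃ r', r = r' + 1 := ⟨r - 1, by omega⟩
        rw [Nat.add_sub_cancel]
        push_cast at e
        have e2 : j + 1 = (j' + (r' : ZMod (k * p))) + 1 := by rw [e]; ring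
        exact add_right_cancel e2
    · exact absurd hx (fun hh => hh)
  have h2 : ∃ b : ℕ, 1 ≤ b ∧ b ≤ k - 2 ∧ j' = j + (b : ZMod (k * p)) := by
    obtain ⟨r, hr1, hrk, hr⟩ := hcov' y hyS
    rcases y with y | i | t
    · rcases hy with ⟨x1, x2⟩ | ⟨x1, x2⟩ <;> rcases hr with ⟨r1, r2⟩ | ⟨r1, r2⟩
      · exact absurd (x1.symm.trans r1) hjj
      · omega
      · exact ⟨1, le_rfl, by omega, by rw [← r1, x1]; push_cast; rfl⟩
      · exact absurd (add_right_cancel (x1.symm.trans r1)) hjj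
    · have x1 : i = j + ((k - 1 : ℕ) : ZMod (k * p)) := hy
      have r1 : i = j' + (r : ZMod (k * p)) := hr
      refine ⟨k - 1 - r, ?_, by omega, ?_⟩
      · by_contra hcon
        have hr0 : r = k - 1 := by omega
        apply hjj
        have := x1.symm.trans r1
        rw [hr0] at this
        exact add_right_cancel this
      · have e : j + ((k - 1 : ℕ) : ZMod (k * p)) = j' + (r : ZMod (k * p)) := x1.symm.trans r1
        have e2 : ((k - 1 : ℕ) : ZMod (k * p)) =
            ((k - 1 - r : ℕ) : ZMod (k * p)) + (r : ZMod (k * p)) := by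
          rw [← Nat.cast_add]
          congr 1
          omega
        rw [e2, ← add_assoc] at e
        exact (add_right_cancel e).symm
    · exact absurd hy (fun hh => hh)
  obtain ⟨a, ha1, ha2, ha⟩ := h1
  obtain ⟨b, hb1, hb2, hb⟩ := h2
  have hab : ((a + b : ℕ) : ZMod (k * p)) = ((0 : ℕ) : ZMod (k * p)) := by
    have : j + ((a + b : ℕ) : ZMod (k * p)) = j + 0 := by
      conv_rhs => rw [add_zero, ha, hb]
      push_cast
      ring
    rw [Nat.cast_zero]
    exact add_left_cancel this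
  have := zmod_cast_inj (m := k * p) (by omega) (by omega) hab
  omega

/-- the vertices of the gadget `j` -/
def OQ (k p : ℕ) [NeZero (k * p)] (j : ZMod (k * p)) : Finset (OV k p) :=
  (univ : Finset (Fin (k + 1))).image fun r => Sum.inl (j, r)

lemma mem_OQ [NeZero (k * p)] {j : ZMod (k * p)} {x : ZMod (k * p) × Fin (k + 1)} :
    (Sum.inl x : OV k p) ∈ OQ k p j ↔ x.1 = j := by
  unfold OQ
  rw [mem_image]
  constructor
  · rintro ⟨r, -, h⟩
    rw [Sum.inl.injEq] at h
    rw [← h]
  · rintro h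
    exact ⟨x.2, mem_univ _, by rw [← h]⟩

lemma inr_notMem_OQ [NeZero (k * p)] {j : ZMod (k * p)} {y : ZMod (k * p) ⊕ Fin p} :
    (Sum.inr y : OV k p) ∉ OQ k p j := by
  unfold OQ
  rw [mem_image]
  rintro ⟨r, -, h⟩
  cases h

lemma card_OQ [NeZero (k * p)] (j : ZMod (k * p)) : (OQ k p j).card = k + 1 := by
  unfold OQ
  rw [card_image_of_injective, card_univ, Fintype.card_fin]
  intro r r' h
  simp only [Sum.inl.injEq, Prod.mk.injEq, true_and] at h
  exact h

lemma sum_OG [NeZero (k * p)] (f : OV k p → ℕ) :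
    ∑ x, f x = ∑ j : ZMod (k * p), ∑ x ∈ OQ k p j, f x + ∑ y, f (Sum.inr y) := by
  rw [Fintype.sum_sum_type, Fintype.sum_prod_type]
  congr 1
  refine sum_congr rfl fun j _ => ?_
  unfold OQ
  rw [sum_image]
  intro r _ r' _ h
  simp only [Sum.inl.injEq, Prod.mk.injEq, true_and] at h
  exact h

lemma sum_dX_le_O [NeZero (k * p)] {H : SimpleGraph (OV k p)} (hH : H ≤ OG k p) :
    ∑ j : ZMod (k * p), dX H (OQ k p j) ≤ ∑ y, dgc H (Sum.inr y) := by
  classical
  have h1 : ∀ j : ZMod (k * p), dX H (OQ k p j) ≤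
      ∑ y : ZMod (k * p) ⊕ Fin p, ((OQ k p j).filter (H.Adj (Sum.inr y))).card := by
    intro j
    have h2 : ∑ y : ZMod (k * p) ⊕ Fin p, ((OQ k p j).filter (H.Adj (Sum.inr y))).card =
        (((univ : Finset (ZMod (k * p) ⊕ Fin p)) ×ˢ OQ k p j).filter
          fun q => H.Adj (Sum.inr q.1) q.2).card := by
      rw [card_filter, sum_product]
      exact sum_congr rfl fun x _ => card_filter _ _
    rw [h2]
    unfold dX
    refine card_le_card_of_injOn (fun q => ((match q.2 with
      | Sum.inl _ => Sum.inr ⟨0, by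
          have : 0 < k * p := Nat.pos_of_ne_zero (NeZero.ne _)
          exact Nat.pos_of_mul_pos_left this⟩
      | Sum.inr y => y), q.1)) ?_ ?_
    · intro q hq
      simp only [mem_coe, mem_filter, mem_product, mem_sdiff, mem_univ, true_and] at hq ⊢
      obtain ⟨⟨q1, q2⟩, q3⟩ := hq
      obtain ⟨a, b⟩ := q
      rcases b with b | y
      · exfalso
        rcases a with a | y
        · have h3 := hH q3
          have h4 : a.1 = b.1 := h3.1
          simp only at q1 q2
          rw [mem_OQ] at q1 q2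
          exact q2 (h4.symm.trans q1)
        · exact inr_notMem_OQ q1
      · exact ⟨q1, q3.symm⟩
    · intro q hq q' hq' hqq
      simp only [mem_coe, mem_filter, mem_product, mem_sdiff, mem_univ, true_and] at hq hq'
      obtain ⟨a, b⟩ := q
      obtain ⟨a', b'⟩ := q'
      have key : ∀ (a : OV k p) (b : ZMod (k * p) × Fin (k + 1)), a ∈ OQ k p j →
          (Sum.inl b : OV k p) ∉ OQ k p j → ¬ H.Adj a (Sum.inl b) := by
        intro a b g1 g2 g3
        rcases a with a | y
        · have h3 := hH g3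
          have h4 : a.1 = b.1 := h3.1
          rw [mem_OQ] at g1 g2
          exact g2 (h4.symm.trans g1)
        · exact inr_notMem_OQ g1
      rcases b with b | y
      · exact absurd hq.2 (key a b hq.1.1 hq.1.2)
      · rcases b' with b' | y'
        · exact absurd hq'.2 (key a' b' hq'.1.1 hq'.1.2)
        · simp only [Prod.mk.injEq] at hqq
          rw [hqq.1, hqq.2]
  refine (sum_le_sum fun j _ => h1 j).trans ?_
  rw [sum_comm]
  refine sum_le_sum fun x _ => ?_
  unfold dgc
  rw [← card_biUnion]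
  · refine card_le_card fun y hy => ?_
    rw [mem_biUnion] at hy
    obtain ⟨j, -, hy⟩ := hy
    rw [mem_filter] at hy ⊢
    exact ⟨mem_univ _, hy.2⟩
  · intro j _ j' _ hjj
    rw [Function.onFun, disjoint_left]
    intro y hy hy'
    rw [mem_filter] at hy hy'
    rcases y with y | y
    · rw [mem_OQ] at hy hy'
      exact hjj (hy.1.symm.trans hy'.1)
    · exact inr_notMem_OQ hy.1

lemma OG_lower [NeZero (k * p)] {l : ℕ} (hk : k % 2 = 1) (hl : l % 2 = 1)
    {H : SimpleGraph (OV k p)} (hH : H ≤ OG k p) (hE : EC l H) :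
    k * p * (l * (k + 1) + (l + 1)) ≤ 2 * ec H := by
  classical
  have hdeg : ∀ v, l ≤ dgc H v := fun v => hE.min_degree v
  have hq : ∀ j : ZMod (k * p), l * (k + 1) + (l + 1) ≤
      ∑ x ∈ OQ k p j, dgc H x + dX H (OQ k p j) := by
    intro j
    have h1 : l * (k + 1) ≤ ∑ x ∈ OQ k p j, dgc H x := by
      calc l * (k + 1) = ∑ _x ∈ OQ k p j, l := by rw [sum_const, smul_eq_mul, card_OQ, mul_comm]
        _ ≤ _ := sum_le_sum fun x _ => hdeg x
    have h2 : l ≤ dX H (OQ k p j) := by
      refine hE.2 _ ?_ ?_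
      · rw [← card_pos, card_OQ]
        omega
      · intro hh
        have : (Sum.inr (Sum.inl j) : OV k p) ∈ OQ k p j := by
          rw [hh]
          exact mem_univ _
        exact inr_notMem_OQ this
    have h3 := sum_dgc_eq H (OQ k p j)
    have h4 := pairs_even H (OQ k p j)
    have h5 : 2 ∣ l * (k + 1) := Dvd.dvd.mul_left (by omega) l
    omega
  have hs1 : ∑ j : ZMod (k * p), (l * (k + 1) + (l + 1)) ≤
      ∑ j : ZMod (k * p), (∑ x ∈ OQ k p j, dgc H x + dX H (OQ k p j)) :=
    sum_le_sum fun j _ => hq j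
  rw [sum_const, card_univ, ZMod.card, smul_eq_mul, sum_add_distrib] at hs1
  have hs2 := sum_dX_le_O hH
  have hs3 := sum_OG (k := k) (p := p) (dgc H)
  rw [two_mul_ec, hs3]
  omega

lemma dgc_OG_le [NeZero (k * p)] (hk3 : 3 ≤ k) (hk : k % 2 = 1) (x : OV k p) :
    dgc (OG k p) x ≤ k := by
  classical
  unfold dgc
  rcases OV_cases x with ⟨j, r, h, rfl⟩ | ⟨i, rfl⟩ | ⟨t, rfl⟩
  · -- a gadget vertex
    have hpa : ∃ q, q ≤ k ∧ anti k r q ∧ q ≠ r := by
      unfold anti
      by_cases hr : r < (k + 1) / 2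
      · exact ⟨r + (k + 1) / 2, by omega, Or.inl rfl, by omega⟩
      · exact ⟨r - (k + 1) / 2, by omega, Or.inr (by omega), by omega⟩
    obtain ⟨q, hq, hanti, hqr⟩ := hpa
    set out : OV k p := if r < k then av (j + (r : ZMod (k * p))) else
      bv ⟨j.val / k, Nat.div_lt_of_lt_mul (ZMod.val_lt j)⟩ with hout
    set I : Finset ℕ := ((range (k + 1)).erase r).erase q with hI
    have hIc : I.card = k - 1 := by
      rw [hI, card_erase_of_mem, card_erase_of_mem, card_range]
      · omega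
      · exact mem_range.mpr (by omega)
      · exact mem_erase.mpr ⟨hqr, mem_range.mpr (by omega)⟩
    have h1 : univ.filter ((OG k p).Adj (gv j r h)) ⊆
        insert out (I.image fun r' => if hh : r' ≤ k then gv j r' hh else out) := by
      intro y hy
      simp only [mem_filter, mem_univ, true_and] at hy
      rw [mem_insert, mem_image]
      rcases OV_cases y with ⟨j', r', h', rfl⟩ | ⟨i, rfl⟩ | ⟨t, rfl⟩
      · right
        rw [OG_gg] at hy
        refine ⟨r', ?_, ?_⟩
        · rw [hI, mem_erase, mem_erase, mem_range]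
          refine ⟨?_, hy.2.1.symm, by omega⟩
          rintro rfl
          exact hy.2.2 hanti
        · rw [dif_pos h', hy.1]
      · left
        rw [OG_ga] at hy
        rw [hout, if_pos hy.1, hy.2]
      · left
        rw [OG_gb] at hy
        rw [hout, if_neg (by omega)]
        unfold bv
        congr 2
        exact Fin.ext hy.2
    refine (card_le_card h1).trans ((card_insert_le _ _).trans ?_)
    have := card_image_le (s := I) (f := fun r' => if hh : r' ≤ k then gv j r' hh else out)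
    omega
  · have h1 : univ.filter ((OG k p).Adj (av i)) ⊆
        (univ : Finset (Fin k)).image fun r => gv (i - (r.val : ZMod (k * p))) r.val r.isLt.le := by
      intro y hy
      simp only [mem_filter, mem_univ, true_and] at hy
      rw [mem_image]
      rcases OV_cases y with ⟨j', r', h', rfl⟩ | ⟨i', rfl⟩ | ⟨t, rfl⟩
      · have h2 := OG_ga.mp hy.symm
        refine ⟨⟨r', h2.1⟩, mem_univ _, ?_⟩
        simp only
        congr 1
        rw [h2.2]
        ring
      · exact absurd hy (fun hh => hh)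
      · exact absurd hy (fun hh => hh)
    refine (card_le_card h1).trans (card_image_le.trans ?_)
    rw [card_univ, Fintype.card_fin]
  · have h1 : univ.filter ((OG k p).Adj (bv t)) ⊆
        (univ : Finset (Fin k)).image fun r =>
          gv ((k * t.val + r.val : ℕ) : ZMod (k * p)) k le_rfl := by
      intro y hy
      simp only [mem_filter, mem_univ, true_and] at hy
      rw [mem_image]
      rcases OV_cases y with ⟨j', r', h', rfl⟩ | ⟨i', rfl⟩ | ⟨t, rfl⟩
      · have h2 := OG_gb.mp hy.symm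
        have h3 : r' = k := h2.1
        subst h3
        have h4 := Nat.div_add_mod j'.val r'
        refine ⟨⟨j'.val % r', Nat.mod_lt _ (by omega)⟩, mem_univ _, ?_⟩
        simp only
        congr 1
        rw [h2.2, h4, ZMod.natCast_zmod_val]
      · exact absurd hy (fun hh => hh)
      · exact absurd hy (fun hh => hh)
    refine (card_le_card h1).trans (card_image_le.trans ?_)
    rw [card_univ, Fintype.card_fin]

lemma OG_upper [NeZero (k * p)] (hk3 : 3 ≤ k) (hk : k % 2 = 1) :
    2 * ec (OG k p) ≤ k * (p * (k + 1) ^ 2) := by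
  rw [two_mul_ec]
  calc ∑ v, dgc (OG k p) v ≤ ∑ _v : OV k p, k := sum_le_sum fun v _ => dgc_OG_le hk3 hk v
    _ = k * (p * (k + 1) ^ 2) := by
        rw [sum_const, card_univ, card_OV, smul_eq_mul, mul_comm]

end Pool.Agent.Work.MP_60abc6_co
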