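import Mathlib
import Pool.Agent.Work.MP_60abc6_co.Upper
import Pool.Agent.Work.MP_60abc6_co.UpperOdd

set_option autoImplicit false

/-! The upper bounds for graphs on `Fin n`. -/

namespace Pool.Agent.Work.MP_60abc6_co

open Finset

variable {V W : Type*} [Fintype V] [DecidableEq V] [Fintype W] [DecidableEq W]

lemma KC.comap_equiv {k : ℕ} {G : SimpleGraph V} (h : KC k G) (e : W ≃ V) : KC k (G.comap e) := by
  refine ⟨by rw [Fintype.card_congr e]; exact h.1, fun A B hA hB hAB hs => ?_⟩
  have h1 := h.2 (A.map e.toEmbedding) (B.map e.toEmbedding) (hA.map) (hB.map)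
    ((disjoint_map _).mpr hAB) ?_
  · refine h1.trans (le_of_eq ?_)
    rw [← map_union, ← map_univ_equiv e, ← Finset.map_sdiff, card_map]
  · intro a ha b hb hab
    rw [mem_map] at ha hb
    obtain ⟨a', ha', rfl⟩ := ha
    obtain ⟨b', hb', rfl⟩ := hb
    exact hs a' ha' b' hb' hab

lemma dX_comap_equiv (G : SimpleGraph V) (e : W ≃ V) (X : Finset W) :
    dX (G.comap e) X = dX G (X.map e.toEmbedding) := by
  classical
  unfold dX
  refine card_bij (fun p _ => (e p.1, e p.2)) ?_ ?_ ?_
  · intro p hp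
    simp only [mem_filter, mem_product, mem_sdiff, mem_univ, true_and, mem_map,
      Equiv.coe_toEmbedding, SimpleGraph.comap_adj] at hp ⊢
    refine ⟨⟨⟨p.1, hp.1.1, rfl⟩, ?_⟩, hp.2⟩
    rintro ⟨q, hq, hqe⟩
    exact hp.1.2 (e.injective hqe ▸ hq)
  · intro p _ q _ h
    rw [Prod.mk.injEq] at h
    exact Prod.ext (e.injective h.1) (e.injective h.2)
  · rintro ⟨a, b⟩ hp
    simp only [mem_filter, mem_product, mem_sdiff, mem_univ, true_and, mem_map,
      Equiv.coe_toEmbedding] at hp
    obtain ⟨⟨⟨a', ha', rfl⟩, hb⟩, hab⟩ := hp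
    refine ⟨(a', e.symm b), ?_, by simp⟩
    simp only [mem_filter, mem_product, mem_sdiff, mem_univ, true_and, SimpleGraph.comap_adj,
      Equiv.apply_symm_apply]
    exact ⟨⟨ha', fun hh => hb ⟨_, hh, by simp⟩⟩, hab⟩

lemma EC.comap_equiv {k : ℕ} {G : SimpleGraph V} (h : EC k G) (e : W ≃ V) : EC k (G.comap e) := by
  refine ⟨by rw [Fintype.card_congr e]; exact h.1, fun X hX hXu => ?_⟩
  rw [dX_comap_equiv]
  refine h.2 _ hX.map fun hh => hXu ?_
  rw [← map_univ_equiv e] at hh
  exact map_injective _ hh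

lemma dgc_comap_equiv (G : SimpleGraph V) (e : W ≃ V) (w : W) : dgc (G.comap e) w = dgc G (e w) := by
  classical
  unfold dgc
  refine card_bij (fun p _ => e p) ?_ ?_ ?_
  · intro p hp
    simp only [mem_filter, mem_univ, true_and, SimpleGraph.comap_adj] at hp ⊢
    exact hp
  · intro p _ q _ h
    exact e.injective h
  · intro b hb
    simp only [mem_filter, mem_univ, true_and] at hb
    refine ⟨e.symm b, ?_, by simp⟩
    simp only [mem_filter, mem_univ, true_and, SimpleGraph.comap_adj, Equiv.apply_symm_apply]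
    exact hb

lemma ec_comap_equiv (G : SimpleGraph V) (e : W ≃ V) : ec (G.comap e) = ec G := by
  have h1 : 2 * ec (G.comap e) = 2 * ec G := by
    rw [two_mul_ec, two_mul_ec]
    exact Fintype.sum_equiv e _ _ fun w => dgc_comap_equiv G e w
  omega

lemma KC.EC {k : ℕ} {G : SimpleGraph V} (h : KC k G) (hk : 1 ≤ k) : EC k G := by
  classical
  refine ⟨lt_of_le_of_lt hk h.1, fun X hX hXu => ?_⟩
  obtain ⟨E, hE, hE2⟩ := h.cut X hX hXu
  refine hE.trans ?_
  unfold dX
  refine card_le_card fun p hp => ?_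
  simp only [mem_filter, mem_product, mem_sdiff, mem_univ, true_and]
  exact ⟨⟨(hE2 p hp).2.1, (hE2 p hp).2.2⟩, (hE2 p hp).1⟩

/-- from a graph on any vertex set to the two numbers -/
lemma numbers_le {n k l c : ℕ} (hl : 1 ≤ l) (hlk : l < k) {G : SimpleGraph V}
    (hn : Fintype.card V = n) (hG : KC k G) (hup : 2 * ec G ≤ k * n)
    (hlow : ∀ H : SimpleGraph V, H ≤ G → EC l H → l * n + c ≤ 2 * ec H) :
    2 * eKappa n k l + c ≤ (k - l) * n ∧ 2 * eLambda n k l + c ≤ (k - l) * n := by
  classical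
  obtain ⟨e⟩ : Nonempty (Fin n ≃ V) := ⟨(Fintype.equivFinOfCardEq hn).symm⟩
  have hG' := hG.comap_equiv e
  have hec : ec (G.comap e) = ec G := ec_comap_equiv G e
  have hmul : (k - l) * n + l * n = k * n := by
    rw [← Nat.add_mul, Nat.sub_add_cancel hlk.le]
  have hlow' : ∀ H : SimpleGraph (Fin n), H ≤ G.comap e → EC l H → l * n + c ≤ 2 * ec H := by
    intro H hH hE
    have h1 := hlow (H.comap e.symm) ?_ (hE.comap_equiv e.symm)
    · rw [ec_comap_equiv] at h1
      exact h1
    · intro a b hab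
      have := hH hab
      rw [SimpleGraph.comap_adj, Equiv.apply_symm_apply, Equiv.apply_symm_apply] at this
      exact this
  have h0 := hlow' _ le_rfl ((hG'.EC (by omega)).mono hlk.le)
  have hb : ∀ H : SimpleGraph (Fin n), H ≤ G.comap e → EC l H →
      ec (G.comap e) ≤ ec H + ((k - l) * n - c) / 2 := by
    intro H hH hE
    have := hlow' H hH hE
    omega
  constructor
  · have h1 : eKappa n k l ≤ ((k - l) * n - c) / 2 := by
      unfold eKappa
      refine sSup_delete_le (P := KConnected l) (Q := KConnected k) (G := G.comap e) ?_ ?_ ?_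
      · rw [KConnected_iff_KC]
        exact hG'
      · intro H hH hHl
        rw [KConnected_iff_KC] at hHl
        exact hb H hH (hHl.EC hl)
      · intro G' hG'
        rw [KConnected_iff_KC] at hG' ⊢
        exact hG'.mono hlk.le
    omega
  · have h1 : eLambda n k l ≤ ((k - l) * n - c) / 2 := by
      unfold eLambda
      refine sSup_delete_le (P := KEdgeConnected l) (Q := KEdgeConnected k) (G := G.comap e) ?_ ?_ ?_
      · rw [KEdgeConnected_iff_EC]
        exact hG'.EC (by omega)
      · intro H hH hHl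
        rw [KEdgeConnected_iff_EC] at hHl
        exact hb H hH hHl
      · intro G' hG'
        rw [KEdgeConnected_iff_EC] at hG' ⊢
        exact hG'.mono hlk.le
    omega

theorem upper_even {k l m : ℕ} (hlk : l < k) (hk : k % 2 = 0) (hl : l % 2 = 1) (hm : 2 * k ≤ m) :
    2 * eKappa (m * (k + 1)) k l + m ≤ (k - l) * (m * (k + 1)) ∧
      2 * eLambda (m * (k + 1)) k l + m ≤ (k - l) * (m * (k + 1)) := by
  have hm0 : NeZero m := ⟨by omega⟩
  refine numbers_le (G := QG m k) (by omega) hlk ?_ (KC_QG (by omega) hm) QG_upper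
    fun H hH hE => QG_lower (by omega) hk hl hH hE
  rw [Fintype.card_prod, ZMod.card, Fintype.card_fin]

theorem upper_odd {k l p : ℕ} (hlk : l < k) (hk : k % 2 = 1) (hl : l % 2 = 1) (hp : 2 ≤ p) :
    2 * eKappa (p * (k + 1) ^ 2) k l + p * (k - l) ≤ (k - l) * (p * (k + 1) ^ 2) ∧
      2 * eLambda (p * (k + 1) ^ 2) k l + p * (k - l) ≤ (k - l) * (p * (k + 1) ^ 2) := by
  have hk3 : 3 ≤ k := by omega
  have hm0 : NeZero (k * p) := ⟨by positivity⟩
  refine numbers_le (G := OG k p) (by omega) hlk card_OV (KC_OG hk3 hk hp) (OG_upper hk3 hk)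
    fun H hH hE => ?_
  have h := OG_lower hk hl hH hE
  obtain ⟨c, rfl⟩ : ∃ c, k = l + c := ⟨k - l, by omega⟩
  rw [Nat.add_sub_cancel_left]
  refine le_trans (le_of_eq ?_) h
  ring

end Pool.Agent.Work.MP_60abc6_co
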