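import Mathlib
import Pool.Agent.Work.MP_60abc6_co.Trans
import Pool.Agent.Work.MP_60abc6_co.SwStep

set_option autoImplicit false

/-! The lower bounds for the two numbers. -/

namespace Pool.Agent.Work.MP_60abc6_co

open Finset

lemma kappa_of_bound {n k l e : ℕ} (hlk : l < k) (hk : k < n)
    (h : ∀ G : SimpleGraph (Fin n), KC k G → ∃ H : SimpleGraph (Fin n), H ≤ G ∧ KC l H ∧
      ec H + e ≤ ec G) : e ≤ eKappa n k l := by
  unfold eKappa
  refine le_sSup_delete (P := KConnected l) (Q := KConnected k) ?_ ⟨⊤, ?_⟩ ?_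
  · intro H H' hHH hH
    rw [KConnected_iff_KC] at hH ⊢
    exact hH.mono_graph hHH
  · rw [KConnected_iff_KC]
    exact KC_top (by rw [Fintype.card_fin]; exact hk)
  · intro G hG
    rw [KConnected_iff_KC] at hG
    obtain ⟨H, h1, h2, h3⟩ := h G hG
    refine ⟨H, h1, ?_, h3⟩
    rw [KConnected_iff_KC]
    exact h2

lemma lambda_of_bound {n k l e : ℕ} (hlk : l < k) (hk : k < n)
    (h : ∀ G : SimpleGraph (Fin n), EC k G → ∃ H : SimpleGraph (Fin n), H ≤ G ∧ EC l H ∧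
      ec H + e ≤ ec G) : e ≤ eLambda n k l := by
  unfold eLambda
  refine le_sSup_delete (P := KEdgeConnected l) (Q := KEdgeConnected k) ?_ ⟨⊤, ?_⟩ ?_
  · intro H H' hHH hH
    rw [KEdgeConnected_iff_EC] at hH ⊢
    exact hH.mono_graph hHH
  · rw [KEdgeConnected_iff_EC]
    exact (KC_top (by rw [Fintype.card_fin]; exact hk)).EC (by omega)
  · intro G hG
    rw [KEdgeConnected_iff_EC] at hG
    obtain ⟨H, h1, h2, h3⟩ := h G hG
    refine ⟨H, h1, ?_, h3⟩
    rw [KEdgeConnected_iff_EC]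
    exact h2

theorem kappa_one {n k l : ℕ} (hl : 1 ≤ l) (hlk : l < k) (hk : k < n) :
    (k - l - 1) * n + 1 ≤ 2 * eKappa n k l := by
  have : Nonempty (Fin n) := ⟨⟨0, by omega⟩⟩
  have h := kappa_of_bound (e := ((k - l - 1) * n + 2) / 2) hlk hk (fun G hG => by
    obtain ⟨H, h1, h2, h3, -⟩ := bound_one hl hlk hG
    rw [← two_mul_ec, ← two_mul_ec, Fintype.card_fin] at h3
    exact ⟨H, h1, h2, by omega⟩)
  omega

theorem kappa_two {n k l : ℕ} (hl : 1 ≤ l) (hlk : l < k) (hk : k < n) :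
    (k - l) * ((k - 2) * n + 2) ≤ 2 * (k + l - 2) * eKappa n k l := by
  have : Nonempty (Fin n) := ⟨⟨0, by omega⟩⟩
  rcases Nat.eq_zero_or_pos (k + l - 2) with h0 | h0
  · omega
  have h := kappa_of_bound (e := ((k - l) * ((k - 2) * n + 2) + (2 * (k + l - 2) - 1)) /
      (2 * (k + l - 2))) hlk hk (fun G hG => by
    obtain ⟨H, h1, h2, h3⟩ := bound_two hl hlk hG
    rw [← two_mul_ec, ← two_mul_ec, Fintype.card_fin] at h3
    refine ⟨H, h1, h2, ?_⟩
    have h4 : ec H ≤ ec G := ec_mono h1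
    obtain ⟨d, hd⟩ : ∃ d, ec G = ec H + d := ⟨ec G - ec H, by omega⟩
    rw [hd] at h3 ⊢
    have h5 : (k - l) * ((k - 2) * n + 2) ≤ 2 * (k + l - 2) * d := by
      have e1 : (k + l - 2) * (2 * (ec H + d)) = (k + l - 2) * (2 * ec H) + 2 * (k + l - 2) * d := by
        ring
      omega
    have h6 : ((k - l) * ((k - 2) * n + 2) + (2 * (k + l - 2) - 1)) / (2 * (k + l - 2)) ≤ d := by
      rw [← Nat.lt_succ_iff, Nat.div_lt_iff_lt_mul (by omega)]
      have e2 : (d + 1) * (2 * (k + l - 2)) = 2 * (k + l - 2) * d + 2 * (k + l - 2) := by ring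
      rw [Nat.succ_eq_add_one, e2]
      omega
    omega)
  have h7 : (k - l) * ((k - 2) * n + 2) ≤
      2 * (k + l - 2) * (((k - l) * ((k - 2) * n + 2) + (2 * (k + l - 2) - 1)) /
      (2 * (k + l - 2))) := by
    have h8 := Nat.div_add_mod ((k - l) * ((k - 2) * n + 2) + (2 * (k + l - 2) - 1))
      (2 * (k + l - 2))
    have h9 := Nat.mod_lt ((k - l) * ((k - 2) * n + 2) + (2 * (k + l - 2) - 1))
      (y := 2 * (k + l - 2)) (by omega)
    omega
  exact h7.trans (Nat.mul_le_mul_left _ h)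

theorem lambda_one {n k l : ℕ} (hl : 1 ≤ l) (hlk : l < k) (hk : k < n) :
    (k - l) * n + 3 ≤ 2 * eLambda n k l + 2 * n := by
  have h := lambda_of_bound (e := ((k - l) * n + 4 - 2 * n) / 2) hlk hk (fun G hG => by
    obtain ⟨H, h1, h2, h3, -⟩ := edge_bound hl hlk (by rw [Fintype.card_fin]; exact hk) hG
    rw [Fintype.card_fin] at h3
    have h4 : ec H ≤ ec G := ec_mono h1
    exact ⟨H, h1, h2, by omega⟩)
  omega

end Pool.Agent.Work.MP_60abc6_co
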