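import Mathlib

/-! # MP_60abc6_co: the exact value of `e_lambda(n; k, l)` for `n > k > l >= n / 2` (rounded down). -/

namespace Pool.Agent.Work.MP_60abc6_co.EdgeDense

open Finset

/-- every `k`-edge-connected graph of order `n` has a set of exactly `e` edges whose deletion
leaves an `l`-edge-connected graph -/
def Deletable (n k l e : ℕ) : Prop :=
  ∀ G : SimpleGraph (Fin n), G.IsEdgeConnected k →
    ∃ F : Set (Sym2 (Fin n)), F ⊆ G.edgeSet ∧ F.ncard = e ∧ (G.deleteEdges F).IsEdgeConnected l

section aux

open scoped Classical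

variable {V : Type} [Fintype V]

/-- the degree -/
noncomputable def dg (G : SimpleGraph V) (v : V) : ℕ := (univ.filter fun w => G.Adj v w).card

theorem dg_def (G : SimpleGraph V) (v : V) [DecidablePred fun w => G.Adj v w] :
    dg G v = (univ.filter fun w => G.Adj v w).card := by
  rw [dg]
  congr

theorem dg_eq_degree (G : SimpleGraph V) (v : V) : dg G v = G.degree v := by
  rw [dg, ← SimpleGraph.card_neighborFinset_eq_degree, SimpleGraph.neighborFinset_eq_filter]

theorem le_dg_of_conn [Nontrivial V] {G : SimpleGraph V} {k : ℕ} (h : G.IsEdgeConnected k)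
    (v : V) : k ≤ dg G v := by
  rw [dg_eq_degree]
  exact h.le_degree

theorem sum_dg (G : SimpleGraph V) : ∑ v, dg G v = 2 * G.edgeSet.ncard := by
  have h := G.sum_degrees_eq_twice_card_edges
  rw [Set.ncard_eq_toFinset_card', ← SimpleGraph.edgeFinset, ← h]
  exact Finset.sum_congr rfl fun v _ => dg_eq_degree G v

theorem dg_mono {G H : SimpleGraph V} (h : G ≤ H) (v : V) : dg G v ≤ dg H v := by
  apply Finset.card_le_card
  intro w hw
  rw [Finset.mem_filter] at hw ⊢
  exact ⟨hw.1, h hw.2⟩

theorem dg_delete_other (G : SimpleGraph V) {a b v : V} (ha : v ≠ a) (hb : v ≠ b) :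
    dg (G.deleteEdges {s(a, b)}) v = dg G v := by
  rw [dg_def, dg_def]
  congr 1
  ext w
  simp only [Finset.mem_filter, Finset.mem_univ, true_and, SimpleGraph.deleteEdges_adj,
    Set.mem_singleton_iff, and_iff_left_iff_imp]
  intro _ h
  rw [Sym2.eq_iff] at h
  rcases h with h | h
  · exact ha h.1
  · exact hb h.1

theorem dg_delete_left (G : SimpleGraph V) (a b : V) :
    dg G a ≤ dg (G.deleteEdges {s(a, b)}) a + 1 := by
  have h : (univ.filter fun w => G.Adj a w) ⊆
      insert b (univ.filter fun w => (G.deleteEdges {s(a, b)}).Adj a w) := by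
    intro w hw
    rw [Finset.mem_insert, Finset.mem_filter, SimpleGraph.deleteEdges_adj]
    rw [Finset.mem_filter] at hw
    by_cases hwb : w = b
    · exact Or.inl hwb
    · right
      refine ⟨Finset.mem_univ _, hw.2, ?_⟩
      rw [Set.mem_singleton_iff, Sym2.eq_iff]
      rintro (⟨-, h⟩ | ⟨h1, h2⟩)
      · exact hwb h
      · exact hwb (h2.trans h1)
  rw [dg_def, dg_def]
  exact (Finset.card_le_card h).trans (Finset.card_insert_le _ _)

theorem dg_delete_right (G : SimpleGraph V) (a b : V) :
    dg G b ≤ dg (G.deleteEdges {s(a, b)}) b + 1 := by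
  rw [Sym2.eq_swap]
  exact dg_delete_left G b a

theorem dg_delete_any (G : SimpleGraph V) (a b v : V) :
    dg G v ≤ dg (G.deleteEdges {s(a, b)}) v + 1 := by
  by_cases ha : v = a
  · rw [ha]; exact dg_delete_left G a b
  · by_cases hb : v = b
    · rw [hb]; exact dg_delete_right G a b
    · rw [dg_delete_other G ha hb]; omega

theorem dg_add_left (G : SimpleGraph V) {x y : V} (hxy : x ≠ y) (h : ¬ G.Adj x y) :
    dg G x + 1 ≤ dg (G ⊔ SimpleGraph.edge x y) x := by
  have h1 : insert y (univ.filter fun w => G.Adj x w) ⊆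
      (univ.filter fun w => (G ⊔ SimpleGraph.edge x y).Adj x w) := by
    intro w hw
    rw [Finset.mem_filter, SimpleGraph.sup_adj, SimpleGraph.edge_adj]
    rw [Finset.mem_insert, Finset.mem_filter] at hw
    refine ⟨Finset.mem_univ _, ?_⟩
    rcases hw with rfl | hw
    · right; exact ⟨Or.inl ⟨rfl, rfl⟩, hxy⟩
    · left; exact hw.2
  have h2 := Finset.card_le_card h1
  rw [Finset.card_insert_of_notMem (by simpa using h)] at h2
  rw [dg_def, dg_def]
  exact h2

theorem ncard_delete (G : SimpleGraph V) {a b : V} (h : G.Adj a b) :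
    (G.deleteEdges {s(a, b)}).edgeSet.ncard + 1 = G.edgeSet.ncard := by
  rw [SimpleGraph.edgeSet_deleteEdges]
  exact Set.ncard_sdiff_singleton_add_one (by simpa using h) (Set.toFinite _)

theorem ncard_add (G : SimpleGraph V) (x y : V) :
    (G ⊔ SimpleGraph.edge x y).edgeSet.ncard ≤ G.edgeSet.ncard + 1 := by
  have h : (G ⊔ SimpleGraph.edge x y).edgeSet ⊆ insert s(x, y) G.edgeSet := by
    intro e he
    induction e using Sym2.ind with
    | _ p q =>
      rw [SimpleGraph.mem_edgeSet, SimpleGraph.sup_adj, SimpleGraph.edge_adj] at he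
      rcases he with he | ⟨he, -⟩
      · exact Set.mem_insert_of_mem _ he
      · apply Set.mem_insert_iff.2
        left
        rw [Sym2.eq_iff]
        exact he
  exact (Set.ncard_le_ncard h (Set.toFinite _)).trans (Set.ncard_insert_le _ _)

/-- degrees of the deleted part -/
theorem dg_sdiff {G H : SimpleGraph V} (h : H ≤ G) (v : V) : dg G v = dg H v + dg (G \ H) v := by
  rw [dg_def, dg_def, dg_def, ← Finset.card_union_of_disjoint]
  · congr 1
    ext w
    simp only [Finset.mem_filter, Finset.mem_univ, true_and, Finset.mem_union,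
      SimpleGraph.sdiff_adj]
    constructor
    · intro h1
      by_cases h2 : H.Adj v w
      · exact Or.inl h2
      · exact Or.inr ⟨h1, h2⟩
    · rintro (h1 | h1)
      · exact h h1
      · exact h1.1
  · rw [Finset.disjoint_left]
    intro w h1 h2
    rw [Finset.mem_filter] at h1
    rw [Finset.mem_filter, SimpleGraph.sdiff_adj] at h2
    exact h2.2.2 h1.2

/-- double counting -/
theorem sum_le_sum_of_nbr (D : SimpleGraph V) (I R : Finset V)
    (h : ∀ x ∈ I, ∀ z, D.Adj x z → z ∈ R) : ∑ x ∈ I, dg D x ≤ ∑ z ∈ R, dg D z := by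
  have h1 : ∑ x ∈ I, dg D x = ∑ x ∈ I, ∑ z ∈ R, if D.Adj x z then 1 else 0 := by
    apply Finset.sum_congr rfl
    intro x hx
    rw [dg_def, ← Finset.card_filter]
    congr 1
    ext z
    simp only [Finset.mem_filter, Finset.mem_univ, true_and]
    exact ⟨fun hz => ⟨h x hx z hz, hz⟩, fun hz => hz.2⟩
  rw [h1, Finset.sum_comm]
  apply Finset.sum_le_sum
  intro z _
  rw [← Finset.card_filter, dg_def]
  apply Finset.card_le_card
  intro x hx
  rw [Finset.mem_filter] at hx ⊢
  exact ⟨Finset.mem_univ _, hx.2.symm⟩

/-- deleting edges and keeping the minimum degree at least `l` -/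
theorem degree_version (G : SimpleGraph V) (k l : ℕ) (hkl : l < k)
    (hn : Fintype.card V ≤ 2 * l + 2) (hG : ∀ v, k ≤ dg G v) :
    ∃ G' ≤ G, (∀ v, l ≤ dg G' v) ∧
      (k * Fintype.card V + 1) / 2 - (l * Fintype.card V + 1) / 2 + G'.edgeSet.ncard ≤
        G.edgeSet.ncard := by
  have hex : ∃ m, ∃ G' ≤ G, (∀ v, l ≤ dg G' v) ∧ G'.edgeSet.ncard = m :=
    ⟨_, G, le_rfl, fun v => hkl.le.trans (hG v), rfl⟩
  obtain ⟨G', hle, hdeg, hm⟩ := Nat.find_spec hex
  have hmin : ∀ G'' ≤ G, (∀ v, l ≤ dg G'' v) → G'.edgeSet.ncard ≤ G''.edgeSet.ncard := by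
    intro G'' h1 h2
    rw [hm]
    exact Nat.find_min' hex ⟨G'', h1, h2, rfl⟩
  refine ⟨G', hle, hdeg, ?_⟩
  set n := Fintype.card V with hn'
  -- no edge of `G'` joins two vertices of degree above `l`
  have hind : ∀ a b, G'.Adj a b → l < dg G' a → l < dg G' b → False := by
    intro a b hab ha hb
    have h1 := hmin (G'.deleteEdges {s(a, b)}) ((G'.deleteEdges_le _).trans hle) (by
      intro v
      by_cases hva : v = a
      · have := dg_delete_any G' a b v
        rw [hva] at this ⊢
        omega
      · by_cases hvb : v = b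
        · have := dg_delete_any G' a b v
          rw [hvb] at this ⊢
          omega
        · rw [dg_delete_other G' hva hvb]
          exact hdeg v)
    have h2 := ncard_delete G' hab
    omega
  set D := G \ G' with hD
  have hsplit : ∀ v, dg G v = dg G' v + dg D v := fun v => dg_sdiff hle v
  -- the exchange
  have hexch : ∀ u w x y, l < dg G' u → l < dg G' w → (u = w → l + 1 < dg G' u) →
      G'.Adj u x → G'.Adj w y → D.Adj x y → False := by
    intro u w x y hu hw huw hux hwy hxy
    rw [hD, SimpleGraph.sdiff_adj] at hxy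
    have hxyne : x ≠ y := hxy.1.ne
    have hxl : dg G' x = l := by
      by_contra hne
      exact hind u x hux hu (lt_of_le_of_ne (hdeg x) (Ne.symm hne))
    have hyl : dg G' y = l := by
      by_contra hne
      exact hind w y hwy hw (lt_of_le_of_ne (hdeg y) (Ne.symm hne))
    have hxu : x ≠ u := hux.ne'
    have hyw : y ≠ w := hwy.ne'
    have hxw : x ≠ w := by rintro rfl; omega
    have hyu : y ≠ u := by rintro rfl; omega
    have hne : s(u, x) ≠ s(w, y) := by
      intro h
      rw [Sym2.eq_iff] at h
      rcases h with h | h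
      · exact hxyne h.2
      · exact hxw h.2
    set G1 := G'.deleteEdges {s(u, x)} with hG1
    set G2 := G1.deleteEdges {s(w, y)} with hG2
    have hwy1 : G1.Adj w y := by
      rw [hG1, SimpleGraph.deleteEdges_adj]
      exact ⟨hwy, by rw [Set.mem_singleton_iff]; exact hne.symm⟩
    have hxy2 : ¬ G2.Adj x y := by
      rw [hG2, hG1, SimpleGraph.deleteEdges_adj, SimpleGraph.deleteEdges_adj]
      exact fun h => hxy.2 h.1.1
    have hle3 : G2 ⊔ SimpleGraph.edge x y ≤ G := by
      apply sup_le
      · exact ((G1.deleteEdges_le _).trans (G'.deleteEdges_le _)).trans hle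
      · rw [SimpleGraph.edge_le_iff]
        exact Or.inr hxy.1
    have hdeg3 : ∀ v, l ≤ dg (G2 ⊔ SimpleGraph.edge x y) v := by
      intro v
      have hm1 : dg G2 v ≤ dg (G2 ⊔ SimpleGraph.edge x y) v := dg_mono le_sup_left v
      by_cases hvx : v = x
      · subst hvx
        have a1 := dg_delete_any G' u v v
        have a2 := dg_delete_other G1 hxw hxyne
        have a3 := dg_add_left G2 hxyne hxy2
        rw [← hG1] at a1
        rw [← hG2] at a2
        omega
      · by_cases hvy : v = y
        · subst hvy
          have a1 := dg_delete_other G' hyu hxyne.symm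
          have a2 := dg_delete_any G1 w v v
          have a3 := dg_add_left G2 hxyne.symm (fun h => hxy2 h.symm)
          rw [SimpleGraph.edge_comm] at a3
          rw [← hG1] at a1
          rw [← hG2] at a2
          omega
        · by_cases hvu : v = u
          · by_cases huw' : u = w
            · have a1 := dg_delete_any G' u x v
              have a2 := dg_delete_any G1 w y v
              rw [← hG1] at a1
              rw [← hG2] at a2
              have a3 := huw huw'
              rw [← hvu] at a3
              omega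
            · have a1 := dg_delete_any G' u x v
              have a2 := dg_delete_other G1 (a := w) (b := y) (v := v) (by rw [hvu]; exact huw')
                hvy
              rw [← hG1] at a1
              rw [← hG2] at a2
              rw [← hvu] at hu
              omega
          · by_cases hvw : v = w
            · have a1 := dg_delete_other G' hvu hvx
              have a2 := dg_delete_any G1 w y v
              rw [← hG1] at a1
              rw [← hG2] at a2
              rw [← hvw] at hw
              omega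
            · have a1 := dg_delete_other G' hvu hvx
              have a2 := dg_delete_other G1 hvw hvy
              rw [← hG1] at a1
              rw [← hG2] at a2
              have := hdeg v
              omega
    have h1 := hmin _ hle3 hdeg3
    have h2 := ncard_delete G' hux
    have h3 := ncard_delete G1 hwy1
    have h4 := ncard_add G2 x y
    rw [← hG1] at h2
    rw [← hG2] at h3
    omega
  -- counting
  have hsG := sum_dg G
  have hsG' := sum_dg G'
  have hsD : ∑ v, dg G v = ∑ v, dg G' v + ∑ v, dg D v := by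
    rw [← Finset.sum_add_distrib]
    exact Finset.sum_congr rfl fun v _ => hsplit v
  have hGlow : k * n ≤ ∑ v, dg G v := by
    calc k * n = ∑ _v : V, k := by rw [Finset.sum_const, Finset.card_univ, smul_eq_mul, mul_comm]
      _ ≤ _ := Finset.sum_le_sum fun v _ => hG v
  by_cases hpair : ∃ u w, l < dg G' u ∧ l < dg G' w ∧ (u = w → l + 1 < dg G' u)
  · obtain ⟨u, w, hu, hw, huw⟩ := hpair
    set A := univ.filter fun x => G'.Adj u x with hA
    set B := univ.filter fun x => G'.Adj w x with hB
    have hAc : l + 1 ≤ A.card := hu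
    have hBc : l + 1 ≤ B.card := hw
    have hlowD : ∀ x ∈ A ∪ B, k - l ≤ dg D x := by
      intro x hx
      have hx' : dg G' x = l := by
        by_contra hne
        have hlt := lt_of_le_of_ne (hdeg x) (Ne.symm hne)
        rw [Finset.mem_union, hA, hB, Finset.mem_filter, Finset.mem_filter] at hx
        rcases hx with hx | hx
        · exact hind u x hx.2 hu hlt
        · exact hind w x hx.2 hw hlt
      have h1 := hsplit x
      have h2 := hG x
      omega
    have hcross : ∑ x ∈ A ∩ B, dg D x ≤ ∑ z ∈ (A ∪ B)ᶜ, dg D z := by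
      apply sum_le_sum_of_nbr
      intro x hx z hxz
      rw [Finset.mem_inter, hA, hB, Finset.mem_filter, Finset.mem_filter] at hx
      rw [Finset.mem_compl, Finset.mem_union, hA, hB, Finset.mem_filter, Finset.mem_filter]
      rintro (hz | hz)
      · exact hexch u w z x hu hw huw hz.2 hx.2.2 hxz.symm
      · exact hexch u w x z hu hw huw hx.1.2 hz.2 hxz
    have h1 : ∑ x ∈ A ∪ B, dg D x + ∑ z ∈ (A ∪ B)ᶜ, dg D z = ∑ v, dg D v :=
      Finset.sum_add_sum_compl _ _
    have h2 : (A ∪ B).card * (k - l) ≤ ∑ x ∈ A ∪ B, dg D x := by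
      rw [← smul_eq_mul]
      exact Finset.card_nsmul_le_sum _ _ _ hlowD
    have h3 : (A ∩ B).card * (k - l) ≤ ∑ x ∈ A ∩ B, dg D x := by
      rw [← smul_eq_mul]
      exact Finset.card_nsmul_le_sum _ _ _ fun x hx =>
        hlowD x (Finset.mem_union_left _ (Finset.mem_inter.1 hx).1)
    have h4 := Finset.card_union_add_card_inter A B
    have h5 : n * (k - l) ≤ ∑ v, dg D v := by
      have h6 : n ≤ (A ∪ B).card + (A ∩ B).card := by omega
      calc n * (k - l) ≤ ((A ∪ B).card + (A ∩ B).card) * (k - l) := Nat.mul_le_mul_right _ h6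
        _ = (A ∪ B).card * (k - l) + (A ∩ B).card * (k - l) := by ring
        _ ≤ _ := by omega
    have h7 : n * (k - l) + l * n = k * n := by
      obtain ⟨c, rfl⟩ := Nat.exists_eq_add_of_lt hkl
      rw [show l + c + 1 - l = c + 1 by omega]
      ring
    omega
  · push Not at hpair
    -- at most one vertex has degree above `l`, and then degree `l + 1`
    have h1 : ∑ v, dg G' v ≤ l * n + 1 := by
      by_cases hex' : ∃ u, l < dg G' u
      · obtain ⟨u, hu⟩ := hex'
        have h2 : ∀ v, dg G' v ≤ l + (if v = u then 1 else 0) := by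
          intro v
          by_cases hv : v = u
          · rw [if_pos hv, hv]
            exact (hpair u u hu hu).2
          · rw [if_neg hv]
            by_contra hcon
            exact hv (hpair v u (by omega) hu).1
        calc ∑ v, dg G' v ≤ ∑ v, (l + (if v = u then 1 else 0)) :=
              Finset.sum_le_sum fun v _ => h2 v
          _ = l * n + 1 := by
            rw [Finset.sum_add_distrib, Finset.sum_const, Finset.card_univ, smul_eq_mul,
              Finset.sum_ite_eq' univ u, if_pos (Finset.mem_univ _), mul_comm]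
      · push Not at hex'
        calc ∑ v, dg G' v ≤ ∑ _v : V, l := Finset.sum_le_sum fun v _ => hex' v
          _ = l * n := by rw [Finset.sum_const, Finset.card_univ, smul_eq_mul, mul_comm]
          _ ≤ _ := by omega
    omega

/-- a cut in a graph of minimum degree at least `d` with a small side has at least `d` edges -/
theorem cut_lower (G : SimpleGraph V) (d : ℕ) (hd : ∀ v, d ≤ dg G v) (Y : Finset V)
    (hY : Y.Nonempty) (hYd : Y.card ≤ d) (s : Set (Sym2 V)) (hs : s.Finite)
    (hcut : ∀ y ∈ Y, ∀ z, z ∉ Y → G.Adj y z → s(y, z) ∈ s) : d ≤ s.ncard := by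
  set P : Finset (V × V) := (Y ×ˢ Yᶜ).filter fun p => G.Adj p.1 p.2 with hP
  have h1 : P.card ≤ s.ncard := by
    rw [Set.ncard_eq_toFinset_card s hs]
    apply Finset.card_le_card_of_injOn (fun p => s(p.1, p.2))
    · intro p hp
      rw [hP, Finset.mem_coe, Finset.mem_filter, Finset.mem_product, Finset.mem_compl] at hp
      rw [Finset.mem_coe, Set.Finite.mem_toFinset]
      exact hcut _ hp.1.1 _ hp.1.2 hp.2
    · intro p hp q hq h
      rw [hP, Finset.mem_coe, Finset.mem_filter, Finset.mem_product, Finset.mem_compl] at hp hq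
      simp only at h
      rw [Sym2.eq_iff] at h
      rcases h with h | h
      · exact Prod.ext h.1 h.2
      · exfalso
        apply hp.1.2
        rw [h.2]
        exact hq.1.1
  have h2 : P.card = ∑ y ∈ Y, (Yᶜ.filter fun z => G.Adj y z).card := by
    rw [hP, Finset.card_filter, Finset.sum_product]
    apply Finset.sum_congr rfl
    intro y _
    rw [Finset.card_filter]
  have h3 : ∀ y ∈ Y, d + 1 - Y.card ≤ (Yᶜ.filter fun z => G.Adj y z).card := by
    intro y hy
    have h4 : (univ.filter fun z => G.Adj y z) ⊆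
        (Yᶜ.filter fun z => G.Adj y z) ∪ Y.erase y := by
      intro z hz
      rw [Finset.mem_filter] at hz
      rw [Finset.mem_union, Finset.mem_filter, Finset.mem_compl, Finset.mem_erase]
      by_cases hzY : z ∈ Y
      · right; exact ⟨hz.2.ne', hzY⟩
      · left; exact ⟨hzY, hz.2⟩
    have h5 := (Finset.card_le_card h4).trans (Finset.card_union_le _ _)
    rw [Finset.card_erase_of_mem hy] at h5
    have h6 := hd y
    rw [dg] at h6
    have h7 : 0 < Y.card := Finset.card_pos.2 hY
    omega
  have h8 : Y.card * (d + 1 - Y.card) ≤ P.card := by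
    rw [h2, ← smul_eq_mul]
    exact Finset.card_nsmul_le_sum _ _ _ h3
  have h9 : 0 < Y.card := Finset.card_pos.2 hY
  have h10 : d ≤ Y.card * (d + 1 - Y.card) := by
    obtain ⟨t, ht⟩ := Nat.exists_eq_add_of_le hYd
    rw [show d + 1 - Y.card = t + 1 by omega, ht]
    nlinarith
  omega

/-- minimum degree at least `d`, where `d` is at least half of the order rounded down, gives
`d`-edge-connectivity -/
theorem edgeConn (G : SimpleGraph V) (d : ℕ) (hd : ∀ v, d ≤ dg G v)
    (hn : Fintype.card V / 2 ≤ d) : G.IsEdgeConnected d := by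
  intro u v s hs
  by_contra hr
  have hsf : s.Finite := Set.finite_of_encard_le_coe hs.le
  have hsn : s.ncard < d := by
    rw [← hsf.cast_ncard_eq] at hs
    exact_mod_cast hs
  set A := univ.filter fun w => (G.deleteEdges s).Reachable u w with hA
  have huA : u ∈ A := by rw [hA, Finset.mem_filter]; exact ⟨Finset.mem_univ _, .rfl⟩
  have hvA : v ∉ A := by rw [hA, Finset.mem_filter]; exact fun h => hr h.2
  have hcut : ∀ y ∈ A, ∀ z, z ∉ A → G.Adj y z → s(y, z) ∈ s := by
    intro y hy z hz hyz
    by_contra hcon
    apply hz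
    rw [hA, Finset.mem_filter] at hy ⊢
    refine ⟨Finset.mem_univ _, hy.2.trans ?_⟩
    exact (SimpleGraph.deleteEdges_adj.2 ⟨hyz, hcon⟩).reachable
  rcases le_total A.card (Aᶜ).card with h | h
  · have h1 : A.card ≤ d := by
      have := Finset.card_add_card_compl A
      omega
    have := cut_lower G d hd A ⟨u, huA⟩ h1 s hsf hcut
    omega
  · have h1 : (Aᶜ).card ≤ d := by
      have := Finset.card_add_card_compl A
      omega
    have := cut_lower G d hd Aᶜ ⟨v, by rw [Finset.mem_compl]; exact hvA⟩ h1 s hsf (by
      intro y hy z hz hyz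
      rw [Finset.mem_compl] at hy
      rw [Finset.mem_compl, not_not] at hz
      rw [Sym2.eq_swap]
      exact hcut z hz y hy hyz.symm)
    omega

/-- the degree version with a set of edges of prescribed size -/
theorem exists_deletion (G : SimpleGraph V) (k l : ℕ) (hkl : l < k)
    (hn : Fintype.card V ≤ 2 * l + 2) (hG : ∀ v, k ≤ dg G v) :
    ∃ F : Set (Sym2 V), F ⊆ G.edgeSet ∧
      F.ncard = (k * Fintype.card V + 1) / 2 - (l * Fintype.card V + 1) / 2 ∧
      ∀ v, l ≤ dg (G.deleteEdges F) v := by
  obtain ⟨G', hle, hdeg, hcard⟩ := degree_version G k l hkl hn hG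
  have h1 : (G.edgeSet \ G'.edgeSet).ncard + G'.edgeSet.ncard = G.edgeSet.ncard :=
    Set.ncard_sdiff_add_ncard_of_subset (SimpleGraph.edgeSet_mono hle) (Set.toFinite _)
  obtain ⟨F, hF, hFc⟩ : ∃ F ⊆ G.edgeSet \ G'.edgeSet,
      F.ncard = (k * Fintype.card V + 1) / 2 - (l * Fintype.card V + 1) / 2 :=
    Set.exists_subset_card_eq (by omega)
  refine ⟨F, fun e he => (hF he).1, hFc, fun v => (hdeg v).trans (dg_mono ?_ v)⟩
  intro a b hab
  rw [SimpleGraph.deleteEdges_adj]
  exact ⟨hle hab, fun h => (hF h).2 hab⟩

theorem ncard_deleteEdges (G : SimpleGraph V) {F : Set (Sym2 V)} (hF : F ⊆ G.edgeSet) :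
    (G.deleteEdges F).edgeSet.ncard + F.ncard = G.edgeSet.ncard := by
  rw [SimpleGraph.edgeSet_deleteEdges]
  exact Set.ncard_sdiff_add_ncard_of_subset hF (Set.toFinite _)

/-- an almost regular graph -/
theorem exists_almost_regular (k : ℕ) (hk : k < Fintype.card V)
    (hn : Fintype.card V ≤ 2 * k + 2) :
    ∃ G : SimpleGraph V, (∀ v, k ≤ dg G v) ∧
      G.edgeSet.ncard = (k * Fintype.card V + 1) / 2 := by
  set n := Fintype.card V with hn'
  have htop : ∀ v : V, dg (⊤ : SimpleGraph V) v = n - 1 := by
    intro v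
    have h1 : (univ.filter fun w => (⊤ : SimpleGraph V).Adj v w) = univ.erase v := by
      ext w
      rw [Finset.mem_filter, SimpleGraph.top_adj, Finset.mem_erase]
      exact ⟨fun h => ⟨h.2.symm, h.1⟩, fun h => ⟨h.2, h.1.symm⟩⟩
    rw [dg_def, h1, Finset.card_erase_of_mem (Finset.mem_univ _), Finset.card_univ]
  have hsum := sum_dg (⊤ : SimpleGraph V)
  have hsum' : ∑ v : V, dg (⊤ : SimpleGraph V) v = n * (n - 1) := by
    rw [Finset.sum_congr rfl fun v _ => htop v, Finset.sum_const, Finset.card_univ, smul_eq_mul]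
  rcases Nat.lt_or_ge k (n - 1) with h | h
  · obtain ⟨F, hF, hFc, hdeg⟩ := exists_deletion (⊤ : SimpleGraph V) (n - 1) k h hn
      (fun v => (htop v).ge)
    refine ⟨_, hdeg, ?_⟩
    have h1 := ncard_deleteEdges (⊤ : SimpleGraph V) hF
    have h2 : k * n ≤ (n - 1) * n := Nat.mul_le_mul_right _ h.le
    have h3 : (n - 1) * n = n * (n - 1) := mul_comm _ _
    rw [← hn'] at hFc
    omega
  · have h1 : k = n - 1 := by omega
    refine ⟨⊤, fun v => by rw [htop, h1], ?_⟩
    rw [h1]
    have h3 : (n - 1) * n = n * (n - 1) := mul_comm _ _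
    omega

end aux

/-- For `n > k > l >= n / 2` (rounded down), `e_lambda(n; k, l)`, the largest `e` such that every
`k`-edge-connected graph of order `n` has a set of `e` edges whose deletion leaves an
`l`-edge-connected graph, is the difference of `k n / 2` and `l n / 2`, both rounded up. -/
theorem result (n k l : ℕ) (hl : 1 ≤ l) (hnl : n / 2 ≤ l) (hlk : l < k) (hkn : k < n) :
    IsGreatest {e | Deletable n k l e} ((k * n + 1) / 2 - (l * n + 1) / 2) := by
  classical
  have : Nontrivial (Fin n) := Fin.nontrivial_iff_two_le.2 (by omega)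
  constructor
  · intro G hG
    obtain ⟨F, hF, hFc, hdeg⟩ := exists_deletion G k l hlk (by rw [Fintype.card_fin]; omega)
      (fun v => le_dg_of_conn hG v)
    rw [Fintype.card_fin] at hFc
    exact ⟨F, hF, hFc, edgeConn _ l hdeg (by rw [Fintype.card_fin]; exact hnl)⟩
  · intro e he
    obtain ⟨G, hdeg, hcard⟩ := exists_almost_regular (V := Fin n) k
      (by rw [Fintype.card_fin]; exact hkn) (by rw [Fintype.card_fin]; omega)
    rw [Fintype.card_fin] at hcard
    obtain ⟨F, hF, hFc, hconn⟩ := he G (edgeConn G k hdeg (by rw [Fintype.card_fin]; omega))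
    have h1 := ncard_deleteEdges G hF
    have h2 := sum_dg (G.deleteEdges F)
    have h3 : l * n ≤ ∑ v, dg (G.deleteEdges F) v := by
      calc l * n = ∑ _v : Fin n, l := by
            rw [Finset.sum_const, Finset.card_univ, Fintype.card_fin, smul_eq_mul, mul_comm]
        _ ≤ _ := Finset.sum_le_sum fun v _ => le_dg_of_conn hconn v
    omega

end Pool.Agent.Work.MP_60abc6_co.EdgeDense
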